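import Pool.Agent.Lib.MP_d86530_co.OqpDefs

/-!
# MP_d86530_co: adding an edge next to a common face
-/

set_option autoImplicit false

namespace Pool.Agent.OQP

/-- degrees of a single edge -/
private theorem addEdge_ind {V : Type} [Fintype V] [DecidableEq V] (p q : V) (hpq : p ≠ q)
    (u : V) : ∑ w, (if s(u, w) = s(p, q) then (1 : ZMod 2) else 0) =
      (if u = p then 1 else 0) + (if u = q then 1 else 0) := by
  by_cases h1 : u = p
  · subst h1
    have h2 : ∀ w, (if s(u, w) = s(u, q) then (1 : ZMod 2) else 0) = if w = q then 1 else 0 := by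
      intro w
      have h3 : s(u, w) = s(u, q) ↔ w = q := by
        rw [Sym2.eq_iff]
        constructor
        · rintro (⟨-, h⟩ | ⟨h, -⟩)
          · exact h
          · exact absurd h hpq
        · intro h; exact Or.inl ⟨rfl, h⟩
      simp only [h3]
    simp only [h2, Finset.sum_ite_eq', Finset.mem_univ, if_true]
    rw [if_neg hpq, add_zero]
  · by_cases h2 : u = q
    · subst h2
      have h4 : ∀ w, (if s(u, w) = s(p, u) then (1 : ZMod 2) else 0) = if w = p then 1 else 0 := by
        intro w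
        have h3 : s(u, w) = s(p, u) ↔ w = p := by
          rw [Sym2.eq_iff]
          constructor
          · rintro (⟨h, -⟩ | ⟨-, h⟩)
            · exact absurd h h1
            · exact h
          · intro h; exact Or.inr ⟨rfl, h⟩
        simp only [h3]
      simp only [h4, Finset.sum_ite_eq', Finset.mem_univ, if_true]
      rw [if_neg h1, zero_add]
    · rw [if_neg h1, if_neg h2, add_zero]
      refine Finset.sum_eq_zero fun w _ => ?_
      rw [if_neg]
      rw [Sym2.eq_iff]
      rintro (⟨h, -⟩ | ⟨h, -⟩)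
      · exact h1 h
      · exact h2 h

private theorem addEdge_two (c : ZMod 2) : c + c = 0 := CharTwo.add_self_eq_zero c

/-- B1: adding an edge next to a common face -/
theorem add_edge {V F : Type} [Fintype V] [DecidableEq V] (G : SimpleGraph V) (l r : Sym2 V → F)
    (h : IsDualF G l r) (v a b : V) (hab : a ≠ b) (hva : G.Adj v a) (hvb : G.Adj v b)
    (hn : ¬ G.Adj a b) (m : F) (hma : m = l s(v, a) ∨ m = r s(v, a))
    (hmb : m = l s(v, b) ∨ m = r s(v, b)) : AlgPlanar (G ⊔ SimpleGraph.edge a b) := by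
  classical
  have hva' : v ≠ a := hva.ne
  have hvb' : v ≠ b := hvb.ne
  have d1 : s(v, a) ≠ s(v, b) := by
    intro h0
    rw [Sym2.eq_iff] at h0
    rcases h0 with ⟨-, h1⟩ | ⟨h1, -⟩
    · exact hab h1
    · exact hvb' h1
  have d2 : s(v, a) ≠ s(a, b) := by
    intro h0
    rw [Sym2.eq_iff] at h0
    rcases h0 with ⟨h1, -⟩ | ⟨h1, -⟩
    · exact hva' h1
    · exact hvb' h1
  have d3 : s(v, b) ≠ s(a, b) := by
    intro h0
    rw [Sym2.eq_iff] at h0
    rcases h0 with ⟨h1, -⟩ | ⟨h1, -⟩
    · exact hva' h1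
    · exact hvb' h1
  have hG' : ∀ e, e ∈ (G ⊔ SimpleGraph.edge a b).edgeSet ↔ e ∈ G.edgeSet ∨ e = s(a, b) := by
    intro e
    rw [SimpleGraph.edgeSet_sup, SimpleGraph.edgeSet_edge_of_ne hab]
    rfl
  have hva'' : s(v, a) ∈ G.edgeSet := hva
  have hvb'' : s(v, b) ∈ G.edgeSet := hvb
  have hab'' : s(a, b) ∉ G.edgeSet := hn
  -- the triangle
  obtain ⟨tri, htri⟩ : ∃ tri : Sym2 V → ZMod 2, ∀ e, tri e = (if e = s(v, a) then 1 else 0) +
      (if e = s(v, b) then 1 else 0) + (if e = s(a, b) then 1 else 0) := ⟨_, fun _ => rfl⟩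
  have t1 : tri s(v, a) = 1 := by rw [htri, if_pos rfl, if_neg d1, if_neg d2]; rfl
  have t2 : tri s(v, b) = 1 := by rw [htri, if_neg d1.symm, if_pos rfl, if_neg d3]; rfl
  have t3 : tri s(a, b) = 1 := by rw [htri, if_neg d2.symm, if_neg d3.symm, if_pos rfl]; rfl
  have t4 : ∀ e, e ≠ s(v, a) → e ≠ s(v, b) → e ≠ s(a, b) → tri e = 0 := by
    intro e h1 h2 h3
    rw [htri, if_neg h1, if_neg h2, if_neg h3]; rfl
  have htri0 : ∀ u, ∑ w, tri s(u, w) = 0 := by
    intro u
    simp only [htri, Finset.sum_add_distrib]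
    rw [addEdge_ind v a hva', addEdge_ind v b hvb', addEdge_ind a b hab]
    have e1 : ∀ p q s : ZMod 2, p + q + (p + s) + (q + s) = 0 := by decide
    exact e1 _ _ _
  -- the faces of the edges `va`, `vb`, with `m` replaced by the new face
  obtain ⟨l', hl'⟩ : ∃ l' : Sym2 V → Option F, ∀ e, l' e =
      if e = s(a, b) then none
      else if (e = s(v, a) ∨ e = s(v, b)) ∧ m = l e then none else some (l e) :=
    ⟨_, fun _ => rfl⟩
  obtain ⟨r', hr'⟩ : ∃ r' : Sym2 V → Option F, ∀ e, r' e =
      if e = s(a, b) then some m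
      else if (e = s(v, a) ∨ e = s(v, b)) ∧ m ≠ l e then none else some (r e) :=
    ⟨_, fun _ => rfl⟩
  -- the new boundary
  have key : ∀ (y' : Option F → ZMod 2) (e : Sym2 V), e ∈ G.edgeSet →
      y' (l' e) + y' (r' e) =
        y' (some (l e)) + y' (some (r e)) + (y' none + y' (some m)) * tri e := by
    intro y' e he
    have hne : e ≠ s(a, b) := by
      rintro rfl
      exact hab'' he
    rw [hl', hr', if_neg hne, if_neg hne]
    by_cases h1 : e = s(v, a) ∨ e = s(v, b)
    · have ht : tri e = 1 := by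
        rcases h1 with rfl | rfl
        · exact t1
        · exact t2
      have hm : m = l e ∨ m = r e := by
        rcases h1 with rfl | rfl
        · exact hma
        · exact hmb
      rw [ht, mul_one]
      by_cases h2 : m = l e
      · rw [if_pos ⟨h1, h2⟩, if_neg (fun h3 => h3.2 h2), ← h2]
        have e1 : ∀ p q s : ZMod 2, p + q = s + q + (p + s) := by decide
        exact e1 _ _ _
      · have h3 : m = r e := hm.resolve_left h2
        rw [if_neg (fun h4 => h2 h4.2), if_pos ⟨h1, h2⟩, ← h3]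
        have e1 : ∀ p q s : ZMod 2, p + q = p + s + (q + s) := by decide
        exact e1 _ _ _
    · rw [if_neg (fun h2 => h1 h2.1), if_neg (fun h2 => h1 h2.1)]
      push Not at h1
      rw [t4 e h1.1 h1.2 hne, mul_zero, add_zero]
  have keyab : ∀ y' : Option F → ZMod 2, y' (l' s(a, b)) + y' (r' s(a, b)) =
      y' none + y' (some m) := by
    intro y'
    rw [hl', hr', if_pos rfl, if_pos rfl]
  refine ⟨Option F, l', r', (isDual_iff _ _ _).mpr ?_⟩
  intro x hx
  obtain ⟨t, ht⟩ : ∃ t, t = x s(a, b) := ⟨_, rfl⟩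
  obtain ⟨x2, hx2⟩ : ∃ x2 : Sym2 V → ZMod 2, ∀ e, x2 e = x e + t * tri e := ⟨_, fun _ => rfl⟩
  have hx20 : ∀ e, e ∉ G.edgeSet → x2 e = 0 := by
    intro e he
    rw [hx2]
    by_cases h1 : e = s(a, b)
    · rw [h1, t3, mul_one, ht]
      exact addEdge_two _
    · have h2 : e ≠ s(v, a) := by rintro rfl; exact he hva''
      have h3 : e ≠ s(v, b) := by rintro rfl; exact he hvb''
      rw [t4 e h2 h3 h1, mul_zero, add_zero]
      refine hx e fun h4 => ?_
      rcases (hG' e).mp h4 with h5 | h5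
      · exact he h5
      · exact h1 h5
  have hsum : ∀ u, ∑ w, x2 s(u, w) = ∑ w, x s(u, w) := by
    intro u
    simp only [hx2, Finset.sum_add_distrib, ← Finset.mul_sum]
    rw [htri0, mul_zero, add_zero]
  have hiff := h x2 hx20
  simp only [hsum] at hiff
  rw [hiff]
  constructor
  · rintro ⟨y, hy⟩
    obtain ⟨y', hy1, hy2⟩ : ∃ y' : Option F → ZMod 2, (∀ f, y' (some f) = y f) ∧
        y' none = y m + t := ⟨fun o => o.elim (y m + t) y, fun _ => rfl, rfl⟩
    refine ⟨y', fun e he => ?_⟩
    rcases (hG' e).mp he with h1 | h1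
    · rw [key y' e h1]
      have h2 := hy e h1
      rw [hx2] at h2
      rw [hy1, hy1, hy1, hy2, ← h2]
      have e1 : ∀ p q s w : ZMod 2, p = p + q * s + (w + q + w) * s := by decide
      exact e1 _ _ _ _
    · rw [h1, keyab, hy1, hy2, ht]
      have e1 : ∀ p q : ZMod 2, p = q + p + q := by decide
      exact e1 _ _
  · rintro ⟨y', hy'⟩
    refine ⟨fun f => y' (some f), fun e he => ?_⟩
    have h1 := hy' e ((hG' e).mpr (Or.inl he))
    have h2 := hy' s(a, b) ((hG' _).mpr (Or.inr rfl))
    rw [keyab, ← ht] at h2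
    rw [key y' e he, ← h2] at h1
    rw [hx2, h1]
    have e1 : ∀ p q s w : ZMod 2, p + q + s * w + s * w = p + q := by decide
    exact e1 _ _ _ _

end Pool.Agent.OQP
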