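import Pool.Agent.Lib.MP_d86530_co.Defs

set_option autoImplicit false

namespace Pool.Agent.Lib.MP_d86530_co

open Relation

variable {V : Type*} {T T₁ T₂ : V → V → V → Prop}

theorem tri_self (a b c : V) : Tri a b c a b c := Or.inl ⟨rfl, rfl, rfl⟩

theorem tri_rot {a b c x y z : V} : Tri a b c x y z ↔ Tri a b c y z x := by
  unfold Tri
  constructor <;>
  · rintro (⟨h1, h2, h3⟩ | ⟨h1, h2, h3⟩ | ⟨h1, h2, h3⟩ | ⟨h1, h2, h3⟩ | ⟨h1, h2, h3⟩ |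
      ⟨h1, h2, h3⟩) <;> simp [h1, h2, h3]

theorem tri_swp {a b c x y z : V} : Tri a b c x y z ↔ Tri a b c y x z := by
  unfold Tri
  constructor <;>
  · rintro (⟨h1, h2, h3⟩ | ⟨h1, h2, h3⟩ | ⟨h1, h2, h3⟩ | ⟨h1, h2, h3⟩ | ⟨h1, h2, h3⟩ |
      ⟨h1, h2, h3⟩) <;> simp [h1, h2, h3]

theorem tri_comm {a b c x y z : V} : Tri a b c x y z ↔ Tri x y z a b c := by
  unfold Tri
  constructor <;>
  · rintro (⟨rfl, rfl, rfl⟩ | ⟨rfl, rfl, rfl⟩ | ⟨rfl, rfl, rfl⟩ | ⟨rfl, rfl, rfl⟩ |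
      ⟨rfl, rfl, rfl⟩ | ⟨rfl, rfl, rfl⟩) <;> simp

theorem tri_rot' {a b c x y z : V} : Tri a b c x y z ↔ Tri b c a x y z := by
  unfold Tri
  constructor <;>
  · rintro (⟨h1, h2, h3⟩ | ⟨h1, h2, h3⟩ | ⟨h1, h2, h3⟩ | ⟨h1, h2, h3⟩ | ⟨h1, h2, h3⟩ |
      ⟨h1, h2, h3⟩) <;> simp [h1, h2, h3]

theorem tri_swp' {a b c x y z : V} : Tri a b c x y z ↔ Tri b a c x y z := by
  unfold Tri
  constructor <;>
  · rintro (⟨h1, h2, h3⟩ | ⟨h1, h2, h3⟩ | ⟨h1, h2, h3⟩ | ⟨h1, h2, h3⟩ | ⟨h1, h2, h3⟩ |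
      ⟨h1, h2, h3⟩) <;> simp [h1, h2, h3]

theorem tri_mem {a b c x y z : V} (h : Tri a b c x y z) : x = a ∨ x = b ∨ x = c := by
  rcases h with ⟨h1, h2, h3⟩ | ⟨h1, h2, h3⟩ | ⟨h1, h2, h3⟩ | ⟨h1, h2, h3⟩ | ⟨h1, h2, h3⟩ |
      ⟨h1, h2, h3⟩ <;> simp [h1, h2, h3]

theorem tri_mem2 {a b c x y z : V} (h : Tri a b c x y z) : y = a ∨ y = b ∨ y = c := by
  rcases h with ⟨h1, h2, h3⟩ | ⟨h1, h2, h3⟩ | ⟨h1, h2, h3⟩ | ⟨h1, h2, h3⟩ | ⟨h1, h2, h3⟩ |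
      ⟨h1, h2, h3⟩ <;> simp [h1, h2, h3]

theorem tri_mem3 {a b c x y z : V} (h : Tri a b c x y z) : z = a ∨ z = b ∨ z = c := by
  rcases h with ⟨h1, h2, h3⟩ | ⟨h1, h2, h3⟩ | ⟨h1, h2, h3⟩ | ⟨h1, h2, h3⟩ | ⟨h1, h2, h3⟩ |
      ⟨h1, h2, h3⟩ <;> simp [h1, h2, h3]

theorem IsSph.iff_rot (h : IsSph T) {x y z : V} : T x y z ↔ T y z x :=
  ⟨h.rot, fun k => h.rot (h.rot k)⟩

theorem IsSph.iff_swp (h : IsSph T) {x y z : V} : T x y z ↔ T y x z := ⟨h.swp, h.swp⟩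

theorem IsSph.swp23 (h : IsSph T) {x y z : V} (k : T x y z) : T x z y := h.rot (h.swp k)

theorem IsSph.swp13 (h : IsSph T) {x y z : V} (k : T x y z) : T z y x := h.rot (h.rot (h.swp k))

theorem IsSph.rot2 (h : IsSph T) {x y z : V} (k : T x y z) : T z x y := h.rot (h.rot k)

theorem IsSph.tri (h : IsSph T) {a b c x y z : V} (habc : T a b c) (ht : Tri a b c x y z) :
    T x y z := by
  rcases ht with ⟨rfl, rfl, rfl⟩ | ⟨rfl, rfl, rfl⟩ | ⟨rfl, rfl, rfl⟩ | ⟨rfl, rfl, rfl⟩ |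
      ⟨rfl, rfl, rfl⟩ | ⟨rfl, rfl, rfl⟩
  · exact habc
  · exact h.swp23 habc
  · exact h.swp habc
  · exact h.rot habc
  · exact h.rot2 habc
  · exact h.swp13 habc

theorem IsSph.distinct (h : IsSph T) {x y z : V} (ht : T x y z) : x ≠ y ∧ y ≠ z ∧ z ≠ x :=
  ⟨h.ne ht, h.ne (h.rot ht), h.ne (h.rot2 ht)⟩

theorem IsSph.adj_symm (h : IsSph T) {x y : V} (ha : Adj3 T x y) : Adj3 T y x := by
  obtain ⟨z, hz⟩ := ha; exact ⟨z, h.swp hz⟩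

theorem IsSph.adj_comm (h : IsSph T) {x y : V} : Adj3 T x y ↔ Adj3 T y x :=
  ⟨h.adj_symm, h.adj_symm⟩

theorem IsSph.adj_ne (h : IsSph T) {x y : V} (ha : Adj3 T x y) : x ≠ y := by
  obtain ⟨z, hz⟩ := ha; exact h.ne hz

theorem IsSph.vert1 {x y z : V} (ht : T x y z) : x ∈ Vert T := ⟨y, z, ht⟩

theorem IsSph.vert2 (h : IsSph T) {x y z : V} (ht : T x y z) : y ∈ Vert T := ⟨z, x, h.rot ht⟩

theorem IsSph.vert3 (h : IsSph T) {x y z : V} (ht : T x y z) : z ∈ Vert T := ⟨x, y, h.rot2 ht⟩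

theorem IsSph.adj12 {x y z : V} (ht : T x y z) : Adj3 T x y := ⟨z, ht⟩

theorem IsSph.adj23 (h : IsSph T) {x y z : V} (ht : T x y z) : Adj3 T y z := ⟨x, h.rot ht⟩

theorem IsSph.adj31 (h : IsSph T) {x y z : V} (ht : T x y z) : Adj3 T z x := ⟨y, h.rot2 ht⟩

theorem IsSph.vert_of_adj (h : IsSph T) {x y : V} (ha : Adj3 T x y) : x ∈ Vert T ∧ y ∈ Vert T := by
  obtain ⟨z, hz⟩ := ha; exact ⟨IsSph.vert1 hz, h.vert2 hz⟩

/-- the third vertex of a face on the edge `x y` is one of the two opposite vertices -/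
theorem IsSph.opp_uniq (h : IsSph T) {x y z w t : V} (hz : T x y z) (hw : T x y w) (hzw : z ≠ w)
    (ht : T x y t) : t = z ∨ t = w := by
  obtain ⟨w', h1, h2, h3⟩ := h.opp hz
  rcases h3 w hw with e | e
  · exact absurd e.symm hzw
  · rw [e]; exact h3 t ht

end Pool.Agent.Lib.MP_d86530_co
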