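import Mathlib

/-!
# MP_d86530_co: definitions for the passage from topological to combinatorial planarity
-/

set_option autoImplicit false

namespace Pool.Agent.OQP

/-- The hypothesis of the frozen statement: a drawing of `G` in the plane by arcs. -/
def TopPlanar {V : Type} (G : SimpleGraph V) : Prop :=
  ∃ p : V → ℝ × ℝ, Function.Injective p ∧
    ∃ γ : V → V → (unitInterval → ℝ × ℝ),
      (∀ u v, G.Adj u v →
          Continuous (γ u v) ∧ Function.Injective (γ u v) ∧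
          γ u v 0 = p u ∧ γ u v 1 = p v) ∧
      (∀ u v w x, G.Adj u v → G.Adj w x →
          ¬ ((u = w ∧ v = x) ∨ (u = x ∧ v = w)) →
          ∀ s t : unitInterval, γ u v s = γ w x t →
            (s = 0 ∨ s = 1) ∧ (t = 0 ∨ t = 1)) ∧
      (∀ u v w, G.Adj u v → ∀ s : unitInterval, γ u v s = p w →
          s = 0 ∨ s = 1)

/-- `l`, `r` are the two faces of each edge in an algebraic dual of `G` (finitely supported even
edge functions are exactly the finitely supported coboundaries of face functions). -/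
def IsDual {V F : Type} (G : SimpleGraph V) (l r : Sym2 V → F) : Prop :=
  ∀ x : Sym2 V → ZMod 2, (Function.support x).Finite → (∀ e, e ∉ G.edgeSet → x e = 0) →
    ((∀ v, ∑ᶠ w, x s(v, w) = 0) ↔ ∃ y : F → ZMod 2, ∀ e ∈ G.edgeSet, x e = y (l e) + y (r e))

/-- `G` has an algebraic dual. -/
def AlgPlanar {V : Type} (G : SimpleGraph V) : Prop :=
  ∃ (F : Type) (l r : Sym2 V → F), IsDual G l r

/-- The same for a finite vertex type, with ordinary sums. -/
def IsDualF {V F : Type} [Fintype V] (G : SimpleGraph V) (l r : Sym2 V → F) : Prop :=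
  ∀ x : Sym2 V → ZMod 2, (∀ e, e ∉ G.edgeSet → x e = 0) →
    ((∀ v, ∑ w, x s(v, w) = 0) ↔ ∃ y : F → ZMod 2, ∀ e ∈ G.edgeSet, x e = y (l e) + y (r e))

theorem isDual_iff {V F : Type} [Fintype V] (G : SimpleGraph V) (l r : Sym2 V → F) :
    IsDual G l r ↔ IsDualF G l r := by
  unfold IsDual IsDualF
  simp only [finsum_eq_sum_of_fintype]
  constructor
  · intro h x hx
    exact h x (Set.toFinite _) hx
  · intro h x _ hx
    exact h x hx

/-- `G` is a minor of `H` (finite branch sets). -/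
def IsMinor {V W : Type} (G : SimpleGraph V) (H : SimpleGraph W) : Prop :=
  ∃ B : V → Set W, (∀ v, (B v).Finite) ∧ (∀ v, (H.induce (B v)).Connected) ∧
    (∀ u v, u ≠ v → Disjoint (B u) (B v)) ∧
    ∀ u v, G.Adj u v → ∃ a ∈ B u, ∃ b ∈ B v, H.Adj a b

/-- The triangular grid on `ℤ × ℤ`. -/
def triGrid : SimpleGraph (ℤ × ℤ) :=
  SimpleGraph.fromRel (fun a b => b = (a.1 + 1, a.2) ∨ b = (a.1, a.2 + 1) ∨ b = (a.1 - 1, a.2 + 1))

/-- The closed brick with index `c` in the brick wall of mesh `1 / N`. -/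
def brick (N : ℕ) (c : ℤ × ℤ) : Set (ℝ × ℝ) :=
  {z | (c.2 : ℝ) ≤ N * z.2 ∧ (N : ℝ) * z.2 ≤ c.2 + 1 ∧
    (c.1 : ℝ) ≤ N * z.1 - c.2 / 2 ∧ (N : ℝ) * z.1 - c.2 / 2 ≤ c.1 + 1}

/-- The bricks which meet `K`. -/
def cells (N : ℕ) (K : Set (ℝ × ℝ)) : Set (ℤ × ℤ) :=
  {c | (brick N c ∩ K).Nonempty}

/-- The graph of a family of faces: two vertices are adjacent if some face contains both. -/
def triGraph {V : Type} (F : Finset (Finset V)) : SimpleGraph V where
  Adj u v := u ≠ v ∧ ∃ f ∈ F, u ∈ f ∧ v ∈ f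
  symm := ⟨fun _ _ h => ⟨h.1.symm, h.2.imp fun _ hf => ⟨hf.1, hf.2.2, hf.2.1⟩⟩⟩
  loopless := ⟨fun _ h => h.1 rfl⟩

/-- `F` (a family of 3-element sets of vertices) is a triangulation of the sphere: every edge is in
exactly two faces, every even edge function is a sum of faces, and no vertex separates. -/
structure IsTri {V : Type} [Fintype V] [DecidableEq V] (F : Finset (Finset V)) : Prop where
  nonempty : F.Nonempty
  card3 : ∀ f ∈ F, f.card = 3
  two : ∀ u v, (triGraph F).Adj u v → (F.filter (fun f => u ∈ f ∧ v ∈ f)).card = 2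
  jordan : ∀ x : Sym2 V → ZMod 2, (∀ e, e ∉ (triGraph F).edgeSet → x e = 0) →
    (∀ v, ∑ w, x s(v, w) = 0) →
    ∃ Y ⊆ F, ∀ u v, u ≠ v → x s(u, v) = ((Y.filter (fun f => u ∈ f ∧ v ∈ f)).card : ZMod 2)
  conn : ∀ v : V, ((triGraph F).induce {w | w ≠ v ∧ ∃ f ∈ F, w ∈ f}).Preconnected

end Pool.Agent.OQP
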