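import Mathlib
import Pool.Agent.Lib.MP_d86530_co.OqpDefs

/-!
# MP_d86530_co, piece A1: the brick tiling of the plane
-/

set_option autoImplicit false

namespace Pool.Agent.OQP

/-- A1a -/
theorem cells_finite (N : ℕ) (hN : 0 < N) (K : Set (ℝ × ℝ)) (hK : Bornology.IsBounded K) :
    (cells N K).Finite := by
  obtain ⟨R, hR⟩ := hK.subset_closedBall 0
  have hNr : (0 : ℝ) < N := by exact_mod_cast hN
  set M : ℝ := N * |R| with hM
  have hM0 : 0 ≤ M := by positivity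
  refine ((Set.finite_Icc (-(⌈M⌉ * 2 + 2)) (⌈M⌉ * 2 + 2)).prod
    (Set.finite_Icc (-(⌈M⌉ * 2 + 2)) (⌈M⌉ * 2 + 2))).subset ?_
  rintro ⟨i, j⟩ ⟨z, ⟨h1, h2, h3, h4⟩, hzK⟩
  have hz := hR hzK
  rw [mem_closedBall_zero_iff, Prod.norm_def, max_le_iff, Real.norm_eq_abs, Real.norm_eq_abs] at hz
  have hR' : R ≤ |R| := le_abs_self R
  have hx : |(N : ℝ) * z.1| ≤ M := by
    rw [abs_mul, abs_of_pos hNr]
    exact mul_le_mul_of_nonneg_left (hz.1.trans hR') hNr.le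
  have hy : |(N : ℝ) * z.2| ≤ M := by
    rw [abs_mul, abs_of_pos hNr]
    exact mul_le_mul_of_nonneg_left (hz.2.trans hR') hNr.le
  rw [abs_le] at hx hy
  have hc : M ≤ ⌈M⌉ := Int.le_ceil M
  simp only at h1 h2 h3 h4
  have b1 : (i : ℝ) ≤ ⌈M⌉ * 2 + 2 := by linarith
  have b2 : -((⌈M⌉ : ℝ) * 2 + 2) ≤ i := by linarith
  have b3 : (j : ℝ) ≤ ⌈M⌉ * 2 + 2 := by linarith
  have b4 : -((⌈M⌉ : ℝ) * 2 + 2) ≤ j := by linarith
  simp only [Set.mem_prod, Set.mem_Icc]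
  refine ⟨⟨?_, ?_⟩, ⟨?_, ?_⟩⟩
  · exact_mod_cast b2
  · exact_mod_cast b1
  · exact_mod_cast b4
  · exact_mod_cast b3

/-- A1b: every point lies in a brick -/
theorem exists_brick (N : ℕ) (z : ℝ × ℝ) : ∃ c, z ∈ brick N c := by
  refine ⟨(⌊(N : ℝ) * z.1 - (⌊(N : ℝ) * z.2⌋ : ℝ) / 2⌋, ⌊(N : ℝ) * z.2⌋), ?_, ?_, ?_, ?_⟩
  · exact Int.floor_le _
  · exact (Int.lt_floor_add_one _).le
  · exact Int.floor_le _
  · exact (Int.lt_floor_add_one _).le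

/-- A1c: two bricks which meet are equal or adjacent -/
theorem brick_adj (N : ℕ) (c c' : ℤ × ℤ) (h : (brick N c ∩ brick N c').Nonempty) :
    c = c' ∨ triGrid.Adj c c' := by
  obtain ⟨z, ⟨h1, h2, h3, h4⟩, ⟨k1, k2, k3, k4⟩⟩ := h
  obtain ⟨i, j⟩ := c
  obtain ⟨i', j'⟩ := c'
  simp only at h1 h2 h3 h4 k1 k2 k3 k4
  have b1 : (j : ℝ) ≤ j' + 1 := by linarith
  have b2 : (j' : ℝ) ≤ j + 1 := by linarith
  have b3 : (2 * i + j : ℝ) ≤ 2 * i' + j' + 2 := by linarith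
  have b4 : (2 * i' + j' : ℝ) ≤ 2 * i + j + 2 := by linarith
  have c1 : j ≤ j' + 1 := by exact_mod_cast b1
  have c2 : j' ≤ j + 1 := by exact_mod_cast b2
  have c3 : 2 * i + j ≤ 2 * i' + j' + 2 := by exact_mod_cast b3
  have c4 : 2 * i' + j' ≤ 2 * i + j + 2 := by exact_mod_cast b4
  by_cases heq : (i, j) = (i', j')
  · exact Or.inl heq
  right
  unfold triGrid
  rw [SimpleGraph.fromRel_adj]
  refine ⟨heq, ?_⟩
  simp only [Prod.mk.injEq] at heq ⊢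
  have key : (j' = j ∧ (i' = i + 1 ∨ i' = i - 1)) ∨ (j' = j + 1 ∧ (i' = i ∨ i' = i - 1)) ∨
      (j' = j - 1 ∧ (i' = i ∨ i' = i + 1)) := by omega
  rcases key with ⟨rfl, rfl | rfl⟩ | ⟨rfl, rfl | rfl⟩ | ⟨rfl, rfl | rfl⟩ <;> omega

theorem brick_closed (N : ℕ) (c : ℤ × ℤ) : IsClosed (brick N c) := by
  have e : brick N c = {z : ℝ × ℝ | (c.2 : ℝ) ≤ N * z.2} ∩ ({z | (N : ℝ) * z.2 ≤ c.2 + 1} ∩
      ({z | (c.1 : ℝ) ≤ N * z.1 - c.2 / 2} ∩ {z | (N : ℝ) * z.1 - c.2 / 2 ≤ c.1 + 1})) := rfl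
  rw [e]
  refine (isClosed_le (by fun_prop) (by fun_prop)).inter
    ((isClosed_le (by fun_prop) (by fun_prop)).inter
      ((isClosed_le (by fun_prop) (by fun_prop)).inter (isClosed_le (by fun_prop) (by fun_prop))))

/-- A1d: the diameter of a brick -/
theorem brick_dist (N : ℕ) (hN : 0 < N) (c : ℤ × ℤ) (z w : ℝ × ℝ) (hz : z ∈ brick N c)
    (hw : w ∈ brick N c) : dist z w ≤ 2 / N := by
  obtain ⟨h1, h2, h3, h4⟩ := hz
  obtain ⟨k1, k2, k3, k4⟩ := hw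
  have hNr : (0 : ℝ) < N := by exact_mod_cast hN
  rw [le_div_iff₀ hNr, Prod.dist_eq, max_mul_of_nonneg _ _ hNr.le, max_le_iff, Real.dist_eq,
    Real.dist_eq]
  constructor
  · have : |z.1 - w.1| * N = |(N : ℝ) * z.1 - N * w.1| := by
      rw [← mul_sub, abs_mul, abs_of_pos hNr, mul_comm]
    rw [this, abs_le]
    constructor <;> linarith
  · have : |z.2 - w.2| * N = |(N : ℝ) * z.2 - N * w.2| := by
      rw [← mul_sub, abs_mul, abs_of_pos hNr, mul_comm]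
    rw [this, abs_le]
    constructor <;> linarith

end Pool.Agent.OQP
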