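import Mathlib
import Pool.Agent.Lib.MP_d86530_co.OqpDefs
import Pool.Agent.Lib.MP_d86530_co.Bricks

/-!
# MP_d86530_co, piece A2: the bricks meeting a connected bounded set
-/

set_option autoImplicit false

namespace Pool.Agent.OQP

/-- A2 -/
theorem cells_connected (N : ℕ) (hN : 0 < N) (K : Set (ℝ × ℝ)) (hK : Bornology.IsBounded K)
    (hc : IsConnected K) : (triGrid.induce (cells N K)).Connected := by
  have hfin := cells_finite N hN K hK
  have hne : Nonempty (cells N K) := by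
    obtain ⟨z, hz⟩ := hc.nonempty
    obtain ⟨c, hzc⟩ := exists_brick N z
    exact ⟨⟨c, z, hzc, hz⟩⟩
  refine SimpleGraph.Connected.mk ?_
  intro u v
  by_contra hcon
  -- the bricks which can be reached from `u`
  let S : Set (ℤ × ℤ) := {c | ∃ h : c ∈ cells N K, (triGrid.induce (cells N K)).Reachable u ⟨c, h⟩}
  have hSsub : S ⊆ cells N K := fun c hc' => hc'.1
  let A : Set (ℝ × ℝ) := ⋃ c ∈ S, brick N c
  let B : Set (ℝ × ℝ) := ⋃ c ∈ cells N K \ S, brick N c
  have hA : IsClosed A := (hfin.subset hSsub).isClosed_biUnion fun c _ => brick_closed N c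
  have hB : IsClosed B := (hfin.subset Set.sdiff_subset).isClosed_biUnion
    fun c _ => brick_closed N c
  have hcover : K ⊆ A ∪ B := by
    intro z hz
    obtain ⟨c, hzc⟩ := exists_brick N z
    have hcK : c ∈ cells N K := ⟨z, hzc, hz⟩
    by_cases h : c ∈ S
    · left
      exact Set.mem_biUnion h hzc
    · right
      exact Set.mem_biUnion (⟨hcK, h⟩ : c ∈ cells N K \ S) hzc
  have hKA : (K ∩ A).Nonempty := by
    obtain ⟨z, hzu, hzK⟩ := u.2
    refine ⟨z, hzK, ?_⟩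
    have hu : (u : ℤ × ℤ) ∈ S := ⟨u.2, SimpleGraph.Reachable.refl _⟩
    exact Set.mem_biUnion hu hzu
  have hKB : (K ∩ B).Nonempty := by
    obtain ⟨z, hzv, hzK⟩ := v.2
    refine ⟨z, hzK, ?_⟩
    have hv : (v : ℤ × ℤ) ∈ cells N K \ S := ⟨v.2, fun h => hcon (by
      obtain ⟨h1, h2⟩ := h
      exact h2)⟩
    exact Set.mem_biUnion hv hzv
  obtain ⟨z, _, hzA, hzB⟩ := (isPreconnected_closed_iff.1 hc.isPreconnected) A B hA hB hcover hKA hKB
  obtain ⟨c, hcS, hzc⟩ := Set.mem_iUnion₂.1 hzA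
  obtain ⟨c', hc', hzc'⟩ := Set.mem_iUnion₂.1 hzB
  rcases brick_adj N c c' ⟨z, hzc, hzc'⟩ with h | h
  · exact hc'.2 (h ▸ hcS)
  · obtain ⟨h1, h2⟩ := hcS
    apply hc'.2
    refine ⟨hc'.1, h2.trans (SimpleGraph.Adj.reachable ?_)⟩
    exact h

end Pool.Agent.OQP
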