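import Pool.Agent.Lib.MP_d86530_co.OqpDefs
import Pool.Agent.Lib.MP_d86530_co.Bricks

/-!
# MP_d86530_co: disjoint compact sets have disjoint cells for a fine mesh
-/

set_option autoImplicit false

namespace Pool.Agent.OQP

/-- A3 -/
theorem cells_disjoint (K K' : Set (ℝ × ℝ)) (hK : IsCompact K) (hK' : IsCompact K')
    (h : Disjoint K K') : ∃ N₀ : ℕ, ∀ N, N₀ ≤ N → Disjoint (cells N K) (cells N K') := by
  obtain ⟨r, hr, h1⟩ := Metric.exists_pos_forall_lt_edist hK hK'.isClosed h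
  have hr' : (0 : ℝ) < r := NNReal.coe_pos.2 hr
  obtain ⟨N₀, hN₀⟩ := exists_nat_gt (2 / (r : ℝ))
  refine ⟨N₀, fun N hN => Set.disjoint_left.2 ?_⟩
  rintro c ⟨z, hz, hzK⟩ ⟨w, hw, hwK⟩
  have hN1 : (2 / (r : ℝ)) < N := lt_of_lt_of_le hN₀ (by exact_mod_cast hN)
  have hN0' : (0 : ℝ) < N := lt_of_le_of_lt (by positivity) hN1
  have hN0 : 0 < N := by exact_mod_cast hN0'
  have h2 := brick_dist N hN0 c z w hz hw
  have h3 := h1 z hzK w hwK
  rw [edist_dist, ← ENNReal.ofReal_coe_nnreal, ENNReal.ofReal_lt_ofReal_iff_of_nonneg hr'.le] at h3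
  rw [div_lt_iff₀ hr'] at hN1
  have h4 : 2 / (N : ℝ) < r := by
    rw [div_lt_iff₀ hN0']
    linarith
  linarith

end Pool.Agent.OQP
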