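import Pool.Agent.Lib.MP_d86530_co.Basic

/-! # S15: a good layout gives the conclusion of S11745 -/

set_option autoImplicit false

namespace Pool.Agent.Lib.MP_d86530_co

open Relation

theorem concl_cross_symm {V : Type*} {p : V → ℝ} {h : V → V → V → ℝ} {i j : Item V}
    (hc : (Item.lo p h i < Item.lo p h j ∧ Item.lo p h j < Item.hi p h i ∧
        Item.hi p h i < Item.hi p h j) ∨
      (Item.lo p h j < Item.lo p h i ∧ Item.lo p h i < Item.hi p h j ∧
        Item.hi p h j < Item.hi p h i)) :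
    Item.Cross p h i j ∧ Item.Cross p h j i := by
  unfold Item.Cross
  rcases hc with hc | hc
  · exact ⟨Or.inl hc, Or.inr (Or.inl hc)⟩
  · exact ⟨Or.inr (Or.inl hc), Or.inl hc⟩

theorem concl {V W : Type} [Fintype V] (G : SimpleGraph V) {T : W → W → W → Prop} (hT : IsSph T)
    (φ : V → W) (hφ : Function.Injective φ) (hv : ∀ v, φ v ∈ Vert T)
    (hG : ∀ u v, G.Adj u v → Adj3 T (φ u) (φ v)) {a b c : W} {p : W → ℝ} {h : W → W → W → ℝ}
    (L : Lay T a b c p h) :
    ∃ σ : V → ℕ, Function.Injective σ ∧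
      ¬ ∃ a b : Fin 4 → V, (∀ i, G.Adj (a i) (b i) ∧ σ (a i) < σ (b i)) ∧
        (∀ i j : Fin 4, i < j →
          ((σ (a i) < σ (a j) ∧ σ (a j) < σ (b i) ∧ σ (b i) < σ (b j)) ∨
            (σ (a j) < σ (a i) ∧ σ (a i) < σ (b j) ∧ σ (b j) < σ (b i)))) := by
  classical
  have hinj : ∀ u v, p (φ u) = p (φ v) → u = v := fun u v e =>
    hφ (L.inj _ (hv u) _ (hv v) e)
  let σ : V → ℕ := fun v => (Finset.univ.filter (fun v' => p (φ v') < p (φ v))).card
  have hmono : ∀ u v, p (φ u) < p (φ v) → σ u < σ v := by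
    intro u v huv
    apply Finset.card_lt_card
    rw [Finset.ssubset_iff_of_subset]
    · exact ⟨u, by simpa using huv, by simp⟩
    · intro x hx
      simp only [Finset.mem_filter, Finset.mem_univ, true_and] at hx ⊢
      exact hx.trans huv
  have hiff : ∀ u v, σ u < σ v ↔ p (φ u) < p (φ v) := by
    intro u v
    constructor
    · intro hlt
      rcases lt_trichotomy (p (φ u)) (p (φ v)) with h1 | h1 | h1
      · exact h1
      · rw [hinj u v h1] at hlt
        exact absurd hlt (lt_irrefl _)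
      · exact absurd hlt (not_lt.mpr (hmono v u h1).le)
    · exact hmono u v
  refine ⟨σ, ?_, ?_⟩
  · intro u v huv
    rcases lt_trichotomy (p (φ u)) (p (φ v)) with h1 | h1 | h1
    · exact absurd huv (hmono u v h1).ne
    · exact hinj u v h1
    · exact absurd huv (hmono v u h1).ne'
  · rintro ⟨x, y, hxy, hcr⟩
    apply L.twist
    have hlo : ∀ i, Item.lo p h (Item.e (φ (x i)) (φ (y i))) = p (φ (x i)) := by
      intro i
      exact min_eq_left ((hiff _ _).1 (hxy i).2).le
    have hhi : ∀ i, Item.hi p h (Item.e (φ (x i)) (φ (y i))) = p (φ (y i)) := by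
      intro i
      exact max_eq_right ((hiff _ _).1 (hxy i).2).le
    refine ⟨fun i => Item.e (φ (x i)) (φ (y i)), fun i => hG _ _ (hxy i).1, ?_⟩
    have key : ∀ i j : Fin 4, i < j →
        Item.Cross p h (Item.e (φ (x i)) (φ (y i))) (Item.e (φ (x j)) (φ (y j))) ∧
        Item.Cross p h (Item.e (φ (x j)) (φ (y j))) (Item.e (φ (x i)) (φ (y i))) := by
      intro i j hij
      apply concl_cross_symm
      rw [hlo i, hlo j, hhi i, hhi j]
      simpa only [hiff] using hcr i j hij
    intro i j hij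
    rcases lt_or_gt_of_ne hij with h1 | h1
    · exact (key i j h1).1
    · exact (key j i h1).2

end Pool.Agent.Lib.MP_d86530_co
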