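import Pool.Agent.Lib.MP_d86530_co.Basic

/-! In a finite 2-regular graph the two neighbours of a vertex `w` are joined by a path which
avoids `w`. -/

set_option autoImplicit false

namespace Pool.Agent.Lib.MP_d86530_co

open Relation

theorem cyc_avoid {W : Type*} (R : W → W → Prop) (hs : ∀ x y, R x y → R y x)
    (hirr : ∀ x, ¬ R x x) (hfin : {x | ∃ y, R x y}.Finite)
    (h2 : ∀ x y, R x y → ∃ z, z ≠ y ∧ R x z ∧ ∀ z', R x z' → z' = y ∨ z' = z)
    {w a b : W} (ha : R w a) (hb : R w b) (hab : a ≠ b) :
    ReflTransGen (fun x y => R x y ∧ x ≠ w ∧ y ≠ w) a b := by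
  classical
  by_contra hcon
  set Q : W → W → Prop := fun x y => R x y ∧ x ≠ w ∧ y ≠ w with hQ
  have hQs : ∀ x y, Q x y → Q y x := fun x y h => ⟨hs _ _ h.1, h.2.2, h.2.1⟩
  have haw : a ≠ w := by
    intro h; subst h; exact hirr _ ha
  have hCw : ∀ x, ReflTransGen Q a x → x ≠ w := by
    intro x hx
    rcases ReflTransGen.cases_tail hx with h | ⟨y, -, h⟩
    · rw [h]; exact haw
    · exact h.2.2
  have hw : ∀ z, R w z → z = a ∨ z = b := by
    intro z hz
    obtain ⟨z1, h1, h3, h4⟩ := h2 w a ha
    rcases h4 z hz with h | h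
    · exact Or.inl h
    · rcases h4 b hb with h5 | h5
      · exact absurd h5.symm hab
      · right; rw [h, h5]
  let S : Set W := {x | ∃ y, R x y}
  have : Fintype S := hfin.fintype
  let G : SimpleGraph S :=
    { Adj := fun x y => Q x.1 y.1 ∧ ReflTransGen Q a x.1 ∧ ReflTransGen Q a y.1
      symm := ⟨fun x y h => ⟨hQs _ _ h.1, h.2.2, h.2.1⟩⟩
      loopless := ⟨fun x h => hirr _ h.1.1⟩ }
  have hev := G.even_card_odd_degree_vertices
  have haS : a ∈ S := ⟨w, hs _ _ ha⟩
  have hodd : (Finset.univ.filter fun v : S => Odd (G.degree v)) = {⟨a, haS⟩} := by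
    ext v
    simp only [Finset.mem_filter, Finset.mem_univ, true_and, Finset.mem_singleton]
    constructor
    · intro hv
      by_contra hne
      have hne' : v.1 ≠ a := fun h => hne (Subtype.ext h)
      have hpos : 0 < G.degree v := by
        rcases Nat.eq_zero_or_pos (G.degree v) with h | h
        · rw [h] at hv; exact absurd hv (by decide)
        · exact h
      obtain ⟨y, hy⟩ := (G.degree_pos_iff_exists_adj v).1 hpos
      have hvC : ReflTransGen Q a v.1 := hy.2.1
      obtain ⟨z, hz1, hz2, hz3⟩ := h2 v.1 y.1 hy.1.1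
      have hnb : ¬ R v.1 w := by
        intro h
        rcases hw v.1 (hs _ _ h) with h5 | h5
        · exact hne' h5
        · rw [h5] at hvC; exact hcon hvC
      have hzw : z ≠ w := fun h => hnb (h ▸ hz2)
      have hQz : Q v.1 z := ⟨hz2, hCw _ hvC, hzw⟩
      have hzC : ReflTransGen Q a z := hvC.tail hQz
      have hzS : z ∈ S := ⟨v.1, hs _ _ hz2⟩
      have hN : G.neighborFinset v = {y, ⟨z, hzS⟩} := by
        ext t
        simp only [SimpleGraph.mem_neighborFinset, Finset.mem_insert, Finset.mem_singleton]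
        constructor
        · intro ht
          rcases hz3 t.1 ht.1.1 with h | h
          · exact Or.inl (Subtype.ext h)
          · exact Or.inr (Subtype.ext h)
        · rintro (rfl | rfl)
          · exact hy
          · exact ⟨hQz, hvC, hzC⟩
      have hd : G.degree v = 2 := by
        rw [← SimpleGraph.card_neighborFinset_eq_degree, hN, Finset.card_pair]
        intro h
        exact hz1 (congrArg Subtype.val h).symm
      rw [hd] at hv
      exact absurd hv (by decide)
    · rintro rfl
      obtain ⟨z, hz1, hz2, hz3⟩ := h2 a w (hs _ _ ha)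
      have hQz : Q a z := ⟨hz2, haw, hz1⟩
      have hzC : ReflTransGen Q a z := ReflTransGen.single hQz
      have hzS : z ∈ S := ⟨a, hs _ _ hz2⟩
      have hN : G.neighborFinset ⟨a, haS⟩ = {⟨z, hzS⟩} := by
        ext t
        simp only [SimpleGraph.mem_neighborFinset, Finset.mem_singleton]
        constructor
        · intro ht
          rcases hz3 t.1 ht.1.1 with h | h
          · exact absurd h ht.1.2.2
          · exact Subtype.ext h
        · rintro rfl
          exact ⟨hQz, ReflTransGen.refl, hzC⟩
      rw [← SimpleGraph.card_neighborFinset_eq_degree, hN]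
      simp
  rw [hodd] at hev
  simp at hev

variable {V : Type*} {T : V → V → V → Prop}

/-- the two neighbours `a`, `b` of `w` in the link of `v` are joined in the link by a path which
avoids `w` -/
theorem IsSph.link_avoid (h : IsSph T) {v w a b : V} (ha : T v w a) (hb : T v w b) (hab : a ≠ b) :
    ReflTransGen (fun x y => T v x y ∧ x ≠ w ∧ y ≠ w) a b := by
  apply cyc_avoid (T v) (fun x y k => h.swp23 k) (fun x k => h.ne (h.rot k) rfl) ?_ ?_ ha hb hab
  · refine h.fin.subset ?_
    rintro x ⟨y, hy⟩
    exact h.vert2 hy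
  · intro x y hxy
    obtain ⟨z, h1, h2, h3⟩ := h.opp hxy
    exact ⟨z, h1, h2, h3⟩

/-- the end points of an edge `b c` of the link of `v` are joined in the link by a path which
avoids this edge -/
theorem IsSph.link_avoid_edge (h : IsSph T) {v b c : V} (hbc : T v b c) :
    ReflTransGen (fun x y => T v x y ∧ ¬ (x = b ∧ y = c) ∧ ¬ (x = c ∧ y = b)) b c := by
  obtain ⟨z, h1, h2, h3⟩ := h.opp hbc
  have h4 := h.link_avoid (v := v) (w := b) h2 hbc h1
  have h5 : ReflTransGen (fun x y => T v x y ∧ ¬ (x = b ∧ y = c) ∧ ¬ (x = c ∧ y = b)) z c :=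
    ReflTransGen.mono (fun x y k => ⟨k.1, fun e => k.2.1 e.1, fun e => k.2.2 e.2⟩) _ _ h4
  refine ReflTransGen.head ⟨h2, fun e => h1 e.2, fun e => ?_⟩ h5
  exact h.ne (h.rot hbc) e.1

end Pool.Agent.Lib.MP_d86530_co
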