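import Mathlib

set_option autoImplicit false

namespace Pool.Agent.Lib.MP_d86530_co

open Relation

/-! ### Combinatorial spheres

A complex is given by a ternary relation `T`: `T x y z` means that the triangle `x y z` is a face. -/

/-- adjacency in the graph of a complex -/
def Adj3 {V : Type*} (T : V → V → V → Prop) (x y : V) : Prop := ∃ z, T x y z

/-- the vertices of a complex -/
def Vert {V : Type*} (T : V → V → V → Prop) : Set V := {x | ∃ y z, T x y z}

/-- `(x, y, z)` is a permutation of `(a, b, c)` -/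
def Tri {V : Type*} (a b c x y z : V) : Prop :=
  (x = a ∧ y = b ∧ z = c) ∨ (x = a ∧ y = c ∧ z = b) ∨ (x = b ∧ y = a ∧ z = c) ∨
    (x = b ∧ y = c ∧ z = a) ∨ (x = c ∧ y = a ∧ z = b) ∨ (x = c ∧ y = b ∧ z = a)

/-- a combinatorial sphere: finite, every edge in exactly two faces, connected vertex links,
connected, and every `ZMod 2` edge labelling which is balanced on all faces is a coboundary -/
structure IsSph {V : Type*} (T : V → V → V → Prop) : Prop where
  rot : ∀ {x y z}, T x y z → T y z x
  swp : ∀ {x y z}, T x y z → T y x z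
  ne : ∀ {x y z}, T x y z → x ≠ y
  fin : (Vert T).Finite
  inh : ∃ x y z, T x y z
  opp : ∀ {x y z}, T x y z → ∃ w, w ≠ z ∧ T x y w ∧ ∀ w', T x y w' → w' = z ∨ w' = w
  link : ∀ {v a a' b b'}, T v a a' → T v b b' → ReflTransGen (T v) a b
  conn : ∀ {x y}, x ∈ Vert T → y ∈ Vert T → ReflTransGen (Adj3 T) x y
  coh : ∀ g : V → V → ZMod 2, (∀ x y, g x y = g y x) →
    (∀ x y z, T x y z → g x y + g y z + g z x = 0) →
    ∃ h : V → ZMod 2, ∀ x y z, T x y z → g x y = h x + h y

/-- the boundary of the tetrahedron `a b c d` -/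
def K4 {V : Type*} (a b c d : V) (x y z : V) : Prop :=
  Tri a b c x y z ∨ Tri a b d x y z ∨ Tri a c d x y z ∨ Tri b c d x y z

/-- glueing two complexes along the face `a b c`, which is removed -/
def glue {V : Type*} (T₁ T₂ : V → V → V → Prop) (a b c : V) (x y z : V) : Prop :=
  (T₁ x y z ∨ T₂ x y z) ∧ ¬ Tri a b c x y z

/-- the flip of the edge `x y` of the faces `x y z`, `x y w` to `z w` -/
def flip {V : Type*} (T : V → V → V → Prop) (x y z w : V) (p q r : V) : Prop :=
  (T p q r ∧ ¬ Tri x y z p q r ∧ ¬ Tri x y w p q r) ∨ Tri z w x p q r ∨ Tri z w y p q r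

open Classical in
/-- the map which sends `w` to `u` -/
noncomputable def pj {V : Type*} (u w : V) (t : V) : V := if t = w then u else t

/-- the contraction of `w` to `u` -/
def contr {V : Type*} (T : V → V → V → Prop) (u w : V) (x y z : V) : Prop :=
  x ≠ y ∧ y ≠ z ∧ z ≠ x ∧ ∃ x₀ y₀ z₀, T x₀ y₀ z₀ ∧ pj u w x₀ = x ∧ pj u w y₀ = y ∧ pj u w z₀ = z

/-- every 3-cycle of the graph is a face -/
def Flag {V : Type*} (T : V → V → V → Prop) : Prop :=
  ∀ a b c, Adj3 T a b → Adj3 T b c → Adj3 T c a → T a b c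

/-- adjacency of the square grid -/
def gridAdj (c c' : ℤ × ℤ) : Prop :=
  (c.1 = c'.1 ∧ |c.2 - c'.2| = 1) ∨ (c.2 = c'.2 ∧ |c.1 - c'.1| = 1)

/-- the box `[-N, N]²` -/
def box (N : ℕ) : Set (ℤ × ℤ) := {c | |c.1| ≤ N ∧ |c.2| ≤ N}

/-- a model of the graph `G` as a minor of the graph with adjacency `A` on `S` -/
structure Model {V W : Type*} (G : SimpleGraph V) (A : W → W → Prop) (S : Set W)
    (B : V → Set W) : Prop where
  nonempty : ∀ v, (B v).Nonempty
  sub : ∀ v, B v ⊆ S
  disj : ∀ u v, u ≠ v → Disjoint (B u) (B v)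
  conn : ∀ v, ∀ x ∈ B v, ∀ y ∈ B v, ReflTransGen (fun a b => A a b ∧ b ∈ B v) x y
  adj : ∀ u v, G.Adj u v → ∃ x ∈ B u, ∃ y ∈ B v, A x y

/-- the hypothesis of the frozen statement S11745 -/
def TopPlanar {V : Type} (G : SimpleGraph V) : Prop :=
  ∃ p : V → ℝ × ℝ, Function.Injective p ∧
    ∃ γ : V → V → (unitInterval → ℝ × ℝ),
      (∀ u v, G.Adj u v →
          Continuous (γ u v) ∧ Function.Injective (γ u v) ∧
          γ u v 0 = p u ∧ γ u v 1 = p v) ∧
      (∀ u v w x, G.Adj u v → G.Adj w x →
          ¬ ((u = w ∧ v = x) ∨ (u = x ∧ v = w)) →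
          ∀ s t : unitInterval, γ u v s = γ w x t →
            (s = 0 ∨ s = 1) ∧ (t = 0 ∨ t = 1)) ∧
      (∀ u v w, G.Adj u v → ∀ s : unitInterval, γ u v s = p w →
          s = 0 ∨ s = 1)

/-! ### Layouts with hosts -/

/-- an item of a layout: an edge `x y`, or the edge from the host of the face `x y z` to its
corner `x` -/
inductive Item (V : Type*)
  | e (x y : V)
  | h (x y z : V)

namespace Item

variable {V : Type*} (T : V → V → V → Prop) (a b c : V) (p : V → ℝ) (h : V → V → V → ℝ)

/-- the items of the complex `T` with outer face `a b c` -/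
def Valid : Item V → Prop
  | .e x y => Adj3 T x y
  | .h x y z => T x y z ∧ ¬ Tri a b c x y z

/-- left end -/
noncomputable def lo : Item V → ℝ
  | .e x y => min (p x) (p y)
  | .h x y z => min (h x y z) (p x)

/-- right end -/
noncomputable def hi : Item V → ℝ
  | .e x y => max (p x) (p y)
  | .h x y z => max (h x y z) (p x)

/-- two items from the same host to different corners -/
def SameHost : Item V → Item V → Prop
  | .h x y z, .h x' y' z' => Tri x y z x' y' z' ∧ x ≠ x'
  | _, _ => False

/-- two items cross -/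
def Cross (i j : Item V) : Prop :=
  (lo p h i < lo p h j ∧ lo p h j < hi p h i ∧ hi p h i < hi p h j) ∨
    (lo p h j < lo p h i ∧ lo p h i < hi p h j ∧ hi p h j < hi p h i) ∨ SameHost i j

end Item

/-- a good layout: positions `p` of the vertices and `h` of the hosts of the inner faces; the
outer face is `a < b < c`, everything else lies between `b` and `c`, the host of a face lies
strictly between its extreme corners, and no four items cross pairwise -/
structure Lay {V : Type*} (T : V → V → V → Prop) (a b c : V) (p : V → ℝ) (h : V → V → V → ℝ) :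
    Prop where
  rot : ∀ x y z, T x y z → h x y z = h y z x
  swp : ∀ x y z, T x y z → h x y z = h y x z
  inj : ∀ x ∈ Vert T, ∀ y ∈ Vert T, p x = p y → x = y
  ab : p a < p b
  bc : p b < p c
  inn : ∀ x ∈ Vert T, x ≠ a → x ≠ b → x ≠ c → p b < p x ∧ p x < p c
  hinn : ∀ x y z, T x y z → ¬ Tri a b c x y z → p b < h x y z ∧ h x y z < p c
  hne : ∀ x y z, T x y z → ¬ Tri a b c x y z → ∀ t ∈ Vert T, h x y z ≠ p t
  hinj : ∀ x y z x' y' z', T x y z → ¬ Tri a b c x y z → T x' y' z' → ¬ Tri a b c x' y' z' →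
    h x y z = h x' y' z' → Tri x y z x' y' z'
  hbet : ∀ x y z, T x y z → ¬ Tri a b c x y z → p x < p y → p y < p z →
    p x < h x y z ∧ h x y z < p z
  twist : ¬ ∃ I : Fin 4 → Item V, (∀ i, (I i).Valid T a b c) ∧
    ∀ i j, i ≠ j → Item.Cross p h (I i) (I j)

/-- every labelled sphere in the class `P` has a good layout -/
def HasLay {V : Type*} (T : V → V → V → Prop) : Prop :=
  ∀ a b c, T a b c → ∃ p h, Lay T a b c p h

end Pool.Agent.Lib.MP_d86530_co
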