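import Mathlib
import Pool.Agent.Lib.MP_d86530_co.OqpDefs

/-!
# MP_d86530_co, piece B4: cycles through a vertex and the faces around it
-/

set_option autoImplicit false

namespace Pool.Agent.OQP

/-! ### Mod 2 boundaries of walks -/

private theorem b4_edge_sum {V : Type} [Fintype V] [DecidableEq V] {a c : V} (h : a ≠ c) (v : V) :
    ∑ w, (if s(v, w) = s(a, c) then (1 : ZMod 2) else 0) =
      (if v = a then 1 else 0) + (if v = c then 1 else 0) := by
  by_cases hva : v = a
  · subst hva
    have hvc : v ≠ c := h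
    have e : ∀ w, (if s(v, w) = s(v, c) then (1 : ZMod 2) else 0) = if w = c then 1 else 0 := by
      intro w
      refine if_congr ?_ rfl rfl
      rw [Sym2.eq_iff]
      constructor
      · rintro (⟨_, h1⟩ | ⟨h1, _⟩)
        · exact h1
        · exact absurd h1 hvc
      · intro h1
        exact Or.inl ⟨rfl, h1⟩
    simp only [e, Finset.sum_ite_eq', Finset.mem_univ, if_true, if_neg hvc, add_zero]
  · by_cases hvc : v = c
    · subst hvc
      have e : ∀ w, (if s(v, w) = s(a, v) then (1 : ZMod 2) else 0) = if w = a then 1 else 0 := by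
        intro w
        refine if_congr ?_ rfl rfl
        rw [Sym2.eq_iff]
        constructor
        · rintro (⟨h1, _⟩ | ⟨_, h1⟩)
          · exact absurd h1 hva
          · exact h1
        · intro h1
          exact Or.inr ⟨rfl, h1⟩
      simp only [e, Finset.sum_ite_eq', Finset.mem_univ, if_true, if_neg hva, zero_add]
    · have e : ∀ w, (if s(v, w) = s(a, c) then (1 : ZMod 2) else 0) = 0 := by
        intro w
        refine if_neg ?_
        rw [Sym2.eq_iff]
        rintro (⟨h1, _⟩ | ⟨h1, _⟩)
        · exact hva h1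
        · exact hvc h1
      simp only [e, Finset.sum_const_zero, if_neg hva, if_neg hvc, add_zero]

private theorem b4_add_self (z : ZMod 2) : z + z = 0 := CharTwo.add_self_eq_zero z

private theorem b4_walk_sum {V : Type} [Fintype V] [DecidableEq V] {G : SimpleGraph V} {a b : V}
    (p : G.Walk a b) (v : V) :
    ∑ w, ((p.edges.count s(v, w) : ℕ) : ZMod 2) =
      (if v = a then 1 else 0) + (if v = b then 1 else 0) := by
  induction p with
  | nil =>
    simp only [SimpleGraph.Walk.edges_nil, List.count_nil, Nat.cast_zero, Finset.sum_const_zero]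
    rw [b4_add_self]
  | @cons a c b h p ih =>
    have hac : a ≠ c := h.ne
    have e : ∀ w, (((SimpleGraph.Walk.cons h p).edges.count s(v, w) : ℕ) : ZMod 2) =
        ((p.edges.count s(v, w) : ℕ) : ZMod 2) + (if s(v, w) = s(a, c) then 1 else 0) := by
      intro w
      rw [SimpleGraph.Walk.edges_cons, List.count_cons, Nat.cast_add]
      congr 1
      by_cases h1 : s(a, c) = s(v, w)
      · have h2 : (s(a, c) == s(v, w)) = true := beq_iff_eq.2 h1
        rw [if_pos h1.symm, if_pos h2, Nat.cast_one]
      · have h2 : ¬ (s(a, c) == s(v, w)) = true := fun h2 => h1 (beq_iff_eq.1 h2)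
        have h3 : ¬ s(v, w) = s(a, c) := fun h3 => h1 h3.symm
        rw [if_neg h2, if_neg h3, Nat.cast_zero]
    simp only [e, Finset.sum_add_distrib]
    rw [ih, b4_edge_sum hac]
    have h2 := b4_add_self (if v = c then (1 : ZMod 2) else 0)
    linear_combination h2

/-- the function of a closed walk through `v` -/
private def b4_cyc {V : Type} [DecidableEq V] {G : SimpleGraph V} (v : V) {w w' : V}
    (p : G.Walk w w') (e : Sym2 V) : ZMod 2 :=
  ((p.edges.count e : ℕ) : ZMod 2) + (if e = s(v, w) then 1 else 0) +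
    (if e = s(v, w') then 1 else 0)

private theorem b4_cyc_edge {V : Type} [DecidableEq V] {G : SimpleGraph V} {v w w' : V}
    (hw : G.Adj v w) (hw' : G.Adj v w') (p : G.Walk w w') (e : Sym2 V) (he : e ∉ G.edgeSet) :
    b4_cyc v p e = 0 := by
  unfold b4_cyc
  have h1 : p.edges.count e = 0 := by
    rw [List.count_eq_zero]
    exact fun h => he (p.edges_subset_edgeSet h)
  have h2 : e ≠ s(v, w) := by
    rintro rfl
    exact he hw
  have h3 : e ≠ s(v, w') := by
    rintro rfl
    exact he hw'
  rw [h1, if_neg h2, if_neg h3]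
  simp

private theorem b4_cyc_even {V : Type} [Fintype V] [DecidableEq V] {G : SimpleGraph V} {v w w' : V}
    (hw : G.Adj v w) (hw' : G.Adj v w') (p : G.Walk w w') (a : V) :
    ∑ z, b4_cyc v p s(a, z) = 0 := by
  unfold b4_cyc
  simp only [Finset.sum_add_distrib]
  rw [b4_walk_sum, b4_edge_sum hw.ne, b4_edge_sum hw'.ne]
  have h1 := b4_add_self (if a = w then (1 : ZMod 2) else 0)
  have h2 := b4_add_self (if a = w' then (1 : ZMod 2) else 0)
  have h3 := b4_add_self (if a = v then (1 : ZMod 2) else 0)
  linear_combination h1 + h2 + h3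

private theorem b4_cyc_at {V : Type} [DecidableEq V] {G : SimpleGraph V} {v w w' : V}
    (p : G.Walk w w') (hv : v ∉ p.support) (z : V) :
    b4_cyc v p s(v, z) = (if z = w then 1 else 0) + (if z = w' then 1 else 0) := by
  unfold b4_cyc
  have h1 : p.edges.count s(v, z) = 0 := by
    rw [List.count_eq_zero]
    exact fun h => hv (p.fst_mem_support_of_mem_edges h)
  have h2 : ∀ c : V, (s(v, z) = s(v, c) ↔ z = c) := fun c => Sym2.congr_right
  rw [h1, Nat.cast_zero, zero_add]
  congr 1
  · exact if_congr (h2 w) rfl rfl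
  · exact if_congr (h2 w') rfl rfl

private theorem b4_lift_walk {V : Type} {G : SimpleGraph V} {v : V}
    {x y : {w : V | w ≠ v}} (q : (G.induce {w | w ≠ v}).Walk x y) :
    ∃ p : G.Walk x.1 y.1, v ∉ p.support := by
  induction q with
  | @nil x =>
    refine ⟨SimpleGraph.Walk.nil, ?_⟩
    rw [SimpleGraph.Walk.support_nil, List.mem_singleton]
    exact fun h => x.2 h.symm
  | @cons x z y h q ih =>
    obtain ⟨p, hp⟩ := ih
    have h' : G.Adj x.1 z.1 := h
    refine ⟨SimpleGraph.Walk.cons h' p, ?_⟩
    rw [SimpleGraph.Walk.support_cons, List.mem_cons, not_or]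
    exact ⟨fun h => x.2 h.symm, hp⟩

/-- walks which avoid a vertex -/
private theorem b4_exists_walk {V : Type} {G : SimpleGraph V} {v : V}
    (hc : (G.induce {w | w ≠ v}).Preconnected) {w w' : V} (hw : w ≠ v) (hw' : w' ≠ v) :
    ∃ p : G.Walk w w', v ∉ p.support := by
  obtain ⟨q⟩ := hc ⟨w, hw⟩ ⟨w', hw'⟩
  exact b4_lift_walk q

/-- B4: the two faces of an edge are different (2-connected graph with at least 3 vertices) -/
theorem faces_ne {V F : Type} [Fintype V] [DecidableEq V] (G : SimpleGraph V)
    (hc : ∀ v, (G.induce {w | w ≠ v}).Preconnected) (h3 : 3 ≤ Fintype.card V)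
    (l r : Sym2 V → F) (hd : IsDualF G l r) (e : Sym2 V) (he : e ∈ G.edgeSet) : l e ≠ r e := by
  intro hlr
  induction e using Sym2.ind with
  | _ u v =>
    have huv : G.Adj u v := he
    -- a second neighbour of `u`
    obtain ⟨w, huw, hwv⟩ : ∃ w, G.Adj u w ∧ w ≠ v := by
      obtain ⟨t, ht⟩ : ∃ t : V, t ∉ ({u, v} : Finset V) := by
        by_contra hcon
        push Not at hcon
        have h4 : (Finset.univ : Finset V) ⊆ {u, v} := fun x _ => hcon x
        have h5 := Finset.card_le_card h4
        have h6 : ({u, v} : Finset V).card ≤ 2 := Finset.card_le_two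
        rw [Finset.card_univ] at h5
        omega
      rw [Finset.mem_insert, Finset.mem_singleton, not_or] at ht
      obtain ⟨p, hp⟩ := b4_exists_walk (hc v) (w := u) (w' := t) huv.ne ht.2
      cases p with
      | nil => exact absurd rfl ht.1
      | @cons _ c _ h q =>
        refine ⟨c, h, ?_⟩
        rintro rfl
        apply hp
        rw [SimpleGraph.Walk.support_cons]
        exact List.mem_cons_of_mem _ q.start_mem_support
    obtain ⟨p, hp⟩ := b4_exists_walk (hc u) (w := w) (w' := v) huw.ne' huv.ne'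
    obtain ⟨y, hy⟩ := (hd (b4_cyc u p) (b4_cyc_edge huw huv p)).1 (b4_cyc_even huw huv p)
    have h4 := hy s(u, v) he
    rw [hlr, b4_add_self, b4_cyc_at p hp, if_neg hwv.symm, if_pos rfl, zero_add] at h4
    exact one_ne_zero h4

/-- B5: local connectedness of the dual at a vertex -/
theorem star_conn {V F : Type} [Fintype V] [DecidableEq V] [DecidableEq F] (G : SimpleGraph V)
    [DecidableRel G.Adj]
    (hc : ∀ v, (G.induce {w | w ≠ v}).Preconnected)
    (l r : Sym2 V → F) (hd : IsDualF G l r) (v : V) (S : Finset V) (hS : ∀ w ∈ S, G.Adj v w)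
    (hne : S.Nonempty)
    (hf : ∀ f : F, Even ((S.filter (fun w => l s(v, w) = f)).card +
      (S.filter (fun w => r s(v, w) = f)).card)) : ∀ w, G.Adj v w → w ∈ S := by
  intro w' hw'
  by_contra hw'S
  obtain ⟨w, hwS⟩ := hne
  have hw := hS w hwS
  obtain ⟨p, hp⟩ := b4_exists_walk (hc v) (w := w) (w' := w') hw.ne' hw'.ne'
  obtain ⟨y, hy⟩ := (hd (b4_cyc v p) (b4_cyc_edge hw hw' p)).1 (b4_cyc_even hw hw' p)
  -- the sum over `S` in two ways
  have h1 : ∑ z ∈ S, b4_cyc v p s(v, z) = 1 := by
    have h2 : ∀ z ∈ S, b4_cyc v p s(v, z) = if z = w then 1 else 0 := by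
      intro z hz
      have hzw' : z ≠ w' := by
        rintro rfl
        exact hw'S hz
      rw [b4_cyc_at p hp, if_neg hzw', add_zero]
    rw [Finset.sum_congr rfl h2, Finset.sum_ite_eq', if_pos hwS]
  have h2 : ∑ z ∈ S, b4_cyc v p s(v, z) = ∑ z ∈ S, (y (l s(v, z)) + y (r s(v, z))) :=
    Finset.sum_congr rfl fun z hz => hy _ (hS z hz)
  have h3 : ∀ (k : V → F), ∀ I : Finset F, (∀ z ∈ S, k z ∈ I) →
      ∑ z ∈ S, y (k z) = ∑ f ∈ I, (((S.filter (fun z => k z = f)).card : ℕ) : ZMod 2) * y f := by
    intro k I hI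
    rw [← Finset.sum_fiberwise_of_maps_to hI]
    refine Finset.sum_congr rfl fun f _ => ?_
    rw [Finset.sum_congr rfl (g := fun _ => y f) (fun z hz => by rw [(Finset.mem_filter.1 hz).2]),
      Finset.sum_const, nsmul_eq_mul]
  have h4 : ∑ z ∈ S, (y (l s(v, z)) + y (r s(v, z))) = 0 := by
    rw [Finset.sum_add_distrib,
      h3 (fun z => l s(v, z)) (S.image (fun z => l s(v, z)) ∪ S.image (fun z => r s(v, z)))
        (fun z hz => Finset.mem_union_left _ (Finset.mem_image_of_mem _ hz)),
      h3 (fun z => r s(v, z)) (S.image (fun z => l s(v, z)) ∪ S.image (fun z => r s(v, z)))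
        (fun z hz => Finset.mem_union_right _ (Finset.mem_image_of_mem _ hz)),
      ← Finset.sum_add_distrib]
    refine Finset.sum_eq_zero fun f _ => ?_
    rw [← add_mul, ← Nat.cast_add, (ZMod.natCast_eq_zero_iff_even).2 (hf f), zero_mul]
  rw [h1, h4] at h2
  exact one_ne_zero h2

/-- B5': each face meets the star of a vertex evenly -/
theorem star_even {V F : Type} [Fintype V] [DecidableEq V] [DecidableEq F] (G : SimpleGraph V)
    [DecidableRel G.Adj] (l r : Sym2 V → F) (hd : IsDualF G l r) (v : V) (f : F) :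
    Even (((Finset.univ.filter (fun w => G.Adj v w)).filter (fun w => l s(v, w) = f)).card +
      ((Finset.univ.filter (fun w => G.Adj v w)).filter (fun w => r s(v, w) = f)).card) := by
  classical
  let x : Sym2 V → ZMod 2 := fun e =>
    if e ∈ G.edgeSet then (if l e = f then 1 else 0) + (if r e = f then 1 else 0) else 0
  have hx0 : ∀ e, e ∉ G.edgeSet → x e = 0 := fun e he => if_neg he
  have hev := (hd x hx0).2 ⟨fun f' => if f' = f then 1 else 0, fun e he => by
    show (if e ∈ G.edgeSet then _ else _) = _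
    rw [if_pos he]⟩ v
  have h1 : ∑ w, x s(v, w) = ∑ w ∈ Finset.univ.filter (fun w => G.Adj v w),
      ((if l s(v, w) = f then (1 : ZMod 2) else 0) + (if r s(v, w) = f then 1 else 0)) := by
    rw [Finset.sum_filter]
    refine Finset.sum_congr rfl fun w _ => ?_
    show (if s(v, w) ∈ G.edgeSet then _ else _) = _
    exact if_congr (SimpleGraph.mem_edgeSet G) rfl rfl
  rw [h1, Finset.sum_add_distrib, Finset.sum_boole, Finset.sum_boole, ← Nat.cast_add] at hev
  exact (ZMod.natCast_eq_zero_iff_even).1 hev

end Pool.Agent.OQP
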