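import Pool.Agent.Lib.MP_d86530_co.OqpDefs

/-!
# MP_d86530_co: an algebraic dual of the triangular grid
-/

set_option autoImplicit false

namespace Pool.Agent.OQP

/-- the sum of the two ends of an edge of the grid -/
def gridSum (e : Sym2 (ℤ × ℤ)) : ℤ × ℤ :=
  Sym2.lift ⟨fun a b => a + b, fun a b => add_comm a b⟩ e

theorem gridSum_mk (a b : ℤ × ℤ) : gridSum s(a, b) = a + b := rfl

/-- left face -/
def gridL (e : Sym2 (ℤ × ℤ)) : (ℤ × ℤ) × Bool := (((gridSum e).1 / 2, (gridSum e).2 / 2), false)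

/-- right face -/
def gridR (e : Sym2 (ℤ × ℤ)) : (ℤ × ℤ) × Bool :=
  ((((gridSum e).1 - 1) / 2, ((gridSum e).2 - 1) / 2), true)

/-- horizontal edge -/
def hE (i j : ℤ) : Sym2 (ℤ × ℤ) := s((i, j), (i + 1, j))

/-- vertical edge -/
def vE (i j : ℤ) : Sym2 (ℤ × ℤ) := s((i, j), (i, j + 1))

/-- diagonal edge -/
def dE (i j : ℤ) : Sym2 (ℤ × ℤ) := s((i + 1, j), (i, j + 1))

theorem triGrid_adj (a b : ℤ × ℤ) : triGrid.Adj a b ↔ a ≠ b ∧
    ((b = (a.1 + 1, a.2) ∨ b = (a.1, a.2 + 1) ∨ b = (a.1 - 1, a.2 + 1)) ∨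
      (a = (b.1 + 1, b.2) ∨ a = (b.1, b.2 + 1) ∨ a = (b.1 - 1, b.2 + 1))) := by
  unfold triGrid
  rw [SimpleGraph.fromRel_adj]

theorem hE_mem (i j : ℤ) : hE i j ∈ triGrid.edgeSet := by
  unfold hE
  rw [SimpleGraph.mem_edgeSet, triGrid_adj]
  exact ⟨fun h => by simp at h, Or.inl (Or.inl rfl)⟩

theorem vE_mem (i j : ℤ) : vE i j ∈ triGrid.edgeSet := by
  unfold vE
  rw [SimpleGraph.mem_edgeSet, triGrid_adj]
  exact ⟨fun h => by simp at h, Or.inl (Or.inr (Or.inl rfl))⟩

theorem dE_mem (i j : ℤ) : dE i j ∈ triGrid.edgeSet := by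
  unfold dE
  rw [SimpleGraph.mem_edgeSet, triGrid_adj]
  exact ⟨fun h => by simp at h, Or.inl (Or.inr (Or.inr (by simp)))⟩

theorem edge_cases (e : Sym2 (ℤ × ℤ)) (he : e ∈ triGrid.edgeSet) :
    ∃ i j, e = hE i j ∨ e = vE i j ∨ e = dE i j := by
  induction e using Sym2.ind with
  | _ a b =>
    rw [SimpleGraph.mem_edgeSet, triGrid_adj] at he
    obtain ⟨-, (h | h | h) | (h | h | h)⟩ := he
    · exact ⟨a.1, a.2, Or.inl (by rw [h]; rfl)⟩
    · exact ⟨a.1, a.2, Or.inr (Or.inl (by rw [h]; rfl))⟩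
    · refine ⟨a.1 - 1, a.2, Or.inr (Or.inr ?_)⟩
      rw [h]
      unfold dE
      rw [sub_add_cancel]
    · exact ⟨b.1, b.2, Or.inl (by rw [h, Sym2.eq_swap]; rfl)⟩
    · exact ⟨b.1, b.2, Or.inr (Or.inl (by rw [h, Sym2.eq_swap]; rfl))⟩
    · refine ⟨b.1 - 1, b.2, Or.inr (Or.inr ?_)⟩
      rw [h, Sym2.eq_swap]
      unfold dE
      rw [sub_add_cancel]

theorem gridL_h (i j : ℤ) : gridL (hE i j) = ((i, j), false) := by
  simp only [gridL, hE, gridSum_mk, Prod.fst_add, Prod.snd_add, Prod.mk.injEq, and_true]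
  omega

theorem gridL_v (i j : ℤ) : gridL (vE i j) = ((i, j), false) := by
  simp only [gridL, vE, gridSum_mk, Prod.fst_add, Prod.snd_add, Prod.mk.injEq, and_true]
  omega

theorem gridL_d (i j : ℤ) : gridL (dE i j) = ((i, j), false) := by
  simp only [gridL, dE, gridSum_mk, Prod.fst_add, Prod.snd_add, Prod.mk.injEq, and_true]
  omega

theorem gridR_h (i j : ℤ) : gridR (hE i j) = ((i, j - 1), true) := by
  simp only [gridR, hE, gridSum_mk, Prod.fst_add, Prod.snd_add, Prod.mk.injEq, and_true]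
  omega

theorem gridR_v (i j : ℤ) : gridR (vE i j) = ((i - 1, j), true) := by
  simp only [gridR, vE, gridSum_mk, Prod.fst_add, Prod.snd_add, Prod.mk.injEq, and_true]
  omega

theorem gridR_d (i j : ℤ) : gridR (dE i j) = ((i, j), true) := by
  simp only [gridR, dE, gridSum_mk, Prod.fst_add, Prod.snd_add, Prod.mk.injEq, and_true]
  omega

theorem grid_vertex_sum (x : Sym2 (ℤ × ℤ) → ZMod 2) (hx : ∀ e, e ∉ triGrid.edgeSet → x e = 0)
    (i j : ℤ) : ∑ᶠ w, x s((i, j), w) =
      x (hE i j) + x (hE (i - 1) j) + x (vE i j) + x (vE i (j - 1)) + x (dE (i - 1) j) +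
        x (dE i (j - 1)) := by
  have hs : Function.support (fun w => x s((i, j), w)) ⊆
      (({(i + 1, j), (i - 1, j), (i, j + 1), (i, j - 1), (i - 1, j + 1), (i + 1, j - 1)} :
        Finset (ℤ × ℤ)) : Set (ℤ × ℤ)) := by
    rintro ⟨a, b⟩ hw
    rw [Function.mem_support] at hw
    have h1 : s((i, j), (a, b)) ∈ triGrid.edgeSet := by
      by_contra hc
      exact hw (hx _ hc)
    rw [SimpleGraph.mem_edgeSet, triGrid_adj] at h1
    obtain ⟨-, h2⟩ := h1
    simp only [Prod.mk.injEq] at h2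
    simp only [Finset.coe_insert, Finset.coe_singleton, Set.mem_insert_iff,
      Set.mem_singleton_iff, Prod.mk.injEq]
    omega
  rw [finsum_eq_sum_of_support_subset _ hs]
  rw [Finset.sum_insert, Finset.sum_insert, Finset.sum_insert, Finset.sum_insert,
    Finset.sum_insert, Finset.sum_singleton]
  · have e1 : s((i, j), (i - 1, j)) = hE (i - 1) j := by
      unfold hE; rw [sub_add_cancel, Sym2.eq_swap]
    have e2 : s((i, j), (i, j - 1)) = vE i (j - 1) := by
      unfold vE; rw [sub_add_cancel, Sym2.eq_swap]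
    have e3 : s((i, j), (i - 1, j + 1)) = dE (i - 1) j := by
      unfold dE; rw [sub_add_cancel]
    have e4 : s((i, j), (i + 1, j - 1)) = dE i (j - 1) := by
      unfold dE; rw [sub_add_cancel, Sym2.eq_swap]
    rw [e1, e2, e3, e4]
    change x (hE i j) + (x (hE (i - 1) j) + (x (vE i j) + (x (vE i (j - 1)) +
      (x (dE (i - 1) j) + x (dE i (j - 1)))))) = _
    ring
  · simp only [Finset.mem_singleton, Prod.mk.injEq]; omega
  · simp only [Finset.mem_insert, Finset.mem_singleton, Prod.mk.injEq]; omega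
  · simp only [Finset.mem_insert, Finset.mem_singleton, Prod.mk.injEq]; omega
  · simp only [Finset.mem_insert, Finset.mem_singleton, Prod.mk.injEq]; omega
  · simp only [Finset.mem_insert, Finset.mem_singleton, Prod.mk.injEq]; omega

theorem zmod2_self (a : ZMod 2) : a + a = 0 := CharTwo.add_self_eq_zero a

/-- summation on the integers -/
theorem exists_prefix (m : ℤ) (g : ℤ → ZMod 2) (hg : ∀ k < m, g k = 0) :
    ∃ G : ℤ → ZMod 2, (∀ k, G k = G (k - 1) + g k) ∧ ∀ k < m, G k = 0 := by
  refine ⟨fun k => ∑ t ∈ Finset.Ico m (k + 1), g t, fun k => ?_, fun k hk => ?_⟩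
  · rcases lt_or_ge k m with h | h
    · have h1 : Finset.Ico m (k + 1) = ∅ := Finset.Ico_eq_empty (by omega)
      have h2 : Finset.Ico m (k - 1 + 1) = ∅ := Finset.Ico_eq_empty (by omega)
      simp only [h1, h2, Finset.sum_empty, hg k h, add_zero]
    · have h1 : Finset.Ico m (k + 1) = insert k (Finset.Ico m (k - 1 + 1)) := by
        ext t
        simp only [Finset.mem_Ico, Finset.mem_insert]
        omega
      show ∑ t ∈ Finset.Ico m (k + 1), g t = ∑ t ∈ Finset.Ico m (k - 1 + 1), g t + g k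
      rw [h1, Finset.sum_insert (by simp only [Finset.mem_Ico]; omega), add_comm]
  · have h1 : Finset.Ico m (k + 1) = ∅ := Finset.Ico_eq_empty (by omega)
    simp only [h1, Finset.sum_empty]

theorem exists_bound (x : Sym2 (ℤ × ℤ) → ZMod 2) (hf : (Function.support x).Finite) :
    ∃ m : ℤ, ∀ i j, i < m → x (hE i j) = 0 ∧ x (vE i j) = 0 ∧ x (dE i j) = 0 := by
  obtain ⟨m, hm⟩ : BddBelow ((fun e => (gridSum e).1) '' Function.support x) :=
    (hf.image _).bddBelow
  have key : ∀ e, (gridSum e).1 < m → x e = 0 := by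
    intro e he
    by_contra hc
    exact absurd (hm ⟨e, hc, rfl⟩) (not_le.2 he)
  refine ⟨min (m / 2 - 1) (-1), fun i j hi => ?_⟩
  have h0 : i < m / 2 - 1 := lt_of_lt_of_le hi (min_le_left _ _)
  refine ⟨key _ ?_, key _ ?_, key _ ?_⟩
  · simp only [hE, gridSum_mk, Prod.fst_add]; omega
  · simp only [vE, gridSum_mk, Prod.fst_add]; omega
  · simp only [dE, gridSum_mk, Prod.fst_add]; omega

/-- A8: the triangular grid -/
theorem algPlanar_triGrid : AlgPlanar triGrid := by
  refine ⟨(ℤ × ℤ) × Bool, gridL, gridR, fun x hf hx => ⟨fun hev => ?_, ?_⟩⟩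
  · obtain ⟨m, hm⟩ := exists_bound x hf
    have hG : ∀ j : ℤ, ∃ G : ℤ → ZMod 2,
        (∀ k, G k = G (k - 1) + (x (vE k j) + x (dE (k - 1) j))) ∧ ∀ k < m, G k = 0 := by
      intro j
      refine exists_prefix m (fun k => x (vE k j) + x (dE (k - 1) j)) fun k hk => ?_
      have h1 := (hm k j hk).2.1
      have h2 := (hm (k - 1) j (by omega)).2.2
      simp only [h1, h2, add_zero]
    choose G hG1 hG2 using hG
    have hz : ∀ i j, x (hE i j) + G j i + G (j - 1) i + x (dE i (j - 1)) = 0 := by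
      intro i j
      rcases lt_or_ge i m with h | h
      · rw [(hm i j h).1, (hm i (j - 1) h).2.2, hG2 j i h, hG2 (j - 1) i h]
        simp
      · have hstep : ∀ k : ℤ, x (hE k j) + G j k + G (j - 1) k + x (dE k (j - 1)) =
            x (hE (k - 1) j) + G j (k - 1) + G (j - 1) (k - 1) + x (dE (k - 1) (j - 1)) := by
          intro k
          have h1 := hev (k, j)
          rw [grid_vertex_sum x hx] at h1
          rw [hG1 j k, hG1 (j - 1) k]
          have h2 := zmod2_self (x (hE (k - 1) j))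
          have h3 := zmod2_self (x (dE (k - 1) (j - 1)))
          linear_combination h1 - h2
        have hind : ∀ k : ℤ, m - 1 ≤ k →
            x (hE k j) + G j k + G (j - 1) k + x (dE k (j - 1)) = 0 := by
          intro k hk
          induction k, hk using Int.le_induction with
          | base =>
            rw [(hm (m - 1) j (by omega)).1, (hm (m - 1) (j - 1) (by omega)).2.2,
              hG2 j (m - 1) (by omega), hG2 (j - 1) (m - 1) (by omega)]
            simp
          | succ k hk ih =>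
            rw [hstep (k + 1), add_sub_cancel_right]
            exact ih
        exact hind i (by omega)
    refine ⟨fun f => if f.2 then G f.1.2 f.1.1 + x (dE f.1.1 f.1.2) else G f.1.2 f.1.1,
      fun e he => ?_⟩
    obtain ⟨i, j, rfl | rfl | rfl⟩ := edge_cases e he
    · rw [gridL_h, gridR_h]
      simp only [Bool.false_eq_true, if_false, if_true]
      have h1 := hz i j
      have h2 := zmod2_self (G j i)
      have h3 := zmod2_self (G (j - 1) i)
      have h4 := zmod2_self (x (dE i (j - 1)))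
      linear_combination h1 - h2 - h3 - h4
    · rw [gridL_v, gridR_v]
      simp only [Bool.false_eq_true, if_false, if_true]
      have h1 := hG1 j i
      have h2 := zmod2_self (G j (i - 1))
      have h3 := zmod2_self (x (dE (i - 1) j))
      linear_combination -h1 - h2 - h3
    · rw [gridL_d, gridR_d]
      simp only [Bool.false_eq_true, if_false, if_true]
      have h2 := zmod2_self (G j i)
      linear_combination -h2
  · rintro ⟨y, hy⟩ ⟨i, j⟩
    rw [grid_vertex_sum x hx]
    rw [hy _ (hE_mem _ _), hy _ (hE_mem _ _), hy _ (vE_mem _ _), hy _ (vE_mem _ _),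
      hy _ (dE_mem _ _), hy _ (dE_mem _ _)]
    simp only [gridL_h, gridL_v, gridL_d, gridR_h, gridR_v, gridR_d]
    have h1 := zmod2_self (y ((i, j), false))
    have h2 := zmod2_self (y ((i - 1, j), false))
    have h3 := zmod2_self (y ((i, j - 1), false))
    have h4 := zmod2_self (y ((i, j - 1), true))
    have h5 := zmod2_self (y ((i - 1, j - 1), true))
    have h6 := zmod2_self (y ((i - 1, j), true))
    linear_combination h1 + h2 + h3 + h4 + h5 + h6

end Pool.Agent.OQP
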