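import Mathlib

/-!
# MP_d86530_co: the exact hosting rule, abstract form

Two pages of non-crossing edges over the integers; every node `v` is the middle vertex of the face
`(U j v, v, W j v)` of the page `j`.  The host of the face of the page `ρ v` is put directly to the
right of `v`, the host of the other face directly to the left.  Under the local rules below no four
items (edges, and edges from a host to a corner of its face) cross pairwise.
-/

set_option autoImplicit false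

namespace Pool.Agent.Lib.MP_d86530_co

/-- two pages with nodes, and the choice `ρ v` of the page whose face at `v` is hosted right -/
structure H2 (E : Bool → ℤ → ℤ → Prop) (U W : Bool → ℤ → ℤ) (ρ : ℤ → Bool) (N : ℤ → Prop) :
    Prop where
  lt : ∀ j x y, E j x y → x < y
  nc : ∀ j x y x' y', E j x y → E j x' y' → ¬ (x < x' ∧ x' < y ∧ y < y')
  eu : ∀ j v, N v → E j (U j v) v
  ew : ∀ j v, N v → E j v (W j v)
  euw : ∀ j v, N v → E j (U j v) (W j v)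
  nn : ∀ j j' x y z, E j x y → E j' y z → N y
  smp : ∀ j x y, E j x y → E (!j) x y → y = x + 1 ∨ (¬ N x ∧ ¬ N y)
  /-- the two latest neighbours are not both on the page of the right host -/
  r1 : ∀ j v x, N v → ρ v = j → E j v x → v + 1 < x → x < W j v → x ≤ W (!j) v
  /-- the two oldest neighbours are not both on the page of the left host -/
  r2 : ∀ j v x, N v → ρ v = !j → E j x v → U j v < x → x < v - 1 → U (!j) v ≤ x
  /-- consecutive vertices -/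
  g : ∀ j v, N v → N (v + 1) → ρ v = j → ρ (v + 1) = j → W j v = v + 1 ∨ U (!j) (v + 1) = v
  /-- the far conflict -/
  a : ∀ j x y s z, N x → N y → ρ x = j → ρ y = j → x < U (!j) y → W j x < y → E (!j) s y →
    U (!j) y < s → E j x z → z < W j x → s ≤ z → s = z ∧ ρ z = !j

variable {E : Bool → ℤ → ℤ → Prop} {U W : Bool → ℤ → ℤ} {ρ : ℤ → Bool} {N : ℤ → Prop}

/-- the items which are not the short ones, with their base edge -/
def BIt (E : Bool → ℤ → ℤ → Prop) (U W : Bool → ℤ → ℤ) (ρ : ℤ → Bool) (N : ℤ → Prop)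
    (j : Bool) (X Y l r : ℤ) : Prop :=
  E j X Y ∧ ((l = 100 * X ∧ r = 100 * Y) ∨
    (l = 100 * X ∧ r = 100 * Y + 10 ∧ X = U j Y ∧ N Y ∧ ρ Y = j) ∨
    (l = 100 * X ∧ r = 100 * Y - 9 ∧ X = U j Y ∧ N Y ∧ ρ Y = !j) ∨
    (l = 100 * X + 9 ∧ r = 100 * Y ∧ Y = W j X ∧ N X ∧ ρ X = j) ∨
    (l = 100 * X - 10 ∧ r = 100 * Y ∧ Y = W j X ∧ N X ∧ ρ X = !j))

namespace H2

variable (D : H2 E U W ρ N)

include D

theorem old {j : Bool} {x v : ℤ} (hv : N v) (h : E j x v) : U j v ≤ x := by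
  have h1 := D.nc j _ _ _ _ h (D.euw j v hv)
  have h2 := D.lt _ _ _ (D.ew j v hv)
  have h3 := D.lt _ _ _ (D.eu j v hv)
  omega

theorem new {j : Bool} {v y : ℤ} (hv : N v) (h : E j v y) : y ≤ W j v := by
  have h1 := D.nc j _ _ _ _ (D.euw j v hv) h
  have h2 := D.lt _ _ _ (D.ew j v hv)
  have h3 := D.lt _ _ _ (D.eu j v hv)
  omega

theorem passU {j : Bool} {x y v : ℤ} (hv : N v) (h : E j x y) (h1 : x < v) (h2 : v < y) :
    x ≤ U j v := by
  have h3 := D.nc j _ _ _ _ (D.eu j v hv) h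
  omega

theorem passW {j : Bool} {x y v : ℤ} (hv : N v) (h : E j x y) (h1 : x < v) (h2 : v < y) :
    W j v ≤ y := by
  have h3 := D.nc j _ _ _ _ h (D.ew j v hv)
  omega

theorem ulv {v : ℤ} (j : Bool) (hv : N v) : U j v < v := D.lt _ _ _ (D.eu j v hv)

theorem vlw {v : ℤ} (j : Bool) (hv : N v) : v < W j v := D.lt _ _ _ (D.ew j v hv)

/-- no left host at the oldest neighbour which sees `y` last -/
theorem apexU {j : Bool} {x y : ℤ} (hx : N x) (hy : N y) (h : W j x = y) : U j y < x := by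
  have h1 := D.old hy (h ▸ D.euw j x hx)
  have h2 := D.ulv j hx
  omega

theorem both {j : Bool} {x y : ℤ} (h : E j x y) (h' : E (!j) x y) (hN : N x ∨ N y) :
    y = x + 1 := by
  rcases D.smp j x y h h' with k | ⟨k1, k2⟩
  · exact k
  · exact (hN.elim k1 k2).elim

end H2

namespace BIt

variable {j : Bool} {X Y l r : ℤ}

theorem edge (h : BIt E U W ρ N j X Y l r) : E j X Y := h.1

theorem bl (h : BIt E U W ρ N j X Y l r) : l = 100 * X ∨ l = 100 * X + 9 ∨ l = 100 * X - 10 := by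
  rcases h.2 with h | h | h | h | h <;> omega

theorem lm (h : BIt E U W ρ N j X Y l r) (hl : l = 100 * X - 10) :
    r = 100 * Y ∧ Y = W j X ∧ N X ∧ ρ X = !j := by
  rcases h.2 with h | h | h | h | h
  · omega
  · omega
  · omega
  · omega
  · exact ⟨h.2.1, h.2.2.1, h.2.2.2.1, h.2.2.2.2⟩

theorem lp (h : BIt E U W ρ N j X Y l r) (hl : l = 100 * X + 9) :
    r = 100 * Y ∧ Y = W j X ∧ N X ∧ ρ X = j := by
  rcases h.2 with h | h | h | h | h
  · omega
  · omega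
  · omega
  · exact ⟨h.2.1, h.2.2.1, h.2.2.2.1, h.2.2.2.2⟩
  · omega

theorem rp (h : BIt E U W ρ N j X Y l r) (hr : r = 100 * Y + 10) :
    l = 100 * X ∧ X = U j Y ∧ N Y ∧ ρ Y = j := by
  rcases h.2 with h | h | h | h | h
  · omega
  · exact ⟨h.1, h.2.2.1, h.2.2.2.1, h.2.2.2.2⟩
  · omega
  · omega
  · omega

theorem rm (h : BIt E U W ρ N j X Y l r) (hr : r = 100 * Y - 9) :
    l = 100 * X ∧ X = U j Y ∧ N Y ∧ ρ Y = !j := by
  rcases h.2 with h | h | h | h | h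
  · omega
  · omega
  · exact ⟨h.1, h.2.2.1, h.2.2.2.1, h.2.2.2.2⟩
  · omega
  · omega

theorem br (h : BIt E U W ρ N j X Y l r) : r = 100 * Y ∨ r = 100 * Y + 10 ∨ r = 100 * Y - 9 := by
  rcases h.2 with h | h | h | h | h <;> omega

end BIt

namespace H2

variable (D : H2 E U W ρ N)

include D

/-- crossing items of the same page whose base edges do not touch -/
theorem pair {j : Bool} {X Y l r X' Y' l' r' : ℤ} (h : BIt E U W ρ N j X Y l r)
    (h' : BIt E U W ρ N j X' Y' l' r') (h1 : l < l') (h3 : r < r') (h4 : X' < Y) :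
    (X' = X ∧ l = 100 * X ∧ l' = 100 * X + 9 ∧ r' = 100 * Y' ∧ Y' = W j X ∧ N X ∧ ρ X = j ∧
      Y < Y') ∨
    (Y' = Y ∧ l = 100 * X ∧ r = 100 * Y - 9 ∧ r' = 100 * Y ∧ X = U j Y ∧ N Y ∧ ρ Y = !j ∧
      X < X') := by
  obtain ⟨e, h⟩ := h
  obtain ⟨e', h'⟩ := h'
  have a1 := D.lt _ _ _ e
  have a2 := D.lt _ _ _ e'
  have n1 := D.nc j _ _ _ _ e e'
  have hb : ∀ k : Bool, k = !k → False := by decide
  by_cases hX : X' = X
  · subst hX
    have f1 : N X' → Y' ≤ W j X' := fun hv => D.new hv e'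
    have f2 : N X' → Y ≤ W j X' := fun hv => D.new hv e
    have f3 : N X' → N Y' → W j X' = Y' → U j Y' < X' := fun hx hy h => D.apexU hx hy h
    have f4 : N X' → N Y → W j X' = Y → U j Y < X' := fun hx hy h => D.apexU hx hy h
    rcases h with ⟨b1, b2⟩ | ⟨b1, b2, b3, b4, b5⟩ | ⟨b1, b2, b3, b4, b5⟩ |
        ⟨b1, b2, b3, b4, b5⟩ | ⟨b1, b2, b3, b4, b5⟩ <;>
      rcases h' with ⟨c1, c2⟩ | ⟨c1, c2, c3, c4, c5⟩ | ⟨c1, c2, c3, c4, c5⟩ |
        ⟨c1, c2, c3, c4, c5⟩ | ⟨c1, c2, c3, c4, c5⟩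
    all_goals first
      | omega
      | (exact (hb _ (b5.symm.trans c5)).elim)
      | (exact (hb _ (c5.symm.trans b5)).elim)
      | (have := f1 b4; have := f2 b4; omega)
      | (have := f1 b4; have := f2 b4; have hy : Y' = Y := by omega
         subst hy
         have := f3 b4 c4 (by omega); omega)
      | (have := f2 c4
         left
         refine ⟨rfl, b1, c1, c2, c3, c4, c5, ?_⟩
         by_contra hc
         have hy : Y' = Y := by omega
         subst hy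
         have := f3 c4 b4 (by omega)
         omega)
      | (have := f2 c4
         left
         refine ⟨rfl, b1, c1, c2, c3, c4, c5, ?_⟩
         omega)
  · have hY : Y' = Y := by
      have : X ≤ X' := by
        rcases h with h | h | h | h | h <;> rcases h' with h' | h' | h' | h' | h' <;> omega
      have : Y ≤ Y' := by
        rcases h with h | h | h | h | h <;> rcases h' with h' | h' | h' | h' | h' <;> omega
      omega
    subst hY
    have hX' : X < X' := by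
      rcases h with h | h | h | h | h <;> rcases h' with h' | h' | h' | h' | h' <;> omega
    have f1 : N Y' → U j Y' ≤ X := fun hv => D.old hv e
    rcases h with ⟨b1, b2⟩ | ⟨b1, b2, b3, b4, b5⟩ | ⟨b1, b2, b3, b4, b5⟩ |
        ⟨b1, b2, b3, b4, b5⟩ | ⟨b1, b2, b3, b4, b5⟩ <;>
      rcases h' with ⟨c1, c2⟩ | ⟨c1, c2, c3, c4, c5⟩ | ⟨c1, c2, c3, c4, c5⟩ |
        ⟨c1, c2, c3, c4, c5⟩ | ⟨c1, c2, c3, c4, c5⟩
    all_goals first
      | omega
      | (exact (hb _ (b5.symm.trans c5)).elim)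
      | (exact (hb _ (c5.symm.trans b5)).elim)
      | (have := f1 c4; omega)
      | (right
         exact ⟨rfl, b1, b2, by omega, b3, b4, b5, hX'⟩)

theorem t11 {j : Bool} {x z x' z' : ℤ} (hx' : N x') (hr : ρ x' = !j) (h : E j x z)
    (h' : E (!j) x' z') (h1 : x < x') (h2 : x' < z) (h3 : z < z') (h4 : z' < W (!j) x') :
    False := by
  have a1 := D.passW hx' h h1 h2
  have a2 := D.r1 (!j) x' z' hx' hr h' (by omega) h4
  rw [Bool.not_not] at a2
  omega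

theorem t22 {j : Bool} {s y s' y' : ℤ} (hy : N y) (hr : ρ y = !j) (h : E j s y)
    (h' : E (!j) s' y') (h1 : s' < y) (h2 : y < y') (h3 : s < s') (h4 : U j y < s) : False := by
  have a1 := D.passU hy h' h1 h2
  have a2 := D.r2 j y s hy hr h h4 (by omega)
  omega

theorem t12 {j : Bool} {x z s y : ℤ} (hx : N x) (hy : N y) (hrx : ρ x = j) (hry : ρ y = j)
    (h : E j x z) (hz : z < W j x) (h' : E (!j) s y) (hs : U (!j) y < s)
    (hc : (x < U (!j) y ∧ s ≤ z ∧ W j x < y ∧ (s = z → ρ z = j)) ∨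
      (s ≤ x ∧ x < y ∧ y ≤ z ∧ (s = x → W (!j) x = y))) : False := by
  rcases hc with ⟨c1, c2, c3, c4⟩ | ⟨c1, c2, c3, c4⟩
  · obtain ⟨a1, a2⟩ := D.a j x y s z hx hy hrx hry c1 c3 h' hs h hz c2
    have := c4 a1
    rw [a2] at this
    revert this
    cases j <;> simp
  · have a1 := D.passU hy (D.ew j x hx) c2 (by omega)
    rcases lt_or_eq_of_le c1 with k | k
    · have a2 := D.r2 (!j) y s hy (by rw [Bool.not_not]; exact hry) h' hs (by omega)
      rw [Bool.not_not] at a2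
      omega
    · subst k
      have a2 := c4 rfl
      by_cases hz1 : s + 1 < z
      · have a3 := D.r1 j s z hx hrx h hz1 hz
        have a4 : z = y := by omega
        subst a4
        have a5 := D.both h h' (Or.inl hx)
        omega
      · have a4 : z = y := by omega
        have a5 : y = s + 1 := by omega
        subst a5
        rcases D.g j s hx hy hrx hry with a6 | a6 <;> omega

/-- the crossing relation -/
def _root_.Pool.Agent.Lib.MP_d86530_co.XC (l r l' r' : ℤ) : Prop :=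
  (l < l' ∧ l' < r ∧ r < r') ∨ (l' < l ∧ l < r' ∧ r' < r)

theorem cross22 {j : Bool} {m X₁ Y₁ l₁ r₁ X₂ Y₂ l₂ r₂ X₃ Y₃ l₃ r₃ X₄ Y₄ l₄ r₄ : ℤ}
    (h₁ : BIt E U W ρ N j X₁ Y₁ l₁ r₁) (h₂ : BIt E U W ρ N j X₂ Y₂ l₂ r₂)
    (h₃ : BIt E U W ρ N (!j) X₃ Y₃ l₃ r₃) (h₄ : BIt E U W ρ N (!j) X₄ Y₄ l₄ r₄)
    (a12 : l₁ < l₂ ∧ r₁ < r₂) (a34 : l₃ < l₄ ∧ r₃ < r₄)
    (a13 : XC l₁ r₁ l₃ r₃) (a14 : XC l₁ r₁ l₄ r₄) (a23 : XC l₂ r₂ l₃ r₃) (a24 : XC l₂ r₂ l₄ r₄)
    (hX : X₁ < m ∧ X₂ < m ∧ X₃ < m ∧ X₄ < m) (hY : m ≤ Y₁ ∧ m ≤ Y₂ ∧ m ≤ Y₃ ∧ m ≤ Y₄) :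
    False := by
  unfold XC at a13 a14 a23 a24
  have l1 := h₁.bl
  have l2 := h₂.bl
  have l3 := h₃.bl
  have l4 := h₄.bl
  have q1 := h₁.br
  have q2 := h₂.br
  have q3 := h₃.br
  have q4 := h₄.br
  rcases D.pair h₁ h₂ a12.1 a12.2 (by omega) with
      ⟨c1, c2, c3, c4, c5, c6, c7, c8⟩ | ⟨c1, c2, c3, c4, c5, c6, c7, c8⟩ <;>
    rcases D.pair h₃ h₄ a34.1 a34.2 (by omega) with
      ⟨d1, d2, d3, d4, d5, d6, d7, d8⟩ | ⟨d1, d2, d3, d4, d5, d6, d7, d8⟩
  · -- both of the first type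
    rcases lt_or_gt_of_ne (show X₁ ≠ X₃ by omega) with k | k
    · exact D.t11 d6 d7 h₁.edge h₃.edge k (by omega) (by omega) (by omega)
    · exact D.t11 (j := !j) (x' := X₁) (z' := Y₁) c6 (by rw [Bool.not_not]; exact c7) h₃.edge
        (by rw [Bool.not_not]; exact h₁.edge) k (by omega) (by omega)
        (by rw [Bool.not_not]; omega)
  · have e4 : E (!j) X₄ Y₃ := by rw [← d1]; exact h₄.edge
    rw [Bool.not_not] at d7
    refine D.t12 c6 d6 c7 d7 h₁.edge (by omega) e4 (by omega) ?_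
    by_cases k : X₁ < X₃
    · left
      refine ⟨by omega, by omega, by omega, fun h => by omega⟩
    · right
      refine ⟨by omega, by omega, by omega, fun h => ?_⟩
      have := h₄.lm (by omega)
      rw [← h]
      omega
  · have e4 : E (!(!j)) X₂ Y₁ := by rw [← c1, Bool.not_not]; exact h₂.edge
    have c5' : X₁ = U (!(!j)) Y₁ := by rw [Bool.not_not]; exact c5
    refine D.t12 (j := !j) d6 c6 d7 c7 h₃.edge (by omega) e4 (by omega) ?_
    by_cases k : X₃ < X₁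
    · left
      refine ⟨by omega, by omega, by omega, fun h => by omega⟩
    · right
      refine ⟨by omega, by omega, by omega, fun h => ?_⟩
      have := h₂.lm (by omega)
      rw [Bool.not_not, ← h]
      omega
  · rcases lt_or_gt_of_ne (show Y₁ ≠ Y₃ by omega) with k | k
    · have e2 : E j X₂ Y₁ := by rw [← c1]; exact h₂.edge
      have e4 : E (!j) X₄ Y₃ := by rw [← d1]; exact h₄.edge
      exact D.t22 c6 c7 e2 e4 (by omega) (by omega) (by omega) (by omega)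
    · have e2 : E (!(!j)) X₂ Y₁ := by rw [← c1, Bool.not_not]; exact h₂.edge
      have e4 : E (!j) X₄ Y₃ := by rw [← d1]; exact h₄.edge
      exact D.t22 (j := !j) d6 d7 e4 e2 (by omega) (by omega) (by omega) (by omega)

theorem triple {j : Bool} {m X₁ Y₁ l₁ r₁ X₂ Y₂ l₂ r₂ X₃ Y₃ l₃ r₃ : ℤ}
    (h₁ : BIt E U W ρ N j X₁ Y₁ l₁ r₁) (h₂ : BIt E U W ρ N j X₂ Y₂ l₂ r₂)
    (h₃ : BIt E U W ρ N j X₃ Y₃ l₃ r₃) (a12 : l₁ < l₂ ∧ r₁ < r₂) (a23 : l₂ < l₃ ∧ r₂ < r₃)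
    (hX : X₁ < m ∧ X₂ < m ∧ X₃ < m) (hY : m ≤ Y₁ ∧ m ≤ Y₂ ∧ m ≤ Y₃) : False := by
  rcases D.pair h₁ h₂ a12.1 a12.2 (by omega) with
      ⟨c1, c2, c3, c4, c5, c6, c7, c8⟩ | ⟨c1, c2, c3, c4, c5, c6, c7, c8⟩ <;>
    rcases D.pair h₂ h₃ a23.1 a23.2 (by omega) with
      ⟨d1, d2, d3, d4, d5, d6, d7, d8⟩ | ⟨d1, d2, d3, d4, d5, d6, d7, d8⟩ <;>
    rcases D.pair h₁ h₃ (by omega) (by omega) (by omega) with
      ⟨e1, e2, e3, e4, e5, e6, e7, e8⟩ | ⟨e1, e2, e3, e4, e5, e6, e7, e8⟩ <;>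
    omega

/-- no twist whose base edges properly overlap -/
theorem far {j₁ j₂ j₃ j₄ : Bool} {X₁ Y₁ l₁ r₁ X₂ Y₂ l₂ r₂ X₃ Y₃ l₃ r₃ X₄ Y₄ l₄ r₄ : ℤ}
    (h₁ : BIt E U W ρ N j₁ X₁ Y₁ l₁ r₁) (h₂ : BIt E U W ρ N j₂ X₂ Y₂ l₂ r₂)
    (h₃ : BIt E U W ρ N j₃ X₃ Y₃ l₃ r₃) (h₄ : BIt E U W ρ N j₄ X₄ Y₄ l₄ r₄)
    (a1 : l₁ < l₂) (a2 : l₂ < l₃) (a3 : l₃ < l₄) (a4 : l₄ < r₁) (a5 : r₁ < r₂)
    (a6 : r₂ < r₃) (a7 : r₃ < r₄) (a8 : X₄ < Y₁) : False := by
  have b3 : X₃ ≤ X₄ := by have := h₃.bl; have := h₄.bl; omega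
  have b2 : X₂ ≤ X₃ := by have := h₂.bl; have := h₃.bl; omega
  have b1 : X₁ ≤ X₂ := by have := h₁.bl; have := h₂.bl; omega
  have c1 : Y₁ ≤ Y₂ := by have := h₁.br; have := h₂.br; omega
  have c2 : Y₂ ≤ Y₃ := by have := h₂.br; have := h₃.br; omega
  have c3 : Y₃ ≤ Y₄ := by have := h₃.br; have := h₄.br; omega
  have x1 : X₁ < Y₁ := by omega
  have x2 : X₂ < Y₁ := by omega
  have x3 : X₃ < Y₁ := by omega
  have y2 : Y₁ ≤ Y₂ := by omega
  have y3 : Y₁ ≤ Y₃ := by omega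
  have y4 : Y₁ ≤ Y₄ := by omega
  have a13 := a1.trans a2
  have a14 := a13.trans a3
  have a24 := a2.trans a3
  have s13 := a5.trans a6
  have s14 := s13.trans a7
  have s24 := a6.trans a7
  have m3 := a3.trans a4
  have m2 := a2.trans m3
  have t2 := a4.trans a5
  have t3 := t2.trans a6
  have x12 : XC l₁ r₁ l₂ r₂ := Or.inl ⟨a1, m2, a5⟩
  have x13 : XC l₁ r₁ l₃ r₃ := Or.inl ⟨a13, m3, s13⟩
  have x14 : XC l₁ r₁ l₄ r₄ := Or.inl ⟨a14, a4, s14⟩
  have x23 : XC l₂ r₂ l₃ r₃ := Or.inl ⟨a2, m3.trans a5, a6⟩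
  have x24 : XC l₂ r₂ l₄ r₄ := Or.inl ⟨a24, t2, s24⟩
  have x34 : XC l₃ r₃ l₄ r₄ := Or.inl ⟨a3, t3, a7⟩
  have x32 : XC l₃ r₃ l₂ r₂ := Or.inr ⟨a2, m3.trans a5, a6⟩
  have x42 : XC l₄ r₄ l₂ r₂ := Or.inr ⟨a24, t2, s24⟩
  have x43 : XC l₄ r₄ l₃ r₃ := Or.inr ⟨a3, t3, a7⟩
  by_cases h12 : j₂ = j₁
  · subst h12
    by_cases h13 : j₃ = j₂
    · subst h13
      exact D.triple h₁ h₂ h₃ ⟨a1, a5⟩ ⟨a2, a6⟩ ⟨x1, x2, x3⟩ ⟨le_refl _, y2, y3⟩
    · by_cases h14 : j₄ = j₂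
      · subst h14
        exact D.triple h₁ h₂ h₄ ⟨a1, a5⟩ ⟨a24, s24⟩ ⟨x1, x2, a8⟩ ⟨le_refl _, y2, y4⟩
      · obtain rfl : j₃ = !j₂ := by revert h13; cases j₂ <;> cases j₃ <;> simp
        obtain rfl : j₄ = !j₂ := by revert h14; cases j₂ <;> cases j₄ <;> simp
        exact D.cross22 h₁ h₂ h₃ h₄ ⟨a1, a5⟩ ⟨a3, a7⟩ x13 x14 x23 x24 ⟨x1, x2, x3, a8⟩
          ⟨le_refl _, y2, y3, y4⟩
  · obtain rfl : j₂ = !j₁ := by revert h12; cases j₁ <;> cases j₂ <;> simp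
    by_cases h13 : j₃ = j₁
    · subst h13
      by_cases h14 : j₄ = j₃
      · subst h14
        exact D.triple h₁ h₃ h₄ ⟨a13, s13⟩ ⟨a3, a7⟩ ⟨x1, x3, a8⟩ ⟨le_refl _, y3, y4⟩
      · obtain rfl : j₄ = !j₃ := by revert h14; cases j₃ <;> cases j₄ <;> simp
        exact D.cross22 h₁ h₃ h₂ h₄ ⟨a13, s13⟩ ⟨a24, s24⟩ x12 x14 x32 x34
          ⟨x1, x3, x2, a8⟩ ⟨le_refl _, y3, y2, y4⟩
    · obtain rfl : j₃ = !j₁ := by revert h13; cases j₁ <;> cases j₃ <;> simp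
      by_cases h14 : j₄ = j₁
      · subst h14
        exact D.cross22 h₁ h₄ h₂ h₃ ⟨a14, s14⟩ ⟨a2, a6⟩ x12 x13 x42 x43
          ⟨x1, a8, x2, x3⟩ ⟨le_refl _, y4, y2, y3⟩
      · obtain rfl : j₄ = !j₁ := by revert h14; cases j₁ <;> cases j₄ <;> simp
        exact D.triple h₂ h₃ h₄ ⟨a2, a6⟩ ⟨a3, a7⟩ ⟨x2, x3, a8⟩ ⟨y2, y3, y4⟩

theorem k1 {p : Bool} {x g : ℤ} (hx : N x) (hg : N g) (hrx : ρ x = p) (hrg : ρ g = p)
    (h : E p x g) (hw : g < W p x) (hu : U (!p) g < x) : False := by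
  have h0 := D.lt _ _ _ h
  by_cases hc : x + 1 < g
  · have a1 := D.r1 p x g hx hrx h hc hw
    have a2 := D.passW hx (D.eu (!p) g hg) hu h0
    have a3 : W (!p) x = g := by omega
    have a4 := D.both h (a3 ▸ D.ew (!p) x hx) (Or.inl hx)
    omega
  · have a1 : g = x + 1 := by omega
    subst a1
    rcases D.g p x hx hg hrx hrg with a2 | a2 <;> omega

theorem k2 {p : Bool} {x z g : ℤ} (hx : N x) (hg : N g) (hrx : ρ x = p) (h : E p x z)
    (h1 : x < g) (h2 : g < z) (h3 : z < W p x) (hu : U (!p) g < x) : False := by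
  have a1 := D.r1 p x z hx hrx h (by omega) h3
  have a2 := D.passW hx (D.eu (!p) g hg) hu h1
  omega

theorem k3 {p : Bool} {s y g : ℤ} (hy : N y) (hg : N g) (hry : ρ y = !p) (h : E p s y)
    (hu : U p y < s) (h1 : s < g) (h2 : g < y) (h3 : y < W (!p) g) : False := by
  have a1 := D.r2 p y s hy hry h hu (by omega)
  have a2 := D.passU hy (D.ew (!p) g hg) h2 h3
  omega

/-- two items of the right page pass over `g` -/
theorem passpp {p : Bool} {g X₂ Y₂ l₂ r₂ X₃ Y₃ l₃ r₃ : ℤ} (hg : N g)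
    (h₂ : BIt E U W ρ N p X₂ Y₂ l₂ r₂) (h₃ : BIt E U W ρ N p X₃ Y₃ l₃ r₃)
    (a2 : l₂ < l₃) (a6 : r₂ < r₃) (c2 : g < Y₂) (c3 : X₃ < g) (a7 : r₃ < 100 * W (!p) g) :
    X₃ = X₂ ∧ l₂ = 100 * X₂ ∧ Y₃ = W p X₂ ∧ N X₂ ∧ ρ X₂ = p ∧ Y₂ < Y₃ := by
  rcases D.pair h₂ h₃ a2 a6 (by omega) with
      ⟨c1, c2, c3, c4, c5, c6, c7, c8⟩ | ⟨c1, c2, c3, c4, c5, c6, c7, c8⟩
  · exact ⟨c1, c2, c5, c6, c7, c8⟩
  · exact (D.k3 (s := X₃) c6 hg c7 (c1 ▸ h₃.edge) (by omega) (by omega) (by omega)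
      (by omega)).elim

/-- an item of the left page which passes over `g` -/
theorem passq {p : Bool} {g X Y l r : ℤ} (hg : N g)
    (h : BIt E U W ρ N (!p) X Y l r) (c2 : g < Y) (c3 : X < g) (a7 : r < 100 * W (!p) g) :
    X ≤ U (!p) g ∧ Y = W (!p) g ∧ l = 100 * X ∧ r = 100 * W (!p) g - 9 ∧ X = U (!p) Y ∧ N Y ∧
      ρ Y = p := by
  have a1 := D.passU hg h.edge c3 c2
  have a2 := D.passW hg h.edge c3 c2
  have a3 := h.br
  have a4 := h.rm (by omega)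
  rw [Bool.not_not] at a4
  refine ⟨a1, by omega, a4.1, by omega, a4.2.1, a4.2.2⟩

/-- an item with base end `g` -/
theorem endU {j : Bool} {g X l r : ℤ} (hg : N g) (h : BIt E U W ρ N j X g l r) :
    (X = U j g ∧ l = 100 * X) ∨ U j g < X := by
  have a1 := D.old hg h.edge
  rcases lt_or_eq_of_le a1 with k | k
  · exact Or.inr k
  · left
    rcases h.bl with b | b | b
    · exact ⟨k.symm, b⟩
    · obtain ⟨-, c2, c3, -⟩ := h.lp b
      have := D.apexU c3 hg c2.symm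
      omega
    · obtain ⟨-, c2, c3, -⟩ := h.lm b
      have := D.apexU c3 hg c2.symm
      omega

/-- consecutive vertices with the same right page -/
theorem gap1 {p : Bool} {x g : ℤ} (hx : N x) (hg : N g) (hrx : ρ x = p) (hrg : ρ g = p)
    (h1 : g = x + 1) (h2 : U (!p) g < x) : W p x = g := by
  subst h1
  rcases D.g p x hx hg hrx hrg with a | a
  · exact a
  · omega

theorem nearA {p j₂ j₃ : Bool} {g l₁ X₂ Y₂ l₂ r₂ X₃ Y₃ l₃ r₃ : ℤ} (hg : N g)
    (hrg : ρ g = p) (b1 : l₁ = 100 * U (!p) g) (h₂ : BIt E U W ρ N j₂ X₂ Y₂ l₂ r₂)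
    (h₃ : BIt E U W ρ N j₃ X₃ Y₃ l₃ r₃)
    (a1 : l₁ < l₂) (a2 : l₂ < l₃) (a3 : l₃ < 100 * g - 10) (a5 : 100 * g - 9 < r₂)
    (a6 : r₂ < r₃) (a7 : r₃ < 100 * W (!p) g) : False := by
  have b2 := h₂.bl
  have b3 := h₃.bl
  have c2 := h₂.br
  have c3 := h₃.br
  have x3 : X₃ < g := by omega
  have x23 : X₂ ≤ X₃ := by omega
  have y2 : g ≤ Y₂ := by omega
  have y3 : Y₂ ≤ Y₃ := by omega
  -- passing items are of the page `p`
  have hp3 : g < Y₃ → j₃ = p := by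
    intro hY
    rcases Bool.eq_or_eq_not j₃ p with k | k
    · exact k
    · subst k
      have := D.passq hg h₃ hY x3 a7
      omega
  have hp2 : g < Y₂ → j₂ = p := by
    intro hY
    rcases Bool.eq_or_eq_not j₂ p with k | k
    · exact k
    · subst k
      have := D.passq hg h₂ hY (by omega) (by omega)
      omega
  by_cases hY2 : g < Y₂
  · obtain rfl := hp2 hY2
    obtain rfl := hp3 (by omega)
    obtain ⟨d1, d2, d3, d4, d5, d6⟩ := D.passpp hg h₂ h₃ a2 a6 hY2 x3 a7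
    exact D.k2 d4 hg d5 h₂.edge (by omega) hY2 (by omega) (by omega)
  · obtain rfl : Y₂ = g := by omega
    by_cases hr2 : r₂ = 100 * Y₂ + 10
    · obtain ⟨d1, d2, d3, d4⟩ := h₂.rp hr2
      obtain rfl : j₂ = p := by rw [← d4, hrg]
      obtain rfl := hp3 (by omega)
      have d5 := D.passU hg h₃.edge x3 (by omega)
      obtain ⟨e1, e2, e3, e4⟩ := h₃.lp (by omega)
      have e5 : X₃ = U j₃ Y₂ := by omega
      exact D.k1 (x := X₃) e3 hg e4 hrg (e5 ▸ D.eu j₃ Y₂ hg) (by omega) (by omega)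
    · have hr2' : r₂ = 100 * Y₂ := by omega
      have hj2 : U j₂ Y₂ ≤ X₂ := D.old hg h₂.edge
      have hu := D.endU hg h₂
      -- the case of the left page
      have hq : j₂ = !p → U (!p) Y₂ < X₂ := by
        rintro rfl
        omega
      have hq2 : j₂ = !p → X₂ < Y₂ - 1 → U p Y₂ ≤ X₂ ∧ X₂ ≠ U p Y₂ := by
        rintro rfl hX
        have e1 := D.r2 (!p) Y₂ X₂ hg (by rw [Bool.not_not]; exact hrg) h₂.edge (by omega) hX
        rw [Bool.not_not] at e1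
        refine ⟨e1, fun e2 => ?_⟩
        have e3 := D.both (j := p) (e2 ▸ D.eu p Y₂ hg) h₂.edge (Or.inr hg)
        omega
      -- consecutive vertices
      have hc : ∀ x, N x → ρ x = p → U (!p) Y₂ < x → Y₂ = x + 1 → W p x = Y₂ :=
        fun x h1 h2 h3 h4 => D.gap1 h1 hg h2 hrg h4 h3
      by_cases hY3 : Y₂ < Y₃
      · obtain rfl := hp3 hY3
        have d5 := D.passU hg h₃.edge x3 hY3
        rcases Bool.eq_or_eq_not j₂ j₃ with k | k
        · subst k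
          have d6 : X₃ = X₂ := by omega
          obtain ⟨e1, e2, e3, e4⟩ := h₃.lp (by omega)
          exact D.k1 (x := X₃) e3 hg e4 hrg (d6 ▸ h₂.edge) (by omega) (by omega)
        · have q1 := hq k
          have q2 := hq2 k
          have d6 : X₂ = Y₂ - 1 := by
            by_contra hne
            have := q2 (by omega)
            omega
          have d7 : X₃ = X₂ := by omega
          subst d7
          have d8 : N X₃ → Y₃ ≤ W j₃ X₃ := fun hN => D.new hN h₃.edge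
          by_cases hl : l₂ = 100 * X₃ - 10
          · obtain ⟨e1, e2, e3, e4⟩ := h₂.lm hl
            rw [k, Bool.not_not] at e4
            have := hc X₃ e3 e4 q1 (by omega)
            have := d8 e3
            omega
          · obtain ⟨e1, e2, e3, e4⟩ := h₃.lp (by omega)
            have := hc X₃ e3 e4 q1 (by omega)
            omega
      · have hY3' : Y₃ = Y₂ := by omega
        subst hY3'
        obtain ⟨e1, e2, e3, e4⟩ := h₃.rp (by omega)
        obtain rfl : j₃ = p := by rw [← e4, hrg]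
        rcases Bool.eq_or_eq_not j₂ j₃ with k | k
        · subst k
          omega
        · have q1 := hq k
          have q2 := hq2 k
          have d6 : X₂ = Y₃ - 1 := by
            by_contra hne
            have := q2 (by omega)
            omega
          obtain ⟨f1, f2, f3, f4⟩ := h₂.lm (by omega)
          rw [k, Bool.not_not] at f4
          have f5 := hc X₂ f3 f4 q1 (by omega)
          have f6 := D.apexU f3 hg f5
          omega

/-- the far conflict, in the form used at `g` -/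
theorem farA {p : Bool} {x y g : ℤ} (hx : N x) (hg : N g) (hy : N y) (hrx : ρ x = p)
    (hrg : ρ g = p) (hry : ρ y = p) (h : E p x g) (h1 : g < W p x) (h2 : W p x < y)
    (h3 : y = W (!p) g) (h4 : x < U (!p) y) : False := by
  have a1 : E (!p) g y := h3 ▸ D.ew (!p) g hg
  have a2 : U (!p) y ≤ g := D.old hy a1
  have a5 : U (!p) y < g := by
    subst h3
    exact D.apexU hg hy rfl
  obtain ⟨-, a4⟩ := D.a p x y g g hx hy hrx hry h4 h2 a1 a5 h h1 le_rfl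
  rw [hrg] at a4
  revert a4
  cases p <;> simp

theorem nearC {p j₂ j₃ : Bool} {g l₁ X₂ Y₂ l₂ r₂ X₃ Y₃ l₃ r₃ : ℤ} (hg : N g)
    (hrg : ρ g = p) (b1 : l₁ = 100 * U p g) (h₂ : BIt E U W ρ N j₂ X₂ Y₂ l₂ r₂)
    (h₃ : BIt E U W ρ N j₃ X₃ Y₃ l₃ r₃)
    (a1 : l₁ < l₂) (a2 : l₂ < l₃) (a3 : l₃ < 100 * g - 10) (a5 : 100 * g + 10 < r₂)
    (a6 : r₂ < r₃) (a7 : r₃ < 100 * W (!p) g) : False := by
  have b2 := h₂.bl
  have b3 := h₃.bl
  have c2 := h₂.br
  have c3 := h₃.br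
  have x3 : X₃ < g := by omega
  have x23 : X₂ ≤ X₃ := by omega
  have y2 : g < Y₂ := by omega
  have y3 : Y₂ ≤ Y₃ := by omega
  rcases Bool.eq_or_eq_not j₂ p with k | k
  · subst k
    have d1 := D.passU hg h₂.edge (by omega) y2
    obtain ⟨e1, e2, e3, e4⟩ := h₂.lp (by omega)
    rcases Bool.eq_or_eq_not j₃ j₂ with k | k
    · subst k
      have d2 := D.passU hg h₃.edge (by omega) (by omega)
      omega
    · subst k
      obtain ⟨f1, f2, f3, f4, f5, f6, f7⟩ := D.passq hg h₃ (by omega) x3 a7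
      have e5 : X₂ = U j₂ g := by omega
      exact D.farA e3 hg f6 e4 hrg f7 (e5 ▸ D.eu j₂ g hg) (by omega) (by omega) f2 (by omega)
  · subst k
    obtain ⟨f1, f2, f3, f4, f5, f6, f7⟩ := D.passq hg h₂ y2 (by omega) (by omega)
    omega

theorem nearB {p j₁ j₂ j₃ : Bool} {g X₁ l₁ r₁ X₂ Y₂ l₂ r₂ X₃ Y₃ l₃ r₃ : ℤ} (hg : N g)
    (hrg : ρ g = p) (h₁ : BIt E U W ρ N j₁ X₁ g l₁ r₁) (h₂ : BIt E U W ρ N j₂ X₂ Y₂ l₂ r₂)
    (h₃ : BIt E U W ρ N j₃ X₃ Y₃ l₃ r₃)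
    (a1 : l₁ < l₂) (a2 : l₂ < l₃) (a3 : l₃ < 100 * g - 10)
    (a5 : 100 * g < r₂) (a6 : r₂ < r₃) (a7 : r₃ < 100 * W (!p) g) : False := by
  have b1 := h₁.bl
  have b2 := h₂.bl
  have b3 := h₃.bl
  have c2 := h₂.br
  have c3 := h₃.br
  have x3 : X₃ < g := by omega
  have x23 : X₂ ≤ X₃ := by omega
  have x12 : X₁ ≤ X₂ := by omega
  have y2 : g ≤ Y₂ := by omega
  have y3 : Y₂ ≤ Y₃ := by omega
  have u1 := D.endU hg h₁
  have hnp : ∀ k : Bool, k = !k → False := by decide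
  by_cases hY2 : g < Y₂
  · -- both pass
    rcases Bool.eq_or_eq_not j₂ p with k | k
    · subst k
      rcases Bool.eq_or_eq_not j₃ j₂ with k | k
      · subst k
        obtain ⟨d1, d2, d3, d4, d5, d6⟩ := D.passpp hg h₂ h₃ a2 a6 hY2 x3 a7
        have d7 := D.r1 j₃ X₂ Y₂ d4 d5 h₂.edge (by omega) (by omega)
        rcases Bool.eq_or_eq_not j₁ j₃ with k | k
        · subst k
          have n1 := D.nc j₁ _ _ _ _ h₁.edge h₂.edge
          have d8 : X₁ = X₂ := by omega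
          obtain ⟨e1, e2, e3, e4⟩ := h₁.lm (by omega)
          exact hnp _ (by rw [← e4, d8, d5])
        · subst k
          have n1 := D.nc (!j₃) _ _ _ _ h₁.edge (D.ew (!j₃) X₂ d4)
          have d8 : X₁ = X₂ := by omega
          obtain ⟨e1, e2, e3, e4⟩ := h₁.lm (by omega)
          rw [d8] at e2
          omega
      · subst k
        obtain ⟨f1, f2, f3, f4, f5, f6, f7⟩ := D.passq hg h₃ (by omega) x3 a7
        rcases Bool.eq_or_eq_not j₁ j₂ with k | k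
        · subst k
          have d1 := D.passU hg h₂.edge (by omega) hY2
          have d2 : X₂ = X₁ := by omega
          obtain ⟨e1, e2, e3, e4⟩ := h₂.lp (by omega)
          exact D.farA e3 hg f6 e4 hrg f7 (d2 ▸ h₁.edge) (by omega) (by omega) f2 (by omega)
        · subst k
          omega
    · subst k
      obtain ⟨f1, f2, f3, f4, f5, f6, f7⟩ := D.passq hg h₂ hY2 (by omega) (by omega)
      omega
  · -- `aR g`
    obtain rfl : Y₂ = g := by omega
    obtain ⟨d1, d2, d3, d4⟩ := h₂.rp (by omega)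
    obtain rfl : j₂ = p := by rw [← d4, hrg]
    rcases Bool.eq_or_eq_not j₁ j₂ with k | k
    · subst k
      omega
    · subst k
      rcases Bool.eq_or_eq_not j₃ j₂ with k | k
      · subst k
        have d5 := D.passU hg h₃.edge x3 (by omega)
        obtain ⟨e1, e2, e3, e4⟩ := h₃.lp (by omega)
        have e5 : X₃ = U j₃ Y₂ := by omega
        exact D.k1 (x := X₃) e3 hg e4 hrg (e5 ▸ D.eu j₃ Y₂ hg) (by omega) (by omega)
      · subst k
        obtain ⟨f1, f2, f3, f4, f5, f6, f7⟩ := D.passq hg h₃ (by omega) x3 a7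
        omega

/-- no twist at `g` with the left host of `g` to its latest neighbour -/
theorem nearL {p j₁ j₂ j₃ : Bool} {g X₁ l₁ r₁ X₂ Y₂ l₂ r₂ X₃ Y₃ l₃ r₃ : ℤ} (hg : N g)
    (hrg : ρ g = p) (h₁ : BIt E U W ρ N j₁ X₁ g l₁ r₁) (h₂ : BIt E U W ρ N j₂ X₂ Y₂ l₂ r₂)
    (h₃ : BIt E U W ρ N j₃ X₃ Y₃ l₃ r₃)
    (a1 : l₁ < l₂) (a2 : l₂ < l₃) (a3 : l₃ < 100 * g - 10)
    (a5 : r₁ < r₂) (a6 : r₂ < r₃) (a7 : r₃ < 100 * W (!p) g) : False := by
  rcases h₁.br with c1 | c1 | c1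
  · exact D.nearB hg hrg h₁ h₂ h₃ a1 a2 a3 (by omega) a6 a7
  · obtain ⟨e1, e2, e3, e4⟩ := h₁.rp c1
    obtain rfl : j₁ = p := by rw [← e4, hrg]
    exact D.nearC hg hrg (by omega) h₂ h₃ a1 a2 a3 (by omega) a6 a7
  · obtain ⟨e1, e2, e3, e4⟩ := h₁.rm c1
    obtain rfl : j₁ = !p := by rw [← hrg, e4, Bool.not_not]
    exact D.nearA hg hrg (by omega) h₂ h₃ a1 a2 a3 (by omega) a6 a7

/-- the mirror image -/
theorem mirror : H2 (fun j x y => E j (-y) (-x)) (fun j v => -W j (-v)) (fun j v => -U j (-v))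
    (fun v => !ρ (-v)) (fun v => N (-v)) where
  lt j x y h := by
    have := D.lt _ _ _ h
    omega
  nc j x y x' y' h h' := by
    have := D.nc j _ _ _ _ h' h
    omega
  eu j v hv := by
    show E j (-v) (-(-W j (-v)))
    rw [neg_neg]
    exact D.ew j _ hv
  ew j v hv := by
    show E j (-(-U j (-v))) (-v)
    rw [neg_neg]
    exact D.eu j _ hv
  euw j v hv := by
    show E j (-(-U j (-v))) (-(-W j (-v)))
    rw [neg_neg, neg_neg]
    exact D.euw j _ hv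
  nn j j' x y z h h' := D.nn j' j _ _ _ h' h
  smp j x y h h' := by
    rcases D.smp j _ _ h h' with k | ⟨k1, k2⟩
    · left; omega
    · exact Or.inr ⟨k2, k1⟩
  r1 j v x hv hr h h1 h2 := by
    have := D.r2 j (-v) (-x) hv (by rw [← hr, Bool.not_not]) h (by omega) (by omega)
    omega
  r2 j v x hv hr h h1 h2 := by
    have := D.r1 j (-v) (-x) hv (by simpa using hr) h (by omega) (by omega)
    omega
  g j v hv hv' hr hr' := by
    have e : -(v + 1) + 1 = -v := by ring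
    have := D.g (!j) (-(v + 1)) hv' (by rw [e]; exact hv) (by rw [← hr', Bool.not_not])
      (by rw [e, ← hr, Bool.not_not])
    rw [e, Bool.not_not] at this
    omega
  a j x y s z hx hy hrx hry h1 h2 h3 h4 h5 h6 h7 := by
    have := D.a (!j) (-y) (-x) (-z) (-s) hy hx (by rw [← hry, Bool.not_not])
      (by rw [← hrx, Bool.not_not]) (by rw [Bool.not_not]; omega) (by omega)
      (by rw [Bool.not_not]; exact h5) (by rw [Bool.not_not]; omega) h3 (by omega) (by omega)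
    obtain ⟨k1, k2⟩ := this
    have k3 : s = z := by omega
    refine ⟨k3, ?_⟩
    rw [← k3, k2, Bool.not_not]

end H2

theorem BIt.mirror {j : Bool} {X Y l r : ℤ} (h : BIt E U W ρ N j X Y l r) :
    BIt (fun j x y => E j (-y) (-x)) (fun j v => -W j (-v)) (fun j v => -U j (-v))
      (fun v => !ρ (-v)) (fun v => N (-v)) j (-Y) (-X) (-r) (-l) := by
  obtain ⟨e, h⟩ := h
  refine ⟨by simpa using e, ?_⟩
  simp only [neg_neg]
  rcases h with ⟨b1, b2⟩ | ⟨b1, b2, b3, b4, b5⟩ | ⟨b1, b2, b3, b4, b5⟩ | ⟨b1, b2, b3, b4, b5⟩ |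
      ⟨b1, b2, b3, b4, b5⟩
  · exact Or.inl ⟨by omega, by omega⟩
  · exact Or.inr (Or.inr (Or.inr (Or.inr ⟨by omega, by omega, by omega, b4, by rw [b5]⟩)))
  · exact Or.inr (Or.inr (Or.inr (Or.inl
      ⟨by omega, by omega, by omega, b4, by rw [b5, Bool.not_not]⟩)))
  · exact Or.inr (Or.inr (Or.inl ⟨by omega, by omega, by omega, b4, by rw [b5]⟩))
  · exact Or.inr (Or.inl ⟨by omega, by omega, by omega, b4, by rw [b5, Bool.not_not]⟩)

/-- **no four items cross pairwise** -/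
theorem H2.no_twist (D : H2 E U W ρ N) {j₁ j₂ j₃ j₄ : Bool}
    {X₁ Y₁ l₁ r₁ X₂ Y₂ l₂ r₂ X₃ Y₃ l₃ r₃ X₄ Y₄ l₄ r₄ : ℤ}
    (h₁ : BIt E U W ρ N j₁ X₁ Y₁ l₁ r₁) (h₂ : BIt E U W ρ N j₂ X₂ Y₂ l₂ r₂)
    (h₃ : BIt E U W ρ N j₃ X₃ Y₃ l₃ r₃) (h₄ : BIt E U W ρ N j₄ X₄ Y₄ l₄ r₄)
    (a1 : l₁ < l₂) (a2 : l₂ < l₃) (a3 : l₃ < l₄) (a4 : l₄ < r₁) (a5 : r₁ < r₂)
    (a6 : r₂ < r₃) (a7 : r₃ < r₄) : False := by
  by_cases a8 : X₄ < Y₁
  · exact D.far h₁ h₂ h₃ h₄ a1 a2 a3 a4 a5 a6 a7 a8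
  have hX : X₄ = Y₁ := by
    have := h₁.br
    have := h₄.bl
    omega
  subst hX
  have hg : N X₄ := D.nn _ _ _ _ _ h₁.edge h₄.edge
  by_cases c : l₄ = 100 * X₄ - 10
  · obtain ⟨e1, e2, e3, e4⟩ := h₄.lm c
    refine D.nearL (p := ρ X₄) hg rfl h₁ h₂ h₃ a1 a2 (by omega) a5 a6 ?_
    rw [e4, Bool.not_not]
    omega
  · have c' : r₁ = 100 * X₄ + 10 := by
      have := h₁.br
      have := h₄.bl
      omega
    obtain ⟨e1, e2, e3, e4⟩ := h₁.rp c'
    refine D.mirror.nearL (p := !ρ X₄) (g := -X₄) (by simpa using hg) (by simp) h₄.mirror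
      h₃.mirror h₂.mirror (by omega) (by omega) (by omega) (by omega) (by omega) ?_
    simp only [neg_neg, Bool.not_not]
    rw [e4]
    omega

end Pool.Agent.Lib.MP_d86530_co
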