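import Pool.Agent.Lib.MP_d86530_co.HostGap

/-!
# MP_d86530_co: what is needed from hosts
-/

set_option autoImplicit false

namespace Pool.Agent.Lib.MP_d86530_co

/-- the properties of host positions which give a good layout -/
structure HostOK (E : Bool → ℤ → ℤ → Prop) (U W δ : Bool → ℤ → ℤ) (H : Bool → ℤ → Prop) :
    Prop where
  del : ∀ j v, H j v → δ j v = 10 ∨ δ j v = 20 ∨ δ j v = -10 ∨ δ j v = -20
  ne : ∀ j v, H j v → H (!j) v → δ j v ≠ δ (!j) v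
  twist_sorted : ∀ {j₁ j₂ j₃ j₄ : Bool} {l₁ l₂ l₃ l₄ r₁ r₂ r₃ r₄ : ℤ},
    HItem E U W δ H j₁ l₁ r₁ → HItem E U W δ H j₂ l₂ r₂ → HItem E U W δ H j₃ l₃ r₃ →
    HItem E U W δ H j₄ l₄ r₄ → l₁ < l₂ → l₂ < l₃ → l₃ < l₄ → l₄ < r₁ → r₁ < r₂ → r₂ < r₃ →
    r₃ < r₄ → False

theorem HostData.ok {E : Bool → ℤ → ℤ → Prop} {U W δ : Bool → ℤ → ℤ} {N H : Bool → ℤ → Prop}
    (D : HostData E U W δ N H) : HostOK E U W δ H where
  del := D.del
  ne j v h h' e := by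
    have hd := D.del _ _ h
    rcases lt_or_gt_of_ne (show δ j v ≠ 0 by omega) with g | g
    · have := (D.r4 j v h h' (by omega) (by omega)).1
      omega
    · have := (D.r2 j v h h' (by omega) (by omega)).1
      omega
  twist_sorted h₁ h₂ h₃ h₄ a1 a2 a3 a4 a5 a6 a7 :=
    D.twist_sorted h₁ h₂ h₃ h₄ a1 a2 a3 a4 a5 a6 a7

end Pool.Agent.Lib.MP_d86530_co
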