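import Pool.Agent.Lib.MP_d86530_co.HostGap

/-!
# MP_d86530_co: the hosting rule

From a two-page order with the local property `WX` the hosts are placed explicitly.
-/

set_option autoImplicit false

namespace Pool.Agent.Lib.MP_d86530_co

/-- at most two right neighbours -/
def Rok (E : Bool → ℤ → ℤ → Prop) (W : Bool → ℤ → ℤ) (j : Bool) (v : ℤ) : Prop :=
  ∀ t, E j v t → t = v + 1 ∨ t = W j v

/-- an exceptional vertex: more than two left-right neighbours in the page `j` -/
def Exc (E : Bool → ℤ → ℤ → Prop) (U W : Bool → ℤ → ℤ) (j : Bool) (v : ℤ) : Prop :=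
  2 ≤ v ∧ U j v < v - 1 ∧ ¬ Rok E W j v

/-- the face with middle vertex `v` is forced to the right by the next vertex -/
def Frc (E : Bool → ℤ → ℤ → Prop) (U W : Bool → ℤ → ℤ) (n : ℤ) (j : Bool) (v : ℤ) : Prop :=
  Exc E U W j (v + 1) ∧ v + 1 ≤ n - 2

/-- Two pages (`false` and `true`) of non-crossing edges on the line `0, …, n - 1`.  The face of
the page `j` with middle vertex `v` is `(U j v, v, W j v)`; the outer face `(0, 1, n - 1)` belongs
to the page `true`.  The local property `wx`: an exceptional vertex has only the left neighbours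
`U j v` and `v - 1` in its page, at most two right neighbours in the other page, and the face of the
other page with middle vertex `v - 1` contains one of the edges `(v - 2, v - 1)`, `(v - 1, v)`. -/
structure WXData (n : ℤ) (E : Bool → ℤ → ℤ → Prop) (U W : Bool → ℤ → ℤ) : Prop where
  lt : ∀ j x y, E j x y → x < y
  nc : ∀ j x y x' y', E j x y → E j x' y' → ¬ (x < x' ∧ x' < y ∧ y < y')
  eu : ∀ j v, 1 ≤ v → v ≤ n - 2 → E j (U j v) v
  ew : ∀ j v, 1 ≤ v → v ≤ n - 2 → E j v (W j v)
  euw : ∀ j v, 1 ≤ v → v ≤ n - 2 → E j (U j v) (W j v)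
  u0 : U true 1 = 0
  wn : W true 1 = n - 1
  pos : ∀ j x y, E j x y → 0 ≤ x
  start : Rok E W false 1
  wx : ∀ j v, v ≤ n - 2 → Exc E U W j v → (∀ x, E j x v → x = U j v ∨ x = v - 1) ∧
    Rok E W (!j) v ∧ ¬ (U (!j) (v - 1) < v - 2 ∧ v < W (!j) (v - 1))

open Classical in
/-- the position of the host of the face with middle vertex `v` of the page `j` relative to `v` -/
noncomputable def hdel (E : Bool → ℤ → ℤ → Prop) (U W : Bool → ℤ → ℤ) (n : ℤ) (j : Bool) (v : ℤ) :
    ℤ :=
  if v = 1 then 10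
  else if Exc E U W j v then -10
  else if Exc E U W (!j) v then 10
  else if U j v = v - 1 then
    if Frc E U W n j v then 10
    else if U (!j) v = v - 1 ∧ ¬ Frc E U W n (!j) v then
      if W (!j) v < W j v ∨ (W (!j) v = W j v ∧ j = false) then -20 else -10
    else -10
  else if U (!j) v = v - 1 then
    if Frc E U W n (!j) v then 20 else 10
  else if U (!j) v < U j v ∧ W j v < W (!j) v then -10
  else if U j v < U (!j) v ∧ W (!j) v < W j v then 10
  else if U (!j) v < U j v ∨ (U (!j) v = U j v ∧ (W (!j) v < W j v ∨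
    (W (!j) v = W j v ∧ j = false))) then 10
  else 20

variable {n : ℤ} {E : Bool → ℤ → ℤ → Prop} {U W : Bool → ℤ → ℤ}

/-- the nodes -/
def WXN (n : ℤ) (_ : Bool) (v : ℤ) : Prop := 1 ≤ v ∧ v ≤ n - 2

/-- the hosts -/
def WXH (n : ℤ) (j : Bool) (v : ℤ) : Prop := 1 ≤ v ∧ v ≤ n - 2 ∧ (v = 1 → j = false)

/-! ### values of `hdel` -/

section values

variable {j : Bool} {v : ℤ}

theorem hdel_one (j : Bool) : hdel E U W n j 1 = 10 := by
  unfold hdel
  simp

theorem hdel_del (j : Bool) (v : ℤ) : hdel E U W n j v = 10 ∨ hdel E U W n j v = 20 ∨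
    hdel E U W n j v = -10 ∨ hdel E U W n j v = -20 := by
  unfold hdel
  split_ifs <;> simp

theorem hdel_exc (h : Exc E U W j v) : hdel E U W n j v = -10 := by
  unfold hdel
  rw [if_neg (by have := h.1; omega), if_pos h]

theorem hdel_exc' (hv : v ≠ 1) (h : Exc E U W (!j) v) (h0 : ¬ Exc E U W j v) :
    hdel E U W n j v = 10 := by
  unfold hdel
  rw [if_neg hv, if_neg h0, if_pos h]

theorem hdel_frc (hv : v ≠ 1) (h0 : ¬ Exc E U W j v) (h0' : ¬ Exc E U W (!j) v)
    (hu : U j v = v - 1) (hf : Frc E U W n j v) : hdel E U W n j v = 10 := by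
  unfold hdel
  rw [if_neg hv, if_neg h0, if_neg h0', if_pos hu, if_pos hf]

theorem hdel_left (hv : v ≠ 1) (h0 : ¬ Exc E U W j v) (h0' : ¬ Exc E U W (!j) v)
    (hu : U j v = v - 1) (hf : ¬ Frc E U W n j v) : hdel E U W n j v < 0 := by
  unfold hdel
  rw [if_neg hv, if_neg h0, if_neg h0', if_pos hu, if_neg hf]
  split_ifs <;> omega

theorem hdel_left2 (hv : v ≠ 1) (h0 : ¬ Exc E U W j v) (h0' : ¬ Exc E U W (!j) v)
    (hu : U j v = v - 1) (hf : ¬ Frc E U W n j v) (hu' : U (!j) v = v - 1)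
    (hf' : ¬ Frc E U W n (!j) v) : hdel E U W n j v =
      if W (!j) v < W j v ∨ (W (!j) v = W j v ∧ j = false) then -20 else -10 := by
  unfold hdel
  rw [if_neg hv, if_neg h0, if_neg h0', if_pos hu, if_neg hf, if_pos ⟨hu', hf'⟩]

theorem hdel_c3a (hv : v ≠ 1) (h0 : ¬ Exc E U W j v) (h0' : ¬ Exc E U W (!j) v)
    (hu : U j v ≠ v - 1) (hu' : U (!j) v = v - 1) (hf : Frc E U W n (!j) v) :
    hdel E U W n j v = 20 := by
  unfold hdel
  rw [if_neg hv, if_neg h0, if_neg h0', if_neg hu, if_pos hu', if_pos hf]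

theorem hdel_c3b (hv : v ≠ 1) (h0 : ¬ Exc E U W j v) (h0' : ¬ Exc E U W (!j) v)
    (hu : U j v ≠ v - 1) (hu' : U (!j) v = v - 1) (hf : ¬ Frc E U W n (!j) v) :
    hdel E U W n j v = 10 := by
  unfold hdel
  rw [if_neg hv, if_neg h0, if_neg h0', if_neg hu, if_pos hu', if_neg hf]

theorem hdel_c4 (hv : v ≠ 1) (h0 : ¬ Exc E U W j v) (h0' : ¬ Exc E U W (!j) v)
    (hu : U j v ≠ v - 1) (hu' : U (!j) v ≠ v - 1) : hdel E U W n j v =
      if U (!j) v < U j v ∧ W j v < W (!j) v then -10
      else if U j v < U (!j) v ∧ W (!j) v < W j v then 10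
      else if U (!j) v < U j v ∨ (U (!j) v = U j v ∧ (W (!j) v < W j v ∨
        (W (!j) v = W j v ∧ j = false))) then 10 else 20 := by
  unfold hdel
  rw [if_neg hv, if_neg h0, if_neg h0', if_neg hu, if_neg hu']

end values

namespace WXData

variable (D : WXData n E U W)

include D

theorem ulv {j : Bool} {v : ℤ} (h1 : 1 ≤ v) (h2 : v ≤ n - 2) : U j v < v :=
  D.lt _ _ _ (D.eu _ _ h1 h2)

theorem vlw {j : Bool} {v : ℤ} (h1 : 1 ≤ v) (h2 : v ≤ n - 2) : v < W j v :=
  D.lt _ _ _ (D.ew _ _ h1 h2)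

/-- `W j v` is the largest right neighbour -/
theorem le_w {j : Bool} {v t : ℤ} (h1 : 1 ≤ v) (h2 : v ≤ n - 2) (h : E j v t) : t ≤ W j v := by
  have n1 := D.nc _ _ _ _ _ (D.euw j v h1 h2) h
  have a1 := D.ulv (j := j) h1 h2
  have a2 := D.vlw (j := j) h1 h2
  omega

theorem rok_of_w {j : Bool} {v : ℤ} (h1 : 1 ≤ v) (h2 : v ≤ n - 2) (h : W j v = v + 1) :
    Rok E W j v := by
  intro t ht
  have := D.le_w h1 h2 ht
  have := D.lt _ _ _ ht
  omega

/-- facts about an exceptional vertex and the previous vertex -/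
theorem exc_prev {j : Bool} {v : ℤ} (h2 : v ≤ n - 2) (h : Exc E U W j v) :
    U j (v - 1) = U j v ∧ W j (v - 1) = v := by
  obtain ⟨x1, x2, x3⟩ := D.wx j v h2 h
  have hv : 1 ≤ v - 1 := by have := h.1; omega
  have a1 := D.ulv (j := j) hv (by omega)
  have a2 := D.vlw (j := j) hv (by omega)
  have b0 := h.2.1
  have a3 := D.vlw (j := j) (show 1 ≤ v by omega) h2
  have n1 := D.nc _ _ _ _ _ (D.eu j v (by omega) h2) (D.ew j (v - 1) hv (by omega))
  have hw : W j (v - 1) = v := by omega
  refine ⟨?_, hw⟩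
  have h5 := x1 _ (hw ▸ D.euw j (v - 1) hv (by omega))
  omega

theorem not_exc_prev {j : Bool} {v : ℤ} (h2 : v ≤ n - 2) (h : Exc E U W j v) :
    ¬ Exc E U W j (v - 1) := by
  intro h'
  have hw := (D.exc_prev h2 h).2
  apply h'.2.2
  have := h'.1
  exact D.rok_of_w (by omega) (by omega) (by omega)

theorem not_exc_other {j : Bool} {v : ℤ} (h2 : v ≤ n - 2) (h : Exc E U W j v) :
    ¬ Exc E U W (!j) v := fun h' => h'.2.2 (D.wx j v h2 h).2.1

theorem not_exc_two {v : ℤ} (h2 : v ≤ n - 2) (h : Exc E U W true v) : v ≠ 2 := by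
  rintro rfl
  have a1 := h.2.1
  have a2 := D.pos _ _ _ (D.eu true 2 (by omega) h2)
  have h0 : U true 2 = 0 := by omega
  have n1 := D.nc _ _ _ _ _ (D.eu true 2 (by omega) h2) (D.ew true 1 (by omega) (by omega))
  have := D.wn
  apply n1
  omega

/-- right hosts have at most two right neighbours -/
theorem hdel_r1 {j : Bool} {v : ℤ} (h : WXH n j v) (hd : 0 < hdel E U W n j v) : Rok E W j v := by
  obtain ⟨h1, h2, h3⟩ := h
  rcases eq_or_ne v 1 with rfl | hv
  · rw [h3 rfl]
    exact D.start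
  by_cases hr : Rok E W j v
  · exact hr
  exfalso
  have a1 := D.ulv (j := j) h1 h2
  have a2 := D.vlw (j := j) h1 h2
  by_cases hu : U j v < v - 1
  · have hE : Exc E U W j v := ⟨by omega, hu, hr⟩
    rw [hdel_exc hE] at hd
    omega
  · have hu' : U j v = v - 1 := by omega
    have hE : ¬ Exc E U W j v := fun h => by have := h.2.1; omega
    by_cases hE2 : Exc E U W (!j) v
    · have := (D.wx _ _ h2 hE2).2.1
      rw [Bool.not_not] at this
      exact hr this
    · by_cases hE3 : Frc E U W n j v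
      · have := (D.exc_prev hE3.2 hE3.1).2
        rw [add_sub_cancel_right] at this
        exact hr (D.rok_of_w h1 h2 this)
      · have := hdel_left hv hE hE2 hu' hE3
        omega

theorem exc_next {j : Bool} {v : ℤ} (h : Frc E U W n j v) :
    ¬ (U (!j) v < v - 1 ∧ v + 1 < W (!j) v) ∧ W j v = v + 1 ∧ U j (v + 1) = U j v := by
  have x3 := (D.wx _ _ h.2 h.1).2.2
  have x4 := D.exc_prev h.2 h.1
  rw [add_sub_cancel_right] at x3 x4
  exact ⟨fun h => x3 ⟨by omega, by omega⟩, x4.2, x4.1.symm⟩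

theorem hdel_r2 {j : Bool} {v : ℤ} (h : WXH n j v) (h' : WXH n (!j) v)
    (hd : 0 < hdel E U W n j v) (hle : hdel E U W n j v ≤ hdel E U W n (!j) v) :
    hdel E U W n j v < hdel E U W n (!j) v ∧ U (!j) v ≤ U j v ∧ W (!j) v ≤ W j v := by
  obtain ⟨h1, h2, h3⟩ := h
  obtain ⟨-, -, h3'⟩ := h'
  have hv : v ≠ 1 := by
    rintro rfl
    have e1 := h3 rfl
    have e2 := h3' rfl
    rw [e1] at e2
    simp at e2
  have a1 := D.ulv (j := j) h1 h2
  have a2 := D.vlw (j := j) h1 h2
  have a1' := D.ulv (j := !j) h1 h2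
  have a2' := D.vlw (j := !j) h1 h2
  by_cases hE : Exc E U W j v
  · rw [hdel_exc hE] at hd
    omega
  by_cases hE' : Exc E U W (!j) v
  · rw [hdel_exc hE', hdel_exc' hv hE' hE] at hle
    omega
  have hE2 : ¬ Exc E U W (!(!j)) v := by rw [Bool.not_not]; exact hE
  by_cases hu : U j v = v - 1
  · by_cases hf : Frc E U W n j v
    · obtain ⟨f1, f2, f3⟩ := D.exc_next hf
      by_cases hu' : U (!j) v = v - 1
      · have hf' : ¬ Frc E U W n (!j) v := fun hf' => D.not_exc_other hf.2 hf.1 hf'.1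
        have := hdel_left hv hE' hE2 hu' hf'
        omega
      · have hf2 : Frc E U W n (!(!j)) v := by rw [Bool.not_not]; exact hf
        have e1 := hdel_c3a hv hE' hE2 hu' (by rw [Bool.not_not]; exact hu) hf2
        rw [hdel_frc hv hE hE' hu hf, e1]
        omega
    · have := hdel_left hv hE hE' hu hf
      omega
  · by_cases hu' : U (!j) v = v - 1
    · by_cases hf : Frc E U W n (!j) v
      · rw [hdel_c3a hv hE hE' hu hu' hf, hdel_frc hv hE' hE2 hu' hf] at hle
        omega
      · have := hdel_left hv hE' hE2 hu' hf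
        omega
    · have e1 := hdel_c4 (n := n) hv hE hE' hu hu'
      have e2 := hdel_c4 (n := n) hv hE' hE2 hu' (by rw [Bool.not_not]; exact hu)
      rw [Bool.not_not] at e2
      have hb : (j = false ∧ (!j) ≠ false) ∨ (j ≠ false ∧ (!j) = false) := by
        cases j <;> simp
      by_cases c1 : U (!j) v < U j v ∧ W j v < W (!j) v
      · rw [if_pos c1] at e1
        omega
      by_cases c2 : U j v < U (!j) v ∧ W (!j) v < W j v
      · rw [if_pos c2] at e2
        rw [if_neg c1, if_pos c2] at e1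
        omega
      rw [if_neg c1, if_neg c2] at e1
      rw [if_neg c2, if_neg c1] at e2
      by_cases c3 : U (!j) v < U j v ∨ (U (!j) v = U j v ∧ (W (!j) v < W j v ∨
        (W (!j) v = W j v ∧ j = false)))
      · rw [if_pos c3] at e1
        have c4 : ¬ (U j v < U (!j) v ∨ (U j v = U (!j) v ∧ (W j v < W (!j) v ∨
            (W j v = W (!j) v ∧ (!j) = false)))) := by
          rintro (h | ⟨h, h' | ⟨h', h''⟩⟩)
          · omega
          · omega
          · rcases c3 with c3 | ⟨_, c3 | ⟨_, c3⟩⟩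
            · omega
            · omega
            · rcases hb with ⟨b1, b2⟩ | ⟨b1, b2⟩
              · exact b2 h''
              · exact b1 c3
        rw [if_neg c4] at e2
        refine ⟨by omega, ?_, ?_⟩
        · rcases c3 with c3 | ⟨c3, _⟩ <;> omega
        · rcases c3 with c3 | ⟨_, c3 | ⟨c3, _⟩⟩ <;> omega
      · rw [if_neg c3] at e1
        have c4 : U j v < U (!j) v ∨ (U j v = U (!j) v ∧ (W j v < W (!j) v ∨
            (W j v = W (!j) v ∧ (!j) = false))) := by
          rcases lt_trichotomy (U j v) (U (!j) v) with h | h | h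
          · exact Or.inl h
          · refine Or.inr ⟨h, ?_⟩
            rcases lt_trichotomy (W j v) (W (!j) v) with h' | h' | h'
            · exact Or.inl h'
            · refine Or.inr ⟨h', ?_⟩
              rcases hb with ⟨b1, b2⟩ | ⟨b1, b2⟩
              · exact absurd (Or.inr ⟨h.symm, Or.inr ⟨h'.symm, b1⟩⟩) c3
              · exact b2
            · exact absurd (Or.inr ⟨h.symm, Or.inl h'⟩) c3
          · exact absurd (Or.inl h) c3
        rw [if_pos c4] at e2
        omega

/-- facts at the vertex before an exceptional vertex -/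
theorem hdel_prev {j : Bool} {v : ℤ} (h2 : v ≤ n - 2) (h : Exc E U W j v) :
    (WXH n j (v - 1) → 0 < hdel E U W n j (v - 1)) ∧
      (WXH n (!j) (v - 1) → 0 < hdel E U W n (!j) (v - 1) → W (!j) (v - 1) = v) := by
  obtain ⟨x1, x2, x3⟩ := D.wx j v h2 h
  obtain ⟨y1, y2⟩ := D.exc_prev h2 h
  have hp := D.not_exc_prev h2 h
  have hf : Frc E U W n j (v - 1) := by
    refine ⟨?_, by omega⟩
    rw [sub_add_cancel]
    exact h
  have hf' : ¬ Frc E U W n (!j) (v - 1) := by
    intro hf'
    have := hf'.1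
    rw [sub_add_cancel] at this
    exact D.not_exc_other h2 h this
  constructor
  · rintro ⟨h1, -, h3⟩
    by_cases hv : v - 1 = 1
    · rw [hv, hdel_one]
      omega
    by_cases hE' : Exc E U W (!j) (v - 1)
    · rw [hdel_exc' hv hE' hp]
      omega
    by_cases hu : U j (v - 1) = v - 1 - 1
    · rw [hdel_frc hv hp hE' hu hf]
      omega
    by_cases hu' : U (!j) (v - 1) = v - 1 - 1
    · rw [hdel_c3b hv hp hE' hu hu' hf']
      omega
    · have a1 := D.ulv (j := j) h1 (by omega)
      have a2 := D.ulv (j := !j) h1 (by omega)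
      rw [hdel_c4 hv hp hE' hu hu']
      split_ifs <;> omega
  · rintro ⟨h1, -, h3⟩ hd
    have a2 := D.vlw (j := !j) h1 (by omega)
    have a3 := D.ulv (j := !j) h1 (by omega)
    by_contra hW
    by_cases hv : v - 1 = 1
    · have hj := h3 hv
      have hj' : j = true := by
        cases j
        · simp at hj
        · rfl
      subst hj'
      exact D.not_exc_two h2 h (by omega)
    · have hu : U (!j) (v - 1) = v - 1 - 1 := by omega
      have hE : ¬ Exc E U W (!j) (v - 1) := fun h => by have := h.2.1; omega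
      have := hdel_left hv hE (by rw [Bool.not_not]; exact hp) hu hf'
      omega

theorem hdel_r3 {j : Bool} {v : ℤ} (h : WXH n j v) (hd : hdel E U W n j v < 0)
    (hu : U j v < v - 1) : hdel E U W n j v = -10 ∧
    (WXH n (!j) v → 0 < hdel E U W n (!j) v) ∧
    ((WXN n (!j) v ∧ U (!j) v < U j v ∧ W j v < W (!j) v) ∨
      ((∀ x, E j x v → x = U j v ∨ x = v - 1) ∧ (WXH n j (v - 1) → 0 < hdel E U W n j (v - 1)) ∧
        (WXH n (!j) (v - 1) → 0 < hdel E U W n (!j) (v - 1) → W (!j) (v - 1) = v))) := by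
  obtain ⟨h1, h2, h3⟩ := h
  have hv : v ≠ 1 := by
    rintro rfl
    rw [hdel_one] at hd
    omega
  by_cases hE : Exc E U W j v
  · refine ⟨hdel_exc hE, fun _ => ?_, Or.inr ⟨(D.wx j v h2 hE).1, D.hdel_prev h2 hE⟩⟩
    rw [hdel_exc' hv (by rw [Bool.not_not]; exact hE) (D.not_exc_other h2 hE)]
    omega
  by_cases hE' : Exc E U W (!j) v
  · rw [hdel_exc' hv hE' hE] at hd
    omega
  have hE2 : ¬ Exc E U W (!(!j)) v := by rw [Bool.not_not]; exact hE
  have hu1 : U j v ≠ v - 1 := by omega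
  by_cases hu' : U (!j) v = v - 1
  · exfalso
    by_cases hf : Frc E U W n (!j) v
    · rw [hdel_c3a hv hE hE' hu1 hu' hf] at hd
      omega
    · rw [hdel_c3b hv hE hE' hu1 hu' hf] at hd
      omega
  · have e1 := hdel_c4 (n := n) hv hE hE' hu1 hu'
    have e2 := hdel_c4 (n := n) hv hE' hE2 hu' (by rw [Bool.not_not]; exact hu1)
    rw [Bool.not_not] at e2
    by_cases hin : U (!j) v < U j v ∧ W j v < W (!j) v
    · rw [if_pos hin] at e1
      refine ⟨e1, fun _ => ?_, Or.inl ⟨⟨h1, h2⟩, hin⟩⟩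
      rw [e2, if_neg (by omega), if_pos (by omega)]
      omega
    · rw [if_neg hin] at e1
      exfalso
      rw [e1] at hd
      split_ifs at hd <;> omega

theorem hdel_r4 {j : Bool} {v : ℤ} (h : WXH n j v) (h' : WXH n (!j) v)
    (hd : hdel E U W n (!j) v < 0) (hle : hdel E U W n j v ≤ hdel E U W n (!j) v) :
    hdel E U W n j v < hdel E U W n (!j) v ∧ W (!j) v ≤ W j v := by
  have hd0 : hdel E U W n j v < 0 := by omega
  by_cases c1 : U j v < v - 1
  · have := (D.hdel_r3 h hd0 c1).2.1 h'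
    omega
  by_cases c2 : U (!j) v < v - 1
  · have := (D.hdel_r3 h' hd c2).2.1 (by rw [Bool.not_not]; exact h)
    rw [Bool.not_not] at this
    omega
  obtain ⟨h1, h2, h3⟩ := h
  have hv : v ≠ 1 := by
    rintro rfl
    rw [hdel_one] at hd
    omega
  have a1 := D.ulv (j := j) h1 h2
  have a1' := D.ulv (j := !j) h1 h2
  have hu : U j v = v - 1 := by omega
  have hu' : U (!j) v = v - 1 := by omega
  have hE : ¬ Exc E U W j v := fun h => by have := h.2.1; omega
  have hE' : ¬ Exc E U W (!j) v := fun h => by have := h.2.1; omega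
  have hE2 : ¬ Exc E U W (!(!j)) v := by rw [Bool.not_not]; exact hE
  have hf : ¬ Frc E U W n j v := by
    intro hf
    rw [hdel_frc hv hE hE' hu hf] at hd0
    omega
  have hf' : ¬ Frc E U W n (!j) v := by
    intro hf
    rw [hdel_frc hv hE' hE2 hu' hf] at hd
    omega
  have e1 := hdel_left2 hv hE hE' hu hf hu' hf'
  have e2 := hdel_left2 hv hE' hE2 hu' hf' (by rw [Bool.not_not]; exact hu)
    (by rw [Bool.not_not]; exact hf)
  rw [Bool.not_not] at e2
  have hb : (j = false ∧ (!j) ≠ false) ∨ (j ≠ false ∧ (!j) = false) := by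
    cases j <;> simp
  rcases lt_trichotomy (W (!j) v) (W j v) with hw | hw | hw
  · rw [if_pos (Or.inl hw)] at e1
    rw [if_neg (by omega)] at e2
    omega
  · rcases hb with ⟨b1, b2⟩ | ⟨b1, b2⟩
    · rw [if_pos (Or.inr ⟨hw, b1⟩)] at e1
      rw [if_neg (by rintro (h | ⟨-, h⟩); exacts [by omega, b2 h])] at e2
      omega
    · rw [if_neg (by rintro (h | ⟨-, h⟩); exacts [by omega, b1 h])] at e1
      rw [if_pos (Or.inr ⟨hw.symm, b2⟩)] at e2
      omega
  · rw [if_pos (Or.inl hw)] at e2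
    rw [if_neg (by omega)] at e1
    omega

theorem hdel_r5 {j : Bool} {v : ℤ} (h : WXH n j v) (hd : 0 < hdel E U W n j v)
    (hu : U j v = v - 1) (h' : WXH n j (v - 1)) (hd' : 0 < hdel E U W n j (v - 1)) : False := by
  obtain ⟨h1, h2, h3⟩ := h
  have hr := D.hdel_r1 h' hd'
  obtain ⟨h1', h2', h3'⟩ := h'
  have hv : v ≠ 1 := by omega
  have a2 := D.vlw (j := j) h1 h2
  have hE : ¬ Exc E U W j v := fun h => by have := h.2.1; omega
  by_cases hE' : Exc E U W (!j) v
  · have hp := (D.hdel_prev h2 hE').2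
    rw [Bool.not_not] at hp
    have hW := hp ⟨h1', h2', h3'⟩ hd'
    have n1 := D.nc _ _ _ _ _ (D.euw j (v - 1) h1' h2') (D.euw j v h1 h2)
    have := D.ulv (j := j) h1' h2'
    apply n1
    omega
  · by_cases hf : Frc E U W n j v
    · obtain ⟨f1, f2, f3⟩ := D.exc_next hf
      have hf2 := hf.2
      have e1 := D.euw j (v + 1) (by omega) hf.2
      have e2 := D.euw j v h1 h2
      rw [f3, hu] at e1
      rw [f2, hu] at e2
      have a3 := D.vlw (j := j) (show 1 ≤ v + 1 by omega) hf.2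
      have r1 := hr _ e1
      have r2 := hr _ e2
      omega
    · have := hdel_left hv hE hE' hu hf
      omega

/-- **The hosting rule.**  The hosts of a two-page order with property `WX`. -/
theorem hostData : HostData E U W (hdel E U W n) (WXN n) (WXH n) where
  lt := D.lt
  nc := D.nc
  hn := fun _ _ h => ⟨h.1, h.2.1⟩
  eu := fun j v h => D.eu j v h.1 h.2
  ew := fun j v h => D.ew j v h.1 h.2
  euw := fun j v h => D.euw j v h.1 h.2
  del := fun j v _ => hdel_del j v
  r1 := fun _ _ t h hd => D.hdel_r1 h hd t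
  r2 := fun _ _ h h' hd hle => D.hdel_r2 h h' hd hle
  r3 := fun _ _ h hd hu => D.hdel_r3 h hd hu
  r4 := fun _ _ h h' hd hle => D.hdel_r4 h h' hd hle
  r5 := fun _ _ h hd hu h' hd' => D.hdel_r5 h hd hu h' hd'

end WXData

end Pool.Agent.Lib.MP_d86530_co
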