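import Pool.Agent.Lib.MP_d86530_co.HostPages
import Pool.Agent.Lib.MP_d86530_co.HostRule
import Pool.Agent.Lib.MP_d86530_co.HostOK

/-!
# MP_d86530_co: from hosts to a good layout
-/

set_option autoImplicit false

namespace Pool.Agent.Lib.MP_d86530_co

variable {V : Type*} {T : V → V → V → Prop}

/-- A Hamiltonian order with outer face, page colouring, and the faces of the pages given by their
middle vertices; the outer face has the colour `κ true`. -/
structure Paged (T : V → V → V → Prop) (n : ℕ) (s : ℕ → V) (c : V → V → V → ZMod 2)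
    (κ : Bool → ZMod 2) (U W : Bool → ℤ → ℤ) : Prop where
  outer : T (s 0) (s 1) (s (n - 1))
  col : κ true = c (s 0) (s 1) (s (n - 1))
  κne : κ false ≠ κ true
  mid : ∀ j (v : ℕ), 1 ≤ v → v + 1 < n → ∃ a b : ℕ, U j v = a ∧ W j v = b ∧ a < v ∧ v < b ∧
    b < n ∧ T (s a) (s v) (s b) ∧ c (s a) (s v) (s b) = κ j

/-- the edges of a page -/
def PgE (T : V → V → V → Prop) (n : ℕ) (s : ℕ → V) (c : V → V → V → ZMod 2)
    (κ : Bool → ZMod 2) (j : Bool) (x y : ℤ) : Prop :=
  ∃ a b : ℕ, x = a ∧ y = b ∧ a < b ∧ b < n ∧ ∃ w, T (s a) (s b) w ∧ c (s a) (s b) w = κ j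

theorem HamOrd.exists_paged (h : IsSph T) {n : ℕ} {s : ℕ → V} (H : HamOrd T n s)
    (ho : T (s 0) (s 1) (s (n - 1))) {c : V → V → V → ZMod 2} (C : PageCol T n s c) :
    ∃ κ U W, Paged T n s c κ U W := by
  classical
  set κ : Bool → ZMod 2 := fun j => if j then c (s 0) (s 1) (s (n - 1)) else
    c (s 0) (s 1) (s (n - 1)) + 1 with hκ
  have key : ∀ (j : Bool) (v : ℤ), ∃ u w : ℤ, ∀ m : ℕ, v = m → 1 ≤ m → m + 1 < n →
      ∃ a b : ℕ, u = a ∧ w = b ∧ a < m ∧ m < b ∧ b < n ∧ T (s a) (s m) (s b) ∧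
        c (s a) (s m) (s b) = κ j := by
    intro j v
    by_cases hv : 1 ≤ v ∧ v + 1 < n
    · obtain ⟨m, hm⟩ : ∃ m : ℕ, v = m := ⟨v.toNat, by omega⟩
      obtain ⟨a, b, h1, h2, h3, h4, h5⟩ := C.mid_exists h H (v := m) (by omega) (by omega) (κ j)
      refine ⟨a, b, fun m' hm' _ _ => ?_⟩
      obtain rfl : m' = m := by omega
      exact ⟨a, b, rfl, rfl, h1, h2, h3, h4, h5⟩
    · exact ⟨0, 0, fun m hm h1 h2 => by omega⟩
  choose U W hUW using key
  refine ⟨κ, U, W, ho, ?_, ?_, ?_⟩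
  · simp [hκ]
  · simp [hκ]
  · intro j v h1 h2
    exact hUW j v v rfl h1 h2

namespace Paged

variable {n : ℕ} {s : ℕ → V} {c : V → V → V → ZMod 2} {κ : Bool → ZMod 2} {U W : Bool → ℤ → ℤ}

theorem κ_inj (P : Paged T n s c κ U W) {j k : Bool} (h : κ j = κ k) : j = k := by
  have := P.κne
  cases j <;> cases k <;> simp_all

theorem κ_cases (P : Paged T n s c κ U W) (z : ZMod 2) : ∃ j, κ j = z := by
  have h1 := P.κne
  have : ∀ p q z : ZMod 2, p ≠ q → p = z ∨ q = z := by decide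
  rcases this _ _ z h1 with e | e
  · exact ⟨false, e⟩
  · exact ⟨true, e⟩

/-- a face is given by its middle vertex and its colour -/
theorem face (h : IsSph T) (C : PageCol T n s c) (P : Paged T n s c κ U W) {j : Bool}
    {a v b : ℕ} (h1 : a < v) (h2 : v < b) (h3 : b < n) (hT : T (s a) (s v) (s b))
    (hc : c (s a) (s v) (s b) = κ j) : U j v = a ∧ W j v = b := by
  obtain ⟨a', b', e1, e2, g1, g2, g3, g4, g5⟩ := P.mid j v (by omega) (by omega)
  obtain ⟨rfl, rfl⟩ := C.mid_unique h h1 h2 h3 g1 g2 g3 hT g4 (by rw [hc, g5])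
  exact ⟨e1, e2⟩

theorem lt {j : Bool} {x y : ℤ} (e : PgE T n s c κ j x y) : x < y := by
  obtain ⟨a, b, rfl, rfl, h1, -⟩ := e
  omega

theorem nc (h : IsSph T) (C : PageCol T n s c) {j : Bool} {x y x' y' : ℤ}
    (e : PgE T n s c κ j x y) (e' : PgE T n s c κ j x' y') : ¬ (x < x' ∧ x' < y ∧ y < y') := by
  rintro ⟨h1, h2, h3⟩
  obtain ⟨a, b, rfl, rfl, g1, g2, w, g3, g4⟩ := e
  obtain ⟨a', b', rfl, rfl, g1', g2', w', g3', g4'⟩ := e'
  exact C.crs a a' b b' w w' (by omega) (by omega) (by omega) g2' g3 g3' (by rw [g4, g4'])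

theorem eu (C : PageCol T n s c) (P : Paged T n s c κ U W) {j : Bool} {v : ℤ} (h1 : 1 ≤ v)
    (h2 : v ≤ n - 2) : PgE T n s c κ j (U j v) v := by
  obtain ⟨m, rfl⟩ : ∃ m : ℕ, v = m := ⟨v.toNat, by omega⟩
  obtain ⟨a, b, e1, e2, g1, g2, g3, g4, g5⟩ := P.mid j m (by omega) (by omega)
  exact ⟨a, m, e1, rfl, g1, by omega, s b, g4, g5⟩

theorem ew (h : IsSph T) (C : PageCol T n s c) (P : Paged T n s c κ U W) {j : Bool} {v : ℤ}
    (h1 : 1 ≤ v) (h2 : v ≤ n - 2) : PgE T n s c κ j v (W j v) := by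
  obtain ⟨m, rfl⟩ : ∃ m : ℕ, v = m := ⟨v.toNat, by omega⟩
  obtain ⟨a, b, e1, e2, g1, g2, g3, g4, g5⟩ := P.mid j m (by omega) (by omega)
  exact ⟨m, b, rfl, e2, g2, g3, s a, h.rot g4, by rw [← g5, ← C.rot]⟩

theorem euw (h : IsSph T) (C : PageCol T n s c) (P : Paged T n s c κ U W) {j : Bool} {v : ℤ}
    (h1 : 1 ≤ v) (h2 : v ≤ n - 2) : PgE T n s c κ j (U j v) (W j v) := by
  obtain ⟨m, rfl⟩ : ∃ m : ℕ, v = m := ⟨v.toNat, by omega⟩
  obtain ⟨a, b, e1, e2, g1, g2, g3, g4, g5⟩ := P.mid j m (by omega) (by omega)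
  exact ⟨a, b, e1, e2, by omega, g3, s m, h.swp23 g4, by rw [← g5, C.swp23]⟩

theorem four_le (h : IsSph T) (H : HamOrd T n s) (P : Paged T n s c κ U W) : 4 ≤ n := by
  obtain ⟨w, hw1, hw2, -⟩ := h.opp P.outer
  obtain ⟨d1, d2, d3⟩ := h.distinct P.outer
  obtain ⟨e1, e2, e3⟩ := h.distinct hw2
  obtain ⟨i, hi, rfl⟩ := H.surj w (h.vert3 hw2)
  have h0 : i ≠ 0 := by rintro rfl; exact e3 rfl
  have h1 : i ≠ 1 := by rintro rfl; exact e2 rfl
  have h2 : i ≠ n - 1 := by rintro rfl; exact hw1 rfl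
  omega

theorem u0 (h : IsSph T) (H : HamOrd T n s) (C : PageCol T n s c) (P : Paged T n s c κ U W) :
    U true 1 = 0 ∧ W true 1 = n - 1 := by
  have hn := P.four_le h H
  have := P.face h C (j := true) (a := 0) (v := 1) (b := n - 1) (by omega) (by omega) (by omega)
    P.outer P.col.symm
  have e : ((n - 1 : ℕ) : ℤ) = (n : ℤ) - 1 := by omega
  rw [← e]
  exact_mod_cast this

end Paged

/-! ### The layout -/

/-- the median of three integers -/
def med3 (x y z : ℤ) : ℤ := max (min x y) (min (max x y) z)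

theorem med3_rot (x y z : ℤ) : med3 x y z = med3 y z x := by unfold med3; omega

theorem med3_swp (x y z : ℤ) : med3 x y z = med3 y x z := by unfold med3; omega

section lay

variable (n : ℕ) (c : V → V → V → ZMod 2) (κ : Bool → ZMod 2) (δ : Bool → ℤ → ℤ) (idx : V → ℤ)

/-- the page of a face -/
def hpg (x y z : V) : Bool := decide (c x y z = κ true)

/-- the host of a face -/
def hpos (x y z : V) : ℤ := 100 * med3 (idx x) (idx y) (idx z) +
  δ (hpg c κ x y z) (med3 (idx x) (idx y) (idx z))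

/-- left end (perturbed) -/
def lI : Item V → ℤ
  | .e x y => 100 * min (idx x) (idx y)
  | .h x y z => if idx x < med3 (idx x) (idx y) (idx z) then 100 * idx x
      else if idx x = med3 (idx x) (idx y) (idx z) then
        (if hpos c κ δ idx x y z < 100 * idx x then hpos c κ δ idx x y z - 1 else 100 * idx x)
      else if hpos c κ δ idx x y z < 100 * med3 (idx x) (idx y) (idx z) then hpos c κ δ idx x y z
        else hpos c κ δ idx x y z - 1

/-- right end (perturbed) -/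
def rI : Item V → ℤ
  | .e x y => 100 * max (idx x) (idx y)
  | .h x y z => if idx x < med3 (idx x) (idx y) (idx z) then
        (if hpos c κ δ idx x y z < 100 * med3 (idx x) (idx y) (idx z) then
          hpos c κ δ idx x y z + 1 else hpos c κ δ idx x y z)
      else if idx x = med3 (idx x) (idx y) (idx z) then
        (if hpos c κ δ idx x y z < 100 * idx x then 100 * idx x else hpos c κ δ idx x y z + 1)
      else 100 * idx x

end lay

theorem PageCol.tri {n : ℕ} {s : ℕ → V} {c : V → V → V → ZMod 2} (C : PageCol T n s c)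
    {x y z x' y' z' : V} (ht : Tri x y z x' y' z') : c x' y' z' = c x y z := by
  rcases ht with ⟨rfl, rfl, rfl⟩ | ⟨rfl, rfl, rfl⟩ | ⟨rfl, rfl, rfl⟩ | ⟨rfl, rfl, rfl⟩ |
      ⟨rfl, rfl, rfl⟩ | ⟨rfl, rfl, rfl⟩
  · rfl
  · exact C.swp23 _ _ _
  · exact C.swp _ _ _
  · exact (C.rot _ _ _).symm
  · exact (C.rot2 _ _ _).symm
  · exact C.swp13 _ _ _

theorem tri_trans {a b c x y z x' y' z' : V} (h1 : Tri a b c x y z) (h2 : Tri x y z x' y' z') :
    Tri a b c x' y' z' := by
  rcases h1 with ⟨rfl, rfl, rfl⟩ | ⟨rfl, rfl, rfl⟩ | ⟨rfl, rfl, rfl⟩ | ⟨rfl, rfl, rfl⟩ |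
      ⟨rfl, rfl, rfl⟩ | ⟨rfl, rfl, rfl⟩
  · exact h2
  · exact tri_rot'.1 (tri_swp'.1 h2)
  · exact tri_swp'.1 h2
  · exact tri_rot'.1 (tri_rot'.1 h2)
  · exact tri_rot'.1 h2
  · exact tri_swp'.1 (tri_rot'.1 h2)

theorem med3_tri {x y z x' y' z' : ℤ} (ht : Tri x y z x' y' z') :
    med3 x' y' z' = med3 x y z := by
  unfold med3
  rcases ht with ⟨rfl, rfl, rfl⟩ | ⟨rfl, rfl, rfl⟩ | ⟨rfl, rfl, rfl⟩ | ⟨rfl, rfl, rfl⟩ |
      ⟨rfl, rfl, rfl⟩ | ⟨rfl, rfl, rfl⟩ <;> omega

theorem tri_map {α β : Type*} (f : α → β) {x y z x' y' z' : α} (ht : Tri x y z x' y' z') :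
    Tri (f x) (f y) (f z) (f x') (f y') (f z') := by
  rcases ht with ⟨rfl, rfl, rfl⟩ | ⟨rfl, rfl, rfl⟩ | ⟨rfl, rfl, rfl⟩ | ⟨rfl, rfl, rfl⟩ |
      ⟨rfl, rfl, rfl⟩ | ⟨rfl, rfl, rfl⟩ <;> simp [Tri]

theorem sort3 {x y z : ℕ} (h1 : x ≠ y) (h2 : y ≠ z) (h3 : z ≠ x) :
    ∃ a v b, a < v ∧ v < b ∧ Tri a v b x y z := by
  rcases lt_or_gt_of_ne h1 with k1 | k1 <;> rcases lt_or_gt_of_ne h2 with k2 | k2 <;>
    rcases lt_or_gt_of_ne h3 with k3 | k3
  · omega
  · exact ⟨x, y, z, k1, k2, by simp [Tri]⟩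
  · exact ⟨z, x, y, k3, k1, by simp [Tri]⟩
  · exact ⟨x, z, y, k3, k2, by simp [Tri]⟩
  · exact ⟨y, z, x, k2, k3, by simp [Tri]⟩
  · exact ⟨y, x, z, k1, k3, by simp [Tri]⟩
  · exact ⟨z, y, x, k2, k1, by simp [Tri]⟩
  · omega

section main

variable {n : ℕ} {s : ℕ → V} {c : V → V → V → ZMod 2} {κ : Bool → ZMod 2} {U W : Bool → ℤ → ℤ}
  {δ : Bool → ℤ → ℤ} {idx : V → ℤ}

theorem host_node (h : IsSph T) (H : HamOrd T n s) (C : PageCol T n s c)
    (P : Paged T n s c κ U W) (hidx : ∀ a < n, idx (s a) = a) {x y z : V} (hT : T x y z)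
    (ho : ¬ Tri (s 0) (s 1) (s (n - 1)) x y z) :
    WXH n (hpg c κ x y z) (med3 (idx x) (idx y) (idx z)) ∧ ∃ a v b : ℕ, a < v ∧ v < b ∧ b < n ∧
      med3 (idx x) (idx y) (idx z) = v ∧ c (s a) (s v) (s b) = κ (hpg c κ x y z) ∧
      U (hpg c κ x y z) v = a ∧ W (hpg c κ x y z) v = b ∧ Tri (s a) (s v) (s b) x y z ∧
      (idx x = a ∨ idx x = v ∨ idx x = b) := by
  obtain ⟨α, hα, rfl⟩ := H.surj x (IsSph.vert1 hT)
  obtain ⟨β, hβ, rfl⟩ := H.surj y (h.vert2 hT)
  obtain ⟨γ, hγ, rfl⟩ := H.surj z (h.vert3 hT)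
  obtain ⟨d1, d2, d3⟩ := h.distinct hT
  obtain ⟨a, v, b, h1, h2, h3⟩ := sort3 (x := α) (y := β) (z := γ) (by rintro rfl; exact d1 rfl)
    (by rintro rfl; exact d2 rfl) (by rintro rfl; exact d3 rfl)
  have hb : b < n := by
    rcases tri_mem (tri_comm.1 (tri_rot'.1 (tri_rot'.1 h3))) with e | e | e <;> omega
  have hm : med3 (idx (s α)) (idx (s β)) (idx (s γ)) = v := by
    rw [hidx α hα, hidx β hβ, hidx γ hγ, med3_tri (tri_map (fun k : ℕ => (k : ℤ)) h3)]
    unfold med3
    omega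
  have ht := tri_map s h3
  have hT' : T (s a) (s v) (s b) := h.tri hT (tri_comm.1 ht)
  obtain ⟨j, hj⟩ := P.κ_cases (c (s α) (s β) (s γ))
  have hpj : hpg c κ (s α) (s β) (s γ) = j := by
    unfold hpg
    by_cases hjt : j = true
    · subst hjt; simp [hj]
    · have hjf : j = false := by simpa using hjt
      subst hjf
      rw [← hj]
      simpa using P.κne
  have hc : c (s a) (s v) (s b) = κ j := by rw [hj, C.tri ht]
  obtain ⟨hU, hW⟩ := P.face h C h1 h2 hb hT' hc
  rw [hpj, hm]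
  refine ⟨⟨by omega, by omega, fun hv => ?_⟩, a, v, b, h1, h2, hb, rfl, hc, hU, hW, ht, ?_⟩
  · by_contra hjf
    have hjt : j = true := by simpa using hjf
    subst hjt
    obtain ⟨e1, e2⟩ := P.u0 h H C
    have hv' : v = 1 := by omega
    subst hv'
    have ea : a = 0 := by omega
    have eb : b = n - 1 := by
      have : (W true ((1 : ℕ) : ℤ)) = n - 1 := e2
      omega
    subst ea
    subst eb
    exact ho ht
  · rw [hidx α hα]
    rcases tri_mem h3 with e | e | e <;> simp [e]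

theorem cast_min (a b : ℤ) : min (a : ℝ) (b : ℝ) = ((min a b : ℤ) : ℝ) := by push_cast; rfl

theorem cast_max (a b : ℤ) : max (a : ℝ) (b : ℝ) = ((max a b : ℤ) : ℝ) := by push_cast; rfl

/-- the item of the abstract layout given by a valid item -/
theorem item_rep (h : IsSph T) (H : HamOrd T n s) (C : PageCol T n s c)
    (P : Paged T n s c κ U W) (hidx : ∀ a < n, idx (s a) = a)
    (D : HostOK (PgE T n s c κ) U W δ (WXH n)) {I : Item V}
    (hI : I.Valid T (s 0) (s 1) (s (n - 1))) :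
    (∃ j, HItem (PgE T n s c κ) U W δ (WXH n) j (lI c κ δ idx I) (rI c κ δ idx I)) ∧
      ∃ a b : ℤ, Item.lo (fun x => ((100 * idx x : ℤ) : ℝ))
          (fun x y z => ((hpos c κ δ idx x y z : ℤ) : ℝ)) I = ((10 * a : ℤ) : ℝ) ∧
        Item.hi (fun x => ((100 * idx x : ℤ) : ℝ))
          (fun x y z => ((hpos c κ δ idx x y z : ℤ) : ℝ)) I = ((10 * b : ℤ) : ℝ) ∧
        lI c κ δ idx I ≤ 10 * a + 1 ∧ 10 * a ≤ lI c κ δ idx I + 1 ∧
        rI c κ δ idx I ≤ 10 * b + 1 ∧ 10 * b ≤ rI c κ δ idx I + 1 := by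
  cases I with
  | e x y =>
    obtain ⟨w, hw⟩ := hI
    obtain ⟨a, ha, rfl⟩ := H.surj x (IsSph.vert1 hw)
    obtain ⟨b, hb, rfl⟩ := H.surj y (h.vert2 hw)
    have hab : a ≠ b := by rintro rfl; exact h.ne hw rfl
    obtain ⟨j, hj⟩ := P.κ_cases (c (s a) (s b) w)
    constructor
    · refine ⟨j, ?_⟩
      simp only [lI, rI, hidx a ha, hidx b hb]
      refine HItem.e _ _ ?_
      rcases lt_or_gt_of_ne hab with k | k
      · rw [min_eq_left (by omega), max_eq_right (by omega)]
        exact ⟨a, b, rfl, rfl, k, hb, w, hw, hj.symm⟩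
      · rw [min_eq_right (by omega), max_eq_left (by omega)]
        exact ⟨b, a, rfl, rfl, k, ha, w, h.swp hw, by rw [← C.swp]; exact hj.symm⟩
    · refine ⟨10 * min (a : ℤ) b, 10 * max (a : ℤ) b, ?_, ?_, ?_⟩
      · simp only [Item.lo, hidx a ha, hidx b hb]
        rw [cast_min]
        congr 1
        omega
      · simp only [Item.hi, hidx a ha, hidx b hb]
        rw [cast_max]
        congr 1
        omega
      · simp only [lI, rI, hidx a ha, hidx b hb]
        omega
  | h x y z =>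
    obtain ⟨hT, ho⟩ := hI
    obtain ⟨hH, a, v, b, h1, h2, h3, hm, hc, hU, hW, ht, hx⟩ := host_node h H C P hidx hT ho
    rw [hm] at hH
    have hd := D.del _ _ hH
    have hp : hpos c κ δ idx x y z = 100 * v + δ (hpg c κ x y z) v := by
      unfold hpos
      rw [hm]
    simp only [lI, rI, hm, hp, Item.lo, Item.hi, cast_min, cast_max]
    generalize hpg c κ x y z = j at *
    constructor
    · refine ⟨j, ?_⟩
      rcases hx with e | e | e
      · have k1 : (a : ℤ) < v := by omega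
        rw [e, if_pos k1, if_pos k1]
        by_cases k : 0 < δ j v
        · rw [if_neg (by omega), ← hU]
          exact HItem.aR _ hH k
        · rw [if_pos (by omega), ← hU]
          exact HItem.aL _ hH (by omega)
      · have k1 : ¬ (v : ℤ) < v := by omega
        rw [e, if_neg k1, if_neg k1, if_pos rfl, if_pos rfl]
        by_cases k : 0 < δ j v
        · have k2 : ¬ (100 * (v : ℤ) + δ j v < 100 * v) := by omega
          rw [if_neg k2, if_neg k2]
          exact HItem.mR _ hH k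
        · have k2 : 100 * (v : ℤ) + δ j v < 100 * v := by omega
          rw [if_pos k2, if_pos k2]
          exact HItem.mL _ hH (by omega)
      · have k1 : ¬ (b : ℤ) < v := by omega
        have k1' : ¬ (b : ℤ) = v := by omega
        rw [e, if_neg k1, if_neg k1, if_neg k1', if_neg k1']
        by_cases k : 0 < δ j v
        · rw [if_neg (by omega), ← hW]
          exact HItem.bR _ hH k
        · rw [if_pos (by omega), ← hW]
          exact HItem.bL _ hH (by omega)
    · have e10 : ∃ t, δ j v = 10 * t := by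
        rcases hd with e | e | e | e
        exacts [⟨1, by omega⟩, ⟨2, by omega⟩, ⟨-1, by omega⟩, ⟨-2, by omega⟩]
      obtain ⟨t, et⟩ := e10
      refine ⟨min (10 * v + t) (10 * idx x), max (10 * v + t) (10 * idx x), ?_, ?_, ?_⟩
      · congr 1
        omega
      · congr 1
        omega
      · rcases hx with e | e | e <;> split_ifs <;> omega

theorem idx_inj (H : HamOrd T n s) (hidx : ∀ a < n, idx (s a) = a) {x y : V}
    (hx : x ∈ Vert T) (hy : y ∈ Vert T) (e : idx x = idx y) : x = y := by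
  obtain ⟨a, ha, rfl⟩ := H.surj x hx
  obtain ⟨b, hb, rfl⟩ := H.surj y hy
  rw [hidx a ha, hidx b hb] at e
  have : a = b := by omega
  rw [this]

theorem corner_vals {a v b t d L R : ℤ} (h1 : a < v) (h2 : v < b) (ht : t = a ∨ t = v ∨ t = b)
    (hd : d ≠ 0)
    (hL : L = if t < v then 100 * t else if t = v then
      (if 100 * v + d < 100 * t then 100 * v + d - 1 else 100 * t) else
      if 100 * v + d < 100 * v then 100 * v + d else 100 * v + d - 1)
    (hR : R = if t < v then (if 100 * v + d < 100 * v then 100 * v + d + 1 else 100 * v + d) else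
      if t = v then (if 100 * v + d < 100 * t then 100 * t else 100 * v + d + 1) else 100 * t) :
    (d < 0 ∧ ((t = a ∧ L = 100 * a ∧ R = 100 * v + d + 1) ∨
      (t = v ∧ L = 100 * v + d - 1 ∧ R = 100 * v) ∨ (t = b ∧ L = 100 * v + d ∧ R = 100 * b))) ∨
    (0 < d ∧ ((t = a ∧ L = 100 * a ∧ R = 100 * v + d) ∨
      (t = v ∧ L = 100 * v ∧ R = 100 * v + d + 1) ∨
      (t = b ∧ L = 100 * v + d - 1 ∧ R = 100 * b))) := by
  subst hL
  subst hR
  rcases ht with rfl | rfl | rfl
  · rw [if_pos h1, if_pos h1]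
    split_ifs <;> omega
  · have k1 : ¬ t < t := by omega
    rw [if_neg k1, if_neg k1, if_pos rfl, if_pos rfl]
    split_ifs <;> omega
  · have k1 : ¬ t < v := by omega
    have k2 : ¬ t = v := by omega
    rw [if_neg k1, if_neg k1, if_neg k2, if_neg k2]
    split_ifs <;> omega

theorem corner_cross {a v b t t' d L R L' R' : ℤ} (h1 : a < v) (h2 : v < b)
    (ht : t = a ∨ t = v ∨ t = b) (ht' : t' = a ∨ t' = v ∨ t' = b) (hne : t ≠ t')
    (hd : d = 10 ∨ d = 20 ∨ d = -10 ∨ d = -20)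
    (hL : L = if t < v then 100 * t else if t = v then
      (if 100 * v + d < 100 * t then 100 * v + d - 1 else 100 * t) else
      if 100 * v + d < 100 * v then 100 * v + d else 100 * v + d - 1)
    (hR : R = if t < v then (if 100 * v + d < 100 * v then 100 * v + d + 1 else 100 * v + d) else
      if t = v then (if 100 * v + d < 100 * t then 100 * t else 100 * v + d + 1) else 100 * t)
    (hL' : L' = if t' < v then 100 * t' else if t' = v then
      (if 100 * v + d < 100 * t' then 100 * v + d - 1 else 100 * t') else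
      if 100 * v + d < 100 * v then 100 * v + d else 100 * v + d - 1)
    (hR' : R' = if t' < v then (if 100 * v + d < 100 * v then 100 * v + d + 1 else 100 * v + d)
      else if t' = v then (if 100 * v + d < 100 * t' then 100 * t' else 100 * v + d + 1) else
      100 * t') :
    (L < L' ∧ L' < R ∧ R < R') ∨ (L' < L ∧ L < R' ∧ R' < R) := by
  have c1 := corner_vals h1 h2 ht (by omega) hL hR
  have c2 := corner_vals h1 h2 ht' (by omega) hL' hR'
  clear hL hR hL' hR' ht ht'
  rcases c1 with ⟨c1, ⟨g1, g2, g3⟩ | ⟨g1, g2, g3⟩ | ⟨g1, g2, g3⟩⟩ |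
    ⟨c1, ⟨g1, g2, g3⟩ | ⟨g1, g2, g3⟩ | ⟨g1, g2, g3⟩⟩ <;>
  rcases c2 with ⟨c2, ⟨k1, k2, k3⟩ | ⟨k1, k2, k3⟩ | ⟨k1, k2, k3⟩⟩ |
    ⟨c2, ⟨k1, k2, k3⟩ | ⟨k1, k2, k3⟩ | ⟨k1, k2, k3⟩⟩ <;> omega

theorem same_host (h : IsSph T) (H : HamOrd T n s) (C : PageCol T n s c)
    (P : Paged T n s c κ U W) (hidx : ∀ a < n, idx (s a) = a)
    (D : HostOK (PgE T n s c κ) U W δ (WXH n)) {I J : Item V}
    (hI : I.Valid T (s 0) (s 1) (s (n - 1))) (hIJ : Item.SameHost I J) :
    (lI c κ δ idx I < lI c κ δ idx J ∧ lI c κ δ idx J < rI c κ δ idx I ∧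
      rI c κ δ idx I < rI c κ δ idx J) ∨
    (lI c κ δ idx J < lI c κ δ idx I ∧ lI c κ δ idx I < rI c κ δ idx J ∧
      rI c κ δ idx J < rI c κ δ idx I) := by
  cases I with
  | e x y => exact absurd hIJ (by simp [Item.SameHost])
  | h x y z =>
    cases J with
    | e x y => exact absurd hIJ (by simp [Item.SameHost])
    | h x' y' z' =>
      obtain ⟨htr, hne⟩ := hIJ
      obtain ⟨hT, ho⟩ := hI
      have hT' : T x' y' z' := h.tri hT htr
      have ho' : ¬ Tri (s 0) (s 1) (s (n - 1)) x' y' z' := by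
        intro k
        apply ho
        rcases tri_comm.1 htr with ⟨rfl, rfl, rfl⟩ | ⟨rfl, rfl, rfl⟩ | ⟨rfl, rfl, rfl⟩ |
          ⟨rfl, rfl, rfl⟩ | ⟨rfl, rfl, rfl⟩ | ⟨rfl, rfl, rfl⟩
        · exact k
        · exact tri_rot.1 (tri_swp.1 k)
        · exact tri_swp.1 k
        · exact tri_rot.1 k
        · exact tri_rot.2 k
        · exact tri_swp.1 (tri_rot.1 k)
      obtain ⟨hH, a, v, b, h1, h2, h3, hm, hc, hU, hW, ht, hx⟩ := host_node h H C P hidx hT ho
      obtain ⟨-, a', v', b', h1', h2', h3', hm', hc', hU', hW', ht', hx'⟩ :=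
        host_node h H C P hidx hT' ho'
      have emed : med3 (idx x') (idx y') (idx z') = med3 (idx x) (idx y) (idx z) :=
        med3_tri (tri_map idx htr)
      have epg : hpg c κ x' y' z' = hpg c κ x y z := by
        unfold hpg
        rw [C.tri htr]
      have hv : v' = v := by
        rw [emed, hm] at hm'
        omega
      subst hv
      rw [epg] at hU' hW'
      rw [hm] at hH
      have hd := D.del _ _ hH
      have hp : hpos c κ δ idx x y z = 100 * v' + δ (hpg c κ x y z) v' := by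
        unfold hpos
        rw [hm]
      have hp' : hpos c κ δ idx x' y' z' = 100 * v' + δ (hpg c κ x y z) v' := by
        unfold hpos
        rw [hm', epg]
      have hxx : idx x ≠ idx x' := fun e =>
        hne (idx_inj H hidx (IsSph.vert1 hT) (IsSph.vert1 hT') e)
      simp only [lI, rI, hm, hm', hp, hp']
      generalize hpg c κ x y z = j at *
      generalize δ j v' = d at *
      have ea : (a' : ℤ) = a := by rw [← hU', hU]
      have eb : (b' : ℤ) = b := by rw [← hW', hW]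
      rw [ea, eb] at hx'
      exact corner_cross (show (a : ℤ) < v' by omega) (show (v' : ℤ) < b by omega) hx hx' hxx hd
        rfl rfl rfl rfl

end main

/-- **Hosts give a good layout.** -/
theorem lay_of_hostOK (h : IsSph T) {n : ℕ} {s : ℕ → V} (H : HamOrd T n s)
    {c : V → V → V → ZMod 2} (C : PageCol T n s c) {κ : Bool → ZMod 2} {U W δ : Bool → ℤ → ℤ}
    (P : Paged T n s c κ U W) (D : HostOK (PgE T n s c κ) U W δ (WXH n))
    (hδ1 : 0 < δ false 1) : ∃ p hh, Lay T (s 0) (s 1) (s (n - 1)) p hh := by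
  classical
  obtain ⟨idx, hidx⟩ : ∃ idx : V → ℤ, ∀ a < n, idx (s a) = a := by
    refine ⟨fun x => if k : ∃ a < n, s a = x then (k.choose : ℤ) else 0, fun a ha => ?_⟩
    have k : ∃ b < n, s b = s a := ⟨a, ha, rfl⟩
    simp only [dif_pos k]
    have := H.inj _ k.choose_spec.1 a ha k.choose_spec.2
    rw [this]
  have hn := P.four_le h H
  have hcol := C
  refine ⟨fun x => ((100 * idx x : ℤ) : ℝ), fun x y z => ((hpos c κ δ idx x y z : ℤ) : ℝ), ?_⟩
  have hinf : ∀ x y z, T x y z → ¬ Tri (s 0) (s 1) (s (n - 1)) x y z →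
      ∃ j, ∃ a v b : ℕ, a < v ∧ v < b ∧ b < n ∧ hpos c κ δ idx x y z = 100 * v + δ j v ∧
        WXH n j v ∧ c (s a) (s v) (s b) = κ j ∧ U j v = a ∧ W j v = b ∧ T (s a) (s v) (s b) ∧
        Tri (s a) (s v) (s b) x y z ∧ med3 (idx x) (idx y) (idx z) = v := by
    intro x y z hT ho
    obtain ⟨hH, a, v, b, h1, h2, h3, hm, hc, hU, hW, ht, hx⟩ := host_node h H C P hidx hT ho
    rw [hm] at hH
    exact ⟨_, a, v, b, h1, h2, h3, by unfold hpos; rw [hm], hH, hc, hU, hW,
      h.tri hT (tri_comm.1 ht), ht, hm⟩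
  constructor
  · intro x y z _
    simp only [hpos, hpg]
    rw [C.rot x y z, med3_rot (idx x)]
  · intro x y z _
    simp only [hpos, hpg]
    rw [C.swp x y z, med3_swp (idx x)]
  · intro x hx y hy e
    refine idx_inj H hidx hx hy ?_
    have : (100 * idx x : ℤ) = 100 * idx y := by exact_mod_cast e
    omega
  · rw [hidx 0 (by omega), hidx 1 (by omega)]
    norm_num
  · rw [hidx 1 (by omega), hidx (n - 1) (by omega)]
    exact_mod_cast (show (100 * ((1 : ℕ) : ℤ)) < 100 * ((n - 1 : ℕ) : ℤ) by omega)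
  · intro x hx h0 h1 h2
    obtain ⟨a, ha, rfl⟩ := H.surj x hx
    have k0 : a ≠ 0 := by rintro rfl; exact h0 rfl
    have k1 : a ≠ 1 := by rintro rfl; exact h1 rfl
    have k2 : a ≠ n - 1 := by rintro rfl; exact h2 rfl
    rw [hidx 1 (by omega), hidx (n - 1) (by omega), hidx a ha]
    constructor
    · exact_mod_cast (show (100 * ((1 : ℕ) : ℤ)) < 100 * (a : ℤ) by omega)
    · exact_mod_cast (show (100 * (a : ℤ)) < 100 * ((n - 1 : ℕ) : ℤ) by omega)
  · intro x y z hT ho
    obtain ⟨j, a, v, b, h1, h2, h3, hp, hH, hc, hU, hW, -, ht, -⟩ := hinf x y z hT ho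
    rw [hidx 1 (by omega), hidx (n - 1) (by omega), hp]
    have hd := D.del _ _ hH
    have hH1 := hH.1
    have hH2 := hH.2.1
    constructor
    · refine Int.cast_lt.2 ?_
      by_cases hv : v = 1
      · subst hv
        have hj := hH.2.2 rfl
        subst hj
        have : 0 < δ false ((1 : ℕ) : ℤ) := hδ1
        omega
      · omega
    · refine Int.cast_lt.2 ?_
      omega
  · intro x y z hT ho t ht
    obtain ⟨j, a, v, b, h1, h2, h3, hp, hH, -⟩ := hinf x y z hT ho
    have hd := D.del _ _ hH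
    rw [hp]
    intro e
    have e' := Int.cast_injective e
    omega
  · intro x y z x' y' z' hT ho hT' ho' e
    obtain ⟨j, a, v, b, h1, h2, h3, hp, hH, hc, hU, hW, hS, ht, -⟩ := hinf x y z hT ho
    obtain ⟨j', a', v', b', h1', h2', h3', hp', hH', hc', hU', hW', hS', ht', -⟩ :=
      hinf x' y' z' hT' ho'
    have e' := Int.cast_injective e
    rw [hp, hp'] at e'
    have hd := D.del _ _ hH
    have hd' := D.del _ _ hH'
    have hv : v' = v := by omega
    subst hv
    have hδ : δ j v' = δ j' v' := by omega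
    have hj : j' = j := by
      rcases Bool.eq_or_eq_not j' j with k | k
      · exact k
      · subst k
        exact (D.ne j v' hH hH' hδ).elim
    subst hj
    obtain ⟨rfl, rfl⟩ := C.mid_unique h h1 h2 h3 h1' h2' h3' hS hS' (by rw [hc, hc'])
    exact tri_trans (tri_comm.1 ht) ht'
  · intro x y z hT ho hxy hyz
    obtain ⟨j, a, v, b, h1, h2, h3, hp, hH, hc, hU, hW, hS, ht, hm⟩ := hinf x y z hT ho
    have hd := D.del _ _ hH
    have hxy' := Int.cast_lt.1 hxy
    have hyz' := Int.cast_lt.1 hyz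
    have : med3 (idx x) (idx y) (idx z) = idx y := by unfold med3; omega
    rw [this] at hm
    rw [hp]
    constructor
    · refine Int.cast_lt.2 ?_
      omega
    · refine Int.cast_lt.2 ?_
      omega
  · rintro ⟨I, hI, hcr⟩
    have hcr' : ∀ i j, i ≠ j → (lI c κ δ idx (I i) < lI c κ δ idx (I j) ∧
        lI c κ δ idx (I j) < rI c κ δ idx (I i) ∧ rI c κ δ idx (I i) < rI c κ δ idx (I j)) ∨
      (lI c κ δ idx (I j) < lI c κ δ idx (I i) ∧ lI c κ δ idx (I i) < rI c κ δ idx (I j) ∧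
        rI c κ δ idx (I j) < rI c κ δ idx (I i)) := by
      intro i j hij
      obtain ⟨-, p, q, e1, e2, e3, e4, e5, e6⟩ := item_rep h H C P hidx D (hI i)
      obtain ⟨-, p', q', e1', e2', e3', e4', e5', e6'⟩ := item_rep h H C P hidx D (hI j)
      rcases hcr i j hij with k | k | k
      · rw [e1, e1', e2, e2'] at k
        obtain ⟨k1, k2, k3⟩ := k
        have k1' := Int.cast_lt.1 k1
        have k2' := Int.cast_lt.1 k2
        have k3' := Int.cast_lt.1 k3
        omega
      · rw [e1, e1', e2, e2'] at k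
        obtain ⟨k1, k2, k3⟩ := k
        have k1' := Int.cast_lt.1 k1
        have k2' := Int.cast_lt.1 k2
        have k3' := Int.cast_lt.1 k3
        omega
      · exact same_host h H C P hidx D (hI i) k
    have hitem := fun i => (item_rep h H C P hidx D (hI i)).1
    choose jj hjj using hitem
    set f : Fin 4 → ℤ := fun i => lI c κ δ idx (I i) with hf
    set σ := Tuple.sort f with hσ
    have hmono : Monotone (f ∘ σ) := Tuple.monotone_sort f
    have hlt : ∀ i j : Fin 4, i < j → lI c κ δ idx (I (σ i)) < lI c κ δ idx (I (σ j)) ∧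
        lI c κ δ idx (I (σ j)) < rI c κ δ idx (I (σ i)) ∧
        rI c κ δ idx (I (σ i)) < rI c κ δ idx (I (σ j)) := by
      intro i j hij
      have h1 : lI c κ δ idx (I (σ i)) ≤ lI c κ δ idx (I (σ j)) := hmono hij.le
      have h2 := hcr' (σ i) (σ j) (fun e => hij.ne (σ.injective e))
      omega
    have a1 := hlt 0 1 (by decide)
    have a2 := hlt 1 2 (by decide)
    have a3 := hlt 2 3 (by decide)
    have a4 := hlt 0 3 (by decide)
    exact D.twist_sorted (hjj (σ 0)) (hjj (σ 1)) (hjj (σ 2)) (hjj (σ 3)) a1.1 a2.1 a3.1 a4.2.1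
      a1.2.2 a2.2.2 a3.2.2

end Pool.Agent.Lib.MP_d86530_co
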