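import Pool.Agent.Lib.MP_d86530_co.HTwo
import Pool.Agent.Lib.MP_d86530_co.HostLay

/-!
# MP_d86530_co: Hamiltonian orders of the exact class H2 give good layouts
-/

set_option autoImplicit false

namespace Pool.Agent.Lib.MP_d86530_co

section ok

variable {E : Bool → ℤ → ℤ → Prop} {U W : Bool → ℤ → ℤ} {ρ : ℤ → Bool} {N : ℤ → Prop}
  {H : Bool → ℤ → Prop}

/-- the shifts of the hosts -/
def h2del (ρ : ℤ → Bool) (j : Bool) (v : ℤ) : ℤ := if ρ v = j then 10 else -10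

theorem h2del_pos {j : Bool} {v : ℤ} (h : 0 < h2del ρ j v) : h2del ρ j v = 10 ∧ ρ v = j := by
  unfold h2del at h ⊢
  split_ifs at h ⊢ with k
  · exact ⟨rfl, k⟩
  · omega

theorem h2del_neg {j : Bool} {v : ℤ} (h : h2del ρ j v < 0) :
    h2del ρ j v = -10 ∧ ρ v = !j := by
  unfold h2del at h ⊢
  split_ifs at h ⊢ with k
  · omega
  · refine ⟨rfl, ?_⟩
    revert k
    cases ρ v <;> cases j <;> simp

/-- an item is either given by a base edge or short -/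
theorem HItem.bit (D : H2 E U W ρ N) (hH : ∀ j v, H j v → N v) {j : Bool} {l r : ℤ}
    (h : HItem E U W (h2del ρ) H j l r) :
    (∃ X Y, BIt E U W ρ N j X Y l r) ∨ ∃ v, (l = 100 * v ∧ r = 100 * v + 11) ∨
      (l = 100 * v - 11 ∧ r = 100 * v) := by
  cases h with
  | e x y he => exact Or.inl ⟨x, y, he, Or.inl ⟨rfl, rfl⟩⟩
  | aR v hv hd =>
    obtain ⟨d1, d2⟩ := h2del_pos hd
    exact Or.inl ⟨U j v, v, D.eu j v (hH _ _ hv), Or.inr (Or.inl
      ⟨rfl, by omega, rfl, hH _ _ hv, d2⟩)⟩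
  | aL v hv hd =>
    obtain ⟨d1, d2⟩ := h2del_neg hd
    exact Or.inl ⟨U j v, v, D.eu j v (hH _ _ hv), Or.inr (Or.inr (Or.inl
      ⟨rfl, by omega, rfl, hH _ _ hv, d2⟩))⟩
  | mR v hv hd =>
    obtain ⟨d1, d2⟩ := h2del_pos hd
    exact Or.inr ⟨v, Or.inl ⟨rfl, by omega⟩⟩
  | mL v hv hd =>
    obtain ⟨d1, d2⟩ := h2del_neg hd
    exact Or.inr ⟨v, Or.inr ⟨by omega, rfl⟩⟩
  | bR v hv hd =>
    obtain ⟨d1, d2⟩ := h2del_pos hd
    exact Or.inl ⟨v, W j v, D.ew j v (hH _ _ hv), Or.inr (Or.inr (Or.inr (Or.inl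
      ⟨by omega, rfl, rfl, hH _ _ hv, d2⟩)))⟩
  | bL v hv hd =>
    obtain ⟨d1, d2⟩ := h2del_neg hd
    exact Or.inl ⟨v, W j v, D.ew j v (hH _ _ hv), Or.inr (Or.inr (Or.inr (Or.inr
      ⟨by omega, rfl, rfl, hH _ _ hv, d2⟩)))⟩

theorem H2.hostOK (D : H2 E U W ρ N) (hH : ∀ j v, H j v → N v) :
    HostOK E U W (h2del ρ) H where
  del j v _ := by unfold h2del; split_ifs <;> simp
  ne j v _ _ := by
    unfold h2del
    cases ρ v <;> cases j <;> simp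
  twist_sorted {j₁ j₂ j₃ j₄ l₁ l₂ l₃ l₄ r₁ r₂ r₃ r₄} h₁ h₂ h₃ h₄ a1 a2 a3 a4 a5 a6 a7 := by
    -- the ends of an item
    have key : ∀ {j : Bool} {l r : ℤ}, HItem E U W (h2del ρ) H j l r →
        (∃ k : ℤ, l = 100 * k ∨ l = 100 * k + 9 ∨ l = 100 * k - 10 ∨ l = 100 * k - 11) ∧
        (∃ k : ℤ, r = 100 * k ∨ r = 100 * k + 10 ∨ r = 100 * k - 9 ∨ r = 100 * k + 11) := by
      intro j l r h
      rcases HItem.bit D hH h with ⟨X, Y, hb⟩ | ⟨v, hv⟩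
      · refine ⟨⟨X, ?_⟩, ⟨Y, ?_⟩⟩
        · rcases hb.bl with b | b | b <;> simp [b]
        · rcases hb.br with b | b | b <;> simp [b]
      · refine ⟨⟨v, ?_⟩, ⟨v, ?_⟩⟩ <;> omega
    obtain ⟨⟨k1, e1⟩, m1, f1⟩ := key h₁
    obtain ⟨⟨k2, e2⟩, m2, f2⟩ := key h₂
    obtain ⟨⟨k3, e3⟩, m3, f3⟩ := key h₃
    obtain ⟨⟨k4, e4⟩, m4, f4⟩ := key h₄
    rcases HItem.bit D hH h₁ with ⟨X₁, Y₁, b₁⟩ | ⟨v, hv⟩
    · rcases HItem.bit D hH h₂ with ⟨X₂, Y₂, b₂⟩ | ⟨v, hv⟩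
      · rcases HItem.bit D hH h₃ with ⟨X₃, Y₃, b₃⟩ | ⟨v, hv⟩
        · rcases HItem.bit D hH h₄ with ⟨X₄, Y₄, b₄⟩ | ⟨v, hv⟩
          · exact D.no_twist b₁ b₂ b₃ b₄ a1 a2 a3 a4 a5 a6 a7
          · clear e1 e2 e3 f3 f4
            omega
        · clear e1 e2 e4 f3 f4
          omega
      · clear e1 e2 f1 f2 f3
        omega
    · clear e1 e4 f1 f2 f3 f4
      omega

end ok

section main

variable {V : Type*} {T : V → V → V → Prop} {n : ℕ} {s : ℕ → V} {c : V → V → V → ZMod 2}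
  {κ : Bool → ZMod 2} {U W : Bool → ℤ → ℤ} {ρ : ℤ → Bool}

/-- the local conditions of the class H2 for a Hamiltonian order -/
structure H2Ord (n : ℕ) (E : Bool → ℤ → ℤ → Prop) (U W : Bool → ℤ → ℤ) (ρ : ℤ → Bool) :
    Prop where
  one : ρ 1 = false
  r1 : ∀ j v x, 2 ≤ v → v ≤ (n : ℤ) - 2 → ρ v = j → E j v x → v + 1 < x → x < W j v →
    x ≤ W (!j) v
  r2 : ∀ j v x, 2 ≤ v → v ≤ (n : ℤ) - 2 → ρ v = !j → E j x v → U j v < x → x < v - 1 →
    U (!j) v ≤ x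
  g : ∀ j v, 1 ≤ v → v + 1 ≤ (n : ℤ) - 2 → ρ v = j → ρ (v + 1) = j →
    W j v = v + 1 ∨ U (!j) (v + 1) = v
  a : ∀ j x y s z, 1 ≤ x → y ≤ (n : ℤ) - 2 → ρ x = j → ρ y = j → x < U (!j) y → W j x < y →
    E (!j) s y → U (!j) y < s → E j x z → z < W j x → s ≤ z → s = z ∧ ρ z = !j

theorem H2Ord.h2 (h : IsSph T) (H : HamOrd T n s) (C : PageCol T n s c)
    (P : Paged T n s c κ U W) (O : H2Ord n (PgE T n s c κ) U W ρ) :
    H2 (PgE T n s c κ) U W ρ (fun v => 1 ≤ v ∧ v ≤ (n : ℤ) - 2) where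
  lt j x y e := Paged.lt e
  nc j x y x' y' e e' := Paged.nc h C e e'
  eu j v hv := P.eu C hv.1 hv.2
  ew j v hv := P.ew h C hv.1 hv.2
  euw j v hv := P.euw h C hv.1 hv.2
  nn j j' x y z e e' := by
    obtain ⟨a, b, rfl, rfl, h1, h2, -⟩ := e
    obtain ⟨a', b', h3, rfl, h1', h2', -⟩ := e'
    constructor <;> omega
  smp j x y e e' := by
    obtain ⟨a, b, rfl, rfl, h1, h2, w, h3, h4⟩ := e
    obtain ⟨a', b', ha, hb, h1', h2', w', h3', h4'⟩ := e'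
    obtain rfl : a' = a := by omega
    obtain rfl : b' = b := by omega
    have hne : c (s a') (s b') w ≠ c (s a') (s b') w' := by
      rw [h4, h4']
      intro k
      have := P.κ_inj k
      revert this
      cases j <;> simp
    have hw : w ≠ w' := by rintro rfl; exact hne rfl
    have hc : CycAdj n a' b' := by
      by_contra hc
      exact hne ((C.chg a' b' w w' (by omega) (by omega) h3 h3' hw).2 hc)
    rcases hc with hc | hc | ⟨hc1, hc2⟩ | ⟨hc1, hc2⟩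
    · left; omega
    · omega
    · right
      constructor <;> omega
    · omega
  r1 j v x hv hr e h1 h2 := by
    by_cases k : v = 1
    · subst k
      have hj : j = false := by rw [← hr, O.one]
      subst hj
      have h3 := (P.u0 h H C).2
      obtain ⟨a, b, ha, rfl, h4, h5, -⟩ := e
      show (b : ℤ) ≤ W true 1
      omega
    · exact O.r1 j v x (by omega) hv.2 hr e h1 h2
  r2 j v x hv hr e h1 h2 := by
    by_cases k : v = 1
    · subst k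
      obtain ⟨a, b, rfl, ha, h4, h5, -⟩ := e
      omega
    · exact O.r2 j v x (by omega) hv.2 hr e h1 h2
  g j v hv hv' hr hr' := O.g j v hv.1 hv'.2 hr hr'
  a j x y s z hx hy hrx hry h1 h2 h3 h4 h5 h6 h7 :=
    O.a j x y s z hx.1 hy.2 hrx hry h1 h2 h3 h4 h5 h6 h7

/-- **A Hamiltonian order of the class H2 gives a good layout.** -/
theorem H2Ord.lay (h : IsSph T) (H : HamOrd T n s) (C : PageCol T n s c)
    (P : Paged T n s c κ U W) (O : H2Ord n (PgE T n s c κ) U W ρ) :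
    ∃ p hh, Lay T (s 0) (s 1) (s (n - 1)) p hh := by
  refine lay_of_hostOK h H C P ((O.h2 h H C P).hostOK (fun j v hv => ⟨hv.1, hv.2.1⟩)) ?_
  unfold h2del
  rw [O.one]
  simp

end main

end Pool.Agent.Lib.MP_d86530_co
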