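import Pool.Agent.Lib.MP_d86530_co.Basic

set_option autoImplicit false

namespace Pool.Agent.Lib.MP_d86530_co

/-! ### Hamiltonian orders -/

/-- neighbours on the cycle `0, 1, ..., n-1` -/
def CycAdj (n i j : ℕ) : Prop := i + 1 = j ∨ j + 1 = i ∨ (i = 0 ∧ j + 1 = n) ∨ (j = 0 ∧ i + 1 = n)

/-- a Hamiltonian order `s 0, ..., s (n-1)` of the graph of `T` -/
structure HamOrd {V : Type*} (T : V → V → V → Prop) (n : ℕ) (s : ℕ → V) : Prop where
  inj : ∀ i < n, ∀ j < n, s i = s j → i = j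
  mem : ∀ i < n, s i ∈ Vert T
  surj : ∀ x ∈ Vert T, ∃ i < n, s i = x
  adj : ∀ i, i + 1 < n → Adj3 T (s i) (s (i + 1))
  closed : Adj3 T (s (n - 1)) (s 0)

/-- the property WR of a Hamiltonian order -/
structure WR {V : Type*} (T : V → V → V → Prop) (n : ℕ) (s : ℕ → V) : Prop extends HamOrd T n s where
  outer : T (s 0) (s 1) (s (n - 1))
  wr : ∀ i j k, i < j → j < k → k < n → T (s i) (s j) (s k) →
    i + 1 = j ∨ j + 1 = k ∨ T (s j) (s (j + 1)) (s k)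
  wr1 : ∀ k, 1 < k → k + 1 < n → T (s 0) (s 1) (s k) → k = 2 ∨ T (s 1) (s 2) (s k)

end Pool.Agent.Lib.MP_d86530_co
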