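import Mathlib

/-!
# MP_d86530_co: the hosting rule, abstract form

Two pages of non-crossing edges over the line `0, …, n - 1`; every node `v` (`1 ≤ v ≤ n - 2`) is the
middle vertex of the face `(U j v, v, W j v)` of the page `j`.  The host of this face is put at
`v` shifted slightly by `δ j v` (in units of `1 / 100`).  Under the local rules below no four items
(edges, and edges from a host to a corner of its face) cross pairwise.
-/

set_option autoImplicit false

namespace Pool.Agent.Lib.MP_d86530_co

/-- two pages with hosts; `H j v`: the face with middle vertex `v` of page `j` has a host -/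
structure HostData (E : Bool → ℤ → ℤ → Prop) (U W δ : Bool → ℤ → ℤ) (N H : Bool → ℤ → Prop) :
    Prop where
  lt : ∀ j x y, E j x y → x < y
  nc : ∀ j x y x' y', E j x y → E j x' y' → ¬ (x < x' ∧ x' < y ∧ y < y')
  hn : ∀ j v, H j v → N j v
  eu : ∀ j v, N j v → E j (U j v) v
  ew : ∀ j v, N j v → E j v (W j v)
  euw : ∀ j v, N j v → E j (U j v) (W j v)
  del : ∀ j v, H j v → δ j v = 10 ∨ δ j v = 20 ∨ δ j v = -10 ∨ δ j v = -20
  /-- hosts on the right: at most two right neighbours -/
  r1 : ∀ j v t, H j v → 0 < δ j v → E j v t → t = v + 1 ∨ t = W j v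
  /-- both hosts on the right: the larger face comes first -/
  r2 : ∀ j v, H j v → H (!j) v → 0 < δ j v → δ j v ≤ δ (!j) v →
    δ j v < δ (!j) v ∧ U (!j) v ≤ U j v ∧ W (!j) v ≤ W j v
  /-- host on the left of a face without the spine edge `(v - 1, v)`: an inner face, or a face whose
  middle vertex has only the left neighbours `U j v` and `v - 1` -/
  r3 : ∀ j v, H j v → δ j v < 0 → U j v < v - 1 → δ j v = -10 ∧ (H (!j) v → 0 < δ (!j) v) ∧
    ((N (!j) v ∧ U (!j) v < U j v ∧ W j v < W (!j) v) ∨
      ((∀ x, E j x v → x = U j v ∨ x = v - 1) ∧ (H j (v - 1) → 0 < δ j (v - 1)) ∧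
        (H (!j) (v - 1) → 0 < δ (!j) (v - 1) → W (!j) (v - 1) = v)))
  /-- both hosts on the left: the larger right end comes first -/
  r4 : ∀ j v, H j v → H (!j) v → δ (!j) v < 0 → δ j v ≤ δ (!j) v →
    δ j v < δ (!j) v ∧ W (!j) v ≤ W j v
  r5 : ∀ j v, H j v → 0 < δ j v → U j v = v - 1 → H j (v - 1) → 0 < δ j (v - 1) → False

variable {E : Bool → ℤ → ℤ → Prop} {U W δ : Bool → ℤ → ℤ} {N H : Bool → ℤ → Prop}

/-- the items of the page `j`: edges, and edges from hosts to corners (with the host end shifted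
by at most `1` such that the three edges from a host cross pairwise) -/
inductive HItem (E : Bool → ℤ → ℤ → Prop) (U W δ : Bool → ℤ → ℤ) (H : Bool → ℤ → Prop)
    (j : Bool) : ℤ → ℤ → Prop
  | e (x y : ℤ) : E j x y → HItem E U W δ H j (100 * x) (100 * y)
  | aR (v : ℤ) : H j v → 0 < δ j v → HItem E U W δ H j (100 * U j v) (100 * v + δ j v)
  | aL (v : ℤ) : H j v → δ j v < 0 → HItem E U W δ H j (100 * U j v) (100 * v + δ j v + 1)
  | mR (v : ℤ) : H j v → 0 < δ j v → HItem E U W δ H j (100 * v) (100 * v + δ j v + 1)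
  | mL (v : ℤ) : H j v → δ j v < 0 → HItem E U W δ H j (100 * v + δ j v - 1) (100 * v)
  | bR (v : ℤ) : H j v → 0 < δ j v → HItem E U W δ H j (100 * v + δ j v - 1) (100 * W j v)
  | bL (v : ℤ) : H j v → δ j v < 0 → HItem E U W δ H j (100 * v + δ j v) (100 * W j v)

namespace HostData

variable (D : HostData E U W δ N H)

include D

theorem ulv {j : Bool} {v : ℤ} (h : N j v) : U j v < v := D.lt _ _ _ (D.eu _ _ h)

theorem vlw {j : Bool} {v : ℤ} (h : N j v) : v < W j v := D.lt _ _ _ (D.ew _ _ h)

/-- two nodes of the same page -/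
theorem tri3 {j : Bool} {v v' : ℤ} (h : N j v) (h' : N j v') (hv : v < v') :
    (U j v' ≤ U j v ∧ W j v ≤ v') ∨ (v ≤ U j v' ∧ W j v' ≤ W j v ∧ v' < W j v) ∨
      W j v ≤ U j v' := by
  have a1 := D.ulv h
  have a2 := D.vlw h
  have a3 := D.ulv h'
  have a4 := D.vlw h'
  have n1 := D.nc j _ _ _ _ (D.eu _ _ h) (D.eu _ _ h')
  have n2 := D.nc j _ _ _ _ (D.eu _ _ h') (D.eu _ _ h)
  have n3 := D.nc j _ _ _ _ (D.ew _ _ h) (D.ew _ _ h')
  have n4 := D.nc j _ _ _ _ (D.eu _ _ h') (D.ew _ _ h)
  have n5 := D.nc j _ _ _ _ (D.ew _ _ h) (D.eu _ _ h')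
  have n6 := D.nc j _ _ _ _ (D.euw _ _ h) (D.eu _ _ h')
  have n7 := D.nc j _ _ _ _ (D.euw _ _ h) (D.euw _ _ h')
  have n8 := D.nc j _ _ _ _ (D.ew _ _ h) (D.euw _ _ h')
  have n9 := D.nc j _ _ _ _ (D.euw _ _ h') (D.ew _ _ h)
  by_cases c1 : U j v' < v
  · left
    constructor
    · by_contra hc
      apply n1
      omega
    · by_contra hc
      by_cases c : U j v' ≤ U j v <;> omega
  · omega

/-- an edge and a node of the same page -/
theorem edge3 {j : Bool} {x y v : ℤ} (he : E j x y) (h : N j v) :
    (v ≤ x ∧ (W j v ≤ x ∨ y ≤ W j v)) ∨ (x ≤ U j v ∧ W j v ≤ y) ∨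
      (y ≤ v ∧ (y ≤ U j v ∨ U j v ≤ x)) := by
  have a0 := D.lt _ _ _ he
  have a1 := D.ulv h
  have a2 := D.vlw h
  have n1 := D.nc j _ _ _ _ (D.eu _ _ h) he
  have n2 := D.nc j _ _ _ _ he (D.ew _ _ h)
  have n3 := D.nc j _ _ _ _ (D.euw _ _ h) he
  have n4 := D.nc j _ _ _ _ he (D.euw _ _ h)
  omega

end HostData


namespace HostData

variable (D : HostData E U W δ N H)

include D

/-- a node on the right side of an edge at a right-hosted node -/
theorem r1' {j : Bool} {v v' : ℤ} (h : H j v) (hd : 0 < δ j v) (h' : N j v') (hu : U j v' = v) :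
    v' = v + 1 := by
  have h1 := D.r1 j v v' h hd (hu ▸ D.eu _ _ h')
  have n1 := D.nc j _ _ _ _ (D.euw _ _ (D.hn _ _ h)) (D.euw _ _ h')
  have a1 := D.ulv (D.hn _ _ h)
  have a2 := D.vlw (D.hn _ _ h)
  have a4 := D.vlw h'
  rcases h1 with h1 | h1
  · exact h1
  · omega

/-- crossing items of the same page -/
theorem sp {j : Bool} {l r l' r' : ℤ} (hI : HItem E U W δ H j l r) (hI' : HItem E U W δ H j l' r')
    (h1 : l < l') (h2 : l' < r) (h3 : r < r') :
    r ≤ 100 * (l' / 100) + 100 ∨ ∃ v, H j v ∧ δ j v = -10 ∧ U j v < v - 1 ∧ l = 100 * U j v ∧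
      r = 100 * v + δ j v + 1 ∧ r' = 100 * v ∧ 100 * U j v + 79 ≤ l' ∧
      (H (!j) v → 0 < δ (!j) v) ∧ N (!j) v ∧ U (!j) v < U j v ∧ W j v < W (!j) v := by
  have key : ∀ v v', H j v → H j v' → v < v' → (U j v' ≤ U j v ∧ W j v ≤ v') ∨
      (v ≤ U j v' ∧ W j v' ≤ W j v ∧ v' < W j v) ∨ W j v ≤ U j v' :=
    fun v v' h h' hv => D.tri3 (D.hn _ _ h) (D.hn _ _ h') hv
  cases hI with
  | e x y he =>
    have a0 := D.lt _ _ _ he
    cases hI' with
    | e x' y' he' =>
      exact absurd ⟨by omega, by omega, by omega⟩ (D.nc j _ _ _ _ he he')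
    | aR v hv hd =>
      have e3 := D.edge3 he (D.hn _ _ hv)
      have d := D.del _ _ hv
      have a1 := D.ulv (D.hn _ _ hv)
      have a2 := D.vlw (D.hn _ _ hv)
      left
      omega
    | aL v hv hd =>
      have e3 := D.edge3 he (D.hn _ _ hv)
      have d := D.del _ _ hv
      have a1 := D.ulv (D.hn _ _ hv)
      have a2 := D.vlw (D.hn _ _ hv)
      left
      omega
    | mR v hv hd =>
      have e3 := D.edge3 he (D.hn _ _ hv)
      have d := D.del _ _ hv
      have a1 := D.ulv (D.hn _ _ hv)
      have a2 := D.vlw (D.hn _ _ hv)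
      left
      omega
    | mL v hv hd =>
      have e3 := D.edge3 he (D.hn _ _ hv)
      have d := D.del _ _ hv
      have a1 := D.ulv (D.hn _ _ hv)
      have a2 := D.vlw (D.hn _ _ hv)
      left
      omega
    | bR v hv hd =>
      have e3 := D.edge3 he (D.hn _ _ hv)
      have d := D.del _ _ hv
      have a1 := D.ulv (D.hn _ _ hv)
      have a2 := D.vlw (D.hn _ _ hv)
      have r := D.r1 j v y hv hd
      left
      by_cases hx : x = v
      · have := r (hx ▸ he)
        omega
      · omega
    | bL v hv hd =>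
      have e3 := D.edge3 he (D.hn _ _ hv)
      have d := D.del _ _ hv
      have a1 := D.ulv (D.hn _ _ hv)
      have a2 := D.vlw (D.hn _ _ hv)
      left
      omega
  | aR v hv hd =>
    have d := D.del _ _ hv
    have a1 := D.ulv (D.hn _ _ hv)
    have a2 := D.vlw (D.hn _ _ hv)
    cases hI' with
    | e x y he =>
      have a0 := D.lt _ _ _ he
      have e3 := D.edge3 he (D.hn _ _ hv)
      have r := D.r1 j v y hv hd
      left
      by_cases hx : x = v
      · have := r (hx ▸ he)
        omega
      · omega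
    | aR v' hv' hd' =>
      have d' := D.del _ _ hv'
      have a3 := D.ulv (D.hn _ _ hv')
      have a4 := D.vlw (D.hn _ _ hv')
      have k1 := key v v' hv hv'
      have k2 := key v' v hv' hv
      have hc : v = v' → δ j v = δ j v' ∧ U j v = U j v' ∧ W j v = W j v' := by
        rintro rfl; exact ⟨rfl, rfl, rfl⟩
      have r := D.r1' hv hd (D.hn _ _ hv')
      left
      omega
    | aL v' hv' hd' =>
      have d' := D.del _ _ hv'
      have a3 := D.ulv (D.hn _ _ hv')
      have a4 := D.vlw (D.hn _ _ hv')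
      have k1 := key v v' hv hv'
      have k2 := key v' v hv' hv
      have hc : v = v' → δ j v = δ j v' ∧ U j v = U j v' ∧ W j v = W j v' := by
        rintro rfl; exact ⟨rfl, rfl, rfl⟩
      have r := D.r1' hv hd (D.hn _ _ hv')
      left
      omega
    | mR v' hv' hd' =>
      have d' := D.del _ _ hv'
      have a3 := D.ulv (D.hn _ _ hv')
      have a4 := D.vlw (D.hn _ _ hv')
      have k1 := key v v' hv hv'
      have k2 := key v' v hv' hv
      have hc : v = v' → δ j v = δ j v' ∧ U j v = U j v' ∧ W j v = W j v' := by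
        rintro rfl; exact ⟨rfl, rfl, rfl⟩
      have r := D.r1' hv hd (D.hn _ _ hv')
      left
      omega
    | mL v' hv' hd' =>
      have d' := D.del _ _ hv'
      have a3 := D.ulv (D.hn _ _ hv')
      have a4 := D.vlw (D.hn _ _ hv')
      have k1 := key v v' hv hv'
      have k2 := key v' v hv' hv
      have hc : v = v' → δ j v = δ j v' ∧ U j v = U j v' ∧ W j v = W j v' := by
        rintro rfl; exact ⟨rfl, rfl, rfl⟩
      have r := D.r1' hv hd (D.hn _ _ hv')
      left
      omega
    | bR v' hv' hd' =>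
      have d' := D.del _ _ hv'
      have a3 := D.ulv (D.hn _ _ hv')
      have a4 := D.vlw (D.hn _ _ hv')
      have k1 := key v v' hv hv'
      have k2 := key v' v hv' hv
      have hc : v = v' → δ j v = δ j v' ∧ U j v = U j v' ∧ W j v = W j v' := by
        rintro rfl; exact ⟨rfl, rfl, rfl⟩
      have r := D.r1' hv hd (D.hn _ _ hv')
      have rr := D.r1' hv' hd' (D.hn _ _ hv)
      have r6 : v' = v - 1 → U j v ≠ v - 1 := fun hh hU =>
        D.r5 _ _ hv hd hU (hh ▸ hv') (hh ▸ hd')
      left
      omega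
    | bL v' hv' hd' =>
      have d' := D.del _ _ hv'
      have a3 := D.ulv (D.hn _ _ hv')
      have a4 := D.vlw (D.hn _ _ hv')
      have k1 := key v v' hv hv'
      have k2 := key v' v hv' hv
      have hc : v = v' → δ j v = δ j v' ∧ U j v = U j v' ∧ W j v = W j v' := by
        rintro rfl; exact ⟨rfl, rfl, rfl⟩
      have r := D.r1' hv hd (D.hn _ _ hv')
      left
      omega
  | aL v hv hd =>
    have d := D.del _ _ hv
    have a1 := D.ulv (D.hn _ _ hv)
    have a2 := D.vlw (D.hn _ _ hv)
    -- the exceptional pairs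
    refine or_iff_not_imp_left.2 fun hcc => ?_
    have hu : U j v < v - 1 ∧ r' = 100 * v ∧ 100 * U j v + 79 ≤ l' ∧
        ((E j (v - 1) v ∨ True) ∧ ((∀ x, E j x v → x = U j v ∨ x = v - 1) →
          (H j (v - 1) → 0 < δ j (v - 1)) → False)) := by
      cases hI' with
      | e x y he =>
        have a0 := D.lt _ _ _ he
        have e3 := D.edge3 he (D.hn _ _ hv)
        refine ⟨by omega, by omega, by omega, Or.inr trivial, fun hx _ => ?_⟩
        have hy : y = v := by omega
        have := hx x (hy ▸ he)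
        omega
      | aR v' hv' hd' =>
        have d' := D.del _ _ hv'
        have a3 := D.ulv (D.hn _ _ hv')
        have a4 := D.vlw (D.hn _ _ hv')
        have k1 := key v v' hv hv'
        have k2 := key v' v hv' hv
        have hc : v = v' → δ j v = δ j v' ∧ U j v = U j v' ∧ W j v = W j v' := by
          rintro rfl; exact ⟨rfl, rfl, rfl⟩
        omega
      | aL v' hv' hd' =>
        have d' := D.del _ _ hv'
        have a3 := D.ulv (D.hn _ _ hv')
        have a4 := D.vlw (D.hn _ _ hv')
        have k1 := key v v' hv hv'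
        have k2 := key v' v hv' hv
        have hc : v = v' → δ j v = δ j v' ∧ U j v = U j v' ∧ W j v = W j v' := by
          rintro rfl; exact ⟨rfl, rfl, rfl⟩
        omega
      | mR v' hv' hd' =>
        have d' := D.del _ _ hv'
        have a3 := D.ulv (D.hn _ _ hv')
        have a4 := D.vlw (D.hn _ _ hv')
        have k1 := key v v' hv hv'
        have k2 := key v' v hv' hv
        have hc : v = v' → δ j v = δ j v' ∧ U j v = U j v' ∧ W j v = W j v' := by
          rintro rfl; exact ⟨rfl, rfl, rfl⟩
        omega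
      | mL v' hv' hd' =>
        have d' := D.del _ _ hv'
        have a3 := D.ulv (D.hn _ _ hv')
        have a4 := D.vlw (D.hn _ _ hv')
        have k1 := key v v' hv hv'
        have k2 := key v' v hv' hv
        have hc : v = v' → δ j v = δ j v' ∧ U j v = U j v' ∧ W j v = W j v' := by
          rintro rfl; exact ⟨rfl, rfl, rfl⟩
        omega
      | bR v' hv' hd' =>
        have d' := D.del _ _ hv'
        have a3 := D.ulv (D.hn _ _ hv')
        have a4 := D.vlw (D.hn _ _ hv')
        have k1 := key v v' hv hv'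
        have k2 := key v' v hv' hv
        have hc : v = v' → δ j v = δ j v' ∧ U j v = U j v' ∧ W j v = W j v' := by
          rintro rfl; exact ⟨rfl, rfl, rfl⟩
        have rr := D.r1' hv' hd' (D.hn _ _ hv)
        refine ⟨by omega, by omega, by omega, Or.inr trivial, fun hx hy => ?_⟩
        have hw : W j v' = v := by omega
        have h5 := hx v' (hw ▸ D.ew _ _ (D.hn _ _ hv'))
        rcases h5 with h5 | h5
        · omega
        · subst h5
          have := hy hv'
          omega
      | bL v' hv' hd' =>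
        have d' := D.del _ _ hv'
        have a3 := D.ulv (D.hn _ _ hv')
        have a4 := D.vlw (D.hn _ _ hv')
        have k1 := key v v' hv hv'
        have k2 := key v' v hv' hv
        have hc : v = v' → δ j v = δ j v' ∧ U j v = U j v' ∧ W j v = W j v' := by
          rintro rfl; exact ⟨rfl, rfl, rfl⟩
        refine ⟨by omega, by omega, by omega, Or.inr trivial, fun hx hy => ?_⟩
        have hw : W j v' = v := by omega
        have h5 := hx v' (hw ▸ D.ew _ _ (D.hn _ _ hv'))
        rcases h5 with h5 | h5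
        · omega
        · subst h5
          have := hy hv'
          omega
    obtain ⟨hu1, hu2, hu3, -, hu4⟩ := hu
    obtain ⟨q1, q2, q3⟩ := D.r3 _ _ hv hd hu1
    rcases q3 with q3 | q3
    · exact ⟨v, hv, q1, hu1, rfl, rfl, hu2, hu3, q2, q3⟩
    · exact (hu4 q3.1 q3.2.1).elim
  | mR v hv hd =>
    have d := D.del _ _ hv
    have a1 := D.ulv (D.hn _ _ hv)
    have a2 := D.vlw (D.hn _ _ hv)
    cases hI' with
    | e x y he =>
      have a0 := D.lt _ _ _ he
      have e3 := D.edge3 he (D.hn _ _ hv)
      have r := D.r1 j v y hv hd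
      left
      by_cases hx : x = v
      · have := r (hx ▸ he)
        omega
      · omega
    | aR v' hv' hd' =>
      have d' := D.del _ _ hv'
      have a3 := D.ulv (D.hn _ _ hv')
      have a4 := D.vlw (D.hn _ _ hv')
      have k1 := key v v' hv hv'
      have k2 := key v' v hv' hv
      have hc : v = v' → δ j v = δ j v' ∧ U j v = U j v' ∧ W j v = W j v' := by
        rintro rfl; exact ⟨rfl, rfl, rfl⟩
      have r := D.r1' hv hd (D.hn _ _ hv')
      left
      omega
    | aL v' hv' hd' =>
      have d' := D.del _ _ hv'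
      have a3 := D.ulv (D.hn _ _ hv')
      have a4 := D.vlw (D.hn _ _ hv')
      have k1 := key v v' hv hv'
      have k2 := key v' v hv' hv
      have hc : v = v' → δ j v = δ j v' ∧ U j v = U j v' ∧ W j v = W j v' := by
        rintro rfl; exact ⟨rfl, rfl, rfl⟩
      have r := D.r1' hv hd (D.hn _ _ hv')
      left
      omega
    | mR v' hv' hd' =>
      have d' := D.del _ _ hv'
      have a3 := D.ulv (D.hn _ _ hv')
      have a4 := D.vlw (D.hn _ _ hv')
      have k1 := key v v' hv hv'
      have k2 := key v' v hv' hv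
      have hc : v = v' → δ j v = δ j v' ∧ U j v = U j v' ∧ W j v = W j v' := by
        rintro rfl; exact ⟨rfl, rfl, rfl⟩
      have r := D.r1' hv hd (D.hn _ _ hv')
      left
      omega
    | mL v' hv' hd' =>
      have d' := D.del _ _ hv'
      have a3 := D.ulv (D.hn _ _ hv')
      have a4 := D.vlw (D.hn _ _ hv')
      have k1 := key v v' hv hv'
      have k2 := key v' v hv' hv
      have hc : v = v' → δ j v = δ j v' ∧ U j v = U j v' ∧ W j v = W j v' := by
        rintro rfl; exact ⟨rfl, rfl, rfl⟩
      have r := D.r1' hv hd (D.hn _ _ hv')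
      left
      omega
    | bR v' hv' hd' =>
      have d' := D.del _ _ hv'
      have a3 := D.ulv (D.hn _ _ hv')
      have a4 := D.vlw (D.hn _ _ hv')
      have k1 := key v v' hv hv'
      have k2 := key v' v hv' hv
      have hc : v = v' → δ j v = δ j v' ∧ U j v = U j v' ∧ W j v = W j v' := by
        rintro rfl; exact ⟨rfl, rfl, rfl⟩
      have r := D.r1' hv hd (D.hn _ _ hv')
      left
      omega
    | bL v' hv' hd' =>
      have d' := D.del _ _ hv'
      have a3 := D.ulv (D.hn _ _ hv')
      have a4 := D.vlw (D.hn _ _ hv')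
      have k1 := key v v' hv hv'
      have k2 := key v' v hv' hv
      have hc : v = v' → δ j v = δ j v' ∧ U j v = U j v' ∧ W j v = W j v' := by
        rintro rfl; exact ⟨rfl, rfl, rfl⟩
      have r := D.r1' hv hd (D.hn _ _ hv')
      left
      omega
  | mL v hv hd =>
    have d := D.del _ _ hv
    have a1 := D.ulv (D.hn _ _ hv)
    have a2 := D.vlw (D.hn _ _ hv)
    cases hI' with
    | e x y he =>
      have a0 := D.lt _ _ _ he
      have e3 := D.edge3 he (D.hn _ _ hv)
      left
      omega
    | aR v' hv' hd' =>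
      have d' := D.del _ _ hv'
      have a3 := D.ulv (D.hn _ _ hv')
      have a4 := D.vlw (D.hn _ _ hv')
      have k1 := key v v' hv hv'
      have k2 := key v' v hv' hv
      have hc : v = v' → δ j v = δ j v' ∧ U j v = U j v' ∧ W j v = W j v' := by
        rintro rfl; exact ⟨rfl, rfl, rfl⟩
      left
      omega
    | aL v' hv' hd' =>
      have d' := D.del _ _ hv'
      have a3 := D.ulv (D.hn _ _ hv')
      have a4 := D.vlw (D.hn _ _ hv')
      have k1 := key v v' hv hv'
      have k2 := key v' v hv' hv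
      have hc : v = v' → δ j v = δ j v' ∧ U j v = U j v' ∧ W j v = W j v' := by
        rintro rfl; exact ⟨rfl, rfl, rfl⟩
      left
      omega
    | mR v' hv' hd' =>
      have d' := D.del _ _ hv'
      have a3 := D.ulv (D.hn _ _ hv')
      have a4 := D.vlw (D.hn _ _ hv')
      have k1 := key v v' hv hv'
      have k2 := key v' v hv' hv
      have hc : v = v' → δ j v = δ j v' ∧ U j v = U j v' ∧ W j v = W j v' := by
        rintro rfl; exact ⟨rfl, rfl, rfl⟩
      left
      omega
    | mL v' hv' hd' =>
      have d' := D.del _ _ hv'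
      have a3 := D.ulv (D.hn _ _ hv')
      have a4 := D.vlw (D.hn _ _ hv')
      have k1 := key v v' hv hv'
      have k2 := key v' v hv' hv
      have hc : v = v' → δ j v = δ j v' ∧ U j v = U j v' ∧ W j v = W j v' := by
        rintro rfl; exact ⟨rfl, rfl, rfl⟩
      left
      omega
    | bR v' hv' hd' =>
      have d' := D.del _ _ hv'
      have a3 := D.ulv (D.hn _ _ hv')
      have a4 := D.vlw (D.hn _ _ hv')
      have k1 := key v v' hv hv'
      have k2 := key v' v hv' hv
      have hc : v = v' → δ j v = δ j v' ∧ U j v = U j v' ∧ W j v = W j v' := by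
        rintro rfl; exact ⟨rfl, rfl, rfl⟩
      left
      omega
    | bL v' hv' hd' =>
      have d' := D.del _ _ hv'
      have a3 := D.ulv (D.hn _ _ hv')
      have a4 := D.vlw (D.hn _ _ hv')
      have k1 := key v v' hv hv'
      have k2 := key v' v hv' hv
      have hc : v = v' → δ j v = δ j v' ∧ U j v = U j v' ∧ W j v = W j v' := by
        rintro rfl; exact ⟨rfl, rfl, rfl⟩
      left
      omega
  | bR v hv hd =>
    have d := D.del _ _ hv
    have a1 := D.ulv (D.hn _ _ hv)
    have a2 := D.vlw (D.hn _ _ hv)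
    cases hI' with
    | e x y he =>
      have a0 := D.lt _ _ _ he
      have e3 := D.edge3 he (D.hn _ _ hv)
      have r := D.r1 j v y hv hd
      left
      by_cases hx : x = v
      · have := r (hx ▸ he)
        omega
      · omega
    | aR v' hv' hd' =>
      have d' := D.del _ _ hv'
      have a3 := D.ulv (D.hn _ _ hv')
      have a4 := D.vlw (D.hn _ _ hv')
      have k1 := key v v' hv hv'
      have k2 := key v' v hv' hv
      have hc : v = v' → δ j v = δ j v' ∧ U j v = U j v' ∧ W j v = W j v' := by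
        rintro rfl; exact ⟨rfl, rfl, rfl⟩
      have r := D.r1' hv hd (D.hn _ _ hv')
      left
      omega
    | aL v' hv' hd' =>
      have d' := D.del _ _ hv'
      have a3 := D.ulv (D.hn _ _ hv')
      have a4 := D.vlw (D.hn _ _ hv')
      have k1 := key v v' hv hv'
      have k2 := key v' v hv' hv
      have hc : v = v' → δ j v = δ j v' ∧ U j v = U j v' ∧ W j v = W j v' := by
        rintro rfl; exact ⟨rfl, rfl, rfl⟩
      have r := D.r1' hv hd (D.hn _ _ hv')
      left
      omega
    | mR v' hv' hd' =>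
      have d' := D.del _ _ hv'
      have a3 := D.ulv (D.hn _ _ hv')
      have a4 := D.vlw (D.hn _ _ hv')
      have k1 := key v v' hv hv'
      have k2 := key v' v hv' hv
      have hc : v = v' → δ j v = δ j v' ∧ U j v = U j v' ∧ W j v = W j v' := by
        rintro rfl; exact ⟨rfl, rfl, rfl⟩
      have r := D.r1' hv hd (D.hn _ _ hv')
      left
      omega
    | mL v' hv' hd' =>
      have d' := D.del _ _ hv'
      have a3 := D.ulv (D.hn _ _ hv')
      have a4 := D.vlw (D.hn _ _ hv')
      have k1 := key v v' hv hv'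
      have k2 := key v' v hv' hv
      have hc : v = v' → δ j v = δ j v' ∧ U j v = U j v' ∧ W j v = W j v' := by
        rintro rfl; exact ⟨rfl, rfl, rfl⟩
      have r := D.r1' hv hd (D.hn _ _ hv')
      left
      omega
    | bR v' hv' hd' =>
      have d' := D.del _ _ hv'
      have a3 := D.ulv (D.hn _ _ hv')
      have a4 := D.vlw (D.hn _ _ hv')
      have k1 := key v v' hv hv'
      have k2 := key v' v hv' hv
      have hc : v = v' → δ j v = δ j v' ∧ U j v = U j v' ∧ W j v = W j v' := by
        rintro rfl; exact ⟨rfl, rfl, rfl⟩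
      have r := D.r1' hv hd (D.hn _ _ hv')
      left
      omega
    | bL v' hv' hd' =>
      have d' := D.del _ _ hv'
      have a3 := D.ulv (D.hn _ _ hv')
      have a4 := D.vlw (D.hn _ _ hv')
      have k1 := key v v' hv hv'
      have k2 := key v' v hv' hv
      have hc : v = v' → δ j v = δ j v' ∧ U j v = U j v' ∧ W j v = W j v' := by
        rintro rfl; exact ⟨rfl, rfl, rfl⟩
      have r := D.r1' hv hd (D.hn _ _ hv')
      left
      omega
  | bL v hv hd =>
    have d := D.del _ _ hv
    have a1 := D.ulv (D.hn _ _ hv)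
    have a2 := D.vlw (D.hn _ _ hv)
    cases hI' with
    | e x y he =>
      have a0 := D.lt _ _ _ he
      have e3 := D.edge3 he (D.hn _ _ hv)
      left
      omega
    | aR v' hv' hd' =>
      have d' := D.del _ _ hv'
      have a3 := D.ulv (D.hn _ _ hv')
      have a4 := D.vlw (D.hn _ _ hv')
      have k1 := key v v' hv hv'
      have k2 := key v' v hv' hv
      have hc : v = v' → δ j v = δ j v' ∧ U j v = U j v' ∧ W j v = W j v' := by
        rintro rfl; exact ⟨rfl, rfl, rfl⟩
      left
      omega
    | aL v' hv' hd' =>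
      have d' := D.del _ _ hv'
      have a3 := D.ulv (D.hn _ _ hv')
      have a4 := D.vlw (D.hn _ _ hv')
      have k1 := key v v' hv hv'
      have k2 := key v' v hv' hv
      have hc : v = v' → δ j v = δ j v' ∧ U j v = U j v' ∧ W j v = W j v' := by
        rintro rfl; exact ⟨rfl, rfl, rfl⟩
      left
      omega
    | mR v' hv' hd' =>
      have d' := D.del _ _ hv'
      have a3 := D.ulv (D.hn _ _ hv')
      have a4 := D.vlw (D.hn _ _ hv')
      have k1 := key v v' hv hv'
      have k2 := key v' v hv' hv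
      have hc : v = v' → δ j v = δ j v' ∧ U j v = U j v' ∧ W j v = W j v' := by
        rintro rfl; exact ⟨rfl, rfl, rfl⟩
      left
      omega
    | mL v' hv' hd' =>
      have d' := D.del _ _ hv'
      have a3 := D.ulv (D.hn _ _ hv')
      have a4 := D.vlw (D.hn _ _ hv')
      have k1 := key v v' hv hv'
      have k2 := key v' v hv' hv
      have hc : v = v' → δ j v = δ j v' ∧ U j v = U j v' ∧ W j v = W j v' := by
        rintro rfl; exact ⟨rfl, rfl, rfl⟩
      left
      omega
    | bR v' hv' hd' =>
      have d' := D.del _ _ hv'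
      have a3 := D.ulv (D.hn _ _ hv')
      have a4 := D.vlw (D.hn _ _ hv')
      have k1 := key v v' hv hv'
      have k2 := key v' v hv' hv
      have hc : v = v' → δ j v = δ j v' ∧ U j v = U j v' ∧ W j v = W j v' := by
        rintro rfl; exact ⟨rfl, rfl, rfl⟩
      left
      omega
    | bL v' hv' hd' =>
      have d' := D.del _ _ hv'
      have a3 := D.ulv (D.hn _ _ hv')
      have a4 := D.vlw (D.hn _ _ hv')
      have k1 := key v v' hv hv'
      have k2 := key v' v hv' hv
      have hc : v = v' → δ j v = δ j v' ∧ U j v = U j v' ∧ W j v = W j v' := by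
        rintro rfl; exact ⟨rfl, rfl, rfl⟩
      left
      omega

end HostData

/-- two intervals cross -/
def XX (l r l' r' : ℤ) : Prop := (l < l' ∧ l' < r ∧ r < r') ∨ (l' < l ∧ l < r' ∧ r' < r)

namespace HostData

variable (D : HostData E U W δ N H)

include D

/-- an item which crosses both items of a pair of the first kind -/
theorem ptype {j k : Bool} {v l' p q : ℤ} (hv : H j v) (hd : δ j v = -10) (hu : U j v < v - 1)
    (hh : H (!j) v → 0 < δ (!j) v) (hn : N (!j) v) (u' : U (!j) v < U j v)
    (w' : W j v < W (!j) v)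
    (h1 : 100 * U j v + 79 ≤ l') (h2 : l' < 100 * v + δ j v + 1) (hK : HItem E U W δ H k p q)
    (hX : XX (100 * U j v) (100 * v + δ j v + 1) p q) (hX' : XX l' (100 * v) p q) :
    (k = !j ∧ p < 100 * U j v ∧ l' < q ∧ q < 100 * v + δ j v + 1) ∨
      (p = 100 * v + δ j v ∧ q = 100 * W j v) := by
  have a1 := D.ulv (D.hn _ _ hv)
  have a2 := D.vlw (D.hn _ _ hv)
  have a1' := D.ulv hn
  have a2' := D.vlw hn
  unfold XX at hX hX'
  rcases Bool.eq_or_eq_not k j with hk | hk
  · subst hk
    right
    cases hK with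
    | e x y he =>
      have a0 := D.lt _ _ _ he
      have e3 := D.edge3 he (D.hn _ _ hv)
      omega
    | aR w hw hdw =>
      have d' := D.del _ _ hw
      have a3 := D.ulv (D.hn _ _ hw)
      have a4 := D.vlw (D.hn _ _ hw)
      have k1 := D.tri3 (D.hn _ _ hv) (D.hn _ _ hw)
      have k2 := D.tri3 (D.hn _ _ hw) (D.hn _ _ hv)
      rcases eq_or_ne v w with rfl | hne
      · omega
      · omega
    | aL w hw hdw =>
      have d' := D.del _ _ hw
      have a3 := D.ulv (D.hn _ _ hw)
      have a4 := D.vlw (D.hn _ _ hw)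
      have k1 := D.tri3 (D.hn _ _ hv) (D.hn _ _ hw)
      have k2 := D.tri3 (D.hn _ _ hw) (D.hn _ _ hv)
      rcases eq_or_ne v w with rfl | hne
      · omega
      · omega
    | mR w hw hdw =>
      have d' := D.del _ _ hw
      have a3 := D.ulv (D.hn _ _ hw)
      have a4 := D.vlw (D.hn _ _ hw)
      have k1 := D.tri3 (D.hn _ _ hv) (D.hn _ _ hw)
      have k2 := D.tri3 (D.hn _ _ hw) (D.hn _ _ hv)
      rcases eq_or_ne v w with rfl | hne
      · omega
      · omega
    | mL w hw hdw =>
      have d' := D.del _ _ hw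
      have a3 := D.ulv (D.hn _ _ hw)
      have a4 := D.vlw (D.hn _ _ hw)
      have k1 := D.tri3 (D.hn _ _ hv) (D.hn _ _ hw)
      have k2 := D.tri3 (D.hn _ _ hw) (D.hn _ _ hv)
      rcases eq_or_ne v w with rfl | hne
      · omega
      · omega
    | bR w hw hdw =>
      have d' := D.del _ _ hw
      have a3 := D.ulv (D.hn _ _ hw)
      have a4 := D.vlw (D.hn _ _ hw)
      have k1 := D.tri3 (D.hn _ _ hv) (D.hn _ _ hw)
      have k2 := D.tri3 (D.hn _ _ hw) (D.hn _ _ hv)
      rcases eq_or_ne v w with rfl | hne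
      · omega
      · omega
    | bL w hw hdw =>
      have d' := D.del _ _ hw
      have a3 := D.ulv (D.hn _ _ hw)
      have a4 := D.vlw (D.hn _ _ hw)
      have k1 := D.tri3 (D.hn _ _ hv) (D.hn _ _ hw)
      have k2 := D.tri3 (D.hn _ _ hw) (D.hn _ _ hv)
      rcases eq_or_ne v w with rfl | hne
      · omega
      · omega
  · subst hk
    cases hK with
    | e x y he =>
      have a0 := D.lt _ _ _ he
      have e3 := D.edge3 he hn
      left
      refine ⟨rfl, ?_⟩
      omega
    | aR w hw hdw =>
      have d' := D.del _ _ hw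
      have a3 := D.ulv (D.hn _ _ hw)
      have a4 := D.vlw (D.hn _ _ hw)
      have k1 := D.tri3 hn (D.hn _ _ hw)
      have k2 := D.tri3 (D.hn _ _ hw) hn
      left
      refine ⟨rfl, ?_⟩
      rcases eq_or_ne v w with rfl | hne
      · have := hh hw
        omega
      · omega
    | aL w hw hdw =>
      have d' := D.del _ _ hw
      have a3 := D.ulv (D.hn _ _ hw)
      have a4 := D.vlw (D.hn _ _ hw)
      have k1 := D.tri3 hn (D.hn _ _ hw)
      have k2 := D.tri3 (D.hn _ _ hw) hn
      left
      refine ⟨rfl, ?_⟩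
      rcases eq_or_ne v w with rfl | hne
      · have := hh hw
        omega
      · omega
    | mR w hw hdw =>
      have d' := D.del _ _ hw
      have a3 := D.ulv (D.hn _ _ hw)
      have a4 := D.vlw (D.hn _ _ hw)
      have k1 := D.tri3 hn (D.hn _ _ hw)
      have k2 := D.tri3 (D.hn _ _ hw) hn
      left
      refine ⟨rfl, ?_⟩
      rcases eq_or_ne v w with rfl | hne
      · have := hh hw
        omega
      · omega
    | mL w hw hdw =>
      have d' := D.del _ _ hw
      have a3 := D.ulv (D.hn _ _ hw)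
      have a4 := D.vlw (D.hn _ _ hw)
      have k1 := D.tri3 hn (D.hn _ _ hw)
      have k2 := D.tri3 (D.hn _ _ hw) hn
      left
      refine ⟨rfl, ?_⟩
      rcases eq_or_ne v w with rfl | hne
      · have := hh hw
        omega
      · omega
    | bR w hw hdw =>
      have d' := D.del _ _ hw
      have a3 := D.ulv (D.hn _ _ hw)
      have a4 := D.vlw (D.hn _ _ hw)
      have k1 := D.tri3 hn (D.hn _ _ hw)
      have k2 := D.tri3 (D.hn _ _ hw) hn
      left
      refine ⟨rfl, ?_⟩
      rcases eq_or_ne v w with rfl | hne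
      · have := hh hw
        omega
      · omega
    | bL w hw hdw =>
      have d' := D.del _ _ hw
      have a3 := D.ulv (D.hn _ _ hw)
      have a4 := D.vlw (D.hn _ _ hw)
      have k1 := D.tri3 hn (D.hn _ _ hw)
      have k2 := D.tri3 (D.hn _ _ hw) hn
      left
      refine ⟨rfl, ?_⟩
      rcases eq_or_ne v w with rfl | hne
      · have := hh hw
        omega
      · omega

/-- no 4-twist contains a pair of the first kind -/
theorem noA {j k₁ k₂ : Bool} {v l' p₁ q₁ p₂ q₂ : ℤ} (hv : H j v) (hd : δ j v = -10)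
    (hu : U j v < v - 1) (hh : H (!j) v → 0 < δ (!j) v) (hn : N (!j) v) (u' : U (!j) v < U j v)
    (w' : W j v < W (!j) v) (h1 : 100 * U j v + 79 ≤ l') (h2 : l' < 100 * v + δ j v + 1)
    (hK₁ : HItem E U W δ H k₁ p₁ q₁) (hK₂ : HItem E U W δ H k₂ p₂ q₂)
    (hX₁ : XX (100 * U j v) (100 * v + δ j v + 1) p₁ q₁) (hX₁' : XX l' (100 * v) p₁ q₁)
    (hX₂ : XX (100 * U j v) (100 * v + δ j v + 1) p₂ q₂) (hX₂' : XX l' (100 * v) p₂ q₂)
    (hX : XX p₁ q₁ p₂ q₂) : False := by
  have a1 := D.ulv (D.hn _ _ hv)
  wlog hlt : p₁ < p₂ generalizing k₁ k₂ p₁ q₁ p₂ q₂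
  · refine this hK₂ hK₁ hX₂ hX₂' hX₁ hX₁' ?_ ?_
    · unfold XX at hX ⊢; omega
    · unfold XX at hX; omega
  rcases D.ptype hv hd hu hh hn u' w' h1 h2 hK₁ hX₁ hX₁' with ⟨rfl, c1, c2, c3⟩ | c
  · rcases D.ptype hv hd hu hh hn u' w' h1 h2 hK₂ hX₂ hX₂' with ⟨rfl, c1', c2', c3'⟩ | c'
    · unfold XX at hX
      rcases D.sp hK₁ hK₂ (by omega) (by omega) (by omega) with
        hG | ⟨w, hw, hdw, huw, e1, e2, e3, e4, e5, e6, e7, e8⟩
      · omega
      · rw [Bool.not_not] at e6 e7 e8
        have k := D.tri3 e6 (D.hn _ _ hv)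
        have a3 := D.ulv e6
        have a4 := D.vlw e6
        omega
    · unfold XX at hX
      omega
  · rcases D.ptype hv hd hu hh hn u' w' h1 h2 hK₂ hX₂ hX₂' with ⟨rfl, c1', c2', c3'⟩ | c'
    · unfold XX at hX
      omega
    · unfold XX at hX
      omega

end HostData

namespace HostData

variable (D : HostData E U W δ N H)

include D

/-- items whose left end is strictly inside the gap `(g, g + 1)` -/
theorem leftIn {j : Bool} {g l r : ℤ} (h : HItem E U W δ H j l r) (h1 : 100 * g < l)
    (h2 : l < 100 * g + 100) :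
    (H j g ∧ 0 < δ j g ∧ l = 100 * g + δ j g - 1 ∧ r = 100 * W j g) ∨
    (H j (g + 1) ∧ δ j (g + 1) < 0 ∧ l = 100 * g + 100 + δ j (g + 1) - 1 ∧ r = 100 * g + 100) ∨
    (H j (g + 1) ∧ δ j (g + 1) < 0 ∧ l = 100 * g + 100 + δ j (g + 1) ∧
      r = 100 * W j (g + 1)) := by
  cases h with
  | e x y he => omega
  | aR v hv hd => omega
  | aL v hv hd => omega
  | mR v hv hd => omega
  | mL v hv hd =>
    have d := D.del _ _ hv
    obtain rfl : v = g + 1 := by omega
    exact Or.inr (Or.inl ⟨hv, hd, by omega, by omega⟩)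
  | bR v hv hd =>
    have d := D.del _ _ hv
    obtain rfl : v = g := by omega
    exact Or.inl ⟨hv, hd, by omega, by omega⟩
  | bL v hv hd =>
    have d := D.del _ _ hv
    obtain rfl : v = g + 1 := by omega
    exact Or.inr (Or.inr ⟨hv, hd, by omega, by omega⟩)

/-- items whose right end is strictly inside the gap `(g, g + 1)` -/
theorem rightIn {j : Bool} {g l r : ℤ} (h : HItem E U W δ H j l r) (h1 : 100 * g < r)
    (h2 : r < 100 * g + 100) :
    (H j g ∧ 0 < δ j g ∧ l = 100 * U j g ∧ r = 100 * g + δ j g) ∨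
    (H j g ∧ 0 < δ j g ∧ l = 100 * g ∧ r = 100 * g + δ j g + 1) ∨
    (H j (g + 1) ∧ δ j (g + 1) < 0 ∧ l = 100 * U j (g + 1) ∧
      r = 100 * g + 100 + δ j (g + 1) + 1) := by
  cases h with
  | e x y he => omega
  | aR v hv hd =>
    have d := D.del _ _ hv
    obtain rfl : v = g := by omega
    exact Or.inl ⟨hv, hd, by omega, by omega⟩
  | aL v hv hd =>
    have d := D.del _ _ hv
    obtain rfl : v = g + 1 := by omega
    exact Or.inr (Or.inr ⟨hv, hd, by omega, by omega⟩)
  | mR v hv hd =>
    have d := D.del _ _ hv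
    obtain rfl : v = g := by omega
    exact Or.inr (Or.inl ⟨hv, hd, by omega, by omega⟩)
  | mL v hv hd => omega
  | bR v hv hd => omega
  | bL v hv hd => omega

/-- long items which end at `g + 1` -/
theorem endAt {j : Bool} {g l : ℤ} (h : HItem E U W δ H j l (100 * g + 100))
    (h1 : l < 100 * g) :
    (∀ t, E j g t → t ≤ g + 1) ∧ (N j (g + 1) → U j (g + 1) < g) ∧ (N j g → W j g = g + 1) ∧
      (H j g → 0 < δ j g → l ≤ 100 * U j g) := by
  -- there is an edge over `g` which ends at `g + 1`
  have key : (∃ x, x < g ∧ E j x (g + 1)) := by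
    generalize hr : 100 * g + 100 = r at h
    cases h with
    | e x y he =>
      obtain rfl : y = g + 1 := by omega
      exact ⟨x, by omega, he⟩
    | aR v hv hd =>
      have d := D.del _ _ hv
      omega
    | aL v hv hd =>
      have d := D.del _ _ hv
      omega
    | mR v hv hd =>
      have d := D.del _ _ hv
      omega
    | mL v hv hd =>
      have d := D.del _ _ hv
      omega
    | bR v hv hd =>
      have d := D.del _ _ hv
      have hW : W j v = g + 1 := by omega
      exact ⟨v, by omega, hW ▸ D.ew _ _ (D.hn _ _ hv)⟩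
    | bL v hv hd =>
      have d := D.del _ _ hv
      have hW : W j v = g + 1 := by omega
      have := D.ulv (D.hn _ _ hv)
      exact ⟨U j v, by omega, hW ▸ D.euw _ _ (D.hn _ _ hv)⟩
  obtain ⟨x, hx, hE⟩ := key
  refine ⟨?_, ?_, ?_, ?_⟩
  · intro t ht
    by_contra hc
    exact D.nc j _ _ _ _ hE ht ⟨hx, by omega, by omega⟩
  · intro hn
    have e3 := D.edge3 hE hn
    have := D.ulv hn
    have := D.vlw hn
    by_contra hc
    have hU : U j (g + 1) = g := by omega
    exact D.nc j _ _ _ _ hE (D.euw _ _ hn) ⟨by omega, by omega, by omega⟩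
  · intro hn
    have e3 := D.edge3 hE hn
    have := D.vlw hn
    omega
  · intro hg hdg
    have hgN := D.hn _ _ hg
    have a1 := D.ulv hgN
    have a2 := D.vlw hgN
    generalize hr : 100 * g + 100 = r at h
    cases h with
    | e x y he =>
      have e3 := D.edge3 he hgN
      omega
    | aR v hv hd =>
      have d := D.del _ _ hv
      omega
    | aL v hv hd =>
      have d := D.del _ _ hv
      omega
    | mR v hv hd =>
      have d := D.del _ _ hv
      omega
    | mL v hv hd =>
      have d := D.del _ _ hv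
      omega
    | bR v hv hd =>
      have d := D.del _ _ hv
      have hv' := D.hn _ _ hv
      have k := D.tri3 hv' hgN (by omega)
      have rr := D.r1' hv hd hgN
      have r6 : v = g - 1 → U j g ≠ g - 1 := fun hh hU =>
        D.r5 _ _ hg hdg hU (hh ▸ hv) (hh ▸ hd)
      omega
    | bL v hv hd =>
      have d := D.del _ _ hv
      have hv' := D.hn _ _ hv
      rcases lt_trichotomy v g with hlt | heq | hgt
      · have k := D.tri3 hv' hgN hlt
        omega
      · subst heq
        omega
      · omega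

/-- items which start at `g` -/
theorem startAt {j : Bool} {g r : ℤ} (h : HItem E U W δ H j (100 * g) r) :
    (∃ t, E j g t ∧ r = 100 * t) ∨
    (∃ y, H j y ∧ U j y = g ∧ ((0 < δ j y ∧ r = 100 * y + δ j y) ∨
      (δ j y < 0 ∧ r = 100 * y + δ j y + 1))) ∨
    (H j g ∧ 0 < δ j g ∧ r = 100 * g + δ j g + 1) := by
  generalize hl : 100 * g = l at h
  cases h with
  | e x y he =>
    obtain rfl : x = g := by omega
    exact Or.inl ⟨y, he, rfl⟩
  | aR v hv hd => exact Or.inr (Or.inl ⟨v, hv, by omega, Or.inl ⟨hd, rfl⟩⟩)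
  | aL v hv hd => exact Or.inr (Or.inl ⟨v, hv, by omega, Or.inr ⟨hd, rfl⟩⟩)
  | mR v hv hd =>
    obtain rfl : v = g := by omega
    exact Or.inr (Or.inr ⟨hv, hd, rfl⟩)
  | mL v hv hd =>
    have d := D.del _ _ hv
    omega
  | bR v hv hd =>
    have d := D.del _ _ hv
    omega
  | bL v hv hd =>
    have d := D.del _ _ hv
    omega

end HostData

end Pool.Agent.Lib.MP_d86530_co
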