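import Pool.Agent.Lib.MP_d86530_co.HostCore

/-!
# MP_d86530_co: no 4-twist in a hosted two-page layout
-/

set_option autoImplicit false

namespace Pool.Agent.Lib.MP_d86530_co

variable {E : Bool → ℤ → ℤ → Prop} {U W δ : Bool → ℤ → ℤ} {N H : Bool → ℤ → Prop}

namespace HostData

variable (D : HostData E U W δ N H)

include D

/-- long items which end at a vertex with only two left neighbours -/
theorem endX {j : Bool} {g l : ℤ} (h : HItem E U W δ H j l (100 * g + 100)) (h1 : l < 100 * g)
    (hn : N j (g + 1)) (hx : ∀ x, E j x (g + 1) → x = U j (g + 1) ∨ x = g + 1 - 1)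
    (hy : H j (g + 1 - 1) → 0 < δ j (g + 1 - 1)) : l ≤ 100 * U j (g + 1) := by
  have a1 := D.ulv hn
  have a2 := D.vlw hn
  rw [add_sub_cancel_right] at hy
  generalize hr : 100 * g + 100 = r at h
  cases h with
  | e x y he =>
    obtain rfl : y = g + 1 := by omega
    have := hx x he
    omega
  | aR v hv hd =>
    have d := D.del _ _ hv
    omega
  | aL v hv hd =>
    have d := D.del _ _ hv
    omega
  | mR v hv hd =>
    have d := D.del _ _ hv
    omega
  | mL v hv hd =>
    have d := D.del _ _ hv
    omega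
  | bR v hv hd =>
    have d := D.del _ _ hv
    have hW : W j v = g + 1 := by omega
    have h5 := hx v (hW ▸ D.ew _ _ (D.hn _ _ hv))
    rcases h5 with h5 | h5
    · exfalso
      have n := D.nc j _ _ _ _ (D.euw _ _ (D.hn _ _ hv)) (D.euw _ _ hn)
      have := D.ulv (D.hn _ _ hv)
      apply n
      omega
    · omega
  | bL v hv hd =>
    have d := D.del _ _ hv
    have hW : W j v = g + 1 := by omega
    have h5 := hx v (hW ▸ D.ew _ _ (D.hn _ _ hv))
    rcases h5 with h5 | h5
    · omega
    · obtain rfl : v = g := by omega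
      have := hy hv
      omega

/-- sub-case: the third left end is at the vertex `g` -/
theorem gapX {j₁ j₂ j₃ j₄ : Bool} {g l₁ l₂ l₄ r₁ r₂ r₃ r₄ : ℤ}
    (h₁ : HItem E U W δ H j₁ l₁ r₁) (h₂ : HItem E U W δ H j₂ l₂ r₂)
    (h₃ : HItem E U W δ H j₃ (100 * g) r₃) (h₄ : HItem E U W δ H j₄ l₄ r₄)
    (a1 : l₁ < l₂) (a2 : l₂ < 100 * g) (a3 : 100 * g < l₄) (a4 : l₄ < r₁) (a5 : r₁ < r₂)
    (a6 : r₂ < r₃) (a7 : r₃ < r₄) (a8 : r₂ ≤ 100 * g + 100) : False := by
  rcases D.rightIn (g := g) h₁ (by omega) (by omega) with ⟨b1, b2, b3, b4⟩ | ⟨b1, b2, b3, b4⟩ |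
    ⟨b1, b2, b3, b4⟩
  · have d1 := D.del _ _ b1
    have hN1 := D.hn _ _ b1
    rcases eq_or_lt_of_le a8 with rfl | hlt
    · obtain ⟨z1, z2, z3, z4⟩ := D.endAt h₂ a2
      have hj : j₂ = !j₁ := by
        rcases Bool.eq_or_eq_not j₂ j₁ with rfl | h
        · have := z4 b1 b2
          omega
        · exact h
      rcases D.leftIn (g := g) h₄ (by omega) (by omega) with ⟨c1, c2, c3, c4⟩ |
        ⟨c1, c2, c3, c4⟩ | ⟨c1, c2, c3, c4⟩
      · have hj4 : j₄ = j₁ := by
          rcases Bool.eq_or_eq_not j₄ j₁ with rfl | h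
          · rfl
          · rw [← hj] at h
            subst h
            have := z3 (D.hn _ _ c1)
            omega
        subst hj4
        rcases D.startAt h₃ with ⟨t, e1, e2⟩ | ⟨y, e1, e2, e3⟩ | ⟨e1, e2, e3⟩
        · rcases Bool.eq_or_eq_not j₃ j₄ with rfl | h
          · have := D.r1 _ _ _ b1 b2 e1
            omega
          · rw [← hj] at h
            subst h
            have := z1 t e1
            omega
        · have d := D.del _ _ e1
          have hu := D.ulv (D.hn _ _ e1)
          rcases Bool.eq_or_eq_not j₃ j₄ with rfl | h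
          · have h5 := D.r1' b1 b2 (D.hn _ _ e1) e2
            subst h5
            rcases e3 with ⟨e3, e4⟩ | ⟨e3, e4⟩
            · exact D.r5 _ _ e1 e3 (by omega) (by rw [add_sub_cancel_right]; exact b1)
                (by rw [add_sub_cancel_right]; exact b2)
            · omega
          · rw [← hj] at h
            subst h
            have h6 := z1 y (e2 ▸ D.eu _ _ (D.hn _ _ e1))
            obtain rfl : y = g + 1 := by omega
            have := z2 (D.hn _ _ e1)
            omega
        · have d := D.del _ _ e1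
          omega
      · have d := D.del _ _ c1
        omega
      · have d := D.del _ _ c1
        omega
    · rcases D.rightIn (g := g) h₂ (by omega) hlt with ⟨c1, c2, c3, c4⟩ | ⟨c1, c2, c3, c4⟩ |
        ⟨c1, c2, c3, c4⟩
      · rcases Bool.eq_or_eq_not j₂ j₁ with rfl | h
        · omega
        · subst h
          have := D.r2 _ _ b1 c1 b2 (by omega)
          omega
      · omega
      · have d2 := D.del _ _ c1
        have hu2 : U j₂ (g + 1) < g + 1 - 1 := by omega
        obtain ⟨q1, q5, q⟩ := D.r3 _ _ c1 c2 hu2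
        have hN2 := D.hn _ _ c1
        rcases Bool.eq_or_eq_not j₂ j₁ with rfl | h
        · have k := D.tri3 hN1 hN2 (by omega)
          have := D.vlw hN1
          omega
        · subst h
          rw [Bool.not_not] at q
          have hW1 : W j₁ g ≤ g + 1 := by
            rcases q with ⟨q2, q3, q4⟩ | ⟨q2, q3, q4⟩
            · have k := D.tri3 hN1 q2 (by omega)
              have := D.vlw hN1
              omega
            · rw [add_sub_cancel_right] at q4
              exact (q4 b1 b2).le
          have hW2 : N (!j₁) g → W (!j₁) g ≤ g + 1 := by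
            intro hN
            have k := D.tri3 hN hN2 (by omega)
            have := D.vlw hN
            omega
          have hr4 : r₄ ≤ 100 * g + 100 := by
            rcases D.leftIn (g := g) h₄ (by omega) (by omega) with ⟨e1, e2, e3, e4⟩ |
              ⟨e1, e2, e3, e4⟩ | ⟨e1, e2, e3, e4⟩
            · rcases Bool.eq_or_eq_not j₄ j₁ with rfl | h
              · omega
              · subst h
                have := hW2 (D.hn _ _ e1)
                omega
            · have d := D.del _ _ e1
              omega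
            · have d := D.del _ _ e1
              omega
          rcases D.startAt h₃ with ⟨t, e1, e2⟩ | ⟨y, e1, e2, e3⟩ | ⟨e1, e2, e3⟩
          · omega
          · have d := D.del _ _ e1
            omega
          · have d := D.del _ _ e1
            omega
  · omega
  · have d1 := D.del _ _ b1
    have hN1 := D.hn _ _ b1
    obtain ⟨q1, q5, q⟩ := D.r3 _ _ b1 b2 (by omega)
    have hr2 : r₂ = 100 * g + 100 := by
      rcases eq_or_lt_of_le a8 with h | hlt
      · exact h
      · exfalso
        rcases D.rightIn (g := g) h₂ (by omega) hlt with ⟨c1, c2, c3, c4⟩ | ⟨c1, c2, c3, c4⟩ |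
          ⟨c1, c2, c3, c4⟩
        · have d := D.del _ _ c1
          omega
        · have d := D.del _ _ c1
          omega
        · rcases Bool.eq_or_eq_not j₂ j₁ with rfl | h
          · omega
          · subst h
            have := q5 c1
            omega
    subst hr2
    -- no page has an edge from `g` to the right of `g + 1`
    have hz : ∀ k, (∀ t, E k g t → t ≤ g + 1) ∧ (N k (g + 1) → U k (g + 1) < g) := by
      have hz1 : ∀ k, N k (g + 1) → U k (g + 1) < g →
          (∀ t, E k g t → t ≤ g + 1) ∧ (N k (g + 1) → U k (g + 1) < g) := by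
        intro k z1 z2
        refine ⟨fun t ht => ?_, fun _ => z2⟩
        by_contra hc
        exact D.nc _ _ _ _ _ (D.eu _ _ z1) ht ⟨z2, by omega, by omega⟩
      intro k
      rcases Bool.eq_or_eq_not k j₁ with rfl | h
      · exact hz1 _ hN1 (by omega)
      · subst h
        rcases q with ⟨q2, q3, q4⟩ | ⟨q2, q3, q4⟩
        · exact hz1 _ q2 (by omega)
        · rcases Bool.eq_or_eq_not j₂ j₁ with rfl | h
          · have := D.endX h₂ a2 hN1 q2 q3
            omega
          · subst h
            obtain ⟨z1, z2, -, -⟩ := D.endAt h₂ a2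
            exact ⟨z1, z2⟩
    obtain ⟨z1, z2⟩ := hz j₃
    rcases D.startAt h₃ with ⟨t, e1, e2⟩ | ⟨y, e1, e2, e3⟩ | ⟨e1, e2, e3⟩
    · have := z1 t e1
      omega
    · have d := D.del _ _ e1
      have h6 := z1 y (e2 ▸ D.eu _ _ (D.hn _ _ e1))
      rcases eq_or_ne y (g + 1) with rfl | hy
      · have := z2 (D.hn _ _ e1)
        omega
      · omega
    · have d := D.del _ _ e1
      omega

/-- sub-case: the third left end is strictly inside the gap -/
theorem gapY {j₁ j₂ j₃ j₄ : Bool} {g l₁ l₂ l₃ l₄ r₁ r₂ r₃ r₄ : ℤ}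
    (h₁ : HItem E U W δ H j₁ l₁ r₁) (h₂ : HItem E U W δ H j₂ l₂ r₂)
    (h₃ : HItem E U W δ H j₃ l₃ r₃) (h₄ : HItem E U W δ H j₄ l₄ r₄)
    (a1 : l₁ < l₂) (a2 : l₂ < l₃) (a3 : l₃ < l₄) (a4 : l₄ < r₁) (a5 : r₁ < r₂)
    (a6 : r₂ < r₃) (a7 : r₃ < r₄) (a8 : r₂ ≤ 100 * g + 100) (a9 : 100 * g < l₃) : False := by
  rcases D.leftIn (g := g) h₃ (by omega) (by omega) with ⟨c1, c2, c3, c4⟩ | ⟨c1, c2, c3, c4⟩ |
    ⟨c1, c2, c3, c4⟩
  · -- bR at g
    have dc := D.del _ _ c1
    have hNc := D.hn _ _ c1
    have hWc := D.vlw hNc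
    rcases D.leftIn (g := g) h₄ (by omega) (by omega) with ⟨e1, e2, e3, e4⟩ |
      ⟨e1, e2, e3, e4⟩ | ⟨e1, e2, e3, e4⟩
    · rcases Bool.eq_or_eq_not j₄ j₃ with rfl | h
      · omega
      · subst h
        have := D.r2 _ _ c1 e1 c2 (by omega)
        omega
    · omega
    · have de := D.del _ _ e1
      have hNe := D.hn _ _ e1
      have hUc := D.ulv hNc
      have hUe := D.ulv hNe
      rcases D.rightIn (g := g) h₁ (by omega) (by omega) with ⟨b1, b2, b3, b4⟩ |
        ⟨b1, b2, b3, b4⟩ | ⟨b1, b2, b3, b4⟩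
      · have d := D.del _ _ b1
        omega
      · have d := D.del _ _ b1
        omega
      · have db := D.del _ _ b1
        -- no right end strictly between the last host and g + 1
        have hlast : 100 * g + 91 ≤ r₁ → r₂ < 100 * g + 100 → False := by
          intro x1 x2
          rcases D.rightIn (g := g) h₂ (by omega) x2 with ⟨f1, f2, f3, f4⟩ |
            ⟨f1, f2, f3, f4⟩ | ⟨f1, f2, f3, f4⟩
          · have d := D.del _ _ f1
            omega
          · have d := D.del _ _ f1
            omega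
          · have d := D.del _ _ f1
            omega
        rcases Bool.eq_or_eq_not j₄ j₃ with rfl | h
        · have k := D.tri3 hNc hNe (by omega)
          have q := (D.r3 _ _ e1 e2 (by omega)).1
          exact hlast (by omega) (by omega)
        · subst h
          by_cases hu : U j₁ (g + 1) < g
          · obtain ⟨q1, q5, q⟩ := D.r3 _ _ b1 b2 (by omega)
            have hj : j₁ = !j₃ := by
              rcases Bool.eq_or_eq_not j₁ j₃ with rfl | h
              · have := q5 e1
                omega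
              · exact h
            subst hj
            rw [Bool.not_not] at q
            rcases q with ⟨q2, q3, q4⟩ | ⟨q2, q3, q4⟩
            · have k := D.tri3 hNc q2 (by omega)
              exact hlast (by omega) (by omega)
            · rw [add_sub_cancel_right] at q4
              have := q4 c1 c2
              exact hlast (by omega) (by omega)
          · have hu' : U j₁ (g + 1) = g := by
              have := D.ulv (D.hn _ _ b1)
              omega
            rcases D.leftIn (g := g) h₂ (by omega) (by omega) with ⟨f1, f2, f3, f4⟩ |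
              ⟨f1, f2, f3, f4⟩ | ⟨f1, f2, f3, f4⟩
            · rcases Bool.eq_or_eq_not j₂ j₃ with rfl | h
              · omega
              · subst h
                have hNf := D.hn _ _ f1
                have k := D.tri3 hNf hNe (by omega)
                have hU : U (!j₃) (g + 1) < g := by
                  have := D.ulv hNf
                  omega
                obtain ⟨q1, q5, -⟩ := D.r3 _ _ e1 e2 (by omega)
                rw [Bool.not_not] at q5
                rcases Bool.eq_or_eq_not j₁ j₃ with rfl | h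
                · have := q5 b1
                  omega
                · subst h
                  omega
            · have d := D.del _ _ f1
              omega
            · have d := D.del _ _ f1
              omega
  · -- mL at g + 1
    have dc := D.del _ _ c1
    rcases D.leftIn (g := g) h₄ (by omega) (by omega) with ⟨e1, e2, e3, e4⟩ |
      ⟨e1, e2, e3, e4⟩ | ⟨e1, e2, e3, e4⟩
    · have d := D.del _ _ e1
      omega
    · omega
    · have de := D.del _ _ e1
      rcases D.rightIn (g := g) h₁ (by omega) (by omega) with ⟨b1, b2, b3, b4⟩ |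
        ⟨b1, b2, b3, b4⟩ | ⟨b1, b2, b3, b4⟩
      · have d := D.del _ _ b1
        omega
      · have d := D.del _ _ b1
        omega
      · rcases D.rightIn (g := g) h₂ (by omega) (by omega) with ⟨f1, f2, f3, f4⟩ |
          ⟨f1, f2, f3, f4⟩ | ⟨f1, f2, f3, f4⟩
        · have d := D.del _ _ f1
          omega
        · have d := D.del _ _ f1
          omega
        · have hu := D.ulv (D.hn _ _ f1)
          obtain ⟨q1, q5, -⟩ := D.r3 _ _ b1 b2 (by omega)
          rcases Bool.eq_or_eq_not j₂ j₁ with rfl | h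
          · omega
          · subst h
            have := q5 f1
            omega
  · -- bL at g + 1
    have dc := D.del _ _ c1
    have hNc := D.hn _ _ c1
    have hWc := D.vlw hNc
    rcases D.leftIn (g := g) h₄ (by omega) (by omega) with ⟨e1, e2, e3, e4⟩ |
      ⟨e1, e2, e3, e4⟩ | ⟨e1, e2, e3, e4⟩
    · have d := D.del _ _ e1
      omega
    · omega
    · rcases Bool.eq_or_eq_not j₄ j₃ with rfl | h
      · omega
      · subst h
        have := D.r4 _ _ c1 e1 e2 (by omega)
        omega

theorem gap {j₁ j₂ j₃ j₄ : Bool} {l₁ l₂ l₃ l₄ r₁ r₂ r₃ r₄ : ℤ}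
    (h₁ : HItem E U W δ H j₁ l₁ r₁) (h₂ : HItem E U W δ H j₂ l₂ r₂)
    (h₃ : HItem E U W δ H j₃ l₃ r₃) (h₄ : HItem E U W δ H j₄ l₄ r₄)
    (a1 : l₁ < l₂) (a2 : l₂ < l₃) (a3 : l₃ < l₄) (a4 : l₄ < r₁) (a5 : r₁ < r₂)
    (a6 : r₂ < r₃) (a7 : r₃ < r₄) (a8 : r₂ ≤ 100 * (l₃ / 100) + 100) : False := by
  by_cases h : l₃ = 100 * (l₃ / 100)
  · refine D.gapX (g := l₃ / 100) h₁ h₂ (h ▸ h₃) h₄ a1 ?_ ?_ a4 a5 a6 a7 a8
    · omega
    · omega
  · exact D.gapY (g := l₃ / 100) h₁ h₂ h₃ h₄ a1 a2 a3 a4 a5 a6 a7 a8 (by omega)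

/-- no four items, sorted by left ends, cross pairwise -/
theorem twist_sorted {j₁ j₂ j₃ j₄ : Bool} {l₁ l₂ l₃ l₄ r₁ r₂ r₃ r₄ : ℤ}
    (h₁ : HItem E U W δ H j₁ l₁ r₁) (h₂ : HItem E U W δ H j₂ l₂ r₂)
    (h₃ : HItem E U W δ H j₃ l₃ r₃) (h₄ : HItem E U W δ H j₄ l₄ r₄)
    (a1 : l₁ < l₂) (a2 : l₂ < l₃) (a3 : l₃ < l₄) (a4 : l₄ < r₁) (a5 : r₁ < r₂)
    (a6 : r₂ < r₃) (a7 : r₃ < r₄) : False := by
  -- crossing items of the same page
  have P : ∀ {j : Bool} {l r l' r' : ℤ} {k₁ k₂ : Bool} {p₁ q₁ p₂ q₂ : ℤ},
      HItem E U W δ H j l r → HItem E U W δ H j l' r' → l < l' → l' < r → r < r' →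
      HItem E U W δ H k₁ p₁ q₁ → HItem E U W δ H k₂ p₂ q₂ → XX l r p₁ q₁ → XX l' r' p₁ q₁ →
      XX l r p₂ q₂ → XX l' r' p₂ q₂ → XX p₁ q₁ p₂ q₂ → r ≤ 100 * (l' / 100) + 100 := by
    intro j l r l' r' k₁ k₂ p₁ q₁ p₂ q₂ h h' c1 c2 c3 hk₁ hk₂ x1 x2 x3 x4 x5
    rcases D.sp h h' c1 c2 c3 with hG | ⟨v, hv, hd, hu, rfl, rfl, rfl, e4, e5, e6, e7, e8⟩
    · exact hG
    · exact (D.noA hv hd hu e5 e6 e7 e8 e4 c2 hk₁ hk₂ x1 x2 x3 x4 x5).elim
  have B1 : r₁ ≤ 100 * (l₃ / 100) + 100 := by
    have : j₁ = j₂ ∨ j₁ = j₃ ∨ j₂ = j₃ := by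
      cases j₁ <;> cases j₂ <;> cases j₃ <;> simp
    rcases this with rfl | rfl | rfl
    · have := P h₁ h₂ a1 (by omega) a5 h₃ h₄ (by unfold XX; omega) (by unfold XX; omega)
        (by unfold XX; omega) (by unfold XX; omega) (by unfold XX; omega)
      omega
    · have := P h₁ h₃ (by omega) (by omega) (by omega) h₂ h₄ (by unfold XX; omega)
        (by unfold XX; omega) (by unfold XX; omega) (by unfold XX; omega) (by unfold XX; omega)
      omega
    · have := P h₂ h₃ a2 (by omega) a6 h₁ h₄ (by unfold XX; omega) (by unfold XX; omega)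
        (by unfold XX; omega) (by unfold XX; omega) (by unfold XX; omega)
      omega
  have B2 : r₂ ≤ 100 * (l₄ / 100) + 100 := by
    have : j₂ = j₃ ∨ j₂ = j₄ ∨ j₃ = j₄ := by
      cases j₂ <;> cases j₃ <;> cases j₄ <;> simp
    rcases this with rfl | rfl | rfl
    · have := P h₂ h₃ a2 (by omega) a6 h₁ h₄ (by unfold XX; omega) (by unfold XX; omega)
        (by unfold XX; omega) (by unfold XX; omega) (by unfold XX; omega)
      omega
    · have := P h₂ h₄ (by omega) (by omega) (by omega) h₁ h₃ (by unfold XX; omega)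
        (by unfold XX; omega) (by unfold XX; omega) (by unfold XX; omega) (by unfold XX; omega)
      omega
    · have := P h₃ h₄ a3 (by omega) a7 h₁ h₂ (by unfold XX; omega) (by unfold XX; omega)
        (by unfold XX; omega) (by unfold XX; omega) (by unfold XX; omega)
      omega
  exact D.gap h₁ h₂ h₃ h₄ a1 a2 a3 a4 a5 a6 a7 (by omega)

end HostData

end Pool.Agent.Lib.MP_d86530_co
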