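import Pool.Agent.Lib.MP_d86530_co.Pages

/-!
# MP_d86530_co: the faces of a page and their middle vertices
-/

set_option autoImplicit false

namespace Pool.Agent.Lib.MP_d86530_co

variable {V : Type*} {T : V → V → V → Prop}

/-- the page colouring of a Hamiltonian order -/
structure PageCol (T : V → V → V → Prop) (n : ℕ) (s : ℕ → V) (c : V → V → V → ZMod 2) :
    Prop where
  swp : ∀ x y w, c x y w = c y x w
  rot : ∀ x y w, c x y w = c y w x
  chg : ∀ i j x x', i < n → j < n → T (s i) (s j) x → T (s i) (s j) x' → x ≠ x' →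
    (c (s i) (s j) x = c (s i) (s j) x' ↔ ¬ CycAdj n i j)
  crs : ∀ i j k l x x', i < j → j < k → k < l → l < n → T (s i) (s k) x → T (s j) (s l) x' →
    c (s i) (s k) x ≠ c (s j) (s l) x'

theorem HamOrd.exists_pageCol (h : IsSph T) {n : ℕ} {s : ℕ → V} (H : HamOrd T n s) :
    ∃ c, PageCol T n s c := by
  obtain ⟨c, c1, c2, c3, c4⟩ := H.exists_pages h
  exact ⟨c, c1, c2, c3, c4⟩

namespace PageCol

variable {n : ℕ} {s : ℕ → V} {c : V → V → V → ZMod 2}

theorem swp23 (C : PageCol T n s c) (x y w : V) : c x y w = c x w y := by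
  rw [C.rot x w y, C.swp w y x, C.rot x y w]

theorem swp13 (C : PageCol T n s c) (x y w : V) : c x y w = c w y x := by
  rw [C.swp w y x, C.rot y w x, C.rot w x y]

theorem rot2 (C : PageCol T n s c) (x y w : V) : c x y w = c w x y := (C.rot w x y).symm

/-- faces with the same middle vertex and colour -/
theorem mid_unique (h : IsSph T) (C : PageCol T n s c) {v a b a' b' : ℕ} (h1 : a < v)
    (h2 : v < b) (h3 : b < n) (h1' : a' < v) (h2' : v < b') (h3' : b' < n)
    (hT : T (s a) (s v) (s b)) (hT' : T (s a') (s v) (s b'))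
    (hc : c (s a) (s v) (s b) = c (s a') (s v) (s b')) : a = a' ∧ b = b' := by
  have e1 : c (s a) (s b) (s v) = c (s a) (s v) (s b) := C.swp23 _ _ _
  have e1' : c (s a') (s b') (s v) = c (s a') (s v) (s b') := C.swp23 _ _ _
  have e2 : c (s v) (s b) (s a) = c (s a) (s v) (s b) := (C.rot _ _ _).symm
  have e2' : c (s v) (s b') (s a') = c (s a') (s v) (s b') := (C.rot _ _ _).symm
  constructor
  · rcases lt_trichotomy a a' with k | k | k
    · exact absurd (by rw [e1', ← hc]) (C.crs a a' v b' _ _ k h1' h2' h3' hT (h.swp23 hT'))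
    · exact k
    · exact absurd (by rw [e1, hc]) (C.crs a' a v b _ _ k h1 h2 h3 hT' (h.swp23 hT))
  · rcases lt_trichotomy b b' with k | k | k
    · exact absurd (by rw [e1, e2', hc]) (C.crs a v b b' _ _ h1 h2 k h3' (h.swp23 hT) (h.rot hT'))
    · exact k
    · exact absurd (by rw [e1', e2, hc]) (C.crs a' v b' b _ _ h1' h2' k h3 (h.swp23 hT') (h.rot hT))

/-- every vertex is the middle vertex of a face of each colour -/
theorem mid_exists (h : IsSph T) (H : HamOrd T n s) (C : PageCol T n s c) {v : ℕ} (h1 : 1 ≤ v)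
    (h2 : v + 1 < n) (j : ZMod 2) : ∃ a b, a < v ∧ v < b ∧ b < n ∧ T (s a) (s v) (s b) ∧
      c (s a) (s v) (s b) = j := by
  classical
  have hcases : ∀ p q : ZMod 2, p ≠ q → p = j ∨ q = j := by
    revert j; decide
  set P : ℕ → Prop := fun a => a < v ∧ ∃ x, T (s a) (s v) x ∧ c (s a) (s v) x = j with hP
  have hP1 : P (v - 1) := by
    obtain ⟨z, hz⟩ := H.adj (v - 1) (by omega)
    rw [show v - 1 + 1 = v by omega] at hz
    obtain ⟨w, hw1, hw2, -⟩ := h.opp hz
    have hne : c (s (v - 1)) (s v) z ≠ c (s (v - 1)) (s v) w := by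
      intro e
      refine ((C.chg (v - 1) v z w (by omega) (by omega) hz hw2 (Ne.symm hw1)).1 e) ?_
      left; omega
    refine ⟨by omega, ?_⟩
    rcases hcases _ _ hne with e | e
    · exact ⟨z, hz, e⟩
    · exact ⟨w, hw2, e⟩
  have hex : ∃ a, P a := ⟨_, hP1⟩
  set a := Nat.find hex with ha
  obtain ⟨hav, x, hx, hcx⟩ := Nat.find_spec hex
  have hmin : ∀ b, b < a → ¬ P b := fun b hb => Nat.find_min hex hb
  rw [← ha] at hav hx hcx
  -- the third vertex of a face at the edge is not smaller than `a`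
  have hthird : ∀ b, b < n → T (s a) (s v) (s b) → c (s a) (s v) (s b) = j → v < b ∨
      (a < b ∧ b < v) := by
    intro b hb hT hc
    obtain ⟨d1, d2, d3⟩ := h.distinct hT
    have n1 : b ≠ v := by rintro rfl; exact d2 rfl
    have n2 : b ≠ a := by rintro rfl; exact d3 rfl
    have n3 : ¬ b < a := by
      intro k
      refine hmin b k ⟨by omega, s a, h.swp13 hT, ?_⟩
      rw [← hc, C.swp13]
    omega
  obtain ⟨b, hb, rfl⟩ := H.surj x (h.vert3 hx)
  rcases hthird b hb hx hcx with k | ⟨k1, k2⟩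
  · exact ⟨a, b, hav, k, hb, hx, hcx⟩
  · have hnc : ¬ CycAdj n a v := by unfold CycAdj; omega
    obtain ⟨x', hx1, hx2, -⟩ := h.opp hx
    have hc' := (C.chg a v _ _ (by omega) (by omega) hx hx2 (Ne.symm hx1)).2 hnc
    obtain ⟨b', hb', rfl⟩ := H.surj x' (h.vert3 hx2)
    have hcx' : c (s a) (s v) (s b') = j := by rw [← hc', hcx]
    rcases hthird b' hb' hx2 hcx' with k' | ⟨k1', k2'⟩
    · exact ⟨a, b', hav, k', hb', hx2, hcx'⟩
    · exfalso
      have hbb : b ≠ b' := by rintro rfl; exact hx1 rfl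
      have key : ∀ p q, a < p → p < q → q < v → T (s a) (s v) (s p) → T (s a) (s v) (s q) →
          c (s a) (s v) (s p) = j → c (s a) (s v) (s q) = j → False := by
        intro p q g1 g2 g3 g4 g5 g6 g7
        refine C.crs a p q v (s v) (s a) g1 g2 g3 (by omega) (h.swp23 g5) (h.swp13 g4) ?_
        rw [C.swp23, g7, C.swp23 (s p), C.rot, g6]
      rcases lt_or_gt_of_ne hbb with g | g
      · exact key b b' k1 g k2' hx hx2 hcx hcx'
      · exact key b' b k1' g k2 hx2 hx hcx' hcx

end PageCol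

end Pool.Agent.Lib.MP_d86530_co
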