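import Pool.Agent.Lib.MP_d86530_co.HostLay

/-!
# MP_d86530_co: orders with the local property WX have good layouts
-/

set_option autoImplicit false

namespace Pool.Agent.Lib.MP_d86530_co

variable {V : Type*} {T : V → V → V → Prop}

/-- The property WX of a Hamiltonian order: for a face `i < j < k` one of
* `i = j - 1` (no left neighbour of `j` in its page except `j - 1`),
* `k = j + 1` or `(j, j + 1, k)` is a face (at most two right neighbours in its page),
* the exceptional case: `(i, j - 1, j)` is a face; the other face with middle vertex `j` has at most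
  two right neighbours; the face of the other page with middle vertex `j - 1` contains the edge
  `(j - 2, j - 1)` or `(j - 1, j)`. -/
structure WX (T : V → V → V → Prop) (n : ℕ) (s : ℕ → V) : Prop extends HamOrd T n s where
  outer : T (s 0) (s 1) (s (n - 1))
  wx1 : ∀ k, 1 < k → k + 1 < n → T (s 0) (s 1) (s k) → k = 2 ∨ T (s 1) (s 2) (s k)
  wx : ∀ i j k, 2 ≤ j → i < j → j < k → k < n → T (s i) (s j) (s k) →
    i + 1 = j ∨ j + 1 = k ∨ T (s j) (s (j + 1)) (s k) ∨
      (T (s i) (s (j - 1)) (s j) ∧
        (∀ i' k', i' < j → j < k' → k' < n → T (s i') (s j) (s k') → (i' ≠ i ∨ k' ≠ k) →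
          j + 1 = k' ∨ T (s j) (s (j + 1)) (s k')) ∧
        (∀ i' k', i' < j - 1 → j - 1 < k' → k' < n → T (s i') (s (j - 1)) (s k') →
          (i' ≠ i ∨ k' ≠ j) → i' + 1 = j - 1 ∨ k' = j))

/-- WR implies WX -/
theorem WR.toWX {n : ℕ} {s : ℕ → V} (H : WR T n s) : WX T n s where
  toHamOrd := H.toHamOrd
  outer := H.outer
  wx1 := H.wr1
  wx := by
    intro i j k _ h2 h3 h4 h5
    rcases H.wr i j k h2 h3 h4 h5 with h | h | h
    · exact Or.inl h
    · exact Or.inr (Or.inl h)
    · exact Or.inr (Or.inr (Or.inl h))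

section

variable {n : ℕ} {s : ℕ → V} {c : V → V → V → ZMod 2} {κ : Bool → ZMod 2} {U W : Bool → ℤ → ℤ}

/-- at most two right neighbours -/
theorem rok_of (h : IsSph T) (C : PageCol T n s c) {j : Bool} {a v b : ℕ}
    (h1 : a < v) (h2 : v < b) (h3 : b < n) (hT : T (s a) (s v) (s b))
    (hc : c (s a) (s v) (s b) = κ j) (hW : W j v = b)
    (hb : v + 1 = b ∨ T (s v) (s (v + 1)) (s b)) : Rok (PgE T n s c κ) W j v := by
  rintro t ⟨a', b', e1, rfl, g1, g2, w, g3, g4⟩
  obtain rfl : v = a' := by omega
  have hcE : c (s a) (s b) (s v) = κ j := by rw [← hc, C.swp23]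
  have hbb : b' ≤ b := by
    by_contra hlt
    exact C.crs a v b b' _ _ h1 h2 (by omega) g2 (h.swp23 hT) g3 (by rw [hcE, g4])
  rcases Nat.eq_or_lt_of_le hbb with e | e
  · right
    rw [hW, e]
  · left
    rcases hb with hb | hb
    · omega
    · by_contra hne
      have hne' : ¬ b' = v + 1 := by
        intro e'
        apply hne
        rw [e']
        push_cast
        rfl
      have hcb : c (s (v + 1)) (s b) (s v) = κ j := by
        have e1 : c (s v) (s b) (s (v + 1)) = c (s v) (s b) (s a) := by
          by_cases k : s (v + 1) = s a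
          · rw [k]
          · refine (C.chg v b _ _ (by omega) h3 (h.swp23 hb) (h.rot hT) k).2 ?_
            unfold CycAdj
            omega
        have e2 : c (s v) (s b) (s a) = κ j := by rw [← hc, C.rot (s a)]
        rw [← e2, ← e1, C.rot (s (v + 1)), C.rot (s b)]
        rw [C.swp23]
      exact C.crs v (v + 1) b' b _ _ (by omega) (by omega) e h3 g3 (h.rot hb)
        (by rw [g4, hcb])

/-- the order with property WX gives abstract data -/
theorem WX.wxData (h : IsSph T) (H : WX T n s) (C : PageCol T n s c)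
    (P : Paged T n s c κ U W) : WXData n (PgE T n s c κ) U W where
  lt := fun _ _ _ e => Paged.lt e
  nc := fun _ _ _ _ _ e e' => Paged.nc h C e e'
  eu := fun _ _ h1 h2 => Paged.eu C P h1 h2
  ew := fun _ _ h1 h2 => Paged.ew h C P h1 h2
  euw := fun _ _ h1 h2 => Paged.euw h C P h1 h2
  u0 := (P.u0 h H.toHamOrd C).1
  wn := (P.u0 h H.toHamOrd C).2
  pos := by
    rintro j x y ⟨a, b, rfl, rfl, -⟩
    omega
  start := by
    have hn := P.four_le h H.toHamOrd
    obtain ⟨a, b, e1, e2, g1, g2, g3, g4, g5⟩ := P.mid false 1 le_rfl (by omega)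
    obtain rfl : a = 0 := by omega
    have hb : b + 1 < n := by
      by_contra hb
      obtain rfl : b = n - 1 := by omega
      rw [← P.col] at g5
      exact P.κne g5.symm
    have hb2 : 1 + 1 = b ∨ T (s 1) (s (1 + 1)) (s b) := by
      rcases H.wx1 b g2 hb g4 with e | e
      · left; omega
      · right; exact e
    exact rok_of h C g1 g2 g3 g4 g5 e2 hb2
  wx := by
    intro j v hv hE
    obtain ⟨m, rfl⟩ : ∃ m : ℕ, v = m := ⟨v.toNat, by have := hE.1; omega⟩
    obtain ⟨hm, hU, hR⟩ := hE
    obtain ⟨a, b, e1, e2, g1, g2, g3, g4, g5⟩ := P.mid j m (by omega) (by omega)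
    have hx := H.wx a m b (by omega) g1 g2 g3 g4
    have n1 : ¬ a + 1 = m := by omega
    have n2 : ¬ (m + 1 = b ∨ T (s m) (s (m + 1)) (s b)) := fun k =>
      hR (rok_of h C g1 g2 g3 g4 g5 e2 k)
    obtain ⟨f1, f2, f3⟩ : (T (s a) (s (m - 1)) (s m) ∧ _ ∧ _) := by
      rcases hx with k | k | k | k
      · exact absurd k n1
      · exact absurd (Or.inl k) n2
      · exact absurd (Or.inr k) n2
      · exact k
    -- the colour of the face `a, m - 1, m`
    have hca : c (s a) (s m) (s (m - 1)) = κ j := by
      rw [← g5]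
      by_cases k : s (m - 1) = s b
      · rw [k]
      · refine (C.chg a m _ _ (by omega) (by omega) (h.swp23 f1) g4 k).2 ?_
        unfold CycAdj
        omega
    have hca' : c (s a) (s (m - 1)) (s m) = κ j := by rw [← hca, C.swp23]
    refine ⟨?_, ?_, ?_⟩
    · rintro x ⟨a', b', rfl, k1, k2, k3, w, k4, k5⟩
      obtain rfl : m = b' := by omega
      rw [e1]
      by_contra hne
      rw [not_or] at hne
      obtain ⟨ne1, ne2⟩ := hne
      by_cases k6 : a' < a
      · exact C.crs a' a m b _ _ k6 g1 g2 g3 k4 (h.swp23 g4) (by rw [k5, ← g5, C.swp23])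
      · exact C.crs a a' (m - 1) m _ _ (by omega) (by omega) (by omega) k3 f1 k4
          (by rw [k5, hca'])
    · obtain ⟨a', b', e1', e2', g1', g2', g3', g4', g5'⟩ := P.mid (!j) m (by omega) (by omega)
      refine rok_of h C g1' g2' g3' g4' g5' e2' (f2 a' b' g1' g2' g3' g4' ?_)
      by_contra hne
      rw [not_or, not_not, not_not] at hne
      obtain ⟨rfl, rfl⟩ := hne
      have := P.κ_inj (g5'.symm.trans g5)
      simp at this
    · obtain ⟨a', b', e1', e2', g1', g2', g3', g4', g5'⟩ :=
        P.mid (!j) (m - 1) (by omega) (by omega)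
      have k := f3 a' b' g1' g2' g3' g4' (by
        by_contra hne
        rw [not_or, not_not, not_not] at hne
        obtain ⟨rfl, rfl⟩ := hne
        have := P.κ_inj (g5'.symm.trans hca')
        simp at this)
      have em : ((m - 1 : ℕ) : ℤ) = (m : ℤ) - 1 := by omega
      rw [← em, e1', e2']
      omega

end

/-- **A Hamiltonian order with property WX gives a good layout.** -/
theorem WX.lay (h : IsSph T) {n : ℕ} {s : ℕ → V} (H : WX T n s) :
    ∃ p hh, Lay T (s 0) (s 1) (s (n - 1)) p hh := by
  obtain ⟨c, C⟩ := H.toHamOrd.exists_pageCol h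
  obtain ⟨κ, U, W, P⟩ := H.toHamOrd.exists_paged h H.outer C
  exact lay_of_hostOK h H.toHamOrd C P (H.wxData h C P).hostData.ok (by rw [hdel_one]; norm_num)

/-- **A Hamiltonian order with property WR gives a good layout.** -/
theorem WR.lay (h : IsSph T) {n : ℕ} {s : ℕ → V} (H : WR T n s) :
    ∃ p hh, Lay T (s 0) (s 1) (s (n - 1)) p hh := H.toWX.lay h

end Pool.Agent.Lib.MP_d86530_co
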