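import Pool.Agent.Lib.MP_d86530_co.CycAvoid

/-! An even edge set of a combinatorial sphere is the boundary of a set of faces. -/

set_option autoImplicit false
namespace Pool.Agent.Lib.MP_d86530_co
open Relation
variable {V : Type*} {T : V → V → V → Prop}

/-- the faces which are reached from the face `a b c`, with the number of crossed edges of `z` -/
inductive Reach (T : V → V → V → Prop) (z : V → V → ZMod 2) (a b c : V) :
    V → V → V → ZMod 2 → Prop
  | base : Reach T z a b c a b c 0
  | rot {x y w : V} {r : ZMod 2} : Reach T z a b c x y w r → Reach T z a b c y w x r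
  | swp {x y w : V} {r : ZMod 2} : Reach T z a b c x y w r → Reach T z a b c y x w r
  | step {x y w w' : V} {r : ZMod 2} : Reach T z a b c x y w r → T x y w' → w' ≠ w →
      Reach T z a b c x y w' (r + z x y)

open Classical in
/-- the indicator of a proposition -/
noncomputable def ind2 (P : Prop) : ZMod 2 := if P then 1 else 0

theorem ind2_congr {P Q : Prop} (h : P ↔ Q) : ind2 P = ind2 Q := by
  rw [propext h]

theorem ind2_pos {P : Prop} (h : P) : ind2 P = 1 := by unfold ind2; simp [h]

theorem ind2_neg {P : Prop} (h : ¬ P) : ind2 P = 0 := by unfold ind2; simp [h]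

/-- the edge `x y` lies in the face `p q t` iff `p q t` is one of the two faces at `x y` -/
theorem IsSph.edge_count (h : IsSph T) {x y w w' p q t : V} (h1 : T x y w) (h2 : T x y w')
    (hw : w' ≠ w) (hp : T p q t) :
    (ind2 (p = x ∧ q = y) + ind2 (q = x ∧ p = y)) + (ind2 (q = x ∧ t = y) + ind2 (t = x ∧ q = y)) +
      (ind2 (t = x ∧ p = y) + ind2 (p = x ∧ t = y)) =
    ind2 (Tri x y w p q t) + ind2 (Tri x y w' p q t) := by
  obtain ⟨a1, a2, a3⟩ := h.distinct h1
  obtain ⟨b1, b2, b3⟩ := h.distinct h2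
  obtain ⟨c1, c2, c3⟩ := h.distinct hp
  -- the case of the edge `p q`
  have key : ∀ p q t, T p q t → p = x → q = y →
      (ind2 (p = x ∧ q = y) + ind2 (q = x ∧ p = y)) +
        (ind2 (q = x ∧ t = y) + ind2 (t = x ∧ q = y)) +
        (ind2 (t = x ∧ p = y) + ind2 (p = x ∧ t = y)) =
      ind2 (Tri x y w p q t) + ind2 (Tri x y w' p q t) := by
    intro p q t hp e1 e2
    subst e1; subst e2
    obtain ⟨c1, c2, c3⟩ := h.distinct hp
    rcases h.opp_uniq h1 h2 (Ne.symm hw) hp with e | e
    · subst e
      rw [ind2_pos (⟨rfl, rfl⟩ : p = p ∧ q = q), ind2_neg (fun k => c1 k.2 : ¬ (q = p ∧ p = q)),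
        ind2_neg (fun k => c2 k.2.symm : ¬ (q = p ∧ t = q)),
        ind2_neg (fun k => c3 k.1 : ¬ (t = p ∧ q = q)),
        ind2_neg (fun k => c3 k.1 : ¬ (t = p ∧ p = q)),
        ind2_neg (fun k => c2 k.2.symm : ¬ (p = p ∧ t = q)),
        ind2_pos (tri_self p q t)]
      have h5 : ¬ Tri p q w' p q t := by
        intro k
        rcases tri_mem3 k with k | k | k
        · exact c3 k
        · exact c2 k.symm
        · exact hw k.symm
      rw [ind2_neg h5]
      ring
    · subst e
      rw [ind2_pos (⟨rfl, rfl⟩ : p = p ∧ q = q), ind2_neg (fun k => c1 k.2 : ¬ (q = p ∧ p = q)),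
        ind2_neg (fun k => c2 k.2.symm : ¬ (q = p ∧ t = q)),
        ind2_neg (fun k => c3 k.1 : ¬ (t = p ∧ q = q)),
        ind2_neg (fun k => c3 k.1 : ¬ (t = p ∧ p = q)),
        ind2_neg (fun k => c2 k.2.symm : ¬ (p = p ∧ t = q)),
        ind2_pos (tri_self p q t)]
      have h5 : ¬ Tri p q w p q t := by
        intro k
        rcases tri_mem3 k with k | k | k
        · exact c3 k
        · exact c2 k.symm
        · exact hw k
      rw [ind2_neg h5]
      ring
  by_cases g1 : p = x ∧ q = y
  · exact key p q t hp g1.1 g1.2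
  by_cases g2 : q = x ∧ p = y
  · have := key q p t (h.swp hp) g2.1 g2.2
    rw [ind2_congr (tri_swp (a := x) (b := y) (c := w) (x := p) (y := q) (z := t)),
      ind2_congr (tri_swp (a := x) (b := y) (c := w') (x := p) (y := q) (z := t)), ← this]
    ring
  by_cases g3 : q = x ∧ t = y
  · have := key q t p (h.rot hp) g3.1 g3.2
    rw [ind2_congr (tri_rot (a := x) (b := y) (c := w) (x := p) (y := q) (z := t)),
      ind2_congr (tri_rot (a := x) (b := y) (c := w') (x := p) (y := q) (z := t)), ← this]
    ring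
  by_cases g4 : t = x ∧ q = y
  · have := key t q p (h.swp13 hp) g4.1 g4.2
    rw [ind2_congr (tri_rot (a := x) (b := y) (c := w) (x := p) (y := q) (z := t)),
      ind2_congr (tri_rot (a := x) (b := y) (c := w') (x := p) (y := q) (z := t)),
      ind2_congr (tri_swp (a := x) (b := y) (c := w) (x := q) (y := t) (z := p)),
      ind2_congr (tri_swp (a := x) (b := y) (c := w') (x := q) (y := t) (z := p)), ← this]
    ring
  by_cases g5 : t = x ∧ p = y
  · have := key t p q (h.rot2 hp) g5.1 g5.2
    rw [ind2_congr (tri_rot (a := x) (b := y) (c := w) (x := p) (y := q) (z := t)),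
      ind2_congr (tri_rot (a := x) (b := y) (c := w') (x := p) (y := q) (z := t)),
      ind2_congr (tri_rot (a := x) (b := y) (c := w) (x := q) (y := t) (z := p)),
      ind2_congr (tri_rot (a := x) (b := y) (c := w') (x := q) (y := t) (z := p)), ← this]
    ring
  by_cases g6 : p = x ∧ t = y
  · have := key p t q (h.swp23 hp) g6.1 g6.2
    rw [ind2_congr (tri_swp (a := x) (b := y) (c := w) (x := p) (y := q) (z := t)),
      ind2_congr (tri_swp (a := x) (b := y) (c := w') (x := p) (y := q) (z := t)),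
      ind2_congr (tri_rot (a := x) (b := y) (c := w) (x := q) (y := p) (z := t)),
      ind2_congr (tri_rot (a := x) (b := y) (c := w') (x := q) (y := p) (z := t)), ← this]
    ring
  rw [ind2_neg g1, ind2_neg g2, ind2_neg g3, ind2_neg g4, ind2_neg g5, ind2_neg g6]
  have h5 : ∀ s, ¬ Tri x y s p q t := by
    intro s k
    rcases k with ⟨k1, k2, k3⟩ | ⟨k1, k2, k3⟩ | ⟨k1, k2, k3⟩ | ⟨k1, k2, k3⟩ | ⟨k1, k2, k3⟩ |
      ⟨k1, k2, k3⟩
    · exact g1 ⟨k1, k2⟩
    · exact g6 ⟨k1, k3⟩
    · exact g2 ⟨k2, k1⟩
    · exact g5 ⟨k3, k1⟩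
    · exact g3 ⟨k2, k3⟩
    · exact g4 ⟨k3, k2⟩
  rw [ind2_neg (h5 w), ind2_neg (h5 w')]
  ring

/-- the invariant of the reached faces -/
theorem IsSph.reach_inv (h : IsSph T) (z : V → V → ZMod 2) {a b c : V} (habc : T a b c)
    {x y w : V} {r : ZMod 2} (hR : Reach T z a b c x y w r) :
    T x y w ∧ ∃ g : V → V → ZMod 2,
      (∀ p q t, T p q t → (g p q + g q p) + (g q t + g t q) + (g t p + g p t) =
        ind2 (Tri a b c p q t) + ind2 (Tri x y w p q t)) ∧
      ∑ p ∈ h.fin.toFinset, ∑ q ∈ h.fin.toFinset, z p q * g p q = r := by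
  classical
  induction hR with
  | base =>
    refine ⟨habc, fun _ _ => 0, ?_, by simp⟩
    intro p q t _
    have e3 : ind2 (Tri a b c p q t) + ind2 (Tri a b c p q t) = 0 :=
      CharTwo.add_self_eq_zero _
    rw [e3]
    ring
  | @rot x y w r _ ih =>
    obtain ⟨h1, g, h2, h3⟩ := ih
    refine ⟨h.rot h1, g, ?_, h3⟩
    intro p q t hp
    rw [h2 p q t hp, ind2_congr (tri_rot' (a := x) (b := y) (c := w))]
  | @swp x y w r _ ih =>
    obtain ⟨h1, g, h2, h3⟩ := ih
    refine ⟨h.swp h1, g, ?_, h3⟩
    intro p q t hp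
    rw [h2 p q t hp, ind2_congr (tri_swp' (a := x) (b := y) (c := w))]
  | @step x y w w' r _ h4 h5 ih =>
    obtain ⟨h1, g, h2, h3⟩ := ih
    refine ⟨h4, fun p q => g p q + ind2 (p = x ∧ q = y), ?_, ?_⟩
    · intro p q t hp
      have e1 := h.edge_count h1 h4 h5 hp
      have e2 := h2 p q t hp
      have e3 : ind2 (Tri x y w p q t) + ind2 (Tri x y w p q t) = 0 :=
        CharTwo.add_self_eq_zero _
      linear_combination e1 + e2 + e3
    · have hx : x ∈ h.fin.toFinset := h.fin.mem_toFinset.2 (IsSph.vert1 h1)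
      have hy : y ∈ h.fin.toFinset := h.fin.mem_toFinset.2 (h.vert2 h1)
      have e1 : ∑ p ∈ h.fin.toFinset, ∑ q ∈ h.fin.toFinset, z p q * ind2 (p = x ∧ q = y) =
          z x y := by
        rw [Finset.sum_eq_single x, Finset.sum_eq_single y]
        · rw [ind2_pos ⟨rfl, rfl⟩, mul_one]
        · intro q _ hq
          rw [ind2_neg (fun k => hq k.2), mul_zero]
        · intro k; exact absurd hy k
        · intro p _ hp
          refine Finset.sum_eq_zero fun q _ => ?_
          rw [ind2_neg (fun k => hp k.1), mul_zero]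
        · intro k; exact absurd hx k
      rw [← h3, ← e1, ← Finset.sum_add_distrib]
      refine Finset.sum_congr rfl fun p _ => ?_
      rw [← Finset.sum_add_distrib]
      refine Finset.sum_congr rfl fun q _ => ?_
      ring

/-- the number of crossed edges is determined modulo two -/
theorem IsSph.reach_unique (h : IsSph T) (z : V → V → ZMod 2) (hz : ∀ x y, z x y = z y x)
    (hz0 : ∀ x y, ¬ Adj3 T x y → z x y = 0)
    (hev : ∀ x, ∑ y ∈ h.fin.toFinset, z x y = 0) {a b c : V} (habc : T a b c)
    {x y w : V} {r r' : ZMod 2} (h1 : Reach T z a b c x y w r)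
    (h2 : Reach T z a b c x y w r') : r = r' := by
  classical
  obtain ⟨-, g, g1, g2⟩ := h.reach_inv z habc h1
  obtain ⟨-, g', g1', g2'⟩ := h.reach_inv z habc h2
  obtain ⟨k, hk⟩ := h.coh (fun p q => (g p q + g' p q) + (g q p + g' q p))
    (fun p q => by ring) (by
      intro p q t hp
      have e1 := g1 p q t hp
      have e2 := g1' p q t hp
      have e3 : ind2 (Tri a b c p q t) + ind2 (Tri a b c p q t) = 0 :=
        CharTwo.add_self_eq_zero _
      have e4 : ind2 (Tri x y w p q t) + ind2 (Tri x y w p q t) = 0 :=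
        CharTwo.add_self_eq_zero _
      linear_combination e1 + e2 + e3 + e4)
  set F := h.fin.toFinset with hF
  have hsum : ∑ q ∈ F ×ˢ F, z q.1 q.2 * (g q.1 q.2 + g' q.1 q.2 + k q.1) = 0 := by
    refine Finset.sum_involution (fun q _ => (q.2, q.1)) ?_ ?_ ?_ ?_
    · rintro ⟨p, q⟩ _
      dsimp only
      by_cases hA : Adj3 T p q
      · obtain ⟨t, ht⟩ := hA
        have e1 := hk p q t ht
        have e2 : z p q * (2 * (k p + k q)) = 0 := by
          have : (2 : ZMod 2) = 0 := by decide
          rw [this]; ring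
        rw [hz q p]
        linear_combination z p q * e1 + e2
      · rw [hz q p, hz0 p q hA]; ring
    · rintro ⟨p, q⟩ _ hne he
      have e : q = p := congrArg Prod.fst he
      subst e
      apply hne
      dsimp only
      rw [hz0 q q (fun hA => h.adj_ne hA rfl)]
      ring
    · rintro ⟨p, q⟩ hq
      have := Finset.mem_product.1 hq
      exact Finset.mem_product.2 ⟨this.2, this.1⟩
    · rintro ⟨p, q⟩ _
      rfl
  rw [Finset.sum_product] at hsum
  have e5 : ∑ p ∈ F, ∑ q ∈ F, z p q * (g p q + g' p q + k p) =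
      ∑ p ∈ F, ∑ q ∈ F, z p q * g p q + ∑ p ∈ F, ∑ q ∈ F, z p q * g' p q +
        ∑ p ∈ F, k p * ∑ q ∈ F, z p q := by
    rw [← Finset.sum_add_distrib, ← Finset.sum_add_distrib]
    refine Finset.sum_congr rfl fun p _ => ?_
    rw [Finset.mul_sum, ← Finset.sum_add_distrib, ← Finset.sum_add_distrib]
    refine Finset.sum_congr rfl fun q _ => ?_
    ring
  have e6 : ∑ p ∈ F, k p * ∑ q ∈ F, z p q = 0 := by
    refine Finset.sum_eq_zero fun p _ => ?_
    rw [hev p, mul_zero]
  rw [e5, g2, g2', e6, add_zero] at hsum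
  exact CharTwo.add_eq_zero.1 hsum

/-- all faces at a vertex are reached if one of them is -/
theorem IsSph.reach_vertex (h : IsSph T) (z : V → V → ZMod 2) {a b c : V}
    {v e e' f f' : V} {r : ZMod 2} (hR : Reach T z a b c v e e' r) (hT : T v e e')
    (hf : T v f f') : ∃ s, Reach T z a b c v f f' s := by
  have hl := h.link hT hf
  have key : ∀ f, ReflTransGen (T v) e f → ∀ f', T v f f' → ∃ s, Reach T z a b c v f f' s := by
    intro f hl
    induction hl with
    | refl =>
      intro f' hf'
      by_cases e1 : f' = e'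
      · exact ⟨r, e1 ▸ hR⟩
      · exact ⟨_, Reach.step hR hf' e1⟩
    | @tail y t _ hyt ih =>
      intro f' hf'
      obtain ⟨s, hs⟩ := ih t hyt
      -- `v y t` to `v t y`
      have hs' : Reach T z a b c v t y s := Reach.swp (Reach.rot (Reach.rot hs))
      by_cases e1 : f' = y
      · exact ⟨s, e1 ▸ hs'⟩
      · exact ⟨_, Reach.step hs' hf' e1⟩
  exact key f hl f' hf

/-- all faces are reached -/
theorem IsSph.reach_all (h : IsSph T) (z : V → V → ZMod 2) {a b c : V} (habc : T a b c)
    {x y w : V} (hT : T x y w) : ∃ s, Reach T z a b c x y w s := by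
  have hc := h.conn (IsSph.vert1 habc) (IsSph.vert1 hT)
  have key : ∀ v, ReflTransGen (Adj3 T) a v → ∀ e e', T v e e' →
      ∃ s, Reach T z a b c v e e' s := by
    intro v hv
    induction hv with
    | refl =>
      intro e e' he
      exact h.reach_vertex z Reach.base habc he
    | @tail u v _ huv ih =>
      intro e e' he
      obtain ⟨t, ht⟩ := huv
      obtain ⟨s, hs⟩ := ih v t ht
      exact h.reach_vertex z (Reach.swp hs) (h.swp ht) he
  exact key x hc y w hT

/-- an even edge set is a sum of faces: `z` is even at every vertex, then there is a 2-colouring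
`c` of the faces which changes exactly across the edges with `z = 1` -/
theorem IsSph.exists_color (h : IsSph T) (z : V → V → ZMod 2) (hz : ∀ x y, z x y = z y x)
    (hz0 : ∀ x y, ¬ Adj3 T x y → z x y = 0)
    (hev : ∀ x, ∑ y ∈ h.fin.toFinset, z x y = 0) :
    ∃ c : V → V → V → ZMod 2, (∀ x y w, c x y w = c y x w) ∧ (∀ x y w, c x y w = c y w x) ∧
      ∀ x y w w', T x y w → T x y w' → w ≠ w' → c x y w + c x y w' = z x y := by
  classical
  obtain ⟨a, b, c, habc⟩ := h.inh
  have hex : ∀ x y w, T x y w → ∃ s, Reach T z a b c x y w s := fun x y w hT =>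
    h.reach_all z habc hT
  have hun : ∀ x y w r r', Reach T z a b c x y w r → Reach T z a b c x y w r' → r = r' :=
    fun x y w r r' => h.reach_unique z hz hz0 hev habc
  choose s hs using hex
  refine ⟨fun x y w => if hT : T x y w then s x y w hT else 0, ?_, ?_, ?_⟩
  · intro x y w
    dsimp only
    by_cases hT : T x y w
    · rw [dif_pos hT, dif_pos (h.swp hT)]
      exact hun _ _ _ _ _ (Reach.swp (hs x y w hT) |> Reach.swp) (Reach.swp (hs y x w (h.swp hT)))
    · rw [dif_neg hT, dif_neg (fun k => hT (h.swp k))]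
  · intro x y w
    dsimp only
    by_cases hT : T x y w
    · rw [dif_pos hT, dif_pos (h.rot hT)]
      exact hun _ _ _ _ _ (Reach.rot (hs x y w hT)) (hs y w x (h.rot hT))
    · rw [dif_neg hT, dif_neg (fun k => hT (h.rot2 k))]
  · intro x y w w' h1 h2 hne
    dsimp only
    rw [dif_pos h1, dif_pos h2]
    have e := hun _ _ _ _ _ (Reach.step (hs x y w h1) h2 (Ne.symm hne)) (hs x y w' h2)
    rw [← e, ← add_assoc, CharTwo.add_self_eq_zero, zero_add]

end Pool.Agent.Lib.MP_d86530_co
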