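import Pool.Agent.Lib.MP_d86530_co.Basic

/-! Glueing of good layouts along a face. -/

set_option autoImplicit false

namespace Pool.Agent.Lib.MP_d86530_co

variable {V : Type*} {T T₁ T₂ : V → V → V → Prop}

namespace LayGlue

/-- the pairs `a, b` and `c, d` are interleaved -/
def ilv (a b c d : ℝ) : Prop :=
  (min a b < min c d ∧ min c d < max a b ∧ max a b < max c d) ∨
    (min c d < min a b ∧ min a b < max c d ∧ max c d < max a b)

theorem ilv_iff (a b c d : ℝ) : ilv a b c d ↔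
    (a < c ∧ c < b ∧ b < d) ∨ (a < d ∧ d < b ∧ b < c) ∨ (b < c ∧ c < a ∧ a < d) ∨
    (b < d ∧ d < a ∧ a < c) ∨ (c < a ∧ a < d ∧ d < b) ∨ (c < b ∧ b < d ∧ d < a) ∨
    (d < a ∧ a < c ∧ c < b) ∨ (d < b ∧ b < c ∧ c < a) := by
  unfold ilv
  constructor
  · rcases le_total a b with h1 | h1 <;> rcases le_total c d with h2 | h2
    · rw [min_eq_left h1, min_eq_left h2, max_eq_right h1, max_eq_right h2]
      tauto
    · rw [min_eq_left h1, min_eq_right h2, max_eq_right h1, max_eq_left h2]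
      tauto
    · rw [min_eq_right h1, min_eq_left h2, max_eq_left h1, max_eq_right h2]
      tauto
    · rw [min_eq_right h1, min_eq_right h2, max_eq_left h1, max_eq_left h2]
      tauto
  · rintro (⟨h3, h4, h5⟩ | ⟨h3, h4, h5⟩ | ⟨h3, h4, h5⟩ | ⟨h3, h4, h5⟩ | ⟨h3, h4, h5⟩ |
      ⟨h3, h4, h5⟩ | ⟨h3, h4, h5⟩ | ⟨h3, h4, h5⟩)
    · rw [min_eq_left (h3.trans h4).le, max_eq_right (h3.trans h4).le,
        min_eq_left (h4.trans h5).le, max_eq_right (h4.trans h5).le]
      tauto
    · rw [min_eq_left (h3.trans h4).le, max_eq_right (h3.trans h4).le,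
        min_eq_right (h4.trans h5).le, max_eq_left (h4.trans h5).le]
      tauto
    · rw [min_eq_right (h3.trans h4).le, max_eq_left (h3.trans h4).le,
        min_eq_left (h4.trans h5).le, max_eq_right (h4.trans h5).le]
      tauto
    · rw [min_eq_right (h3.trans h4).le, max_eq_left (h3.trans h4).le,
        min_eq_right (h4.trans h5).le, max_eq_left (h4.trans h5).le]
      tauto
    · rw [min_eq_left (h3.trans h4).le, max_eq_right (h3.trans h4).le,
        min_eq_left (h4.trans h5).le, max_eq_right (h4.trans h5).le]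
      tauto
    · rw [min_eq_left (h3.trans h4).le, max_eq_right (h3.trans h4).le,
        min_eq_right (h4.trans h5).le, max_eq_left (h4.trans h5).le]
      tauto
    · rw [min_eq_right (h3.trans h4).le, max_eq_left (h3.trans h4).le,
        min_eq_left (h4.trans h5).le, max_eq_right (h4.trans h5).le]
      tauto
    · rw [min_eq_right (h3.trans h4).le, max_eq_left (h3.trans h4).le,
        min_eq_right (h4.trans h5).le, max_eq_left (h4.trans h5).le]
      tauto

theorem ilv_swap (a b c d : ℝ) : ilv a b c d ↔ ilv c d a b := by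
  unfold ilv; exact or_comm

theorem ilv_right (a b c d : ℝ) : ilv a b c d ↔ ilv a b d c := by
  unfold ilv; rw [min_comm c d, max_comm c d]

theorem ilv_left (a b c d : ℝ) : ilv a b c d ↔ ilv b a c d := by
  unfold ilv; rw [min_comm a b, max_comm a b]

/-- transfer of interleaving -/
theorem ilv_congr {a b c d a' b' c' d' : ℝ}
    (h1 : a < c ↔ a' < c') (h2 : c < a ↔ c' < a') (h3 : a < d ↔ a' < d') (h4 : d < a ↔ d' < a')
    (h5 : b < c ↔ b' < c') (h6 : c < b ↔ c' < b') (h7 : b < d ↔ b' < d') (h8 : d < b ↔ d' < b') :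
    ilv a b c d ↔ ilv a' b' c' d' := by
  rw [ilv_iff, ilv_iff, h1, h2, h3, h4, h5, h6, h7, h8]

/-- transfer of interleaving, order reversed -/
theorem ilv_anti {a b c d a' b' c' d' : ℝ}
    (h1 : a < c ↔ c' < a') (h2 : c < a ↔ a' < c') (h3 : a < d ↔ d' < a') (h4 : d < a ↔ a' < d')
    (h5 : b < c ↔ c' < b') (h6 : c < b ↔ b' < c') (h7 : b < d ↔ d' < b') (h8 : d < b ↔ b' < d') :
    ilv a b c d ↔ ilv a' b' c' d' := by
  rw [ilv_iff, ilv_iff, h1, h2, h3, h4, h5, h6, h7, h8]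
  constructor <;>
  · rintro (⟨k1, k2, k3⟩ | ⟨k1, k2, k3⟩ | ⟨k1, k2, k3⟩ | ⟨k1, k2, k3⟩ | ⟨k1, k2, k3⟩ |
      ⟨k1, k2, k3⟩ | ⟨k1, k2, k3⟩ | ⟨k1, k2, k3⟩) <;> simp only [k1, k2, k3, and_self, or_true,
      true_or]

/-- points: vertices and hosts -/
abbrev Pt (V : Type*) := V ⊕ (V × V × V)

/-- position of a point -/
def pos (p : V → ℝ) (h : V → V → V → ℝ) : Pt V → ℝ
  | .inl x => p x
  | .inr f => h f.1 f.2.1 f.2.2

/-- first end of an item -/
def e1 : Item V → Pt V
  | .e x _ => .inl x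
  | .h x y z => .inr (x, y, z)

/-- second end of an item -/
def e2 : Item V → Pt V
  | .e _ y => .inl y
  | .h x _ _ => .inl x

theorem cross_iff (p : V → ℝ) (h : V → V → V → ℝ) (i j : Item V) : Item.Cross p h i j ↔
    ilv (pos p h (e1 i)) (pos p h (e2 i)) (pos p h (e1 j)) (pos p h (e2 j)) ∨
      Item.SameHost i j := by
  cases i <;> cases j <;> simp [Item.Cross, ilv, Item.lo, Item.hi, pos, e1, e2, or_assoc]

theorem cross_symm (p : V → ℝ) (h : V → V → V → ℝ) (i j : Item V) (hc : Item.Cross p h i j) :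
    Item.Cross p h j i := by
  rw [cross_iff] at hc ⊢
  rcases hc with hc | hc
  · exact Or.inl ((ilv_swap _ _ _ _).1 hc)
  · right
    revert hc
    cases i with
    | e x y => intro hc; exact hc.elim
    | h x y z =>
      cases j with
      | e x' y' => intro hc; exact hc.elim
      | h x' y' z' => intro hc; exact ⟨tri_comm.1 hc.1, hc.2.symm⟩

/-- old points: vertices of `T₁`, hosts of the other inner faces of `T₁` -/
def IsA (T₁ : V → V → V → Prop) (a b c u v w : V) : Pt V → Prop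
  | .inl t => t ∈ Vert T₁
  | .inr f => T₁ f.1 f.2.1 f.2.2 ∧ ¬ Tri a b c f.1 f.2.1 f.2.2 ∧ ¬ Tri u v w f.1 f.2.1 f.2.2

/-- new points: interior vertices of `T₂` and hosts of inner faces of `T₂` -/
def IsJ (T₁ T₂ : V → V → V → Prop) (u v w : V) : Pt V → Prop
  | .inl t => t ∈ Vert T₂ ∧ t ∉ Vert T₁
  | .inr f => T₂ f.1 f.2.1 f.2.2 ∧ ¬ Tri u v w f.1 f.2.1 f.2.2

/-- points of `T₂` -/
def IsQ (T₂ : V → V → V → Prop) (u v w : V) : Pt V → Prop
  | .inl t => t ∈ Vert T₂
  | .inr f => T₂ f.1 f.2.1 f.2.2 ∧ ¬ Tri u v w f.1 f.2.1 f.2.2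

theorem both_tri {u v w x y z : V} (h₁ : IsSph T₁) (h₂ : IsSph T₂)
    (hV : ∀ x, x ∈ Vert T₁ → x ∈ Vert T₂ → x = u ∨ x = v ∨ x = w)
    (h : T₁ x y z) (h' : T₂ x y z) : Tri u v w x y z := by
  obtain ⟨n1, n2, n3⟩ := h₁.distinct h
  have ex := hV x (IsSph.vert1 h) (IsSph.vert1 h')
  have ey := hV y (h₁.vert2 h) (h₂.vert2 h')
  have ez := hV z (h₁.vert3 h) (h₂.vert3 h')
  unfold Tri
  rcases ex with rfl | rfl | rfl <;> rcases ey with rfl | rfl | rfl <;>
    rcases ez with rfl | rfl | rfl <;> first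
    | exact absurd rfl n1
    | exact absurd rfl n2
    | exact absurd rfl n3
    | simp

theorem adj_corner {u v w x y : V} (h₁ : IsSph T₁) (hT₁ : T₁ u v w)
    (hx : x = u ∨ x = v ∨ x = w) (hy : y = u ∨ y = v ∨ y = w) (hxy : x ≠ y) : Adj3 T₁ x y := by
  rcases hx with rfl | rfl | rfl <;> rcases hy with rfl | rfl | rfl <;> first
    | exact absurd rfl hxy
    | exact ⟨_, hT₁⟩
    | exact ⟨_, h₁.swp hT₁⟩
    | exact ⟨_, h₁.rot hT₁⟩
    | exact ⟨_, h₁.rot2 hT₁⟩
    | exact ⟨_, h₁.swp13 hT₁⟩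
    | exact ⟨_, h₁.swp23 hT₁⟩

/-- a number such that nothing in a finite set except the centre is near to the centre -/
theorem exists_far (S : Set ℝ) (hS : S.Finite) (H : ℝ) (hH : H ∉ S) :
    ∃ ε : ℝ, 0 < ε ∧ ∀ s ∈ S, ε < |s - H| := by
  obtain ⟨ε, h1, h2⟩ := Metric.isOpen_iff.1 hS.isClosed.isOpen_compl H hH
  refine ⟨ε / 2, by positivity, fun s hs => ?_⟩
  by_contra hcon
  rw [not_lt] at hcon
  have : s ∈ Metric.ball H ε := by
    rw [Metric.mem_ball, Real.dist_eq]; linarith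
  exact h2 this hs

section core

variable {a b c u v w : V}

/-- the end points of a valid item of the glued complex are old or new points -/
theorem ends_valid (i : Item V) (hi : i.Valid (glue T₁ T₂ u v w) a b c)
    (h₁ : IsSph T₁) (h₂ : IsSph T₂) :
    (IsA T₁ a b c u v w (e1 i) ∨ IsJ T₁ T₂ u v w (e1 i)) ∧
      (IsA T₁ a b c u v w (e2 i) ∨ IsJ T₁ T₂ u v w (e2 i)) := by
  have key : ∀ x y z, glue T₁ T₂ u v w x y z → x ∈ Vert T₁ ∨ (x ∈ Vert T₂ ∧ x ∉ Vert T₁) := by
    intro x y z h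
    by_cases hx : x ∈ Vert T₁
    · exact Or.inl hx
    · rcases h.1 with h | h
      · exact absurd (IsSph.vert1 h) hx
      · exact Or.inr ⟨IsSph.vert1 h, hx⟩
  have key2 : ∀ x y z, glue T₁ T₂ u v w x y z → glue T₁ T₂ u v w y x z := by
    rintro x y z ⟨h | h, hn⟩
    · exact ⟨Or.inl (h₁.swp h), fun e => hn (tri_swp.2 e)⟩
    · exact ⟨Or.inr (h₂.swp h), fun e => hn (tri_swp.2 e)⟩
  cases i with
  | e x y =>
    obtain ⟨z, hz⟩ := hi
    exact ⟨key x y z hz, key y x z (key2 _ _ _ hz)⟩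
  | h x y z =>
    obtain ⟨hz, hn⟩ := hi
    refine ⟨?_, key x y z hz⟩
    rcases hz.1 with h | h
    · exact Or.inl ⟨h, hn, hz.2⟩
    · exact Or.inr ⟨h, hz.2⟩

/-- a valid item with two old ends is a valid item of `T₁` -/
theorem valid_old (i : Item V) (hi : i.Valid (glue T₁ T₂ u v w) a b c)
    (h₁ : IsSph T₁) (h₂ : IsSph T₂)
    (hV : ∀ x, x ∈ Vert T₁ → x ∈ Vert T₂ → x = u ∨ x = v ∨ x = w) (hT₁ : T₁ u v w)
    (ha : IsA T₁ a b c u v w (e1 i)) (hb : IsA T₁ a b c u v w (e2 i)) : i.Valid T₁ a b c := by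
  cases i with
  | e x y =>
    obtain ⟨z, hz, hn⟩ := hi
    rcases hz with h | h
    · exact ⟨z, h⟩
    · exact adj_corner h₁ hT₁ (hV x ha (IsSph.vert1 h)) (hV y hb (h₂.vert2 h)) (h₂.ne h)
  | h x y z => exact ⟨ha.1, ha.2.1⟩

/-- a valid item with a new end is a valid item of `T₂` -/
theorem valid_new (i : Item V) (hi : i.Valid (glue T₁ T₂ u v w) a b c)
    (h₁ : IsSph T₁) (hj : IsJ T₁ T₂ u v w (e1 i) ∨ IsJ T₁ T₂ u v w (e2 i)) :
    i.Valid T₂ u v w := by
  cases i with
  | e x y =>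
    obtain ⟨z, hz, hn⟩ := hi
    rcases hz with h | h
    · rcases hj with hj | hj
      · exact absurd (IsSph.vert1 h) hj.2
      · exact absurd (h₁.vert2 h) hj.2
    · exact ⟨z, h⟩
  | h x y z =>
    obtain ⟨⟨hz, hn⟩, hn'⟩ := hi
    rcases hj with hj | hj
    · exact hj
    · rcases hz with h | h
      · exact absurd (IsSph.vert1 h) hj.2
      · exact ⟨h, hn⟩

/-- the ends of a valid item of `T₂` are points of `T₂` -/
theorem ends_Q (i : Item V) (hi : i.Valid T₂ u v w) (h₂ : IsSph T₂) :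
    IsQ T₂ u v w (e1 i) ∧ IsQ T₂ u v w (e2 i) := by
  cases i with
  | e x y =>
    obtain ⟨z, hz⟩ := hi
    exact ⟨IsSph.vert1 hz, h₂.vert2 hz⟩
  | h x y z => exact ⟨hi, IsSph.vert1 hi.1⟩

end core

theorem tri_trans {a b c a' b' c' x y z : V} (h : Tri a b c x y z) (h' : Tri a' b' c' x y z) :
    Tri a b c a' b' c' := by
  rcases h with ⟨rfl, rfl, rfl⟩ | ⟨rfl, rfl, rfl⟩ | ⟨rfl, rfl, rfl⟩ | ⟨rfl, rfl, rfl⟩ |
      ⟨rfl, rfl, rfl⟩ | ⟨rfl, rfl, rfl⟩ <;>
    rcases h' with ⟨rfl, rfl, rfl⟩ | ⟨rfl, rfl, rfl⟩ | ⟨rfl, rfl, rfl⟩ | ⟨rfl, rfl, rfl⟩ |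
      ⟨rfl, rfl, rfl⟩ | ⟨rfl, rfl, rfl⟩ <;> simp [Tri]

/-- a symmetric function on the faces has the same value on all permutations of a face -/
theorem val_tri {a b c x y z : V} (h₁ : IsSph T₁) {k : V → V → V → ℝ}
    (hr : ∀ x y z, T₁ x y z → k x y z = k y z x) (hs : ∀ x y z, T₁ x y z → k x y z = k y x z)
    (habc : T₁ a b c) (h : Tri a b c x y z) : k x y z = k a b c := by
  rcases h with ⟨rfl, rfl, rfl⟩ | ⟨rfl, rfl, rfl⟩ | ⟨rfl, rfl, rfl⟩ | ⟨rfl, rfl, rfl⟩ |
      ⟨rfl, rfl, rfl⟩ | ⟨rfl, rfl, rfl⟩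
  · rfl
  · rw [hs _ _ _ habc, hr _ _ _ (h₁.swp habc)]
  · rw [hs _ _ _ habc]
  · rw [hr _ _ _ habc]
  · rw [hr _ _ _ habc, hr _ _ _ (h₁.rot habc)]
  · rw [hs _ _ _ habc, hr _ _ _ (h₁.swp habc), hr _ _ _ (h₁.rot (h₁.swp habc))]

open Classical in
/-- the item from the host of `u v w` to the corner `t` -/
noncomputable def hostItem (u v w t : V) : Item V :=
  if t = u then .h u v w else if t = v then .h v w u else .h w u v

theorem hostItem_spec {u v w t : V} (h₁ : IsSph T₁) (hT₁ : T₁ u v w)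
    (ht : t = u ∨ t = v ∨ t = w) :
    ∃ y z, hostItem u v w t = .h t y z ∧ Tri u v w t y z := by
  classical
  obtain ⟨n1, n2, n3⟩ := h₁.distinct hT₁
  unfold hostItem
  rcases ht with rfl | rfl | rfl
  · exact ⟨v, w, if_pos rfl, tri_self _ _ _⟩
  · exact ⟨w, u, by rw [if_neg n1.symm, if_pos rfl], by simp [Tri]⟩
  · exact ⟨u, v, by rw [if_neg n3, if_neg n2.symm], by simp [Tri]⟩

theorem core_glue {a b c u v w : V} (h₁ : IsSph T₁) (h₂ : IsSph T₂)
    (hV : ∀ x, x ∈ Vert T₁ → x ∈ Vert T₂ → x = u ∨ x = v ∨ x = w) (hT₁ : T₁ u v w)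
    (habc : T₁ a b c) (hne : ¬ Tri u v w a b c)
    {p₁ : V → ℝ} {k₁ : V → V → V → ℝ} (L₁ : Lay T₁ a b c p₁ k₁)
    {q : V → ℝ} {k : V → V → V → ℝ}
    (q1 : ∀ t ∈ Vert T₂, t ∉ Vert T₁ → |q t| < 1)
    (q2 : ∀ x y z, T₂ x y z → ¬ Tri u v w x y z → |k x y z| < 1)
    (qrot : ∀ x y z, T₂ x y z → k x y z = k y z x)
    (qswp : ∀ x y z, T₂ x y z → k x y z = k y x z)
    (qinj : ∀ x ∈ Vert T₂, ∀ y ∈ Vert T₂, q x = q y → x = y)
    (qhne : ∀ x y z, T₂ x y z → ¬ Tri u v w x y z → ∀ t ∈ Vert T₂, k x y z ≠ q t)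
    (qhinj : ∀ x y z x' y' z', T₂ x y z → ¬ Tri u v w x y z → T₂ x' y' z' →
      ¬ Tri u v w x' y' z' → k x y z = k x' y' z' → Tri x y z x' y' z')
    (qhbet : ∀ x y z, T₂ x y z → ¬ Tri u v w x y z → q x < q y → q y < q z →
      q x < k x y z ∧ k x y z < q z)
    (qside : ∀ y ∈ Vert T₁, y ∈ Vert T₂ →
      (p₁ y < k₁ u v w ∧ (∀ t ∈ Vert T₂, t ∉ Vert T₁ → q y < q t) ∧
        (∀ x' y' z', T₂ x' y' z' → ¬ Tri u v w x' y' z' → q y < k x' y' z')) ∨
      (k₁ u v w < p₁ y ∧ (∀ t ∈ Vert T₂, t ∉ Vert T₁ → q t < q y) ∧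
        (∀ x' y' z', T₂ x' y' z' → ¬ Tri u v w x' y' z' → k x' y' z' < q y)))
    (qord : ∀ y ∈ Vert T₁, y ∈ Vert T₂ → ∀ y' ∈ Vert T₁, y' ∈ Vert T₂ →
      (q y < q y' ↔ p₁ y < p₁ y'))
    (qtw : ¬ ∃ I : Fin 4 → Item V, (∀ i, (I i).Valid T₂ u v w) ∧
      ∀ i j, i ≠ j → Item.Cross q k (I i) (I j)) :
    ∃ p h, Lay (glue T₁ T₂ u v w) a b c p h := by
  classical
  have hne' : ¬ Tri a b c u v w := fun e => hne (tri_comm.1 e)
  -- finite set of old positions
  have hfinA : {s : Pt V | IsA T₁ a b c u v w s}.Finite := by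
    refine ((h₁.fin.image Sum.inl).union
      ((h₁.fin.prod (h₁.fin.prod h₁.fin)).image Sum.inr)).subset ?_
    rintro (t | ⟨x, y, z⟩) hs
    · exact Or.inl ⟨t, hs, rfl⟩
    · exact Or.inr ⟨(x, y, z), ⟨IsSph.vert1 hs.1, h₁.vert2 hs.1, h₁.vert3 hs.1⟩, rfl⟩
  have hHA : ∀ s, IsA T₁ a b c u v w s → pos p₁ k₁ s ≠ k₁ u v w := by
    rintro (t | ⟨x, y, z⟩) hs
    · exact (L₁.hne u v w hT₁ hne' t hs).symm
    · intro e
      exact hs.2.2 (tri_comm.1 (L₁.hinj x y z u v w hs.1 hs.2.1 hT₁ hne' e))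
  obtain ⟨ε, hε, hfar⟩ := exists_far (pos p₁ k₁ '' {s : Pt V | IsA T₁ a b c u v w s})
    (hfinA.image _) (k₁ u v w) (by rintro ⟨s, hs, e⟩; exact hHA s hs e)
  have hfar' : ∀ s, IsA T₁ a b c u v w s → ε < |pos p₁ k₁ s - k₁ u v w| :=
    fun s hs => hfar _ ⟨s, hs, rfl⟩
  obtain ⟨p, hp⟩ : ∃ p : V → ℝ, p = fun x => if x ∈ Vert T₁ then p₁ x else
    k₁ u v w + ε * q x := ⟨_, rfl⟩
  obtain ⟨h, hh⟩ : ∃ h : V → V → V → ℝ, h = fun x y z => if T₁ x y z then k₁ x y z else
    k₁ u v w + ε * k x y z := ⟨_, rfl⟩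
  have pA : ∀ s, IsA T₁ a b c u v w s → pos p h s = pos p₁ k₁ s := by
    rintro (t | ⟨x, y, z⟩) hs
    · rw [hp]; exact if_pos hs
    · rw [hh]; exact if_pos hs.1
  have pJ : ∀ s, IsJ T₁ T₂ u v w s → pos p h s = k₁ u v w + ε * pos q k s ∧
      |pos q k s| < 1 := by
    rintro (t | ⟨x, y, z⟩) hs
    · exact ⟨by rw [hp]; exact if_neg hs.2, q1 t hs.1 hs.2⟩
    · refine ⟨?_, q2 x y z hs.1 hs.2⟩
      rw [hh]
      exact if_neg fun e => hs.2 (both_tri h₁ h₂ hV e hs.1)
  have pJ' : ∀ s, IsJ T₁ T₂ u v w s → |pos p h s - k₁ u v w| < ε := by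
    intro s hs
    obtain ⟨e1, e2⟩ := pJ s hs
    rw [e1, add_sub_cancel_left, abs_mul, abs_of_pos hε]
    nlinarith
  have pA' : ∀ s, IsA T₁ a b c u v w s → ε < |pos p h s - k₁ u v w| := by
    intro s hs; rw [pA s hs]; exact hfar' s hs
  -- comparisons between old points and new points
  have cmp1 : ∀ s t, IsA T₁ a b c u v w s → IsJ T₁ T₂ u v w t →
      (pos p h s < pos p h t ↔ pos p₁ k₁ s < k₁ u v w) := by
    intro s t hs ht
    have e1 := hfar' s hs
    have e2 := pJ' t ht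
    rw [pA s hs]
    rw [abs_lt] at e2
    rw [lt_abs] at e1
    constructor
    · intro e; rcases e1 with e1 | e1 <;> linarith
    · intro e; rcases e1 with e1 | e1 <;> linarith
  have cmp2 : ∀ s t, IsA T₁ a b c u v w s → IsJ T₁ T₂ u v w t →
      (pos p h t < pos p h s ↔ k₁ u v w < pos p₁ k₁ s) := by
    intro s t hs ht
    have e1 := hfar' s hs
    have e2 := pJ' t ht
    rw [pA s hs]
    rw [abs_lt] at e2
    rw [lt_abs] at e1
    constructor
    · intro e; rcases e1 with e1 | e1 <;> linarith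
    · intro e; rcases e1 with e1 | e1 <;> linarith
  have cmp3 : ∀ s t, IsA T₁ a b c u v w s → IsJ T₁ T₂ u v w t → pos p h s ≠ pos p h t := by
    intro s t hs ht e
    have e1 := pA' s hs
    have e2 := pJ' t ht
    rw [e] at e1
    exact lt_asymm e1 e2
  -- new points lie between `b` and `c`
  have hb : b ∈ Vert T₁ := h₁.vert2 habc
  have hc : c ∈ Vert T₁ := h₁.vert3 habc
  have mid : ∀ s, IsJ T₁ T₂ u v w s → p₁ b < pos p h s ∧ pos p h s < p₁ c := by
    intro s hs
    obtain ⟨e1, e2⟩ := L₁.hinn u v w hT₁ hne'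
    have e3 := (cmp1 (.inl b) s hb hs).2 e1
    have e4 := (cmp2 (.inl c) s hc hs).2 e2
    rw [pA _ (show IsA T₁ a b c u v w (.inl b) from hb)] at e3
    rw [pA _ (show IsA T₁ a b c u v w (.inl c) from hc)] at e4
    exact ⟨e3, e4⟩
  -- the points of `T₂` are ordered as in its layout
  have side : ∀ y, y ∈ Vert T₁ → y ∈ Vert T₂ →
      (∀ t, IsJ T₁ T₂ u v w t → pos p h (.inl y) < pos p h t ∧ pos q k (.inl y) < pos q k t) ∨
      (∀ t, IsJ T₁ T₂ u v w t → pos p h t < pos p h (.inl y) ∧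
        pos q k t < pos q k (.inl y)) := by
    intro y hy hy'
    rcases qside y hy hy' with ⟨e1, e2, e3⟩ | ⟨e1, e2, e3⟩
    · left
      intro t ht
      refine ⟨(cmp1 (.inl y) t hy ht).2 e1, ?_⟩
      rcases t with t | ⟨x', y', z'⟩
      · exact e2 t ht.1 ht.2
      · exact e3 x' y' z' ht.1 ht.2
    · right
      intro t ht
      refine ⟨(cmp2 (.inl y) t hy ht).2 e1, ?_⟩
      rcases t with t | ⟨x', y', z'⟩
      · exact e2 t ht.1 ht.2
      · exact e3 x' y' z' ht.1 ht.2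
  have cls : ∀ s, IsQ T₂ u v w s → IsJ T₁ T₂ u v w s ∨
      ∃ y, y ∈ Vert T₁ ∧ y ∈ Vert T₂ ∧ s = .inl y := by
    rintro (t | ⟨x, y, z⟩) hs
    · by_cases ht : t ∈ Vert T₁
      · exact Or.inr ⟨t, ht, hs, rfl⟩
      · exact Or.inl ⟨hs, ht⟩
    · exact Or.inl hs
  have ord : ∀ s t, IsQ T₂ u v w s → IsQ T₂ u v w t →
      (pos p h s < pos p h t ↔ pos q k s < pos q k t) := by
    intro s t hs ht
    rcases cls s hs with js | ⟨y, hy1, hy2, rfl⟩ <;> rcases cls t ht with jt | ⟨y', hy1', hy2', rfl⟩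
    · rw [(pJ s js).1, (pJ t jt).1, add_lt_add_iff_left]
      exact mul_lt_mul_iff_right₀ hε
    · rcases side y' hy1' hy2' with e | e
      · obtain ⟨e1, e2⟩ := e s js
        exact ⟨fun e3 => absurd e3 (lt_asymm e1), fun e3 => absurd e3 (lt_asymm e2)⟩
      · obtain ⟨e1, e2⟩ := e s js
        exact ⟨fun _ => e2, fun _ => e1⟩
    · rcases side y hy1 hy2 with e | e
      · obtain ⟨e1, e2⟩ := e t jt
        exact ⟨fun _ => e2, fun _ => e1⟩
      · obtain ⟨e1, e2⟩ := e t jt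
        exact ⟨fun e3 => absurd e3 (lt_asymm e1), fun e3 => absurd e3 (lt_asymm e2)⟩
    · rw [pA _ (show IsA T₁ a b c u v w (.inl y) from hy1),
        pA _ (show IsA T₁ a b c u v w (.inl y') from hy1')]
      exact (qord y hy1 hy2 y' hy1' hy2').symm

  -- classification of vertices and faces of the glued complex
  have vcl : ∀ x, x ∈ Vert (glue T₁ T₂ u v w) → IsA T₁ a b c u v w (.inl x) ∨
      IsJ T₁ T₂ u v w (.inl x) := by
    rintro x ⟨y, z, hx⟩
    by_cases h3 : x ∈ Vert T₁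
    · exact Or.inl h3
    · rcases hx.1 with h4 | h4
      · exact absurd (IsSph.vert1 h4) h3
      · exact Or.inr ⟨IsSph.vert1 h4, h3⟩
  have fcl : ∀ x y z, glue T₁ T₂ u v w x y z → ¬ Tri a b c x y z →
      IsA T₁ a b c u v w (.inr (x, y, z)) ∨ IsJ T₁ T₂ u v w (.inr (x, y, z)) := by
    rintro x y z ⟨h3 | h3, h4⟩ h5
    · exact Or.inl ⟨h3, h5, h4⟩
    · exact Or.inr ⟨h3, h4⟩
  have e_inl : ∀ x, pos p h (.inl x) = p x := fun x => rfl
  have e_inr : ∀ x y z, pos p h (.inr (x, y, z)) = h x y z := fun x y z => rfl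
  refine ⟨p, h, ?_, ?_, ?_, ?_, ?_, ?_, ?_, ?_, ?_, ?_, ?_⟩
  · -- rot
    rintro x y z ⟨h3 | h3, h4⟩
    · rw [hh]
      simp only [if_pos h3, if_pos (h₁.rot h3)]
      exact L₁.rot x y z h3
    · have h5 : ¬ T₁ x y z := fun e => h4 (both_tri h₁ h₂ hV e h3)
      have h6 : ¬ T₁ y z x := fun e => h5 (h₁.rot2 e)
      rw [hh]
      simp only [if_neg h5, if_neg h6]
      rw [qrot x y z h3]
  · -- swp
    rintro x y z ⟨h3 | h3, h4⟩
    · rw [hh]
      simp only [if_pos h3, if_pos (h₁.swp h3)]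
      exact L₁.swp x y z h3
    · have h5 : ¬ T₁ x y z := fun e => h4 (both_tri h₁ h₂ hV e h3)
      have h6 : ¬ T₁ y x z := fun e => h5 (h₁.swp e)
      rw [hh]
      simp only [if_neg h5, if_neg h6]
      rw [qswp x y z h3]
  · -- inj
    intro x hx y hy e
    rcases vcl x hx with ax | jx <;> rcases vcl y hy with ay | jy
    · refine L₁.inj x ax y ay ?_
      have e1 := pA _ ax
      have e2 := pA _ ay
      change p x = p₁ x at e1
      change p y = p₁ y at e2
      rw [← e1, ← e2, e]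
    · exact absurd e (cmp3 _ _ ax jy)
    · exact absurd e.symm (cmp3 _ _ ay jx)
    · refine qinj x jx.1 y jy.1 ?_
      have e1 := (pJ _ jx).1
      have e2 := (pJ _ jy).1
      change p x = _ + ε * q x at e1
      change p y = _ + ε * q y at e2
      rw [e1, e2] at e
      exact mul_left_cancel₀ hε.ne' (add_left_cancel e)
  · -- ab
    have e1 := pA _ (show IsA T₁ a b c u v w (.inl a) from IsSph.vert1 habc)
    have e2 := pA _ (show IsA T₁ a b c u v w (.inl b) from hb)
    change p a = p₁ a at e1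
    change p b = p₁ b at e2
    rw [e1, e2]; exact L₁.ab
  · -- bc
    have e1 := pA _ (show IsA T₁ a b c u v w (.inl c) from hc)
    have e2 := pA _ (show IsA T₁ a b c u v w (.inl b) from hb)
    change p c = p₁ c at e1
    change p b = p₁ b at e2
    rw [e1, e2]; exact L₁.bc
  · -- inn
    intro x hx n1 n2 n3
    have e1 := pA _ (show IsA T₁ a b c u v w (.inl c) from hc)
    have e2 := pA _ (show IsA T₁ a b c u v w (.inl b) from hb)
    change p c = p₁ c at e1
    change p b = p₁ b at e2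
    rw [e1, e2]
    rcases vcl x hx with ax | jx
    · have e3 := pA _ ax
      change p x = p₁ x at e3
      rw [e3]
      exact L₁.inn x ax n1 n2 n3
    · exact mid _ jx
  · -- hinn
    intro x y z hx hn
    have e1 := pA _ (show IsA T₁ a b c u v w (.inl c) from hc)
    have e2 := pA _ (show IsA T₁ a b c u v w (.inl b) from hb)
    change p c = p₁ c at e1
    change p b = p₁ b at e2
    rw [e1, e2]
    rcases fcl x y z hx hn with ax | jx
    · have e3 := pA _ ax
      change h x y z = k₁ x y z at e3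
      rw [e3]
      exact L₁.hinn x y z ax.1 hn
    · exact mid _ jx
  · -- hne
    intro x y z hx hn t ht e
    rcases fcl x y z hx hn with ax | jx <;> rcases vcl t ht with at' | jt
    · have e1 := pA _ ax
      have e2 := pA _ at'
      change h x y z = k₁ x y z at e1
      change p t = p₁ t at e2
      rw [e1, e2] at e
      exact L₁.hne x y z ax.1 hn t at' e
    · exact cmp3 _ _ ax jt e
    · exact cmp3 _ _ at' jx e.symm
    · have e1 := (pJ _ jx).1
      have e2 := (pJ _ jt).1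
      change h x y z = _ + ε * k x y z at e1
      change p t = _ + ε * q t at e2
      rw [e1, e2] at e
      exact qhne x y z jx.1 jx.2 t jt.1 (mul_left_cancel₀ hε.ne' (add_left_cancel e))
  · -- hinj
    intro x y z x' y' z' hx hn hx' hn' e
    rcases fcl x y z hx hn with ax | jx <;> rcases fcl x' y' z' hx' hn' with ax' | jx'
    · have e1 := pA _ ax
      have e2 := pA _ ax'
      change h x y z = k₁ x y z at e1
      change h x' y' z' = k₁ x' y' z' at e2
      rw [e1, e2] at e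
      exact L₁.hinj x y z x' y' z' ax.1 hn ax'.1 hn' e
    · exact absurd e (cmp3 _ _ ax jx')
    · exact absurd e.symm (cmp3 _ _ ax' jx)
    · have e1 := (pJ _ jx).1
      have e2 := (pJ _ jx').1
      change h x y z = _ + ε * k x y z at e1
      change h x' y' z' = _ + ε * k x' y' z' at e2
      rw [e1, e2] at e
      exact qhinj x y z x' y' z' jx.1 jx.2 jx'.1 jx'.2
        (mul_left_cancel₀ hε.ne' (add_left_cancel e))
  · -- hbet
    intro x y z hx hn hxy hyz
    rcases fcl x y z hx hn with ax | jx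
    · have e1 := pA _ ax
      have e2 := pA _ (show IsA T₁ a b c u v w (.inl x) from IsSph.vert1 ax.1)
      have e3 := pA _ (show IsA T₁ a b c u v w (.inl y) from h₁.vert2 ax.1)
      have e4 := pA _ (show IsA T₁ a b c u v w (.inl z) from h₁.vert3 ax.1)
      change h x y z = k₁ x y z at e1
      change p x = p₁ x at e2
      change p y = p₁ y at e3
      change p z = p₁ z at e4
      rw [e2, e3] at hxy
      rw [e3, e4] at hyz
      rw [e1, e2, e4]
      exact L₁.hbet x y z ax.1 hn hxy hyz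
    · have qx : IsQ T₂ u v w (.inl x) := IsSph.vert1 jx.1
      have qy : IsQ T₂ u v w (.inl y) := h₂.vert2 jx.1
      have qz : IsQ T₂ u v w (.inl z) := h₂.vert3 jx.1
      have qh : IsQ T₂ u v w (.inr (x, y, z)) := jx
      obtain ⟨e1, e2⟩ := qhbet x y z jx.1 jx.2 ((ord _ _ qx qy).1 hxy) ((ord _ _ qy qz).1 hyz)
      exact ⟨(ord _ _ qx qh).2 e1, (ord _ _ qh qz).2 e2⟩
  · -- twist
    rintro ⟨I, hval, hcr⟩
    by_cases hJJ : ∃ i, IsJ T₁ T₂ u v w (e1 (I i)) ∧ IsJ T₁ T₂ u v w (e2 (I i))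
    · obtain ⟨i0, j1, j2⟩ := hJJ
      apply qtw
      have hnew : ∀ i, (I i).Valid T₂ u v w := by
        intro i
        refine valid_new (I i) (hval i) h₁ ?_
        by_cases hi : i = i0
        · rw [hi]; exact Or.inl j1
        · by_contra hcon
          push Not at hcon
          obtain ⟨c1, c2⟩ := hcon
          obtain ⟨d1, d2⟩ := ends_valid (I i) (hval i) h₁ h₂
          have a1 := d1.resolve_right c1
          have a2 := d2.resolve_right c2
          have hX := (cross_iff p h (I i0) (I i)).1 (hcr i0 i fun e => hi e.symm)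
          rcases hX with hX | hX
          · -- an old item cannot cross a new one
            have f1 := pJ' _ j1
            have f2 := pJ' _ j2
            have g1 := pA' _ a1
            have g2 := pA' _ a2
            rw [abs_lt] at f1 f2
            rw [lt_abs] at g1 g2
            rw [ilv_iff] at hX
            rcases hX with ⟨k1, k2, k3⟩ | ⟨k1, k2, k3⟩ | ⟨k1, k2, k3⟩ | ⟨k1, k2, k3⟩ |
              ⟨k1, k2, k3⟩ | ⟨k1, k2, k3⟩ | ⟨k1, k2, k3⟩ | ⟨k1, k2, k3⟩ <;>
              rcases g1 with g1 | g1 <;> rcases g2 with g2 | g2 <;> linarith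
          · -- same host
            revert hX j1 j2 c1 c2 a1 a2
            cases I i0 with
            | e x y => intro _ _ _ _ _ _ hX; exact hX
            | h x y z =>
              cases I i with
              | e x' y' => intro _ _ _ _ _ _ hX; exact hX
              | h x' y' z' =>
                intro j1 _ c1 _ a1 _ hX
                exact c1 ⟨h₂.tri j1.1 hX.1, fun e => j1.2 (tri_trans e hX.1)⟩
      refine ⟨I, hnew, fun i j hij => ?_⟩
      obtain ⟨a1, a2⟩ := ends_Q (I i) (hnew i) h₂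
      obtain ⟨b1, b2⟩ := ends_Q (I j) (hnew j) h₂
      rw [cross_iff]
      rcases (cross_iff p h (I i) (I j)).1 (hcr i j hij) with hX | hX
      · left
        exact (ilv_congr (ord _ _ a1 b1) (ord _ _ b1 a1) (ord _ _ a1 b2) (ord _ _ b2 a1)
          (ord _ _ a2 b1) (ord _ _ b1 a2) (ord _ _ a2 b2) (ord _ _ b2 a2)).1 hX
      · exact Or.inr hX
    · push Not at hJJ
      apply L₁.twist
      have huc : ∀ t, (t = u ∨ t = v ∨ t = w) → t ∈ Vert T₁ := by
        rintro t (rfl | rfl | rfl)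
        · exact IsSph.vert1 hT₁
        · exact h₁.vert2 hT₁
        · exact h₁.vert3 hT₁
      -- replacement of the items with a new end
      have rep : ∀ i, ∃ i' : Item V,
          (IsA T₁ a b c u v w (e1 (I i)) ∧ IsA T₁ a b c u v w (e2 (I i)) ∧ i' = I i) ∨
          (∃ t s, t ∈ Vert T₁ ∧ t ∈ Vert T₂ ∧ IsJ T₁ T₂ u v w s ∧
            ((e1 (I i) = s ∧ e2 (I i) = .inl t) ∨ (e1 (I i) = .inl t ∧ e2 (I i) = s)) ∧
            (∀ x y z, I i = .h x y z → x = t ∧ IsJ T₁ T₂ u v w (.inr (x, y, z))) ∧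
            i' = hostItem u v w t) := by
        intro i
        obtain ⟨d1, d2⟩ := ends_valid (I i) (hval i) h₁ h₂
        have hnJJ := hJJ i
        have hvn := valid_new (I i) (hval i) h₁
        rcases d1 with a1 | j1
        · rcases d2 with a2 | j2
          · exact ⟨I i, Or.inl ⟨a1, a2, rfl⟩⟩
          · -- first end old, second end new
            revert a1 j2 hvn
            cases hIi : I i with
            | e x y =>
              intro hvn a1 j2
              obtain ⟨z, hz⟩ := hvn (Or.inr j2)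
              refine ⟨hostItem u v w x, Or.inr ⟨x, .inl y, a1, IsSph.vert1 hz, j2,
                Or.inr ⟨rfl, rfl⟩, ?_, rfl⟩⟩
              intro x' y' z' e
              cases e
            | h x y z =>
              intro hvn a1 j2
              exact absurd (IsSph.vert1 a1.1) j2.2
        · have a2 := d2.resolve_right (hnJJ j1)
          revert a2 j1 hvn
          cases hIi : I i with
          | e x y =>
            intro hvn j1 a2
            obtain ⟨z, hz⟩ := hvn (Or.inl j1)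
            refine ⟨hostItem u v w y, Or.inr ⟨y, .inl x, a2, h₂.vert2 hz, j1,
              Or.inl ⟨rfl, rfl⟩, ?_, rfl⟩⟩
            intro x' y' z' e
            cases e
          | h x y z =>
            intro hvn j1 a2
            refine ⟨hostItem u v w x, Or.inr ⟨x, .inr (x, y, z), a2, IsSph.vert1 j1.1, j1,
              Or.inl ⟨rfl, rfl⟩, ?_, rfl⟩⟩
            intro x' y' z' e
            cases e
            exact ⟨rfl, j1⟩
      choose I' hI' using rep
      -- crossing of an old item and a replaced item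
      have mixed : ∀ i j, i ≠ j → (IsA T₁ a b c u v w (e1 (I i)) ∧
          IsA T₁ a b c u v w (e2 (I i)) ∧ I' i = I i) →
          (∃ t s, t ∈ Vert T₁ ∧ t ∈ Vert T₂ ∧ IsJ T₁ T₂ u v w s ∧
            ((e1 (I j) = s ∧ e2 (I j) = .inl t) ∨ (e1 (I j) = .inl t ∧ e2 (I j) = s)) ∧
            (∀ x y z, I j = .h x y z → x = t ∧ IsJ T₁ T₂ u v w (.inr (x, y, z))) ∧
            I' j = hostItem u v w t) → Item.Cross p₁ k₁ (I' i) (I' j) := by
        rintro i j hij ⟨a1, a2, hi'⟩ ⟨t, s, ht1, ht2, hs, hst, hth, hj'⟩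
        obtain ⟨y, z, hH, htri⟩ := hostItem_spec h₁ hT₁ (hV t ht1 ht2)
        rw [hi', hj', hH, cross_iff]
        left
        have hkt : pos p₁ k₁ (e1 (.h t y z)) = k₁ u v w := val_tri h₁ L₁.rot L₁.swp hT₁ htri
        have hpt : pos p₁ k₁ (e2 (.h t y z)) = p₁ t := rfl
        rw [hkt, hpt]
        have ht1' : IsA T₁ a b c u v w (.inl t) := ht1
        have hpt' : pos p h (.inl t) = p₁ t := pA _ ht1'
        rcases (cross_iff p h (I i) (I j)).1 (hcr i j hij) with hX | hX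
        · have main : ∀ s', ilv (pos p h (e1 (I i))) (pos p h (e2 (I i))) (pos p h s)
              (pos p h (.inl t)) → s' = s → ilv (pos p₁ k₁ (e1 (I i))) (pos p₁ k₁ (e2 (I i)))
              (k₁ u v w) (p₁ t) := by
            intro s' hY _
            refine (ilv_congr (cmp1 _ _ a1 hs) (cmp2 _ _ a1 hs) ?_ ?_ (cmp1 _ _ a2 hs)
              (cmp2 _ _ a2 hs) ?_ ?_).1 hY
            · rw [pA _ a1, hpt']
            · rw [pA _ a1, hpt']
            · rw [pA _ a2, hpt']
            · rw [pA _ a2, hpt']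
          rcases hst with ⟨f1, f2⟩ | ⟨f1, f2⟩
          · rw [f1, f2] at hX
            exact main s hX rfl
          · rw [f1, f2, ilv_right] at hX
            exact main s hX rfl
        · exfalso
          revert a1 a2 hX hth
          cases I i with
          | e x y => intro _ _ _ hX; exact hX
          | h x y z =>
            cases I j with
            | e x' y' => intro _ _ _ hX; exact hX
            | h x' y' z' =>
              intro a1 _ hth hX
              obtain ⟨-, j1⟩ := hth x' y' z' rfl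
              exact j1.2 (both_tri h₁ h₂ hV (h₁.tri a1.1 hX.1) j1.1)
      refine ⟨I', fun i => ?_, fun i j hij => ?_⟩
      · rcases hI' i with ⟨a1, a2, hi'⟩ | ⟨t, s, ht1, ht2, hs, hst, hth, hi'⟩
        · rw [hi']
          exact valid_old (I i) (hval i) h₁ h₂ hV hT₁ a1 a2
        · obtain ⟨y, z, hH, htri⟩ := hostItem_spec h₁ hT₁ (hV t ht1 ht2)
          rw [hi', hH]
          exact ⟨h₁.tri hT₁ htri, fun e => hne' (tri_trans e htri)⟩
      · rcases hI' i with hA | hB <;> rcases hI' j with hA' | hB'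
        · obtain ⟨a1, a2, hi'⟩ := hA
          obtain ⟨b1, b2, hj'⟩ := hA'
          have hX := (cross_iff p h (I i) (I j)).1 (hcr i j hij)
          rw [hi', hj', cross_iff]
          rw [pA _ a1, pA _ a2, pA _ b1, pA _ b2] at hX
          exact hX
        · exact mixed i j hij hA hB'
        · exact cross_symm p₁ k₁ _ _ (mixed j i hij.symm hA' hB)
        · obtain ⟨t, s, ht1, ht2, hs, hst, hth, hi'⟩ := hB
          obtain ⟨t', s', ht1', ht2', hs', hst', hth', hj'⟩ := hB'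
          obtain ⟨y, z, hH, htri⟩ := hostItem_spec h₁ hT₁ (hV t ht1 ht2)
          obtain ⟨y', z', hH', htri'⟩ := hostItem_spec h₁ hT₁ (hV t' ht1' ht2')
          have htt : t ≠ t' := by
            rintro rfl
            rcases (cross_iff p h (I i) (I j)).1 (hcr i j hij) with hX | hX
            · have hno : ¬ ilv (pos p h s) (pos p h (.inl t)) (pos p h s')
                  (pos p h (.inl t)) := by
                intro hY
                rw [ilv_iff] at hY
                rcases side t ht1 ht2 with e | e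
                · have e1 := (e s hs).1
                  have e2 := (e s' hs').1
                  rcases hY with ⟨k1, k2, k3⟩ | ⟨k1, k2, k3⟩ | ⟨k1, k2, k3⟩ | ⟨k1, k2, k3⟩ |
                    ⟨k1, k2, k3⟩ | ⟨k1, k2, k3⟩ | ⟨k1, k2, k3⟩ | ⟨k1, k2, k3⟩ <;> linarith
                · have e1 := (e s hs).1
                  have e2 := (e s' hs').1
                  rcases hY with ⟨k1, k2, k3⟩ | ⟨k1, k2, k3⟩ | ⟨k1, k2, k3⟩ | ⟨k1, k2, k3⟩ |
                    ⟨k1, k2, k3⟩ | ⟨k1, k2, k3⟩ | ⟨k1, k2, k3⟩ | ⟨k1, k2, k3⟩ <;> linarith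
              rcases hst with ⟨f1, f2⟩ | ⟨f1, f2⟩ <;> rcases hst' with ⟨g1, g2⟩ | ⟨g1, g2⟩
              · rw [f1, f2, g1, g2] at hX; exact hno hX
              · rw [f1, f2, g1, g2, ilv_right] at hX; exact hno hX
              · rw [f1, f2, g1, g2, ilv_left] at hX; exact hno hX
              · rw [f1, f2, g1, g2, ilv_left, ilv_right] at hX; exact hno hX
            · revert hX hth hth'
              cases I i with
              | e x y => intro _ _ hX; exact hX
              | h x y z =>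
                cases I j with
                | e x' y' => intro _ _ hX; exact hX
                | h x' y' z' =>
                  intro hth hth' hX
                  exact hX.2 ((hth x y z rfl).1.trans (hth' x' y' z' rfl).1.symm)
          rw [hi', hj', hH, hH', cross_iff]
          exact Or.inr ⟨tri_trans (tri_comm.1 htri) (tri_comm.1 htri'), htt⟩

/-- glueing with the layout of `T₂` transported by a bounded monotone or antitone function -/
theorem aux_glue {a b c u v w x1 x2 x3 : V} (h₁ : IsSph T₁) (h₂ : IsSph T₂)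
    (hV : ∀ x, x ∈ Vert T₁ → x ∈ Vert T₂ → x = u ∨ x = v ∨ x = w) (hT₁ : T₁ u v w)
    (hT₂ : T₂ u v w) (habc : T₁ a b c) (hne : ¬ Tri u v w a b c)
    {p₁ : V → ℝ} {k₁ : V → V → V → ℝ} (L₁ : Lay T₁ a b c p₁ k₁)
    (htri : Tri u v w x1 x2 x3) {p₂ : V → ℝ} {k₂ : V → V → V → ℝ}
    (L₂ : Lay T₂ x1 x2 x3 p₂ k₂) (φ : ℝ → ℝ) (hφ : ∀ r, |φ r| < 1)
    (hcase : (StrictMono φ ∧ p₁ x1 < p₁ x2 ∧ p₁ x2 < k₁ u v w ∧ k₁ u v w < p₁ x3) ∨
      (StrictAnti φ ∧ p₁ x3 < k₁ u v w ∧ k₁ u v w < p₁ x2 ∧ p₁ x2 < p₁ x1)) :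
    ∃ p h, Lay (glue T₁ T₂ u v w) a b c p h := by
  have hinj : Function.Injective φ := by
    rcases hcase with h | h
    · exact h.1.injective
    · exact h.1.injective
  have ntri : ∀ x y z, ¬ Tri u v w x y z → ¬ Tri x1 x2 x3 x y z := fun x y z hn e =>
    hn (by
      have e1 : Tri u v w x1 x2 x3 := htri
      have e2 : Tri x y z x1 x2 x3 := tri_comm.1 e
      exact tri_trans e1 e2)
  have ntri' : ∀ x y z, ¬ Tri x1 x2 x3 x y z → ¬ Tri u v w x y z := fun x y z hn e =>
    hn (tri_trans (tri_comm.1 htri) (tri_comm.1 e))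
  have hcorner : ∀ y, y ∈ Vert T₁ → y ∈ Vert T₂ → y = x1 ∨ y = x2 ∨ y = x3 := by
    intro y hy hy'
    have e1 := hV y hy hy'
    have e2 := tri_comm.1 htri
    rcases e1 with rfl | rfl | rfl
    · exact tri_mem e2
    · exact tri_mem2 e2
    · exact tri_mem3 e2
  have hx1 : x1 ∈ Vert T₁ := IsSph.vert1 (h₁.tri hT₁ htri)
  have hx2 : x2 ∈ Vert T₁ := h₁.vert2 (h₁.tri hT₁ htri)
  have hx3 : x3 ∈ Vert T₁ := h₁.vert3 (h₁.tri hT₁ htri)
  have hout : ∀ t ∈ Vert T₂, t ∉ Vert T₁ → p₂ x2 < p₂ t ∧ p₂ t < p₂ x3 := by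
    intro t ht ht'
    exact L₂.inn t ht (fun e => ht' (e ▸ hx1)) (fun e => ht' (e ▸ hx2)) (fun e => ht' (e ▸ hx3))
  have hout' : ∀ x y z, T₂ x y z → ¬ Tri u v w x y z → p₂ x2 < k₂ x y z ∧ k₂ x y z < p₂ x3 :=
    fun x y z hT hn => L₂.hinn x y z hT (ntri x y z hn)
  have hab := L₂.ab
  have hbc := L₂.bc
  refine core_glue h₁ h₂ hV hT₁ habc hne L₁ (q := fun x => φ (p₂ x))
    (k := fun x y z => φ (k₂ x y z)) (fun t _ _ => hφ _) (fun x y z _ _ => hφ _)
    (fun x y z hT => congrArg φ (L₂.rot x y z hT)) (fun x y z hT => congrArg φ (L₂.swp x y z hT))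
    (fun x hx y hy e => L₂.inj x hx y hy (hinj e))
    (fun x y z hT hn t ht e => L₂.hne x y z hT (ntri _ _ _ hn) t ht (hinj e))
    (fun x y z x' y' z' hT hn hT' hn' e =>
      L₂.hinj x y z x' y' z' hT (ntri _ _ _ hn) hT' (ntri _ _ _ hn') (hinj e)) ?_ ?_ ?_ ?_
  · intro x y z hT hn hxy hyz
    rcases hcase with ⟨hm, -, -, -⟩ | ⟨hm, -, -, -⟩
    · obtain ⟨e1, e2⟩ := L₂.hbet x y z hT (ntri _ _ _ hn) (hm.lt_iff_lt.1 hxy)
        (hm.lt_iff_lt.1 hyz)
      exact ⟨hm e1, hm e2⟩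
    · have hn' : ¬ Tri x1 x2 x3 z y x := fun e => ntri _ _ _ hn (by
        have e3 : Tri x y z z y x := by simp [Tri]
        exact tri_trans e e3)
      obtain ⟨e1, e2⟩ := L₂.hbet z y x (h₂.swp13 hT) hn' (hm.lt_iff_gt.1 hyz)
        (hm.lt_iff_gt.1 hxy)
      have e3 : k₂ z y x = k₂ x y z := val_tri h₂ L₂.rot L₂.swp hT (by simp [Tri])
      rw [e3] at e1 e2
      exact ⟨hm e2, hm e1⟩
  · intro y hy hy'
    rcases hcase with ⟨hm, h12, h2H, hH3⟩ | ⟨hm, h3H, hH2, h21⟩
    · rcases hcorner y hy hy' with rfl | rfl | rfl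
      · left
        exact ⟨h12.trans h2H, fun t ht ht' => hm (hab.trans (hout t ht ht').1),
          fun x y z hT hn => hm (hab.trans (hout' x y z hT hn).1)⟩
      · left
        exact ⟨h2H, fun t ht ht' => hm (hout t ht ht').1,
          fun x y z hT hn => hm (hout' x y z hT hn).1⟩
      · right
        exact ⟨hH3, fun t ht ht' => hm (hout t ht ht').2,
          fun x y z hT hn => hm (hout' x y z hT hn).2⟩
    · rcases hcorner y hy hy' with rfl | rfl | rfl
      · right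
        exact ⟨hH2.trans h21, fun t ht ht' => hm (hab.trans (hout t ht ht').1),
          fun x y z hT hn => hm (hab.trans (hout' x y z hT hn).1)⟩
      · right
        exact ⟨hH2, fun t ht ht' => hm (hout t ht ht').1,
          fun x y z hT hn => hm (hout' x y z hT hn).1⟩
      · left
        exact ⟨h3H, fun t ht ht' => hm (hout t ht ht').2,
          fun x y z hT hn => hm (hout' x y z hT hn).2⟩
  · intro y hy hy' y' hz hz'
    rcases hcase with ⟨hm, h12, h2H, hH3⟩ | ⟨hm, h3H, hH2, h21⟩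
    · have h23 := h2H.trans hH3
      have h13 := h12.trans h23
      have g13 := hab.trans hbc
      simp only [hm.lt_iff_lt]
      rcases hcorner y hy hy' with rfl | rfl | rfl <;>
        rcases hcorner y' hz hz' with rfl | rfl | rfl <;>
        constructor <;> intro e <;> first | assumption | (exfalso; linarith)
    · have h23 := h3H.trans hH2
      have h13 := h23.trans h21
      have g13 := hab.trans hbc
      simp only [hm.lt_iff_gt]
      rcases hcorner y hy hy' with rfl | rfl | rfl <;>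
        rcases hcorner y' hz hz' with rfl | rfl | rfl <;>
        constructor <;> intro e <;> first | assumption | (exfalso; linarith)
  · rintro ⟨I, hval, hcr⟩
    apply L₂.twist
    refine ⟨I, fun i => ?_, fun i j hij => ?_⟩
    · have := hval i
      revert this
      cases I i with
      | e x y => exact fun h => h
      | h x y z => exact fun h => ⟨h.1, ntri _ _ _ h.2⟩
    · have hX := hcr i j hij
      rw [cross_iff] at hX ⊢
      have hpos : ∀ s : Pt V, pos (fun x => φ (p₂ x)) (fun x y z => φ (k₂ x y z)) s =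
          φ (pos p₂ k₂ s) := by
        rintro (t | f) <;> rfl
      rcases hX with hX | hX
      · left
        rw [hpos, hpos, hpos, hpos] at hX
        rcases hcase with ⟨hm, -, -, -⟩ | ⟨hm, -, -, -⟩
        · exact (ilv_congr hm.lt_iff_lt hm.lt_iff_lt hm.lt_iff_lt hm.lt_iff_lt hm.lt_iff_lt
            hm.lt_iff_lt hm.lt_iff_lt hm.lt_iff_lt).1 hX
        · exact (ilv_anti hm.lt_iff_gt hm.lt_iff_gt hm.lt_iff_gt hm.lt_iff_gt hm.lt_iff_gt
            hm.lt_iff_gt hm.lt_iff_gt hm.lt_iff_gt).1 hX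
      · exact Or.inr hX

end LayGlue

open LayGlue in
theorem lay_glue {a b c u v w : V} (h₁ : IsSph T₁) (h₂ : IsSph T₂)
    (hV : ∀ x, x ∈ Vert T₁ → x ∈ Vert T₂ → x = u ∨ x = v ∨ x = w) (hT₁ : T₁ u v w)
    (hT₂ : T₂ u v w) (habc : T₁ a b c) (hne : ¬ Tri u v w a b c)
    (L₁ : ∃ p h, Lay T₁ a b c p h) (L₂ : HasLay T₂) :
    ∃ p h, Lay (glue T₁ T₂ u v w) a b c p h := by
  obtain ⟨p₁, k₁, L₁⟩ := L₁
  obtain ⟨n1, n2, n3⟩ := h₁.distinct hT₁
  have hne' : ¬ Tri a b c u v w := fun e => hne (tri_comm.1 e)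
  have hu : u ∈ Vert T₁ := IsSph.vert1 hT₁
  have hv : v ∈ Vert T₁ := h₁.vert2 hT₁
  have hw : w ∈ Vert T₁ := h₁.vert3 hT₁
  -- the corners in order
  have hsort : ∃ x1 x2 x3, Tri u v w x1 x2 x3 ∧ p₁ x1 < p₁ x2 ∧ p₁ x2 < p₁ x3 := by
    have m1 : p₁ u ≠ p₁ v := fun e => n1 (L₁.inj u hu v hv e)
    have m2 : p₁ v ≠ p₁ w := fun e => n2 (L₁.inj v hv w hw e)
    have m3 : p₁ w ≠ p₁ u := fun e => n3 (L₁.inj w hw u hu e)
    rcases lt_or_gt_of_ne m1 with p | p <;> rcases lt_or_gt_of_ne m2 with q | q <;>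
      rcases lt_or_gt_of_ne m3 with r | r
    · exact absurd (p.trans (q.trans r)) (lt_irrefl _)
    · exact ⟨u, v, w, by simp [Tri], p, q⟩
    · exact ⟨w, u, v, by simp [Tri], r, p⟩
    · exact ⟨u, w, v, by simp [Tri], r, q⟩
    · exact ⟨v, w, u, by simp [Tri], q, r⟩
    · exact ⟨v, u, w, by simp [Tri], p, r⟩
    · exact ⟨w, v, u, by simp [Tri], q, p⟩
    · exact absurd (r.trans (q.trans p)) (lt_irrefl _)
  obtain ⟨x1, x2, x3, htri, h12, h23⟩ := hsort
  have hk : k₁ x1 x2 x3 = k₁ u v w := val_tri h₁ L₁.rot L₁.swp hT₁ htri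
  have hTx : T₁ x1 x2 x3 := h₁.tri hT₁ htri
  have hnx : ¬ Tri a b c x1 x2 x3 := fun e => hne' (tri_trans e htri)
  obtain ⟨hlo, hhi⟩ := L₁.hbet x1 x2 x3 hTx hnx h12 h23
  have hmid := L₁.hne x1 x2 x3 hTx hnx x2 (h₁.vert2 hTx)
  rw [hk] at hlo hhi hmid
  have hπ := Real.pi_le_four
  have hpos := Real.pi_pos
  rcases lt_or_gt_of_ne hmid with hlt | hgt
  · -- host to the left of the middle corner
    have htri' : Tri u v w x3 x2 x1 := tri_trans htri (by simp [Tri])
    obtain ⟨p₂, k₂, L₂⟩ := L₂ x3 x2 x1 (h₂.tri hT₂ htri')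
    refine aux_glue h₁ h₂ hV hT₁ hT₂ habc hne L₁ htri' L₂ (fun t => -(Real.arctan t / 2)) ?_
      (Or.inr ⟨?_, hlo, hlt, h23⟩)
    · intro r
      have e1 := Real.arctan_lt_pi_div_two r
      have e2 := Real.neg_pi_div_two_lt_arctan r
      rw [abs_lt]
      constructor <;> linarith
    · intro r s hrs
      have e := Real.arctan_strictMono hrs
      change -(Real.arctan s / 2) < -(Real.arctan r / 2)
      linarith
  · obtain ⟨p₂, k₂, L₂⟩ := L₂ x1 x2 x3 (h₂.tri hT₂ htri)
    refine aux_glue h₁ h₂ hV hT₁ hT₂ habc hne L₁ htri L₂ (fun t => Real.arctan t / 2) ?_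
      (Or.inl ⟨?_, h12, hgt, hhi⟩)
    · intro r
      have e1 := Real.arctan_lt_pi_div_two r
      have e2 := Real.neg_pi_div_two_lt_arctan r
      rw [abs_lt]
      constructor <;> linarith
    · intro r s hrs
      have e := Real.arctan_strictMono hrs
      change Real.arctan r / 2 < Real.arctan s / 2
      linarith

end Pool.Agent.Lib.MP_d86530_co
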