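import Pool.Agent.Lib.MP_d86530_co.Basic

set_option autoImplicit false

namespace Pool.Agent.Lib.MP_d86530_co

open Relation

variable {V : Type*} {T T₁ T₂ : V → V → V → Prop}

/-- one of the four vertices -/
private def In4 (a b c d t : V) : Prop := t = a ∨ t = b ∨ t = c ∨ t = d

private theorem k4_iff {a b c d : V} (hab : a ≠ b) (hac : a ≠ c) (had : a ≠ d) (hbc : b ≠ c)
    (hbd : b ≠ d) (hcd : c ≠ d) (x y z : V) :
    K4 a b c d x y z ↔ (x ≠ y ∧ y ≠ z ∧ z ≠ x) ∧ In4 a b c d x ∧ In4 a b c d y ∧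
      In4 a b c d z := by
  unfold K4 Tri In4
  constructor
  · rintro ((⟨rfl, rfl, rfl⟩ | ⟨rfl, rfl, rfl⟩ | ⟨rfl, rfl, rfl⟩ | ⟨rfl, rfl, rfl⟩ |
      ⟨rfl, rfl, rfl⟩ | ⟨rfl, rfl, rfl⟩) | (⟨rfl, rfl, rfl⟩ | ⟨rfl, rfl, rfl⟩ | ⟨rfl, rfl, rfl⟩ |
      ⟨rfl, rfl, rfl⟩ | ⟨rfl, rfl, rfl⟩ | ⟨rfl, rfl, rfl⟩) | (⟨rfl, rfl, rfl⟩ | ⟨rfl, rfl, rfl⟩ |
      ⟨rfl, rfl, rfl⟩ | ⟨rfl, rfl, rfl⟩ | ⟨rfl, rfl, rfl⟩ | ⟨rfl, rfl, rfl⟩) |
      (⟨rfl, rfl, rfl⟩ | ⟨rfl, rfl, rfl⟩ | ⟨rfl, rfl, rfl⟩ | ⟨rfl, rfl, rfl⟩ |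
      ⟨rfl, rfl, rfl⟩ | ⟨rfl, rfl, rfl⟩)) <;>
    refine ⟨⟨?_, ?_, ?_⟩, by simp, by simp, by simp⟩ <;>
    first | assumption | exact Ne.symm (by assumption)
  · rintro ⟨⟨h1, h2, h3⟩, (rfl | rfl | rfl | rfl), (rfl | rfl | rfl | rfl),
      (rfl | rfl | rfl | rfl)⟩ <;> simp_all

private theorem fourth {a b c d : V} (hab : a ≠ b) (hac : a ≠ c) (had : a ≠ d) (hbc : b ≠ c)
    (hbd : b ≠ d) (hcd : c ≠ d) {x y z : V} (h1 : x ≠ y) (h2 : y ≠ z) (h3 : z ≠ x)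
    (hx : In4 a b c d x) (hy : In4 a b c d y) (hz : In4 a b c d z) :
    ∃ w, In4 a b c d w ∧ w ≠ x ∧ w ≠ y ∧ w ≠ z ∧
      ∀ t, In4 a b c d t → t = x ∨ t = y ∨ t = z ∨ t = w := by
  classical
  have hc4 : ({a, b, c, d} : Finset V).card = 4 := by
    rw [Finset.card_insert_of_notMem, Finset.card_insert_of_notMem, Finset.card_insert_of_notMem,
      Finset.card_singleton] <;> simp [*]
  have hc3 : ({x, y, z} : Finset V).card = 3 := by
    rw [Finset.card_insert_of_notMem, Finset.card_insert_of_notMem,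
      Finset.card_singleton] <;> simp [*, h3.symm]
  have hm : ∀ t, t ∈ ({a, b, c, d} : Finset V) ↔ In4 a b c d t := by
    intro t
    simp [In4]
  have hsub : ({x, y, z} : Finset V) ⊆ {a, b, c, d} := by
    intro t ht
    rw [Finset.mem_insert, Finset.mem_insert, Finset.mem_singleton] at ht
    rw [hm]
    rcases ht with rfl | rfl | rfl <;> assumption
  have hc1 : (({a, b, c, d} : Finset V) \ {x, y, z}).card = 1 := by
    rw [Finset.card_sdiff_of_subset hsub, hc4, hc3]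
  obtain ⟨w, hw⟩ := Finset.card_eq_one.1 hc1
  have hwm : w ∈ ({a, b, c, d} : Finset V) \ {x, y, z} := by
    rw [hw]
    exact Finset.mem_singleton_self w
  rw [Finset.mem_sdiff, hm] at hwm
  have hw2 := hwm.2
  simp only [Finset.mem_insert, Finset.mem_singleton, not_or] at hw2
  refine ⟨w, hwm.1, hw2.1, hw2.2.1, hw2.2.2, fun t ht => ?_⟩
  by_contra hcon
  simp only [not_or] at hcon
  have : t ∈ ({a, b, c, d} : Finset V) \ {x, y, z} := by
    rw [Finset.mem_sdiff, hm]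
    refine ⟨ht, ?_⟩
    simp only [Finset.mem_insert, Finset.mem_singleton, not_or]
    exact ⟨hcon.1, hcon.2.1, hcon.2.2.1⟩
  rw [hw, Finset.mem_singleton] at this
  exact hcon.2.2.2 this

/-- two different vertices lie in a face -/
private theorem third {a b c d : V} (hab : a ≠ b) (hac : a ≠ c) (had : a ≠ d) (hbc : b ≠ c)
    (hbd : b ≠ d) (hcd : c ≠ d) {x y : V} (h1 : x ≠ y)
    (hx : In4 a b c d x) (hy : In4 a b c d y) :
    ∃ w, In4 a b c d w ∧ w ≠ x ∧ w ≠ y := by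
  unfold In4 at *
  rcases hx with rfl | rfl | rfl | rfl <;> rcases hy with rfl | rfl | rfl | rfl
  · exact absurd rfl h1
  · exact ⟨c, by simp, hac.symm, hbc.symm⟩
  · exact ⟨b, by simp, hab.symm, hbc⟩
  · exact ⟨b, by simp, hab.symm, hbd⟩
  · exact ⟨c, by simp, hbc.symm, hac.symm⟩
  · exact absurd rfl h1
  · exact ⟨a, by simp, hab, hac⟩
  · exact ⟨a, by simp, hab, had⟩
  · exact ⟨b, by simp, hbc, hab.symm⟩
  · exact ⟨a, by simp, hac, hab⟩
  · exact absurd rfl h1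
  · exact ⟨a, by simp, hac, had⟩
  · exact ⟨b, by simp, hbd, hab.symm⟩
  · exact ⟨a, by simp, had, hab⟩
  · exact ⟨a, by simp, had, hac⟩
  · exact absurd rfl h1

theorem vert_K4 (a b c d : V) : Vert (K4 a b c d) = {a, b, c, d} := by
  ext x
  constructor
  · rintro ⟨y, z, h | h | h | h⟩
    · rcases h with h | h | h | h | h | h <;> simp [h.1]
    · rcases h with h | h | h | h | h | h <;> simp [h.1]
    · rcases h with h | h | h | h | h | h <;> simp [h.1]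
    · rcases h with h | h | h | h | h | h <;> simp [h.1]
  · intro h
    rcases h with rfl | rfl | rfl | h
    · exact ⟨b, c, Or.inl (Or.inl ⟨rfl, rfl, rfl⟩)⟩
    · exact ⟨a, c, Or.inl (Or.inr (Or.inr (Or.inl ⟨rfl, rfl, rfl⟩)))⟩
    · exact ⟨a, b, Or.inl (Or.inr (Or.inr (Or.inr (Or.inr (Or.inl ⟨rfl, rfl, rfl⟩)))))⟩
    · rw [Set.mem_singleton_iff] at h
      subst h
      exact ⟨a, b, Or.inr (Or.inl (Or.inr (Or.inr (Or.inr (Or.inr (Or.inl ⟨rfl, rfl, rfl⟩))))))⟩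

theorem isSph_K4 {a b c d : V} (hab : a ≠ b) (hac : a ≠ c) (had : a ≠ d) (hbc : b ≠ c)
    (hbd : b ≠ d) (hcd : c ≠ d) : IsSph (K4 a b c d) := by
  have K := k4_iff hab hac had hbc hbd hcd
  have hv : ∀ x, x ∈ Vert (K4 a b c d) ↔ In4 a b c d x := by
    intro x
    rw [vert_K4]
    simp [In4]
  refine ⟨?_, ?_, ?_, ?_, ?_, ?_, ?_, ?_, ?_⟩
  · intro x y z h
    rw [K] at h ⊢
    exact ⟨⟨h.1.2.1, h.1.2.2, h.1.1⟩, h.2.2.1, h.2.2.2, h.2.1⟩
  · intro x y z h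
    rw [K] at h ⊢
    exact ⟨⟨h.1.1.symm, h.1.2.2.symm, h.1.2.1.symm⟩, h.2.2.1, h.2.1, h.2.2.2⟩
  · intro x y z h
    exact ((K x y z).1 h).1.1
  · rw [vert_K4]
    exact Set.toFinite _
  · exact ⟨a, b, c, Or.inl (Or.inl ⟨rfl, rfl, rfl⟩)⟩
  · intro x y z h
    rw [K] at h
    obtain ⟨⟨h1, h2, h3⟩, hx, hy, hz⟩ := h
    obtain ⟨w, hw, hwx, hwy, hwz, hall⟩ := fourth hab hac had hbc hbd hcd h1 h2 h3 hx hy hz
    refine ⟨w, hwz, (K x y w).2 ⟨⟨h1, hwy.symm, hwx⟩, hx, hy, hw⟩, fun w' hw' => ?_⟩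
    rw [K] at hw'
    rcases hall w' hw'.2.2.2 with e | e | e | e
    · exact absurd e hw'.1.2.2
    · exact absurd e.symm hw'.1.2.1
    · exact Or.inl e
    · exact Or.inr e
  · intro v p p' q q' hp hq
    rw [K] at hp hq
    by_cases hpq : p = q
    · rw [hpq]
    · exact ReflTransGen.single ((K v p q).2 ⟨⟨hp.1.1, hpq, hq.1.1.symm⟩, hp.2.1, hp.2.2.1,
        hq.2.2.1⟩)
  · intro x y hx hy
    rw [hv] at hx hy
    by_cases hxy : x = y
    · rw [hxy]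
    · obtain ⟨w, hw, hwx, hwy⟩ := third hab hac had hbc hbd hcd hxy hx hy
      exact ReflTransGen.single ⟨w, (K x y w).2 ⟨⟨hxy, hwy.symm, hwx⟩, hx, hy, hw⟩⟩
  · intro g hg hbal
    classical
    refine ⟨fun t => if t = a then 0 else g a t, fun x y z h => ?_⟩
    have h' := (K x y z).1 h
    obtain ⟨⟨h1, h2, h3⟩, hx, hy, hz⟩ := h'
    have ha : In4 a b c d a := Or.inl rfl
    change g x y = (if x = a then 0 else g a x) + (if y = a then 0 else g a y)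
    by_cases hxa : x = a
    · have hya : y ≠ a := fun e => h1 (by rw [hxa, e])
      rw [if_pos hxa, if_neg hya, zero_add, hxa]
    · by_cases hya : y = a
      · rw [if_neg hxa, if_pos hya, add_zero, hya]
        exact hg x a
      · rw [if_neg hxa, if_neg hya]
        have hb := hbal a x y ((K a x y).2 ⟨⟨Ne.symm hxa, h1, hya⟩, ha, hx, hy⟩)
        rw [hg y a] at hb
        have h4 : g x y = -(g a x + g a y) := by linear_combination hb
        rw [h4, ZMod.neg_eq_self_mod_two]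

end Pool.Agent.Lib.MP_d86530_co
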