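import Pool.Agent.Lib.MP_d86530_co.Basic
import Pool.Agent.Lib.MP_d86530_co.SphK4

set_option autoImplicit false

namespace Pool.Agent.Lib.MP_d86530_co

open Relation

variable {V : Type*} {T T₁ T₂ : V → V → V → Prop}

/-! ### The good layout of the tetrahedron -/

open Classical in
/-- positions of the vertices -/
noncomputable def layK4_P (x y t v : V) : ℕ :=
  if v = x then 0 else if v = y then 1 else if v = t then 3 else 6

open Classical in
/-- positions of the hosts -/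
noncomputable def layK4_H (x y : V) (u v w : V) : ℕ :=
  if u ≠ x ∧ v ≠ x ∧ w ≠ x then 4 else if u ≠ y ∧ v ≠ y ∧ w ≠ y then 5 else 2

/-- the code of an item: left end, right end, host -/
noncomputable def layK4_cd (x y t : V) : Item V → ℕ × ℕ × ℕ
  | .e u v => (min (layK4_P x y t u) (layK4_P x y t v),
      max (layK4_P x y t u) (layK4_P x y t v), 0)
  | .h u v w => (min (layK4_H x y u v w) (layK4_P x y t u),
      max (layK4_H x y u v w) (layK4_P x y t u), layK4_H x y u v w)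

/-- the list of the codes of all items -/
def layK4_L : List (ℕ × ℕ × ℕ) :=
  [(0, 1, 0), (0, 6, 0), (0, 3, 0), (1, 6, 0), (1, 3, 0), (3, 6, 0),
    (0, 2, 2), (1, 2, 2), (2, 3, 2), (1, 4, 4), (4, 6, 4), (3, 4, 4),
    (0, 5, 5), (5, 6, 5), (3, 5, 5)]

/-- crossing of codes -/
def layK4_X (i j : ℕ × ℕ × ℕ) : Bool :=
  (decide (i.1 < j.1) && decide (j.1 < i.2.1) && decide (i.2.1 < j.2.1)) ||
    (decide (j.1 < i.1) && decide (i.1 < j.2.1) && decide (j.2.1 < i.2.1)) ||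
    (decide (i.2.2 = j.2.2) && decide (i.2.2 ≠ 0) && decide (i ≠ j))

theorem layK4_fin : ∀ a ∈ layK4_L, ∀ b ∈ layK4_L, layK4_X a b = true → ∀ c ∈ layK4_L,
    layK4_X a c = true → layK4_X b c = true → ∀ d ∈ layK4_L, layK4_X a d = true →
    layK4_X b d = true → layK4_X c d = true → False := by
  decide

section

variable {x y z t : V}

theorem layK4_Hrot (x y u v w : V) : layK4_H x y u v w = layK4_H x y v w u := by
  unfold layK4_H
  congr 1
  · apply propext; tauto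
  · congr 1
    apply propext; tauto

theorem layK4_Hswp (x y u v w : V) : layK4_H x y u v w = layK4_H x y v u w := by
  unfold layK4_H
  congr 1
  · apply propext; tauto
  · congr 1
    apply propext; tauto

/-- the host position depends only on the face -/
theorem layK4_Htri {u v w u' v' w' : V} (h : Tri u v w u' v' w') :
    layK4_H x y u v w = layK4_H x y u' v' w' := by
  rcases h with ⟨rfl, rfl, rfl⟩ | ⟨rfl, rfl, rfl⟩ | ⟨rfl, rfl, rfl⟩ | ⟨rfl, rfl, rfl⟩ |
      ⟨rfl, rfl, rfl⟩ | ⟨rfl, rfl, rfl⟩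
  · rfl
  · rw [layK4_Hswp, layK4_Hrot]
  · rw [layK4_Hswp]
  · rw [layK4_Hrot]
  · rw [layK4_Hrot, layK4_Hrot]
  · rw [layK4_Hrot, layK4_Hswp]

theorem layK4_face (hxy : x ≠ y) (hxz : x ≠ z) (hxt : x ≠ t) (hyz : y ≠ z)
    (hyt : y ≠ t) (hzt : z ≠ t) {u v w : V} (h : K4 x y z t u v w) (hn : ¬ Tri x y z u v w) :
    ((layK4_H x y u v w = 2 ∧ Tri x y t u v w) ∨ (layK4_H x y u v w = 4 ∧ Tri y z t u v w) ∨
      (layK4_H x y u v w = 5 ∧ Tri x z t u v w)) := by
  rcases h with h | h | h | h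
  · exact absurd h hn
  · left
    rw [← layK4_Htri h]
    refine ⟨?_, h⟩
    simp [layK4_H]
  · right; right
    rw [← layK4_Htri h]
    refine ⟨?_, h⟩
    simp [layK4_H, hxy, hyz.symm, hyt.symm]
  · right; left
    rw [← layK4_Htri h]
    refine ⟨?_, h⟩
    simp [layK4_H, hxy.symm, hxz.symm, hxt.symm]

theorem layK4_Px : layK4_P x y t x = 0 := by simp [layK4_P]

theorem layK4_Py (hxy : x ≠ y) : layK4_P x y t y = 1 := by simp [layK4_P, hxy.symm]

theorem layK4_Pt (hxt : x ≠ t) (hyt : y ≠ t) : layK4_P x y t t = 3 := by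
  simp [layK4_P, hxt.symm, hyt.symm]

theorem layK4_Pz (hxz : x ≠ z) (hyz : y ≠ z) (hzt : z ≠ t) : layK4_P x y t z = 6 := by
  simp [layK4_P, hxz.symm, hyz.symm, hzt]

theorem layK4_mem (hxy : x ≠ y) (hxz : x ≠ z) (hxt : x ≠ t) (hyz : y ≠ z)
    (hyt : y ≠ t) (hzt : z ≠ t) {i : Item V} (hi : i.Valid (K4 x y z t) x y z) :
    layK4_cd x y t i ∈ layK4_L := by
  have px : layK4_P x y t x = 0 := layK4_Px
  have py : layK4_P x y t y = 1 := layK4_Py hxy
  have pt : layK4_P x y t t = 3 := layK4_Pt hxt hyt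
  have pz : layK4_P x y t z = 6 := layK4_Pz hxz hyz hzt
  cases i with
  | e u v =>
    obtain ⟨w, hw⟩ := hi
    rcases hw with (hw | hw | hw | hw) <;>
    · rcases hw with ⟨h1, h2, -⟩ | ⟨h1, h2, -⟩ | ⟨h1, h2, -⟩ | ⟨h1, h2, -⟩ | ⟨h1, h2, -⟩ |
        ⟨h1, h2, -⟩ <;> simp [layK4_cd, h1, h2, px, py, pt, pz, layK4_L]
  | h u v w =>
    obtain ⟨hT, hn⟩ := hi
    rcases layK4_face hxy hxz hxt hyz hyt hzt hT hn with ⟨e, h⟩ | ⟨e, h⟩ | ⟨e, h⟩ <;>
    · unfold layK4_cd
      rcases tri_mem h with h1 | h1 | h1 <;> simp only [e] <;> rw [h1] <;>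
        simp only [px, py, pt, pz] <;> simp [layK4_L]

theorem layK4_vert {v : V} (hv : v ∈ Vert (K4 x y z t)) : v = x ∨ v = y ∨ v = z ∨ v = t := by
  rw [vert_K4] at hv
  simpa using hv

theorem layK4_inj (hxy : x ≠ y) (hxz : x ≠ z) (hxt : x ≠ t) (hyz : y ≠ z)
    (hyt : y ≠ t) (hzt : z ≠ t) {u v : V} (hu : u ∈ Vert (K4 x y z t))
    (hv : v ∈ Vert (K4 x y z t)) (h : layK4_P x y t u = layK4_P x y t v) : u = v := by
  have px : layK4_P x y t x = 0 := layK4_Px
  have py : layK4_P x y t y = 1 := layK4_Py hxy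
  have pt : layK4_P x y t t = 3 := layK4_Pt hxt hyt
  have pz : layK4_P x y t z = 6 := layK4_Pz hxz hyz hzt
  rcases layK4_vert hu with h1 | h1 | h1 | h1 <;> rcases layK4_vert hv with h2 | h2 | h2 | h2 <;>
    first
    | exact h1.trans h2.symm
    | (exfalso; rw [h1, h2] at h; simp only [px, py, pt, pz] at h; omega)

theorem layK4_lo (i : Item V) : Item.lo (fun v => (layK4_P x y t v : ℝ))
    (fun u v w => (layK4_H x y u v w : ℝ)) i = ((layK4_cd x y t i).1 : ℝ) := by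
  cases i <;> simp [Item.lo, layK4_cd]

theorem layK4_hi (i : Item V) : Item.hi (fun v => (layK4_P x y t v : ℝ))
    (fun u v w => (layK4_H x y u v w : ℝ)) i = ((layK4_cd x y t i).2.1 : ℝ) := by
  cases i <;> simp [Item.hi, layK4_cd]

theorem layK4_cross (hxy : x ≠ y) (hxz : x ≠ z) (hxt : x ≠ t) (hyz : y ≠ z)
    (hyt : y ≠ t) (hzt : z ≠ t) {i j : Item V} (hi : i.Valid (K4 x y z t) x y z)
    (hj : j.Valid (K4 x y z t) x y z)
    (h : Item.Cross (fun v => (layK4_P x y t v : ℝ)) (fun u v w => (layK4_H x y u v w : ℝ)) i j) :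
    layK4_X (layK4_cd x y t i) (layK4_cd x y t j) = true := by
  unfold Item.Cross at h
  rw [layK4_lo, layK4_lo, layK4_hi, layK4_hi] at h
  rcases h with h | h | h
  · have h1 : (layK4_cd x y t i).1 < (layK4_cd x y t j).1 := by exact_mod_cast h.1
    have h2 : (layK4_cd x y t j).1 < (layK4_cd x y t i).2.1 := by exact_mod_cast h.2.1
    have h3 : (layK4_cd x y t i).2.1 < (layK4_cd x y t j).2.1 := by exact_mod_cast h.2.2
    simp [layK4_X, h1, h2, h3]
  · have h1 : (layK4_cd x y t j).1 < (layK4_cd x y t i).1 := by exact_mod_cast h.1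
    have h2 : (layK4_cd x y t i).1 < (layK4_cd x y t j).2.1 := by exact_mod_cast h.2.1
    have h3 : (layK4_cd x y t j).2.1 < (layK4_cd x y t i).2.1 := by exact_mod_cast h.2.2
    simp [layK4_X, h1, h2, h3]
  · cases i with
    | e u v => exact absurd h (by simp [Item.SameHost])
    | h u v w =>
      cases j with
      | e u' v' => exact absurd h (by simp [Item.SameHost])
      | h u' v' w' =>
        obtain ⟨hT, hne⟩ := h
        have hH : layK4_H x y u v w = layK4_H x y u' v' w' := layK4_Htri hT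
        have h0 : layK4_H x y u v w ≠ 0 := by
          rcases layK4_face hxy hxz hxt hyz hyt hzt hi.1 hi.2 with ⟨e, -⟩ | ⟨e, -⟩ | ⟨e, -⟩ <;>
            rw [e] <;> decide
        have hd : layK4_P x y t u ≠ layK4_P x y t u' := fun e =>
          hne (layK4_inj hxy hxz hxt hyz hyt hzt ⟨v, w, hi.1⟩ ⟨v', w', hj.1⟩ e)
        have hne2 : layK4_cd x y t (.h u v w) ≠ layK4_cd x y t (.h u' v' w') := by
          intro e
          simp only [layK4_cd, Prod.mk.injEq] at e
          obtain ⟨e1, e2, e3⟩ := e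
          rw [← e3] at e1 e2
          apply hd
          omega
        have h1 : (layK4_cd x y t (.h u v w)).2.2 = (layK4_cd x y t (.h u' v' w')).2.2 := hH
        have h2 : (layK4_cd x y t (.h u v w)).2.2 ≠ 0 := h0
        unfold layK4_X
        rw [decide_eq_true h1, decide_eq_true h2, decide_eq_true hne2]
        simp

/-- the good layout with outer face `x y z` -/
theorem layK4_lay (hxy : x ≠ y) (hxz : x ≠ z) (hxt : x ≠ t) (hyz : y ≠ z)
    (hyt : y ≠ t) (hzt : z ≠ t) :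
    Lay (K4 x y z t) x y z (fun v => (layK4_P x y t v : ℝ))
      (fun u v w => (layK4_H x y u v w : ℝ)) := by
  have px : layK4_P x y t x = 0 := layK4_Px
  have py : layK4_P x y t y = 1 := layK4_Py hxy
  have pt : layK4_P x y t t = 3 := layK4_Pt hxt hyt
  have pz : layK4_P x y t z = 6 := layK4_Pz hxz hyz hzt
  have hF := fun (u v w : V) (h : K4 x y z t u v w) (hn : ¬ Tri x y z u v w) =>
    layK4_face hxy hxz hxt hyz hyt hzt h hn
  refine ⟨?_, ?_, ?_, ?_, ?_, ?_, ?_, ?_, ?_, ?_, ?_⟩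
  · intro u v w _
    exact_mod_cast layK4_Hrot x y u v w
  · intro u v w _
    exact_mod_cast layK4_Hswp x y u v w
  · intro u hu v hv h
    exact layK4_inj hxy hxz hxt hyz hyt hzt hu hv (by exact_mod_cast h)
  · simp [px, py]
  · simp [py, pz]
  · intro u hu h1 h2 h3
    rcases layK4_vert hu with h | h | h | h
    · exact absurd h h1
    · exact absurd h h2
    · exact absurd h h3
    · rw [h]
      simp only [py, pt, pz]
      norm_num
  · intro u v w h hn
    simp only [py, pz]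
    rcases hF u v w h hn with ⟨e, -⟩ | ⟨e, -⟩ | ⟨e, -⟩ <;> rw [e] <;> norm_num
  · intro u v w h hn s hs
    rcases hF u v w h hn with ⟨e, -⟩ | ⟨e, -⟩ | ⟨e, -⟩ <;>
      rcases layK4_vert hs with h | h | h | h <;> rw [h] <;> simp only [e, px, py, pt, pz] <;>
      norm_num
  · intro u v w u' v' w' h hn h' hn' he
    have he' : layK4_H x y u v w = layK4_H x y u' v' w' := by exact_mod_cast he
    rcases hF u v w h hn with ⟨e, k⟩ | ⟨e, k⟩ | ⟨e, k⟩ <;>
      rcases hF u' v' w' h' hn' with ⟨e', k'⟩ | ⟨e', k'⟩ | ⟨e', k'⟩ <;>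
      first
      | (exfalso; rw [e, e'] at he'; omega)
      | skip
    all_goals
      rcases k with ⟨rfl, rfl, rfl⟩ | ⟨rfl, rfl, rfl⟩ | ⟨rfl, rfl, rfl⟩ | ⟨rfl, rfl, rfl⟩ |
        ⟨rfl, rfl, rfl⟩ | ⟨rfl, rfl, rfl⟩ <;>
      rcases k' with ⟨rfl, rfl, rfl⟩ | ⟨rfl, rfl, rfl⟩ | ⟨rfl, rfl, rfl⟩ | ⟨rfl, rfl, rfl⟩ |
        ⟨rfl, rfl, rfl⟩ | ⟨rfl, rfl, rfl⟩ <;> simp [Tri]
  · intro u v w h hn h1 h2
    have h1' : layK4_P x y t u < layK4_P x y t v := by exact_mod_cast h1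
    have h2' : layK4_P x y t v < layK4_P x y t w := by exact_mod_cast h2
    rcases hF u v w h hn with ⟨e, k⟩ | ⟨e, k⟩ | ⟨e, k⟩ <;>
    · rcases k with ⟨k1, k2, k3⟩ | ⟨k1, k2, k3⟩ | ⟨k1, k2, k3⟩ | ⟨k1, k2, k3⟩ |
        ⟨k1, k2, k3⟩ | ⟨k1, k2, k3⟩ <;>
      · rw [k1, k2] at h1'
        rw [k2, k3] at h2'
        simp only [px, py, pt, pz] at h1' h2'
        first
        | (exfalso; omega)
        | (rw [e, k1, k3]; simp only [px, py, pt, pz]; norm_num)
  · rintro ⟨I, hI, hX⟩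
    have hm := fun i => layK4_mem hxy hxz hxt hyz hyt hzt (hI i)
    have hc := fun i j (hij : i ≠ j) =>
      layK4_cross hxy hxz hxt hyz hyt hzt (hI i) (hI j) (hX i j hij)
    exact layK4_fin _ (hm 0) _ (hm 1) (hc 0 1 (by decide)) _ (hm 2) (hc 0 2 (by decide))
      (hc 1 2 (by decide)) _ (hm 3) (hc 0 3 (by decide)) (hc 1 3 (by decide))
      (hc 2 3 (by decide))

end

theorem layK4_s1 (a b c d : V) : K4 a b c d = K4 b a c d := by
  funext u v w
  apply propext
  unfold K4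
  rw [tri_swp' (a := a) (b := b) (c := c), tri_swp' (a := a) (b := b) (c := d)]
  tauto

theorem layK4_s2 (a b c d : V) : K4 a b c d = K4 a c b d := by
  funext u v w
  apply propext
  have e1 : Tri a b c u v w ↔ Tri a c b u v w := by
    rw [tri_rot' (a := a) (b := b) (c := c), tri_swp' (a := b) (b := c) (c := a),
      tri_rot' (a := a) (b := c) (c := b)]
  have e2 : Tri b c d u v w ↔ Tri c b d u v w := tri_swp'
  unfold K4
  rw [e1, e2]
  tauto

theorem layK4_s3 (a b c d : V) : K4 a b c d = K4 a b d c := by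
  funext u v w
  apply propext
  have e1 : Tri a c d u v w ↔ Tri a d c u v w := by
    rw [tri_rot' (a := a) (b := c) (c := d), tri_swp' (a := c) (b := d) (c := a),
      tri_rot' (a := a) (b := d) (c := c)]
  have e2 : Tri b c d u v w ↔ Tri b d c u v w := by
    rw [tri_rot' (a := b) (b := c) (c := d), tri_swp' (a := c) (b := d) (c := b),
      tri_rot' (a := b) (b := d) (c := c)]
  unfold K4
  rw [e1, e2]
  tauto

theorem layK4_tri {a b c x y z d : V} (h : Tri a b c x y z) : K4 a b c d = K4 x y z d := by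
  rcases h with ⟨rfl, rfl, rfl⟩ | ⟨rfl, rfl, rfl⟩ | ⟨rfl, rfl, rfl⟩ | ⟨rfl, rfl, rfl⟩ |
      ⟨rfl, rfl, rfl⟩ | ⟨rfl, rfl, rfl⟩
  · rfl
  · rw [layK4_s2]
  · rw [layK4_s1]
  · rw [layK4_s1, layK4_s2]
  · rw [layK4_s2, layK4_s1]
  · rw [layK4_s1, layK4_s2, layK4_s1]

theorem layK4_aux {a b c d x y z : V} (hab : a ≠ b) (hac : a ≠ c) (had : a ≠ d) (hbc : b ≠ c)
    (hbd : b ≠ d) (hcd : c ≠ d) (h : Tri a b c x y z) :
    ∃ p h, Lay (K4 a b c d) x y z p h := by
  rw [layK4_tri h]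
  refine ⟨_, _, layK4_lay ?_ ?_ ?_ ?_ ?_ ?_⟩ <;>
  · rcases h with ⟨rfl, rfl, rfl⟩ | ⟨rfl, rfl, rfl⟩ | ⟨rfl, rfl, rfl⟩ | ⟨rfl, rfl, rfl⟩ |
      ⟨rfl, rfl, rfl⟩ | ⟨rfl, rfl, rfl⟩ <;>
    first | assumption | exact Ne.symm (by assumption)

theorem hasLay_K4 {a b c d : V} (hab : a ≠ b) (hac : a ≠ c) (had : a ≠ d) (hbc : b ≠ c)
    (hbd : b ≠ d) (hcd : c ≠ d) : HasLay (K4 a b c d) := by
  intro x y z h
  rcases h with h | h | h | h
  · exact layK4_aux hab hac had hbc hbd hcd h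
  · rw [layK4_s3]
    exact layK4_aux hab had hac hbd hbc hcd.symm h
  · rw [layK4_s2, layK4_s3, layK4_s2]
    rw [layK4_s2]
    exact layK4_aux hac had hab hcd hbc.symm hbd.symm h
  · rw [layK4_s1, layK4_s2, layK4_s3]
    exact layK4_aux hbc hbd hab.symm hcd hac.symm had.symm h

end Pool.Agent.Lib.MP_d86530_co
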