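import Pool.Agent.Lib.MP_d86530_co.CycAvoid

/-! A combinatorial sphere splits along a 3-cycle which is not a face. -/

set_option autoImplicit false

namespace Pool.Agent.Lib.MP_d86530_co

open Relation

variable {V : Type*} {T T₁ T₂ A : V → V → V → Prop}

theorem SphSplit_rtg_symm {W : Type*} {R : W → W → Prop} (hR : ∀ x y, R x y → R y x) {x y : W}
    (h : ReflTransGen R x y) : ReflTransGen R y x := by
  induction h with
  | refl => exact ReflTransGen.refl
  | tail _ hbc ih => exact ReflTransGen.head (hR _ _ hbc) ih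

/-- both `x` and `y` are corners of the triangle `a b c` -/
def SphSplit_te (a b c x y : V) : Prop :=
  (x = a ∨ x = b ∨ x = c) ∧ (y = a ∨ y = b ∨ y = c)

theorem SphSplit_te_symm {a b c x y : V} (h : SphSplit_te a b c x y) : SphSplit_te a b c y x :=
  ⟨h.2, h.1⟩

/-- a set of faces whose boundary is the triangle `a b c` -/
structure SphSplit_Half (T A : V → V → V → Prop) (a b c : V) : Prop where
  sub : ∀ {x y z}, A x y z → T x y z
  rot : ∀ {x y z}, A x y z → A y z x
  swp : ∀ {x y z}, A x y z → A y x z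
  cross : ∀ {x y z z'}, A x y z → T x y z' → ¬ SphSplit_te a b c x y → A x y z'
  bdy : ∀ {x y}, SphSplit_te a b c x y → x ≠ y → ∃ z z', T x y z ∧ T x y z' ∧ A x y z ∧
    ¬ A x y z'

theorem SphSplit_Half.compl (h : IsSph T) {a b c : V} (H : SphSplit_Half T A a b c) :
    SphSplit_Half T (fun x y z => T x y z ∧ ¬ A x y z) a b c := by
  refine ⟨fun k => k.1, fun k => ⟨h.rot k.1, fun k' => k.2 (H.rot (H.rot k'))⟩,
    fun k => ⟨h.swp k.1, fun k' => k.2 (H.swp k')⟩,
    fun k k' kt => ⟨k', fun k'' => k.2 (H.cross k'' k.1 kt)⟩, fun kt kn => ?_⟩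
  obtain ⟨z, z', h1, h2, h3, h4⟩ := H.bdy kt kn
  exact ⟨z', z, h2, h1, ⟨h2, h4⟩, fun k => k.2 h3⟩

theorem SphSplit_tri_te {a b c x y z : V} (h : Tri a b c x y z) : SphSplit_te a b c x y :=
  ⟨tri_mem h, tri_mem2 h⟩

theorem SphSplit_third {a b c x y : V} (h : SphSplit_te a b c x y) (hxy : x ≠ y) :
    ∃ z, Tri a b c x y z := by
  unfold Tri
  obtain ⟨h1, h2⟩ := h
  rcases h1 with rfl | rfl | rfl <;> rcases h2 with rfl | rfl | rfl
  · exact absurd rfl hxy
  · exact ⟨c, by simp⟩
  · exact ⟨b, by simp⟩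
  · exact ⟨c, by simp⟩
  · exact absurd rfl hxy
  · exact ⟨a, by simp⟩
  · exact ⟨b, by simp⟩
  · exact ⟨a, by simp⟩
  · exact absurd rfl hxy

theorem SphSplit_tri_uniq {a b c x y z z' : V} (hab : a ≠ b) (hbc : b ≠ c) (hca : c ≠ a)
    (h : Tri a b c x y z) (h' : Tri a b c x y z') : z = z' := by
  rcases h with ⟨rfl, rfl, rfl⟩ | ⟨rfl, rfl, rfl⟩ | ⟨rfl, rfl, rfl⟩ |
      ⟨rfl, rfl, rfl⟩ | ⟨rfl, rfl, rfl⟩ | ⟨rfl, rfl, rfl⟩ <;>
    rcases h' with ⟨e1, e2, e3⟩ | ⟨e1, e2, e3⟩ | ⟨e1, e2, e3⟩ |
      ⟨e1, e2, e3⟩ | ⟨e1, e2, e3⟩ | ⟨e1, e2, e3⟩ <;>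
    first
      | exact absurd e1 hab
      | exact absurd e1.symm hab
      | exact absurd e1 hbc
      | exact absurd e1.symm hbc
      | exact absurd e1 hca
      | exact absurd e1.symm hca
      | exact absurd e2 hab
      | exact absurd e2.symm hab
      | exact absurd e2 hbc
      | exact absurd e2.symm hbc
      | exact absurd e2 hca
      | exact absurd e2.symm hca
      | exact e3.symm

theorem SphSplit_full_star (h : IsSph T) {a b c : V} (H : SphSplit_Half T A a b c) {x y z s w : V}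
    (hx : ¬ (x = a ∨ x = b ∨ x = c)) (h1 : A x y z) (h2 : T x s w) : A x s w := by
  have key : ∀ t, ReflTransGen (T x) y t → ∀ w, T x t w → A x t w := by
    intro t ht
    induction ht with
    | refl =>
      intro w hw
      exact H.cross h1 hw (fun k => hx k.1)
    | tail _ hst ih =>
      intro w hw
      have e := ih _ hst
      have e2 := H.rot (H.swp e)
      have e3 := H.rot (H.rot (H.swp e))
      have e4 : A x _ _ := H.rot (H.swp e)
      exact H.cross e4 hw (fun k => hx k.1)
  exact key s (h.link (H.sub h1) h2) w h2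

theorem SphSplit_link (h : IsSph T) {a b c : V} (H : SphSplit_Half T A a b c) {v p : V}
    (hp : ∀ t, SphSplit_te a b c v t → t ≠ v →
      ReflTransGen (fun x y => A v x y ∨ Tri a b c v x y) t p) {t t' : V}
    (ht : A v t t') (hc : ReflTransGen (T v) t p) :
    ReflTransGen (fun x y => A v x y ∨ Tri a b c v x y) t p := by
  induction hc using ReflTransGen.head_induction_on generalizing t' with
  | refl => exact ReflTransGen.refl
  | @head t1 s1 hst _ ih =>
    by_cases k : SphSplit_te a b c v t1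
    · exact hp t1 k (fun e => h.ne hst e.symm)
    · have e1 := H.cross ht hst k
      exact ReflTransGen.head (Or.inl e1) (ih (H.rot (H.swp e1)))

theorem SphSplit_te_of {a b c x y : V} (hx : x = a ∨ x = b ∨ x = c) (hy : y = a ∨ y = b ∨ y = c) :
    SphSplit_te a b c x y := ⟨hx, hy⟩

theorem SphSplit_no_tri (h : IsSph T) {a b c : V} (hn : ¬ T a b c) {x y z : V} (k : T x y z) :
    ¬ Tri a b c x y z := fun e => hn (h.tri k (tri_comm.1 e))

theorem SphSplit_isSph (h : IsSph T) {a b c : V} (hab : a ≠ b) (hbc : b ≠ c) (hca : c ≠ a)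
    (hn : ¬ T a b c) (H : SphSplit_Half T A a b c) :
    IsSph (fun x y z => A x y z ∨ Tri a b c x y z) := by
  classical
  have hneT : ∀ {x y z : V}, Tri a b c x y z → x ≠ y := by
    intro x y z k
    rcases k with ⟨rfl, rfl, rfl⟩ | ⟨rfl, rfl, rfl⟩ | ⟨rfl, rfl, rfl⟩ |
      ⟨rfl, rfl, rfl⟩ | ⟨rfl, rfl, rfl⟩ | ⟨rfl, rfl, rfl⟩
    · exact hab
    · exact hca.symm
    · exact hab.symm
    · exact hbc
    · exact hca
    · exact hbc.symm
  have hrotT : ∀ {x y z : V}, Tri a b c x y z → Tri a b c y z x := fun k => tri_rot.1 k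
  have hswpT : ∀ {x y z : V}, Tri a b c x y z → Tri a b c y x z := fun k => tri_swp.1 k
  have hvT : ∀ x, (x = a ∨ x = b ∨ x = c) → x ∈ Vert T := by
    intro x hx
    have : ∃ y, SphSplit_te a b c x y ∧ x ≠ y := by
      rcases hx with rfl | rfl | rfl
      · exact ⟨b, ⟨Or.inl rfl, Or.inr (Or.inl rfl)⟩, hab⟩
      · exact ⟨c, ⟨Or.inr (Or.inl rfl), Or.inr (Or.inr rfl)⟩, hbc⟩
      · exact ⟨a, ⟨Or.inr (Or.inr rfl), Or.inl rfl⟩, hca⟩
    obtain ⟨y, hy, hxy⟩ := this
    obtain ⟨z, _, hz, _⟩ := H.bdy hy hxy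
    exact ⟨y, z, hz⟩
  constructor
  · -- rot
    rintro x y z (k | k)
    · exact Or.inl (H.rot k)
    · exact Or.inr (hrotT k)
  · -- swp
    rintro x y z (k | k)
    · exact Or.inl (H.swp k)
    · exact Or.inr (hswpT k)
  · -- ne
    rintro x y z (k | k)
    · exact h.ne (H.sub k)
    · exact hneT k
  · -- fin
    refine h.fin.subset ?_
    rintro x ⟨y, z, k | k⟩
    · exact ⟨y, z, H.sub k⟩
    · exact hvT x (tri_mem k)
  · exact ⟨a, b, c, Or.inr (tri_self a b c)⟩
  · -- opp
    intro x y z k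
    have hxy : x ≠ y := by
      rcases k with k | k
      · exact h.ne (H.sub k)
      · exact hneT k
    by_cases kt : SphSplit_te a b c x y
    · obtain ⟨z0, z1, h1, h2, h3, h4⟩ := H.bdy kt hxy
      obtain ⟨t, ht⟩ := SphSplit_third kt hxy
      have hz01 : z0 ≠ z1 := fun e => h4 (e ▸ h3)
      have hz0t : z0 ≠ t := by
        intro e
        rw [e] at h1
        exact SphSplit_no_tri h hn h1 ht
      have hA : ∀ w, A x y w → w = z0 := by
        intro w hw
        rcases h.opp_uniq h1 h2 hz01 (H.sub hw) with e | e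
        · exact e
        · exact absurd (e ▸ hw) h4
      rcases k with k | k
      · have e := hA z k
        subst e
        refine ⟨t, hz0t.symm, Or.inr ht, ?_⟩
        rintro w (hw | hw)
        · exact Or.inl (hA w hw)
        · exact Or.inr (SphSplit_tri_uniq hab hbc hca hw ht)
      · have e := SphSplit_tri_uniq hab hbc hca k ht
        subst e
        refine ⟨z0, hz0t, Or.inl h3, ?_⟩
        rintro w (hw | hw)
        · exact Or.inr (hA w hw)
        · exact Or.inl (SphSplit_tri_uniq hab hbc hca hw ht)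
    · have nt : ∀ w, ¬ Tri a b c x y w := fun w k' => kt (SphSplit_tri_te k')
      have kA : A x y z := k.resolve_right (nt z)
      obtain ⟨w, h1, h2, h3⟩ := h.opp (H.sub kA)
      refine ⟨w, h1, Or.inl (H.cross kA h2 kt), ?_⟩
      rintro w' (hw' | hw')
      · exact h3 w' (H.sub hw')
      · exact absurd hw' (nt w')
  · -- link
    intro v t t' s s' ht hs
    by_cases hv : v = a ∨ v = b ∨ v = c
    · have hq : ∃ p q, Tri a b c v p q := by
        rcases hv with rfl | rfl | rfl
        · exact ⟨b, c, by simp [Tri]⟩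
        · exact ⟨a, c, by simp [Tri]⟩
        · exact ⟨a, b, by simp [Tri]⟩
      obtain ⟨p, q, hpq⟩ := hq
      have hp : ∀ t, SphSplit_te a b c v t → t ≠ v →
          ReflTransGen (fun x y => A v x y ∨ Tri a b c v x y) t p := by
        intro t ht htv
        have : t = p ∨ t = q := by
          have h5 := ht.2
          have hpq' := hpq
          rcases hpq' with ⟨e1, e2, e3⟩ | ⟨e1, e2, e3⟩ | ⟨e1, e2, e3⟩ |
            ⟨e1, e2, e3⟩ | ⟨e1, e2, e3⟩ | ⟨e1, e2, e3⟩ <;>
          · rw [e1] at htv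
            rw [e2, e3]
            rcases h5 with h5 | h5 | h5
            · first
                | exact absurd h5 htv
                | exact Or.inl h5
                | exact Or.inr h5
            · first
                | exact absurd h5 htv
                | exact Or.inl h5
                | exact Or.inr h5
            · first
                | exact absurd h5 htv
                | exact Or.inl h5
                | exact Or.inr h5
        rcases this with e | e
        · rw [e]
        · rw [e]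
          exact ReflTransGen.single (Or.inr (hrotT (hswpT hpq)))
      have hvp : v ≠ p := hneT hpq
      obtain ⟨z0, z1, h1, h2, h3, h4⟩ := H.bdy (SphSplit_te_of hv (tri_mem2 hpq)) hvp
      have to_p : ∀ t t', (A v t t' ∨ Tri a b c v t t') →
          ReflTransGen (fun x y => A v x y ∨ Tri a b c v x y) t p := by
        rintro t t' (k | k)
        · exact SphSplit_link h H hp k (h.link (H.sub k) h1)
        · exact hp t (SphSplit_te_of hv (tri_mem2 k)) (hneT k).symm
      have hsymm : ∀ x y, (A v x y ∨ Tri a b c v x y) → (A v y x ∨ Tri a b c v y x) := by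
        rintro x y (k | k)
        · exact Or.inl (H.rot (H.swp k))
        · exact Or.inr (hrotT (hswpT k))
      exact (to_p t t' ht).trans (SphSplit_rtg_symm hsymm (to_p s s' hs))
    · have nt : ∀ x y, ¬ Tri a b c v x y := fun x y k => hv (tri_mem k)
      have h1 : A v t t' := ht.resolve_right (nt _ _)
      have h2 : A v s s' := hs.resolve_right (nt _ _)
      exact SphSplit_link h H (fun t k _ => absurd k.1 hv) h1 (h.link (H.sub h1) (H.sub h2))
  · -- conn
    have hsymm : ∀ x y, Adj3 (fun x y z => A x y z ∨ Tri a b c x y z) x y →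
        Adj3 (fun x y z => A x y z ∨ Tri a b c x y z) y x := by
      rintro x y ⟨z, k | k⟩
      · exact ⟨z, Or.inl (H.swp k)⟩
      · exact ⟨z, Or.inr (hswpT k)⟩
    have hcorner : ∀ x, (x = a ∨ x = b ∨ x = c) →
        ReflTransGen (Adj3 (fun x y z => A x y z ∨ Tri a b c x y z)) x a := by
      intro x hx
      rcases hx with rfl | rfl | rfl
      · exact ReflTransGen.refl
      · exact ReflTransGen.single ⟨c, Or.inr (by simp [Tri])⟩
      · exact ReflTransGen.single ⟨b, Or.inr (by simp [Tri])⟩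
    have key : ∀ x, ReflTransGen (Adj3 T) x a → (∃ y z, A x y z ∨ Tri a b c x y z) →
        ReflTransGen (Adj3 (fun x y z => A x y z ∨ Tri a b c x y z)) x a := by
      intro x hx
      induction hx using ReflTransGen.head_induction_on with
      | refl => exact fun _ => ReflTransGen.refl
      | @head x s hxs _ ih =>
        rintro ⟨y, z, k⟩
        by_cases hx : x = a ∨ x = b ∨ x = c
        · exact hcorner x hx
        · have k' : A x y z := k.resolve_right (fun e => hx (tri_mem e))
          obtain ⟨w, hw⟩ := hxs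
          have e := SphSplit_full_star h H hx k' hw
          exact ReflTransGen.head ⟨w, Or.inl e⟩ (ih ⟨w, x, Or.inl (H.rot e)⟩)
    have key2 : ∀ x, (∃ y z, A x y z ∨ Tri a b c x y z) →
        ReflTransGen (Adj3 (fun x y z => A x y z ∨ Tri a b c x y z)) x a := by
      intro x hx
      refine key x (h.conn ?_ (hvT a (Or.inl rfl))) hx
      obtain ⟨y, z, k | k⟩ := hx
      · exact ⟨y, z, H.sub k⟩
      · exact hvT x (tri_mem k)
    intro x y hx hy
    exact (key2 x hx).trans (SphSplit_rtg_symm hsymm (key2 y hy))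
  · -- coh
    intro g hg hbal
    let h0 : V → ZMod 2 := fun x => if x = b then g a b else if x = c then g a c else 0
    have ha0 : h0 a = 0 := by
      simp only [h0]
      rw [if_neg hab, if_neg hca.symm]
    have hb0 : h0 b = g a b := by simp only [h0, if_true]
    have hc0 : h0 c = g a c := by
      simp [h0, hbc.symm]
    have hbal0 : g a b + g b c + g c a = 0 := hbal a b c (Or.inr (tri_self a b c))
    have hh0 : ∀ x y, SphSplit_te a b c x y → x ≠ y → g x y = h0 x + h0 y := by
      rintro x y ⟨h1, h2⟩ hxy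
      have e1 : g b c = g a b + g a c := by
        have h3 : g b c = -(g a b + g c a) := by linear_combination hbal0
        rw [h3, CharTwo.neg_eq, hg c a]
      rcases h1 with rfl | rfl | rfl <;> rcases h2 with rfl | rfl | rfl
      · exact absurd rfl hxy
      · rw [ha0, hb0, zero_add]
      · rw [ha0, hc0, zero_add]
      · rw [ha0, hb0, add_zero, hg]
      · exact absurd rfl hxy
      · rw [hb0, hc0, e1]
      · rw [ha0, hc0, add_zero, hg]
      · rw [hb0, hc0, hg, e1, add_comm]
      · exact absurd rfl hxy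
    let g' : V → V → ZMod 2 := fun x y => if ∃ z, A x y z then g x y else h0 x + h0 y
    have hg' : ∀ x y, g' x y = g' y x := by
      intro x y
      simp only [g']
      have e : (∃ z, A x y z) ↔ ∃ z, A y x z :=
        ⟨fun ⟨z, k⟩ => ⟨z, H.swp k⟩, fun ⟨z, k⟩ => ⟨z, H.swp k⟩⟩
      by_cases k : ∃ z, A x y z
      · rw [if_pos k, if_pos (e.1 k), hg]
      · rw [if_neg k, if_neg (fun k' => k (e.2 k')), add_comm]
    have hA' : ∀ x y z, A x y z → g' x y = g x y := by
      intro x y z k
      simp only [g']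
      rw [if_pos ⟨z, k⟩]
    have hN' : ∀ x y z, T x y z → ¬ A x y z → g' x y = h0 x + h0 y := by
      intro x y z k k'
      simp only [g']
      split_ifs with hh
      · obtain ⟨w, hw⟩ := hh
        by_cases kt : SphSplit_te a b c x y
        · exact hh0 x y kt (h.ne k)
        · exact absurd (H.cross hw k kt) k'
      · rfl
    have hb' : ∀ x y z, T x y z → g' x y + g' y z + g' z x = 0 := by
      intro x y z k
      by_cases kA : A x y z
      · rw [hA' x y z kA, hA' y z x (H.rot kA), hA' z x y (H.rot (H.rot kA))]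
        exact hbal x y z (Or.inl kA)
      · rw [hN' x y z k kA, hN' y z x (h.rot k) (fun e => kA (H.rot (H.rot e))),
          hN' z x y (h.rot2 k) (fun e => kA (H.rot e))]
        have e : h0 x + h0 y + (h0 y + h0 z) + (h0 z + h0 x) =
          (h0 x + h0 x) + (h0 y + h0 y) + (h0 z + h0 z) := by ring
        rw [e, CharTwo.add_self_eq_zero (h0 x), CharTwo.add_self_eq_zero (h0 y),
          CharTwo.add_self_eq_zero (h0 z)]
        simp
    obtain ⟨f, hf⟩ := h.coh g' hg' hb'
    refine ⟨f, ?_⟩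
    rintro x y z (k | k)
    · rw [← hA' x y z k]
      exact hf x y z (H.sub k)
    · obtain ⟨z0, z1, h1, h2, h3, h4⟩ := H.bdy (SphSplit_tri_te k) (hneT k)
      rw [← hA' x y z0 h3]
      exact hf x y z0 h1

/-- the faces which are reached from the face `a b z₀` without crossing the triangle `a b c` -/
inductive SphSplit_R (T : V → V → V → Prop) (a b c z₀ : V) : V → V → V → Prop
  | base : SphSplit_R T a b c z₀ a b z₀
  | rot {x y z} : SphSplit_R T a b c z₀ x y z → SphSplit_R T a b c z₀ y z x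
  | swp {x y z} : SphSplit_R T a b c z₀ x y z → SphSplit_R T a b c z₀ y x z
  | cross {x y z z'} : SphSplit_R T a b c z₀ x y z → T x y z' → ¬ SphSplit_te a b c x y →
      SphSplit_R T a b c z₀ x y z'

theorem SphSplit_R_sub (h : IsSph T) {a b c z₀ : V} (h0 : T a b z₀) {x y z : V}
    (k : SphSplit_R T a b c z₀ x y z) : T x y z := by
  induction k with
  | base => exact h0
  | rot _ ih => exact h.rot ih
  | swp _ ih => exact h.swp ih
  | cross _ k _ _ => exact k

open Classical in
/-- indicator of the edge `x y` -/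
noncomputable def SphSplit_e (x y p q : V) : ZMod 2 :=
  if (p = x ∧ q = y) ∨ (p = y ∧ q = x) then 1 else 0

open Classical in
/-- indicator of the face `x y z` -/
noncomputable def SphSplit_f (x y z p q r : V) : ZMod 2 := if Tri x y z p q r then 1 else 0

theorem SphSplit_e_symm (x y p q : V) : SphSplit_e x y p q = SphSplit_e x y q p := by
  unfold SphSplit_e
  have h : ((p = x ∧ q = y) ∨ (p = y ∧ q = x)) ↔ ((q = x ∧ p = y) ∨ (q = y ∧ p = x)) := by tauto
  by_cases k : (p = x ∧ q = y) ∨ (p = y ∧ q = x)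
  · rw [if_pos k, if_pos (h.1 k)]
  · rw [if_neg k, if_neg (fun k' => k (h.2 k'))]

theorem SphSplit_f_congr {x y z p q r x' y' z' p' q' r' : V}
    (h : Tri x y z p q r ↔ Tri x' y' z' p' q' r') :
    SphSplit_f x y z p q r = SphSplit_f x' y' z' p' q' r' := by
  unfold SphSplit_f
  by_cases k : Tri x y z p q r
  · rw [if_pos k, if_pos (h.1 k)]
  · rw [if_neg k, if_neg (fun k' => k (h.2 k'))]

theorem SphSplit_f_rot (x y z p q r : V) : SphSplit_f x y z p q r = SphSplit_f y z x p q r :=
  SphSplit_f_congr tri_rot'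

theorem SphSplit_f_swp (x y z p q r : V) : SphSplit_f x y z p q r = SphSplit_f y x z p q r :=
  SphSplit_f_congr tri_swp'

theorem SphSplit_f_rot2 (x y z p q r : V) : SphSplit_f x y z p q r = SphSplit_f x y z q r p :=
  SphSplit_f_congr tri_rot

theorem SphSplit_f_swp2 (x y z p q r : V) : SphSplit_f x y z p q r = SphSplit_f x y z q p r :=
  SphSplit_f_congr tri_swp

/-- on a face which contains the edge -/
theorem SphSplit_cob1 (h : IsSph T) {x y z z' : V} (h1 : T x y z) (h2 : T x y z') (hz : z ≠ z')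
    (r : V) (h3 : T x y r) :
    SphSplit_e x y x y + SphSplit_e x y y r + SphSplit_e x y r x =
      SphSplit_f x y z x y r + SphSplit_f x y z' x y r := by
  classical
  obtain ⟨n1, n2, n3⟩ := h.distinct h3
  have e1 : SphSplit_e x y x y = 1 := by
    unfold SphSplit_e; rw [if_pos (Or.inl ⟨rfl, rfl⟩)]
  have e2 : SphSplit_e x y y r = 0 := by
    unfold SphSplit_e; rw [if_neg]
    rintro (⟨k, -⟩ | ⟨-, k⟩)
    · exact n1 k.symm
    · exact n3 k
  have e3 : SphSplit_e x y r x = 0 := by
    unfold SphSplit_e; rw [if_neg]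
    rintro (⟨k, -⟩ | ⟨k, -⟩)
    · exact n3 k
    · exact n2 k.symm
  have f1 : ∀ t, SphSplit_f x y t x y r = if t = r then 1 else 0 := by
    intro t
    unfold SphSplit_f
    by_cases ht : t = r
    · rw [if_pos ht, if_pos]
      rw [ht]; exact tri_self x y r
    · rw [if_neg ht, if_neg]
      rintro (⟨k1, k2, k3⟩ | ⟨k1, k2, k3⟩ | ⟨k1, k2, k3⟩ | ⟨k1, k2, k3⟩ | ⟨k1, k2, k3⟩ |
        ⟨k1, k2, k3⟩)
      · exact ht k3.symm
      · exact n2 k3.symm
      · exact n1 k1
      · exact n1 k1
      · exact n1 k2.symm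
      · exact n3 k3
  rw [e1, e2, e3, f1, f1]
  rcases h.opp_uniq h1 h2 hz h3 with e | e
  · rw [if_pos e.symm, if_neg (fun e' => hz (e.symm.trans e'.symm))]
    simp
  · rw [if_pos e.symm, if_neg (fun e' => hz (e'.trans e))]
    simp

theorem SphSplit_cob (h : IsSph T) {x y z z' : V} (h1 : T x y z) (h2 : T x y z') (hz : z ≠ z')
    (p q r : V) (h3 : T p q r) :
    SphSplit_e x y p q + SphSplit_e x y q r + SphSplit_e x y r p =
      SphSplit_f x y z p q r + SphSplit_f x y z' p q r := by
  have key : ∀ p q r, T p q r → ((p = x ∧ q = y) ∨ (p = y ∧ q = x)) →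
      SphSplit_e x y p q + SphSplit_e x y q r + SphSplit_e x y r p =
      SphSplit_f x y z p q r + SphSplit_f x y z' p q r := by
    rintro p q r h3 (⟨rfl, rfl⟩ | ⟨rfl, rfl⟩)
    · exact SphSplit_cob1 h h1 h2 hz r h3
    · have := SphSplit_cob1 h h1 h2 hz r (h.swp h3)
      rw [SphSplit_f_swp2 q p z p q r, SphSplit_f_swp2 q p z' p q r, ← this,
        SphSplit_e_symm q p p q, SphSplit_e_symm q p q r, SphSplit_e_symm q p r p]
      ring
  by_cases c1 : (p = x ∧ q = y) ∨ (p = y ∧ q = x)
  · exact key p q r h3 c1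
  by_cases c2 : (q = x ∧ r = y) ∨ (q = y ∧ r = x)
  · have := key q r p (h.rot h3) c2
    rw [SphSplit_f_rot2 x y z p q r, SphSplit_f_rot2 x y z' p q r, ← this]
    ring
  by_cases c3 : (r = x ∧ p = y) ∨ (r = y ∧ p = x)
  · have := key r p q (h.rot2 h3) c3
    rw [← SphSplit_f_rot2 x y z r p q, ← SphSplit_f_rot2 x y z' r p q, ← this]
    ring
  have nt : ∀ t, ¬ Tri x y t p q r := by
    rintro t (⟨k1, k2, k3⟩ | ⟨k1, k2, k3⟩ | ⟨k1, k2, k3⟩ | ⟨k1, k2, k3⟩ | ⟨k1, k2, k3⟩ |
      ⟨k1, k2, k3⟩)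
    · exact c1 (Or.inl ⟨k1, k2⟩)
    · exact c3 (Or.inr ⟨k3, k1⟩)
    · exact c1 (Or.inr ⟨k1, k2⟩)
    · exact c3 (Or.inl ⟨k3, k1⟩)
    · exact c2 (Or.inl ⟨k2, k3⟩)
    · exact c2 (Or.inr ⟨k2, k3⟩)
  unfold SphSplit_e SphSplit_f
  rw [if_neg c1, if_neg c2, if_neg c3, if_neg (nt z), if_neg (nt z')]
  simp

theorem SphSplit_cochain (h : IsSph T) {a b c z₀ : V} (h0 : T a b z₀) {x y z : V}
    (k : SphSplit_R T a b c z₀ x y z) :
    ∃ g : V → V → ZMod 2, (∀ p q, g p q = g q p) ∧
      (∀ p q, SphSplit_te a b c p q → g p q = 0) ∧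
      ∀ p q r, T p q r → g p q + g q r + g r p =
        SphSplit_f a b z₀ p q r + SphSplit_f x y z p q r := by
  induction k with
  | base =>
    refine ⟨fun _ _ => 0, fun _ _ => rfl, fun _ _ _ => rfl, fun p q r _ => ?_⟩
    rw [CharTwo.add_self_eq_zero (SphSplit_f a b z₀ p q r)]
    simp
  | @rot x y z _ ih =>
    obtain ⟨g, g1, g2, g3⟩ := ih
    refine ⟨g, g1, g2, fun p q r hp => ?_⟩
    rw [g3 p q r hp, SphSplit_f_rot x y z p q r]
  | @swp x y z _ ih =>
    obtain ⟨g, g1, g2, g3⟩ := ih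
    refine ⟨g, g1, g2, fun p q r hp => ?_⟩
    rw [g3 p q r hp, SphSplit_f_swp x y z p q r]
  | @cross x y z z' k1 k2 k3 ih =>
    obtain ⟨g, g1, g2, g3⟩ := ih
    by_cases hz : z = z'
    · subst hz
      exact ⟨g, g1, g2, g3⟩
    refine ⟨fun p q => g p q + SphSplit_e x y p q, fun p q => ?_, fun p q hpq => ?_,
      fun p q r hp => ?_⟩
    · show g p q + SphSplit_e x y p q = g q p + SphSplit_e x y q p
      rw [g1 p q, SphSplit_e_symm]
    · show g p q + SphSplit_e x y p q = 0
      rw [g2 p q hpq]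
      unfold SphSplit_e
      rw [if_neg, add_zero]
      rintro (⟨rfl, rfl⟩ | ⟨rfl, rfl⟩)
      · exact k3 hpq
      · exact k3 (SphSplit_te_symm hpq)
    · have e1 := g3 p q r hp
      have e2 := SphSplit_cob h (SphSplit_R_sub h h0 k1) k2 hz p q r hp
      calc g p q + SphSplit_e x y p q + (g q r + SphSplit_e x y q r) +
            (g r p + SphSplit_e x y r p) = (g p q + g q r + g r p) +
            (SphSplit_e x y p q + SphSplit_e x y q r + SphSplit_e x y r p) := by ring
        _ = SphSplit_f a b z₀ p q r + SphSplit_f x y z' p q r +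
            (SphSplit_f x y z p q r + SphSplit_f x y z p q r) := by rw [e1, e2]; ring
        _ = _ := by rw [CharTwo.add_self_eq_zero (SphSplit_f x y z p q r), add_zero]

/-- the reached faces are on one side of the triangle -/
theorem SphSplit_one_side (h : IsSph T) {a b c z₀ : V} (h0 : T a b z₀) (hab : Adj3 T a b)
    (hbc : Adj3 T b c) (hca : Adj3 T c a) {u v z z' : V} (huv : SphSplit_te a b c u v)
    (k : SphSplit_R T a b c z₀ u v z) (k' : SphSplit_R T a b c z₀ u v z') : z = z' := by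
  by_contra hz
  obtain ⟨g, g1, g2, g3⟩ := SphSplit_cochain h h0 k
  obtain ⟨g', g1', g2', g3'⟩ := SphSplit_cochain h h0 k'
  have hu := h.ne (SphSplit_R_sub h h0 k)
  have hcob := SphSplit_cob h (SphSplit_R_sub h h0 k) (SphSplit_R_sub h h0 k') hz
  obtain ⟨f, hf⟩ := h.coh (fun p q => g p q + g' p q + SphSplit_e u v p q)
    (fun p q => by rw [g1 p q, g1' p q, SphSplit_e_symm]) (fun p q r hp => by
      have e1 := g3 p q r hp
      have e2 := g3' p q r hp
      have e3 := hcob p q r hp
      calc g p q + g' p q + SphSplit_e u v p q + (g q r + g' q r + SphSplit_e u v q r) +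
            (g r p + g' r p + SphSplit_e u v r p) = (g p q + g q r + g r p) +
            (g' p q + g' q r + g' r p) +
            (SphSplit_e u v p q + SphSplit_e u v q r + SphSplit_e u v r p) := by ring
        _ = (SphSplit_f a b z₀ p q r + SphSplit_f a b z₀ p q r) +
            (SphSplit_f u v z p q r + SphSplit_f u v z p q r) +
            (SphSplit_f u v z' p q r + SphSplit_f u v z' p q r) := by rw [e1, e2, e3]; ring
        _ = 0 := by
          rw [CharTwo.add_self_eq_zero (SphSplit_f a b z₀ p q r),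
            CharTwo.add_self_eq_zero (SphSplit_f u v z p q r),
            CharTwo.add_self_eq_zero (SphSplit_f u v z' p q r)]
          simp)
  have nab := h.adj_ne hab
  have nbc := h.adj_ne hbc
  have nca := h.adj_ne hca
  obtain ⟨w1, hw1⟩ := hab
  obtain ⟨w2, hw2⟩ := hbc
  obtain ⟨w3, hw3⟩ := hca
  have f1 := hf a b w1 hw1
  have f2 := hf b c w2 hw2
  have f3 := hf c a w3 hw3
  have ta : a = a ∨ a = b ∨ a = c := Or.inl rfl
  have tb : b = a ∨ b = b ∨ b = c := Or.inr (Or.inl rfl)
  have tc : c = a ∨ c = b ∨ c = c := Or.inr (Or.inr rfl)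
  rw [g2 a b ⟨ta, tb⟩, g2' a b ⟨ta, tb⟩] at f1
  rw [g2 b c ⟨tb, tc⟩, g2' b c ⟨tb, tc⟩] at f2
  rw [g2 c a ⟨tc, ta⟩, g2' c a ⟨tc, ta⟩] at f3
  have hsum : SphSplit_e u v a b + SphSplit_e u v b c + SphSplit_e u v c a = 0 := by
    have : SphSplit_e u v a b + SphSplit_e u v b c + SphSplit_e u v c a =
        (f a + f a) + (f b + f b) + (f c + f c) := by
      linear_combination f1 + f2 + f3
    rw [this, CharTwo.add_self_eq_zero (f a), CharTwo.add_self_eq_zero (f b),
      CharTwo.add_self_eq_zero (f c)]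
    simp
  have hone : SphSplit_e u v a b + SphSplit_e u v b c + SphSplit_e u v c a = 1 := by
    obtain ⟨h1, h2⟩ := huv
    unfold SphSplit_e
    rcases h1 with rfl | rfl | rfl <;> rcases h2 with rfl | rfl | rfl
    · exact absurd rfl hu
    · simp [nab, nbc, nca, nab.symm, nbc.symm, nca.symm]
    · simp [nab, nbc, nca, nab.symm, nbc.symm, nca.symm]
    · simp [nab, nbc, nca, nab.symm, nbc.symm, nca.symm]
    · exact absurd rfl hu
    · simp [nab, nbc, nca, nab.symm, nbc.symm, nca.symm]
    · simp [nab, nbc, nca, nab.symm, nbc.symm, nca.symm]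
    · simp [nab, nbc, nca, nab.symm, nbc.symm, nca.symm]
    · exact absurd rfl hu
  rw [hsum] at hone
  exact absurd hone (by decide)

/-- a reached face at one side of the triangle gives one at the next side -/
theorem SphSplit_spread (h : IsSph T) {a b c z₀ : V} (h0 : T a b z₀) (hn : ¬ T a b c)
    (hab : Adj3 T a b) (hbc : Adj3 T b c) (hca : Adj3 T c a) {u v w : V}
    (huvw : Tri a b c u v w) (k : ∃ z, SphSplit_R T a b c z₀ u v z) :
    ∃ z, SphSplit_R T a b c z₀ v w z := by
  obtain ⟨z, hz⟩ := k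
  have hT := SphSplit_R_sub h h0 hz
  obtain ⟨z', h1, h2, h3⟩ := h.opp hT
  by_contra hcon
  push Not at hcon
  have chain := h.link_avoid (h.swp hT) (h.swp h2) h1.symm
  have huv : SphSplit_te a b c u v := ⟨tri_mem huvw, tri_mem2 huvw⟩
  have nte : ∀ t s, T v t s → t ≠ u → t ≠ w → ¬ SphSplit_te a b c v t := by
    intro t s hts htu htw kt
    have hvt := h.ne hts
    have h5 := kt.2
    rcases huvw with ⟨rfl, rfl, rfl⟩ | ⟨rfl, rfl, rfl⟩ | ⟨rfl, rfl, rfl⟩ |
      ⟨rfl, rfl, rfl⟩ | ⟨rfl, rfl, rfl⟩ | ⟨rfl, rfl, rfl⟩ <;>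
    · rcases h5 with h5 | h5 | h5 <;>
      first
        | exact htu h5
        | exact htw h5
        | exact hvt h5.symm
  have key : ∀ t, ReflTransGen (fun x y => T v x y ∧ x ≠ u ∧ y ≠ u) z t →
      ∃ t', SphSplit_R T a b c z₀ v t t' := by
    intro t ht
    induction ht with
    | refl => exact ⟨u, hz.rot⟩
    | @tail t s _ hts ih =>
      obtain ⟨t', ht'⟩ := ih
      have htw : t ≠ w := by
        rintro rfl
        exact hcon _ ht'
      have e := SphSplit_R.cross ht' hts.1 (nte t s hts.1 hts.2.1 htw)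
      exact ⟨t, e.swp.rot⟩
  obtain ⟨t', ht'⟩ := key z' chain
  have hz'u : z' ≠ u := (h.distinct h2).2.2
  have hz'w : z' ≠ w := by
    rintro rfl
    exact hn (h.tri h2 (tri_comm.1 huvw))
  have e := SphSplit_R.cross ht' (h.rot h2) (nte z' u (h.rot h2) hz'u hz'w)
  exact h1 (SphSplit_one_side h h0 hab hbc hca huv hz e.rot.rot).symm

theorem exists_split (h : IsSph T) {a b c : V} (hab : Adj3 T a b) (hbc : Adj3 T b c)
    (hca : Adj3 T c a) (hn : ¬ T a b c) :
    ∃ T₁ T₂ : V → V → V → Prop, IsSph T₁ ∧ IsSph T₂ ∧ T₁ a b c ∧ T₂ a b c ∧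
      (∀ x, x ∈ Vert T₁ → x ∈ Vert T₂ → x = a ∨ x = b ∨ x = c) ∧
      (∀ x y z, T x y z ↔ glue T₁ T₂ a b c x y z) ∧
      (∃ x ∈ Vert T₁, x ∉ Vert T₂) ∧ (∃ x ∈ Vert T₂, x ∉ Vert T₁) := by
  have nab := h.adj_ne hab
  have nbc := h.adj_ne hbc
  have nca := h.adj_ne hca
  obtain ⟨z₀, h0⟩ := hab
  have hab : Adj3 T a b := ⟨z₀, h0⟩
  have ex1 : ∃ z, SphSplit_R T a b c z₀ a b z := ⟨z₀, SphSplit_R.base⟩
  have ex2 : ∃ z, SphSplit_R T a b c z₀ b c z :=
    SphSplit_spread h h0 hn hab hbc hca (tri_self a b c) ex1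
  have ex3 : ∃ z, SphSplit_R T a b c z₀ c a z :=
    SphSplit_spread h h0 hn hab hbc hca (tri_rot.1 (tri_self a b c)) ex2
  have sw : ∀ {x y : V}, (∃ z, SphSplit_R T a b c z₀ x y z) →
      ∃ z, SphSplit_R T a b c z₀ y x z := fun ⟨z, k⟩ => ⟨z, k.swp⟩
  have H : SphSplit_Half T (SphSplit_R T a b c z₀) a b c := by
    refine ⟨fun k => SphSplit_R_sub h h0 k, fun k => k.rot, fun k => k.swp,
      fun k1 k2 k3 => k1.cross k2 k3, ?_⟩
    intro x y kt kn
    have ex : ∃ z, SphSplit_R T a b c z₀ x y z := by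
      obtain ⟨h1, h2⟩ := kt
      rcases h1 with rfl | rfl | rfl <;> rcases h2 with rfl | rfl | rfl
      · exact absurd rfl kn
      · exact ex1
      · exact sw ex3
      · exact sw ex1
      · exact absurd rfl kn
      · exact ex2
      · exact ex3
      · exact sw ex2
      · exact absurd rfl kn
    obtain ⟨z, hz⟩ := ex
    obtain ⟨z', h1, h2, -⟩ := h.opp (SphSplit_R_sub h h0 hz)
    exact ⟨z, z', SphSplit_R_sub h h0 hz, h2, hz, fun k =>
      h1 (SphSplit_one_side h h0 hab hbc hca kt hz k).symm⟩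
  have hint : ∀ x, (∃ y z, SphSplit_R T a b c z₀ x y z ∨ Tri a b c x y z) →
      (∃ y z, (T x y z ∧ ¬ SphSplit_R T a b c z₀ x y z) ∨ Tri a b c x y z) →
      x = a ∨ x = b ∨ x = c := by
    rintro x ⟨y, z, k⟩ ⟨y', z', k'⟩
    by_contra hx
    have k1 := k.resolve_right (fun e => hx (tri_mem e))
    have k2 := k'.resolve_right (fun e => hx (tri_mem e))
    exact k2.2 (SphSplit_full_star h H hx k1 k2.1)
  have hnot : ∀ z, T a b z → ¬ (z = a ∨ z = b ∨ z = c) := by
    rintro z hz (rfl | rfl | rfl)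
    · exact (h.distinct hz).2.2 rfl
    · exact (h.distinct hz).2.1 rfl
    · exact hn hz
  refine ⟨fun x y z => SphSplit_R T a b c z₀ x y z ∨ Tri a b c x y z,
    fun x y z => (T x y z ∧ ¬ SphSplit_R T a b c z₀ x y z) ∨ Tri a b c x y z,
    SphSplit_isSph h nab nbc nca hn H, SphSplit_isSph h nab nbc nca hn (H.compl h),
    Or.inr (tri_self a b c), Or.inr (tri_self a b c), hint, ?_, ?_, ?_⟩
  · intro x y z
    unfold glue
    constructor
    · intro k
      refine ⟨?_, SphSplit_no_tri h hn k⟩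
      by_cases k' : SphSplit_R T a b c z₀ x y z
      · exact Or.inl (Or.inl k')
      · exact Or.inr (Or.inl ⟨k, k'⟩)
    · rintro ⟨(k | k) | (k | k), k'⟩
      · exact SphSplit_R_sub h h0 k
      · exact absurd k k'
      · exact k.1
      · exact absurd k k'
  · have e : z₀ ∈ Vert (fun x y z => SphSplit_R T a b c z₀ x y z ∨ Tri a b c x y z) :=
      ⟨a, b, Or.inl SphSplit_R.base.rot.rot⟩
    exact ⟨z₀, e, fun k => hnot z₀ h0 (hint z₀ e k)⟩
  · obtain ⟨z, z', h1, h2, h3, h4⟩ := H.bdy (x := a) (y := b)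
      ⟨Or.inl rfl, Or.inr (Or.inl rfl)⟩ nab
    have e : z' ∈ Vert (fun x y z => (T x y z ∧ ¬ SphSplit_R T a b c z₀ x y z) ∨
        Tri a b c x y z) :=
      ⟨a, b, Or.inl ⟨h.rot2 h2, fun k => h4 k.rot⟩⟩
    exact ⟨z', e, fun k => hnot z' h2 (hint z' k e)⟩

end Pool.Agent.Lib.MP_d86530_co
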