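import Pool.Agent.Lib.MP_d86530_co.SphGlue
import Pool.Agent.Lib.MP_d86530_co.SphSplit
import Pool.Agent.Lib.MP_d86530_co.LayGlue

/-!
# MP_d86530_co: good layouts exist for all spheres once they exist for the flag spheres

Strong induction on the number of vertices: a sphere which is not flag splits along a triangle
into two smaller spheres, and layouts of the parts are glued.
-/

set_option autoImplicit false

namespace Pool.Agent.Lib.MP_d86530_co

open Relation

theorem LayMain_glue_comm {V : Type*} (T₁ T₂ : V → V → V → Prop) (u v w : V) :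
    glue T₁ T₂ u v w = glue T₂ T₁ u v w := by
  funext x y z
  simp only [glue, or_comm]

theorem hasLay_of_flag {V : Type} (H : ∀ T : V → V → V → Prop, IsSph T → Flag T → HasLay T) :
    ∀ T : V → V → V → Prop, IsSph T → HasLay T := by
  intro T
  induction hn : (Vert T).ncard using Nat.strong_induction_on generalizing T with
  | _ n ih =>
    intro hT
    by_cases hF : Flag T
    · exact H T hT hF
    simp only [Flag, not_forall] at hF
    obtain ⟨u, v, w, huv, hvw, hwu, hnT⟩ := hF
    obtain ⟨T₁, T₂, h₁, h₂, ha, hb, hV, hg, ⟨x₁, hx₁, hx₁'⟩, x₂, hx₂, hx₂'⟩ :=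
      exists_split hT huv hvw hwu hnT
    have hT' : T = glue T₁ T₂ u v w := by
      funext x y z
      exact propext (hg x y z)
    have hVT : Vert T = Vert T₁ ∪ Vert T₂ := by rw [hT']; exact vert_glue h₁ h₂ ha hb hV
    have hl₁ : (Vert T₁).ncard < n := by
      rw [← hn]
      refine Set.ncard_lt_ncard ⟨?_, fun h => hx₂' (h ?_)⟩ hT.fin
      · rw [hVT]; exact Set.subset_union_left
      · rw [hVT]; exact Or.inr hx₂
    have hl₂ : (Vert T₂).ncard < n := by
      rw [← hn]
      refine Set.ncard_lt_ncard ⟨?_, fun h => hx₁' (h ?_)⟩ hT.fin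
      · rw [hVT]; exact Set.subset_union_right
      · rw [hVT]; exact Or.inl hx₁
    have L₁ := ih _ hl₁ T₁ rfl h₁
    have L₂ := ih _ hl₂ T₂ rfl h₂
    intro a b c habc
    rw [hT'] at habc
    obtain ⟨h', hne⟩ := habc
    rcases h' with h' | h'
    · rw [hT']
      exact lay_glue h₁ h₂ hV ha hb h' hne (L₁ a b c h') L₂
    · rw [hT', LayMain_glue_comm]
      exact lay_glue h₂ h₁ (fun x hx hx' => hV x hx' hx) hb ha h' hne (L₂ a b c h') L₁

end Pool.Agent.Lib.MP_d86530_co
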