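import Pool.Agent.Lib.MP_d86530_co.CycAvoid

/-! The contraction of an edge which lies in exactly two 3-cycles. -/

set_option autoImplicit false

namespace Pool.Agent.Lib.MP_d86530_co

open Relation

variable {V : Type*} {T : V → V → V → Prop}

theorem sphContr_rtg_symm {R : V → V → Prop} (hR : ∀ x y, R x y → R y x) {x y : V}
    (h : ReflTransGen R x y) : ReflTransGen R y x := by
  induction h with
  | refl => exact ReflTransGen.refl
  | tail _ h ih => exact ReflTransGen.head (hR _ _ h) ih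

theorem sphContr_pj_w (u w : V) : pj u w w = u := by simp [pj]

theorem sphContr_pj_ne {u w t : V} (h : t ≠ w) : pj u w t = t := by simp [pj, h]

theorem sphContr_pj_ne_w {u w : V} (huw : u ≠ w) (t : V) : pj u w t ≠ w := by
  by_cases h : t = w
  · rw [h, sphContr_pj_w]; exact huw
  · rw [sphContr_pj_ne h]; exact h

theorem sphContr_pj_eq {u w s t : V} (h : pj u w s = pj u w t) :
    s = t ∨ (s = u ∧ t = w) ∨ (s = w ∧ t = u) := by
  by_cases hs : s = w <;> by_cases ht : t = w
  · left; rw [hs, ht]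
  · right; right; rw [hs, sphContr_pj_w, sphContr_pj_ne ht] at h; exact ⟨hs, h.symm⟩
  · right; left; rw [ht, sphContr_pj_w, sphContr_pj_ne hs] at h; exact ⟨h, ht⟩
  · left; rwa [sphContr_pj_ne hs, sphContr_pj_ne ht] at h

/-- if three faces at `p` close up, the link of `p` is the triangle -/
theorem IsSph.sphContr_star (h : IsSph T) {p q r s : V} (h1 : T p q r) (h2 : T p q s)
    (h3 : T p r s) {t : V} (ht : Adj3 T p t) : t = q ∨ t = r ∨ t = s := by
  obtain ⟨t', ht'⟩ := ht
  have hrs : r ≠ s := (h.distinct h3).2.1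
  have hqs : q ≠ s := (h.distinct h2).2.1
  have hqr : q ≠ r := (h.distinct h1).2.1
  have key : ∀ t, ReflTransGen (T p) q t → t = q ∨ t = r ∨ t = s := by
    intro t hch
    induction hch with
    | refl => exact Or.inl rfl
    | tail _ hst ih =>
      rcases ih with rfl | rfl | rfl
      · rcases h.opp_uniq h1 h2 hrs hst with e | e
        · exact Or.inr (Or.inl e)
        · exact Or.inr (Or.inr e)
      · rcases h.opp_uniq (h.swp23 h1) h3 hqs hst with e | e
        · exact Or.inl e
        · exact Or.inr (Or.inr e)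
      · rcases h.opp_uniq (h.swp23 h2) (h.swp23 h3) hqr hst with e | e
        · exact Or.inl e
        · exact Or.inr (Or.inl e)
  exact key t (h.link h1 ht')

theorem IsSph.sphContr_noK4 (h : IsSph T) {u w a b : V} (h1 : T u w a) (h2 : T u w b)
    (h5 : ∃ x ∈ Vert T, x ≠ u ∧ x ≠ w ∧ x ≠ a ∧ x ≠ b) : ¬ (T u a b ∧ T w a b) := by
  rintro ⟨h3, h4⟩
  obtain ⟨x, hx, hxu, hxw, hxa, hxb⟩ := h5
  have key : ∀ y, ReflTransGen (Adj3 T) u y → y = u ∨ y = w ∨ y = a ∨ y = b := by
    intro y hy
    induction hy with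
    | refl => exact Or.inl rfl
    | tail _ hst ih =>
      rcases ih with rfl | rfl | rfl | rfl
      · have := h.sphContr_star h1 h2 h3 hst
        tauto
      · have := h.sphContr_star (h.swp h1) (h.swp h2) h4 hst
        tauto
      · have := h.sphContr_star (h.rot2 h1) (h.swp h3) (h.swp h4) hst
        tauto
      · have := h.sphContr_star (h.rot2 h2) (h.rot2 h3) (h.rot2 h4) hst
        tauto
  have := key x (h.conn (IsSph.vert1 h1) hx)
  tauto

theorem IsSph.sphContr_rot (h : IsSph T) {u w x y z : V} (hc : contr T u w x y z) :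
    contr T u w y z x := by
  obtain ⟨n1, n2, n3, x0, y0, z0, ht, e1, e2, e3⟩ := hc
  exact ⟨n2, n3, n1, y0, z0, x0, h.rot ht, e2, e3, e1⟩

theorem IsSph.sphContr_swp (h : IsSph T) {u w x y z : V} (hc : contr T u w x y z) :
    contr T u w y x z := by
  obtain ⟨n1, n2, n3, x0, y0, z0, ht, e1, e2, e3⟩ := hc
  exact ⟨n1.symm, n3.symm, n2.symm, y0, x0, z0, h.swp ht, e2, e1, e3⟩

/-- faces of the contraction without the vertex `u` -/
theorem sphContr_iff_ne {u w x y z : V} (hx : x ≠ u) (hy : y ≠ u) (hz : z ≠ u) :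
    contr T u w x y z → T x y z ∧ x ≠ w ∧ y ≠ w ∧ z ≠ w := by
  rintro ⟨n1, n2, n3, x0, y0, z0, ht, e1, e2, e3⟩
  have hx0 : x0 ≠ w := fun e => hx (by rw [← e1, e, sphContr_pj_w])
  have hy0 : y0 ≠ w := fun e => hy (by rw [← e2, e, sphContr_pj_w])
  have hz0 : z0 ≠ w := fun e => hz (by rw [← e3, e, sphContr_pj_w])
  rw [sphContr_pj_ne hx0] at e1
  rw [sphContr_pj_ne hy0] at e2
  rw [sphContr_pj_ne hz0] at e3
  subst e1 e2 e3
  exact ⟨ht, hx0, hy0, hz0⟩

/-- faces of the contraction at an edge without the vertex `u` -/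
theorem sphContr_iff_edge {u w x y z : V} (hx : x ≠ u) (hy : y ≠ u) (hc : contr T u w x y z) :
    x ≠ w ∧ y ≠ w ∧ ∃ z0, T x y z0 ∧ pj u w z0 = z := by
  obtain ⟨n1, n2, n3, x0, y0, z0, ht, e1, e2, e3⟩ := hc
  have hx0 : x0 ≠ w := fun e => hx (by rw [← e1, e, sphContr_pj_w])
  have hy0 : y0 ≠ w := fun e => hy (by rw [← e2, e, sphContr_pj_w])
  rw [sphContr_pj_ne hx0] at e1
  rw [sphContr_pj_ne hy0] at e2
  subst e1 e2
  exact ⟨hx0, hy0, z0, ht, e3⟩

/-- faces of the contraction at the vertex `u` -/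
theorem sphContr_iff_u {u w y z : V} :
    contr T u w u y z ↔ (T u y z ∨ T w y z) ∧ y ≠ u ∧ z ≠ u ∧ y ≠ w ∧ z ≠ w ∧ y ≠ z := by
  constructor
  · rintro ⟨n1, n2, n3, x0, y0, z0, ht, e1, e2, e3⟩
    have hy0 : y0 ≠ w := fun e => n1 (by rw [← e2, e, sphContr_pj_w])
    have hz0 : z0 ≠ w := fun e => n3 (by rw [← e3, e, sphContr_pj_w])
    rw [sphContr_pj_ne hy0] at e2
    rw [sphContr_pj_ne hz0] at e3
    subst e2 e3
    refine ⟨?_, n1.symm, n3, hy0, hz0, n2⟩
    by_cases hx0 : x0 = w
    · right; rw [← hx0]; exact ht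
    · left
      rw [sphContr_pj_ne hx0] at e1
      rw [← e1]; exact ht
  · rintro ⟨ht | ht, n1, n2, n3, n4, n5⟩
    · by_cases huw : u = w
      · exact ⟨n1.symm, n5, n2, u, y, z, ht, by rw [huw, sphContr_pj_w], sphContr_pj_ne n3,
          sphContr_pj_ne n4⟩
      · exact ⟨n1.symm, n5, n2, u, y, z, ht, sphContr_pj_ne huw, sphContr_pj_ne n3,
          sphContr_pj_ne n4⟩
    · exact ⟨n1.symm, n5, n2, w, y, z, ht, sphContr_pj_w u w, sphContr_pj_ne n3,
          sphContr_pj_ne n4⟩

/-- every edge of `T` which is not contracted lies in a face which stays a face -/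
theorem IsSph.sphContr_good (h : IsSph T) {u w x y : V} (hxy : Adj3 T x y)
    (hne : pj u w x ≠ pj u w y) :
    ∃ z, T x y z ∧ pj u w y ≠ pj u w z ∧ pj u w z ≠ pj u w x := by
  obtain ⟨z, hz⟩ := hxy
  obtain ⟨z', hz'1, hz'2, -⟩ := h.opp hz
  have hne' := hne
  obtain ⟨d1, d2, d3⟩ := h.distinct hz
  obtain ⟨d4, d5, d6⟩ := h.distinct hz'2
  by_cases c1 : pj u w y = pj u w z
  · refine ⟨z', hz'2, ?_, ?_⟩
    · intro c2
      rcases sphContr_pj_eq c1 with e | ⟨e1, e2⟩ | ⟨e1, e2⟩ <;>
      rcases sphContr_pj_eq c2 with e' | ⟨e3, e4⟩ | ⟨e3, e4⟩ <;> grind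
    · intro c2
      rcases sphContr_pj_eq c1 with e | ⟨e1, e2⟩ | ⟨e1, e2⟩ <;>
      rcases sphContr_pj_eq c2 with e' | ⟨e3, e4⟩ | ⟨e3, e4⟩ <;> grind
  · by_cases c2 : pj u w z = pj u w x
    · refine ⟨z', hz'2, ?_, ?_⟩
      · intro c3
        rcases sphContr_pj_eq c2 with e | ⟨e1, e2⟩ | ⟨e1, e2⟩ <;>
        rcases sphContr_pj_eq c3 with e' | ⟨e3, e4⟩ | ⟨e3, e4⟩ <;> grind
      · intro c3
        rcases sphContr_pj_eq c2 with e | ⟨e1, e2⟩ | ⟨e1, e2⟩ <;>
        rcases sphContr_pj_eq c3 with e' | ⟨e3, e4⟩ | ⟨e3, e4⟩ <;> grind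
    · exact ⟨z, hz, c1, c2⟩

theorem IsSph.sphContr_adj (h : IsSph T) {u w x y : V} (hxy : Adj3 T x y)
    (hne : pj u w x ≠ pj u w y) : Adj3 (contr T u w) (pj u w x) (pj u w y) := by
  obtain ⟨z, hz, h1, h2⟩ := h.sphContr_good hxy hne
  exact ⟨pj u w z, hne, h1, h2, x, y, z, hz, rfl, rfl, rfl⟩

theorem IsSph.sphContr_vert (h : IsSph T) {u w a : V} (h1 : T u w a) :
    Vert (contr T u w) = Vert T \ {w} := by
  have huw : u ≠ w := h.ne h1
  ext x
  constructor
  · rintro ⟨y, z, n1, n2, n3, x0, y0, z0, ht, e1, e2, e3⟩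
    refine ⟨?_, ?_⟩
    · by_cases hx0 : x0 = w
      · rw [← e1, hx0, sphContr_pj_w]; exact IsSph.vert1 h1
      · rw [← e1, sphContr_pj_ne hx0]; exact IsSph.vert1 ht
    · rw [← e1]; exact sphContr_pj_ne_w huw x0
  · rintro ⟨⟨y, z, ht⟩, hxw⟩
    have hxw' : x ≠ w := hxw
    have e : pj u w x = x := sphContr_pj_ne hxw'
    obtain ⟨d1, d2, d3⟩ := h.distinct ht
    by_cases c1 : pj u w x = pj u w y
    · have c2 : pj u w x ≠ pj u w z := by
        intro c2
        rcases sphContr_pj_eq c1 with e | ⟨e1, e2⟩ | ⟨e1, e2⟩ <;>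
        rcases sphContr_pj_eq c2 with e' | ⟨e3, e4⟩ | ⟨e3, e4⟩ <;> grind
      obtain ⟨t, ht2⟩ := h.sphContr_adj ⟨y, h.swp23 ht⟩ c2
      rw [e] at ht2
      exact ⟨_, _, ht2⟩
    · obtain ⟨t, ht2⟩ := h.sphContr_adj ⟨z, ht⟩ c1
      rw [e] at ht2
      exact ⟨_, _, ht2⟩

/-- the link of `u` in the contraction: the part coming from the link of `v`, where
`{v, v'} = {u, w}` -/
theorem IsSph.sphContr_link (h : IsSph T) {v v' a b : V} (hab : a ≠ b) (h1 : T v v' a)
    (h2 : T v v' b) {x x' : V} (hx : T v x x') (hxv : x ≠ v') :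
    ReflTransGen (fun s t => T v s t ∧ s ≠ v' ∧ t ≠ v') x a := by
  have hch := h.link hx (h.swp23 h1)
  have hba := h.link_avoid h2 h1 hab.symm
  clear hx
  revert hxv
  induction hch using ReflTransGen.head_induction_on with
  | refl => intro _; exact ReflTransGen.refl
  | head hxy hyc ih =>
    rename_i p q
    intro hp
    by_cases hq : q = v'
    · subst hq
      rcases h.opp_uniq h1 h2 hab (h.swp23 hxy) with e | e
      · rw [e]
      · rw [e]; exact hba
    · exact ReflTransGen.head ⟨hxy, hp, hq⟩ (ih hq)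

theorem isSph_contr (h : IsSph T) {u w a b : V} (hab : a ≠ b) (h1 : T u w a) (h2 : T u w b)
    (hcom : ∀ z, Adj3 T u z → Adj3 T w z → z = a ∨ z = b)
    (h5 : ∃ x ∈ Vert T, x ≠ u ∧ x ≠ w ∧ x ≠ a ∧ x ≠ b) : IsSph (contr T u w) := by
  have hK := h.sphContr_noK4 h1 h2 h5
  have huw : u ≠ w := h.ne h1
  obtain ⟨dw, dwa, dau⟩ := h.distinct h1
  obtain ⟨-, dwb, dbu⟩ := h.distinct h2
  -- no edge has both `u` and `w` as opposite vertices
  have hno : ∀ x y, T x y u → T x y w → False := by
    intro x y hu hw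
    obtain ⟨d1, d2, d3⟩ := h.distinct hu
    obtain ⟨d4, d5, d6⟩ := h.distinct hw
    have hx := hcom x (h.adj31 hu) (h.adj31 hw)
    have hy := hcom y (h.adj_symm (h.adj23 hu)) (h.adj_symm (h.adj23 hw))
    apply hK
    rcases hx with rfl | rfl <;> rcases hy with rfl | rfl
    · exact absurd rfl d1
    · exact ⟨h.rot2 hu, h.rot2 hw⟩
    · exact ⟨h.swp23 (h.rot2 hu), h.swp23 (h.rot2 hw)⟩
    · exact absurd rfl d1
  -- opposite vertices, edge at `u`
  have hoppu : ∀ {y z}, contr T u w u y z → ∃ t, t ≠ z ∧ contr T u w u y t ∧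
      ∀ t', contr T u w u y t' → t' = z ∨ t' = t := by
    intro y z hc
    rw [sphContr_iff_u] at hc
    obtain ⟨hc, n1, n2, n3, n4, n5⟩ := hc
    by_cases hyu : Adj3 T u y <;> by_cases hyw : Adj3 T w y
    · -- `y` is `a` or `b`
      have key : ∃ c, T u w y ∧ T u y c ∧ c ≠ w := by
        rcases hcom y hyu hyw with rfl | rfl
        · obtain ⟨c, hc1, hc2, -⟩ := h.opp (h.swp23 h1)
          exact ⟨c, h1, hc2, hc1⟩
        · obtain ⟨c, hc1, hc2, -⟩ := h.opp (h.swp23 h2)
          exact ⟨c, h2, hc2, hc1⟩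
      obtain ⟨c, k1, k2, k3⟩ := key
      obtain ⟨d, k4, k5, -⟩ := h.opp (h.swp23 (h.swp k1))
      -- T u y w, T u y c ; T w y u, T w y d
      have hcd : c ≠ d := by
        rintro rfl
        exact hno y c (h.rot k2) (h.rot k5)
      have m1 := h.distinct k2
      have m2 := h.distinct k5
      have hcC : contr T u w u y c := by
        rw [sphContr_iff_u]
        exact ⟨Or.inl k2, n1, m1.2.2, n3, k3, m1.2.1⟩
      have hdC : contr T u w u y d := by
        rw [sphContr_iff_u]
        exact ⟨Or.inr k5, n1, k4, n3, m2.2.2, m2.2.1⟩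
      have all : ∀ t', contr T u w u y t' → t' = c ∨ t' = d := by
        intro t' ht'
        rw [sphContr_iff_u] at ht'
        obtain ⟨ht | ht, q1, q2, q3, q4, q5⟩ := ht'
        · rcases h.opp_uniq (h.swp23 k1) k2 k3.symm ht with e | e
          · exact absurd e q4
          · exact Or.inl e
        · rcases h.opp_uniq (h.swp23 (h.swp k1)) k5 k4.symm ht with e | e
          · exact absurd e q2
          · exact Or.inr e
      have hz : z = c ∨ z = d := all z (by rw [sphContr_iff_u]; exact ⟨hc, n1, n2, n3, n4, n5⟩)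
      rcases hz with rfl | rfl
      · exact ⟨d, hcd.symm, hdC, all⟩
      · exact ⟨c, hcd, hcC, fun t' ht' => (all t' ht').symm⟩
    · have hc' : T u y z := by
        rcases hc with hc | hc
        · exact hc
        · exact absurd ⟨z, hc⟩ hyw
      obtain ⟨t, k1, k2, k3⟩ := h.opp hc'
      have m := h.distinct k2
      refine ⟨t, k1, ?_, ?_⟩
      · rw [sphContr_iff_u]
        refine ⟨Or.inl k2, n1, m.2.2, n3, ?_, m.2.1⟩
        rintro rfl
        exact hyw ⟨u, h.swp13 k2⟩
      · intro t' ht'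
        rw [sphContr_iff_u] at ht'
        rcases ht'.1 with q | q
        · exact k3 t' q
        · exact absurd ⟨t', q⟩ hyw
    · have hc' : T w y z := by
        rcases hc with hc | hc
        · exact absurd ⟨z, hc⟩ hyu
        · exact hc
      obtain ⟨t, k1, k2, k3⟩ := h.opp hc'
      have m := h.distinct k2
      refine ⟨t, k1, ?_, ?_⟩
      · rw [sphContr_iff_u]
        refine ⟨Or.inr k2, n1, ?_, n3, m.2.2, m.2.1⟩
        rintro rfl
        exact hyu ⟨w, h.swp13 k2⟩
      · intro t' ht'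
        rw [sphContr_iff_u] at ht'
        rcases ht'.1 with q | q
        · exact absurd ⟨t', q⟩ hyu
        · exact k3 t' q
    · rcases hc with hc | hc
      · exact absurd ⟨z, hc⟩ hyu
      · exact absurd ⟨z, hc⟩ hyw
  -- the link of `u`
  have hlinku : ∀ {x x'}, contr T u w u x x' → ReflTransGen (contr T u w u) x a := by
    intro x x' hc
    have hc0 := hc
    rw [sphContr_iff_u] at hc
    obtain ⟨hc, n1, n2, n3, n4, n5⟩ := hc
    rcases hc with hc | hc
    · have := h.sphContr_link hab h1 h2 hc n3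
      refine ReflTransGen.mono ?_ _ _ this
      rintro s t ⟨k1, k2, k3⟩
      have m := h.distinct k1
      rw [sphContr_iff_u]
      exact ⟨Or.inl k1, m.1.symm, m.2.2, k2, k3, m.2.1⟩
    · have := h.sphContr_link hab (h.swp h1) (h.swp h2) hc n1
      refine ReflTransGen.mono ?_ _ _ this
      rintro s t ⟨k1, k2, k3⟩
      have m := h.distinct k1
      rw [sphContr_iff_u]
      exact ⟨Or.inr k1, k2, k3, m.1.symm, m.2.2, m.2.1⟩
  have hrot : ∀ {x y z}, contr T u w x y z → contr T u w y z x := fun hc => h.sphContr_rot hc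
  have hswp : ∀ {x y z}, contr T u w x y z → contr T u w y x z := fun hc => h.sphContr_swp hc
  have hvert := h.sphContr_vert h1
  refine ⟨hrot, hswp, fun hc => hc.1, ?_, ?_, ?_, ?_, ?_, ?_⟩
  · rw [hvert]; exact h.fin.subset sdiff_le
  · obtain ⟨t, ht⟩ := h.sphContr_adj (u := u) (w := w) (x := u) (y := a) ⟨w, h.swp23 h1⟩ (by
      rw [sphContr_pj_ne huw, sphContr_pj_ne dwa.symm]; exact dau.symm)
    exact ⟨_, _, _, ht⟩
  · intro x y z hc
    by_cases hx : x = u
    · subst hx
      exact hoppu hc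
    · by_cases hy : y = u
      · subst hy
        obtain ⟨t, k1, k2, k3⟩ := hoppu (hswp hc)
        exact ⟨t, k1, hswp k2, fun t' ht' => k3 t' (hswp ht')⟩
      · obtain ⟨hxw, hyw, z0, hz0, ez⟩ := sphContr_iff_edge hx hy hc
        obtain ⟨t, k1, k2, k3⟩ := h.opp hz0
        obtain ⟨m1, m2, m3⟩ := h.distinct k2
        have hne : pj u w t ≠ pj u w z0 := by
          intro e
          rcases sphContr_pj_eq e with e | ⟨e1, e2⟩ | ⟨e1, e2⟩
          · exact k1 e
          · exact hno x y (e1 ▸ k2) (e2 ▸ hz0)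
          · exact hno x y (e2 ▸ hz0) (e1 ▸ k2)
        refine ⟨pj u w t, by rw [← ez]; exact hne, ?_, ?_⟩
        · refine ⟨m1, ?_, ?_, x, y, t, k2, sphContr_pj_ne hxw, sphContr_pj_ne hyw, rfl⟩
          · intro e
            by_cases ht : t = w
            · rw [ht, sphContr_pj_w] at e; exact hy e
            · rw [sphContr_pj_ne ht] at e; exact m2 e
          · intro e
            by_cases ht : t = w
            · rw [ht, sphContr_pj_w] at e; exact hx e.symm
            · rw [sphContr_pj_ne ht] at e; exact m3 e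
        · intro t' ht'
          obtain ⟨-, -, t0, ht0, et⟩ := sphContr_iff_edge hx hy ht'
          rcases k3 t0 ht0 with e | e
          · left; rw [← et, ← ez, e]
          · right; rw [← et, e]
  · intro v x x' y y' hx hy
    by_cases hv : v = u
    · subst hv
      have k1 := hlinku hx
      have k2 := hlinku hy
      refine k1.trans ?_
      exact sphContr_rtg_symm (fun s t k => hrot (hswp k)) k2
    · have hvw : v ≠ w := by
        obtain ⟨-, -, -, v0, -, -, -, e, -⟩ := hx
        rw [← e]; exact sphContr_pj_ne_w huw v0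
      have hlift : ∀ {p q}, contr T u w v p q → ∃ p0 q0, T v p0 q0 ∧ pj u w p0 = p := by
        rintro p q ⟨n1, n2, n3, v0, p0, q0, ht, e1, e2, e3⟩
        have hv0 : v0 ≠ w := fun e => hv (by rw [← e1, e, sphContr_pj_w])
        rw [sphContr_pj_ne hv0] at e1
        subst e1
        exact ⟨p0, q0, ht, e2⟩
      obtain ⟨x0, x0', hx0, ex⟩ := hlift hx
      obtain ⟨y0, y0', hy0, ey⟩ := hlift hy
      have hch := h.link hx0 hy0
      rw [← ex, ← ey]
      refine ReflTransGen.lift' (pj u w) ?_ _ _ hch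
      intro s t hst
      change ReflTransGen (contr T u w v) (pj u w s) (pj u w t)
      by_cases e : pj u w s = pj u w t
      · rw [e]
      · apply ReflTransGen.single
        obtain ⟨m1, m2, m3⟩ := h.distinct hst
        have ev : pj u w v = v := sphContr_pj_ne hvw
        refine ⟨?_, e, ?_, v, s, t, hst, ev, rfl, rfl⟩
        · intro e'
          rw [← ev] at e'
          rcases sphContr_pj_eq e' with q | ⟨q1, q2⟩ | ⟨q1, q2⟩
          · exact m1 q
          · exact hv q1
          · exact hvw q1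
        · intro e'
          rw [← ev] at e'
          rcases sphContr_pj_eq e' with q | ⟨q1, q2⟩ | ⟨q1, q2⟩
          · exact m3 q
          · exact hvw q2
          · exact hv q2
  · intro x y hx hy
    rw [hvert] at hx hy
    have hxw : x ≠ w := hx.2
    have hyw : y ≠ w := hy.2
    have hch := h.conn hx.1 hy.1
    have : ReflTransGen (Adj3 (contr T u w)) (pj u w x) (pj u w y) := by
      refine ReflTransGen.lift' (pj u w) ?_ _ _ hch
      intro s t hst
      change ReflTransGen (Adj3 (contr T u w)) (pj u w s) (pj u w t)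
      by_cases e : pj u w s = pj u w t
      · rw [e]
      · exact ReflTransGen.single (h.sphContr_adj hst e)
    rw [sphContr_pj_ne hxw, sphContr_pj_ne hyw] at this
    exact this
  · intro g hs hg
    classical
    have h2' : ∀ c : ZMod 2, c + c = 0 := fun c => CharTwo.add_self_eq_zero c
    obtain ⟨hh, hhh⟩ := h.coh (fun x y => if pj u w x = pj u w y then 0 else
      g (pj u w x) (pj u w y)) (by
        intro x y
        by_cases e : pj u w x = pj u w y
        · simp [e]
        · have e' : pj u w y ≠ pj u w x := fun e'' => e e''.symm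
          simp only [e, e', if_false]
          exact hs _ _) (by
        intro x y z hxyz
        obtain ⟨m1, m2, m3⟩ := h.distinct hxyz
        by_cases e1 : pj u w x = pj u w y
        · have e2 : pj u w y ≠ pj u w z := by
            intro e2
            rcases sphContr_pj_eq e1 with e | ⟨f1, f2⟩ | ⟨f1, f2⟩ <;>
            rcases sphContr_pj_eq e2 with e' | ⟨f3, f4⟩ | ⟨f3, f4⟩ <;> grind
          have e3 : pj u w z ≠ pj u w x := by rw [e1]; exact e2.symm
          simp only [e1, e2, if_true, if_false, e2.symm]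
          rw [hs (pj u w z) (pj u w y), zero_add]
          exact h2' _
        · by_cases e2 : pj u w y = pj u w z
          · have e3 : pj u w z ≠ pj u w x := by rw [← e2]; exact fun e => e1 e.symm
            simp only [e2, if_true]
            rw [if_neg e3.symm, if_neg e3, hs (pj u w z) (pj u w x), add_zero]
            exact h2' _
          · by_cases e3 : pj u w z = pj u w x
            · simp only [e3, if_true]
              rw [if_neg e1, if_neg (fun e => e1 e.symm), hs (pj u w y) (pj u w x), add_zero]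
              exact h2' _
            · rw [if_neg e1, if_neg e2, if_neg e3]
              exact hg _ _ _ ⟨e1, e2, e3, x, y, z, hxyz, rfl, rfl, rfl⟩)
    have huweq : hh u = hh w := by
      have := hhh u w a h1
      rw [if_pos (by rw [sphContr_pj_ne huw, sphContr_pj_w])] at this
      have h3 : hh u = -hh w := eq_neg_of_add_eq_zero_left this.symm
      rw [h3]
      exact eq_neg_of_add_eq_zero_left (h2' _) |>.symm ▸ rfl
    have hpj : ∀ t, hh (pj u w t) = hh t := by
      intro t
      by_cases ht : t = w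
      · rw [ht, sphContr_pj_w, huweq]
      · rw [sphContr_pj_ne ht]
    refine ⟨hh, ?_⟩
    rintro x y z ⟨n1, n2, n3, x0, y0, z0, ht, e1, e2, e3⟩
    have := hhh x0 y0 z0 ht
    rw [if_neg (by rw [e1, e2]; exact n1), e1, e2] at this
    rw [this, ← e1, ← e2, hpj, hpj]

theorem vert_contr (h : IsSph T) {u w a b : V} (hab : a ≠ b) (h1 : T u w a) (h2 : T u w b)
    (hcom : ∀ z, Adj3 T u z → Adj3 T w z → z = a ∨ z = b)
    (h5 : ∃ x ∈ Vert T, x ≠ u ∧ x ≠ w ∧ x ≠ a ∧ x ≠ b) :
    Vert (contr T u w) = Vert T \ {w} := h.sphContr_vert h1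

theorem adj_contr (h : IsSph T) {u w a b : V} (hab : a ≠ b) (h1 : T u w a) (h2 : T u w b)
    (hcom : ∀ z, Adj3 T u z → Adj3 T w z → z = a ∨ z = b)
    (h5 : ∃ x ∈ Vert T, x ≠ u ∧ x ≠ w ∧ x ≠ a ∧ x ≠ b) {x y : V} (hxy : Adj3 T x y)
    (hne : pj u w x ≠ pj u w y) : Adj3 (contr T u w) (pj u w x) (pj u w y) :=
  h.sphContr_adj hxy hne

end Pool.Agent.Lib.MP_d86530_co
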