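import Pool.Agent.Lib.MP_d86530_co.Basic

/-! The sum of the boundaries of all faces is zero. -/

set_option autoImplicit false

namespace Pool.Agent.Lib.MP_d86530_co

variable {V : Type*} {T : V → V → V → Prop}

/-- a labelling which is balanced on all faces except possibly one is balanced on this face too -/
theorem IsSph.balanced_of_others (h : IsSph T) {a b c : V} (habc : T a b c)
    (g : V → V → ZMod 2) (hs : ∀ x y, g x y = g y x)
    (hg : ∀ x y z, T x y z → ¬ Tri a b c x y z → g x y + g y z + g z x = 0) :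
    g a b + g b c + g c a = 0 := by
  classical
  let _ : LinearOrder V := linearOrderOfSTO (WellOrderingRel : V → V → Prop)
  have hfin : {q : V × V × V | T q.1 q.2.1 q.2.2}.Finite := by
    refine (h.fin.prod (h.fin.prod h.fin)).subset ?_
    rintro ⟨x, y, z⟩ hq
    exact ⟨IsSph.vert1 hq, h.vert2 hq, h.vert3 hq⟩
  let F : Finset (V × V × V) := hfin.toFinset
  have hF : ∀ x y z, (x, y, z) ∈ F ↔ T x y z := fun x y z => by simp [F]
  choose! o ho1 ho2 ho3 using @IsSph.opp V T h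
  -- first count
  have h1 : ∑ q ∈ F, (if q.1 < q.2.1 then g q.1 q.2.1 else 0) = 0 := by
    have key : ∀ q ∈ F, T q.1 q.2.1 q.2.2 := fun q hq => (hF _ _ _).1 hq
    refine Finset.sum_involution (fun q _ => (q.1, q.2.1, @o q.1 q.2.1 q.2.2)) ?_ ?_ ?_ ?_
    · intro q hq
      dsimp only
      split_ifs
      · exact CharTwo.add_self_eq_zero _
      · exact add_zero 0
    · intro q hq _ he
      have := congrArg (fun r : V × V × V => r.2.2) he
      exact ho1 (key q hq) this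
    · intro q hq
      exact (hF _ _ _).2 (ho2 (key q hq))
    · intro q hq
      have hk := key q hq
      have h2 := ho2 hk
      have h3 := ho1 h2
      have h4 := ho3 hk _ (ho2 h2)
      rcases h4 with h4 | h4
      · dsimp only
        rw [h4]
      · exact absurd h4 h3
  -- second count
  have h2 : ∑ q ∈ F, (if q.1 < q.2.1 then g q.1 q.2.1 else 0) =
      ∑ q ∈ F, (if q.1 < q.2.1 ∧ q.2.1 < q.2.2 then
        g q.1 q.2.1 + g q.2.1 q.2.2 + g q.1 q.2.2 else 0) := by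
    have e1 : ∑ q ∈ F, (if q.1 < q.2.1 ∧ q.2.1 < q.2.2 then g q.2.1 q.2.2 else 0) =
        ∑ q ∈ F, (if q.2.2 < q.1 ∧ q.1 < q.2.1 then g q.1 q.2.1 else 0) := by
      refine Finset.sum_nbij' (fun q => (q.2.1, q.2.2, q.1)) (fun q => (q.2.2, q.1, q.2.1))
        ?_ ?_ ?_ ?_ ?_
      · intro q hq; exact (hF _ _ _).2 (h.rot ((hF _ _ _).1 hq))
      · intro q hq; exact (hF _ _ _).2 (h.rot2 ((hF _ _ _).1 hq))
      · intro q _; rfl
      · intro q _; rfl
      · intro q _; rfl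
    have e2 : ∑ q ∈ F, (if q.1 < q.2.1 ∧ q.2.1 < q.2.2 then g q.1 q.2.2 else 0) =
        ∑ q ∈ F, (if q.1 < q.2.2 ∧ q.2.2 < q.2.1 then g q.1 q.2.1 else 0) := by
      refine Finset.sum_nbij' (fun q => (q.1, q.2.2, q.2.1)) (fun q => (q.1, q.2.2, q.2.1))
        ?_ ?_ ?_ ?_ ?_
      · intro q hq; exact (hF _ _ _).2 (h.swp23 ((hF _ _ _).1 hq))
      · intro q hq; exact (hF _ _ _).2 (h.swp23 ((hF _ _ _).1 hq))
      · intro q _; rfl
      · intro q _; rfl
      · intro q _; rfl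
    have e3 : ∑ q ∈ F, (if q.1 < q.2.1 ∧ q.2.1 < q.2.2 then
        g q.1 q.2.1 + g q.2.1 q.2.2 + g q.1 q.2.2 else 0) =
        ∑ q ∈ F, (if q.1 < q.2.1 ∧ q.2.1 < q.2.2 then g q.1 q.2.1 else 0) +
        ∑ q ∈ F, (if q.1 < q.2.1 ∧ q.2.1 < q.2.2 then g q.2.1 q.2.2 else 0) +
        ∑ q ∈ F, (if q.1 < q.2.1 ∧ q.2.1 < q.2.2 then g q.1 q.2.2 else 0) := by
      rw [← Finset.sum_add_distrib, ← Finset.sum_add_distrib]
      refine Finset.sum_congr rfl fun q _ => ?_
      split_ifs <;> simp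
    rw [e3, e1, e2, ← Finset.sum_add_distrib, ← Finset.sum_add_distrib]
    refine Finset.sum_congr rfl fun q hq => ?_
    obtain ⟨n1, n2, n3⟩ := h.distinct ((hF _ _ _).1 hq)
    by_cases h1 : q.1 < q.2.1
    · rcases lt_trichotomy q.2.1 q.2.2 with k | k | k
      · have k1 : ¬ q.2.2 < q.1 := fun h5 => lt_asymm (h1.trans k) h5
        have k2 : ¬ q.2.2 < q.2.1 := fun h5 => lt_asymm k h5
        simp [h1, k, k1, k2]
      · exact absurd k n2
      · have k2 : ¬ q.2.1 < q.2.2 := fun h5 => lt_asymm k h5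
        rcases lt_trichotomy q.1 q.2.2 with l | l | l
        · have l1 : ¬ q.2.2 < q.1 := fun h5 => lt_asymm l h5
          simp [h1, k, k2, l, l1]
        · exact absurd l.symm n3
        · have l1 : ¬ q.1 < q.2.2 := fun h5 => lt_asymm l h5
          simp [h1, k2, l, l1]
    · have k3 : ¬ (q.1 < q.2.2 ∧ q.2.2 < q.2.1) := fun h5 => h1 (h5.1.trans h5.2)
      simp only [h1, k3, false_and, and_false, if_false, add_zero]
  -- the sorted permutation of `a b c`
  have h3 : ∃ x y z, Tri a b c x y z ∧ x < y ∧ y < z := by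
    obtain ⟨n1, n2, n3⟩ := h.distinct habc
    rcases lt_or_gt_of_ne n1 with p | p <;> rcases lt_or_gt_of_ne n2 with q | q <;>
      rcases lt_or_gt_of_ne n3 with r | r
    · exact absurd (p.trans (q.trans r)) (lt_irrefl _)
    · exact ⟨a, b, c, by simp [Tri], p, q⟩
    · exact ⟨c, a, b, by simp [Tri], r, p⟩
    · exact ⟨a, c, b, by simp [Tri], r, q⟩
    · exact ⟨b, c, a, by simp [Tri], q, r⟩
    · exact ⟨b, a, c, by simp [Tri], p, r⟩
    · exact ⟨c, b, a, by simp [Tri], q, p⟩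
    · exact absurd (r.trans (q.trans p)) (lt_irrefl _)
  obtain ⟨x, y, z, hT, hxy, hyz⟩ := h3
  have h4 : ∑ q ∈ F, (if q.1 < q.2.1 ∧ q.2.1 < q.2.2 then
        g q.1 q.2.1 + g q.2.1 q.2.2 + g q.1 q.2.2 else 0) = g x y + g y z + g x z := by
    rw [Finset.sum_eq_single (x, y, z)]
    · simp [hxy, hyz]
    · rintro ⟨p, q, r⟩ hq hne
      dsimp only
      split_ifs with hh
      · by_cases ht : Tri a b c p q r
        · exfalso
          apply hne
          have hpq : Tri x y z p q r := by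
            have e := tri_comm.1 hT
            rcases hT with ⟨rfl, rfl, rfl⟩ | ⟨rfl, rfl, rfl⟩ | ⟨rfl, rfl, rfl⟩ |
              ⟨rfl, rfl, rfl⟩ | ⟨rfl, rfl, rfl⟩ | ⟨rfl, rfl, rfl⟩ <;>
            · rcases ht with ⟨rfl, rfl, rfl⟩ | ⟨rfl, rfl, rfl⟩ | ⟨rfl, rfl, rfl⟩ |
                ⟨rfl, rfl, rfl⟩ | ⟨rfl, rfl, rfl⟩ | ⟨rfl, rfl, rfl⟩ <;> simp [Tri]
          have hxz := hxy.trans hyz
          obtain ⟨hpq', hqr⟩ := hh
          have hpr := hpq'.trans hqr
          rcases hpq with ⟨e1, e2, e3⟩ | ⟨e1, e2, e3⟩ | ⟨e1, e2, e3⟩ |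
                ⟨e1, e2, e3⟩ | ⟨e1, e2, e3⟩ | ⟨e1, e2, e3⟩
          · rw [e1, e2, e3]
          · rw [e2, e3] at hqr; exact absurd hqr (lt_asymm hyz)
          · rw [e1, e2] at hpq'; exact absurd hpq' (lt_asymm hxy)
          · rw [e1, e3] at hpr; exact absurd hpr (lt_asymm hxy)
          · rw [e1, e2] at hpq'; exact absurd hpq' (lt_asymm hxz)
          · rw [e1, e2] at hpq'; exact absurd hpq' (lt_asymm hyz)
        · rw [hs p r]
          exact hg p q r ((hF _ _ _).1 hq) ht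
      · rfl
    · intro hn
      exact absurd ((hF _ _ _).2 (h.tri habc hT)) hn
  have h5 : g x y + g y z + g x z = 0 := by rw [← h4, ← h2, h1]
  rw [hs x z] at h5
  rcases hT with ⟨rfl, rfl, rfl⟩ | ⟨rfl, rfl, rfl⟩ | ⟨rfl, rfl, rfl⟩ |
    ⟨rfl, rfl, rfl⟩ | ⟨rfl, rfl, rfl⟩ | ⟨rfl, rfl, rfl⟩
  · exact h5
  · rw [hs x z, hs z y, hs y x] at *; linear_combination h5
  · rw [hs y x, hs x z, hs z y] at *; linear_combination h5
  · linear_combination h5
  · linear_combination h5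
  · rw [hs z y, hs y x, hs x z] at *; linear_combination h5

end Pool.Agent.Lib.MP_d86530_co
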