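import Pool.Agent.Lib.MP_d86530_co.CycAvoid
import Pool.Agent.Lib.MP_d86530_co.SumFaces

/-! Glueing two combinatorial spheres along a face. -/

set_option autoImplicit false

namespace Pool.Agent.Lib.MP_d86530_co

open Relation

variable {V : Type*} {T T₁ T₂ : V → V → V → Prop}

theorem sphGlue_third {a b c x y z w : V} (hab : a ≠ b) (hbc : b ≠ c) (hca : c ≠ a)
    (h1 : Tri a b c x y z) (h2 : Tri a b c x y w) : z = w := by
  rcases h1 with ⟨e1, e2, e3⟩ | ⟨e1, e2, e3⟩ | ⟨e1, e2, e3⟩ | ⟨e1, e2, e3⟩ | ⟨e1, e2, e3⟩ |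
      ⟨e1, e2, e3⟩ <;>
    rcases h2 with ⟨k1, k2, k3⟩ | ⟨k1, k2, k3⟩ | ⟨k1, k2, k3⟩ | ⟨k1, k2, k3⟩ | ⟨k1, k2, k3⟩ |
      ⟨k1, k2, k3⟩ <;>
    first
    | exact e3.trans k3.symm
    | exact absurd (e1.symm.trans k1) hab
    | exact absurd (e1.symm.trans k1) hab.symm
    | exact absurd (e1.symm.trans k1) hbc
    | exact absurd (e1.symm.trans k1) hbc.symm
    | exact absurd (e1.symm.trans k1) hca
    | exact absurd (e1.symm.trans k1) hca.symm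
    | exact absurd (e2.symm.trans k2) hab
    | exact absurd (e2.symm.trans k2) hab.symm
    | exact absurd (e2.symm.trans k2) hbc
    | exact absurd (e2.symm.trans k2) hbc.symm
    | exact absurd (e2.symm.trans k2) hca
    | exact absurd (e2.symm.trans k2) hca.symm

theorem sphGlue_exists {a b c x y : V} (hx : x = a ∨ x = b ∨ x = c) (hy : y = a ∨ y = b ∨ y = c)
    (hxy : x ≠ y) : ∃ z, Tri a b c x y z := by
  rcases hx with hx | hx | hx <;> rcases hy with hy | hy | hy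
  · exact absurd (hx.trans hy.symm) hxy
  · exact ⟨c, Or.inl ⟨hx, hy, rfl⟩⟩
  · exact ⟨b, Or.inr (Or.inl ⟨hx, hy, rfl⟩)⟩
  · exact ⟨c, Or.inr (Or.inr (Or.inl ⟨hx, hy, rfl⟩))⟩
  · exact absurd (hx.trans hy.symm) hxy
  · exact ⟨a, Or.inr (Or.inr (Or.inr (Or.inl ⟨hx, hy, rfl⟩)))⟩
  · exact ⟨b, Or.inr (Or.inr (Or.inr (Or.inr (Or.inl ⟨hx, hy, rfl⟩))))⟩
  · exact ⟨a, Or.inr (Or.inr (Or.inr (Or.inr (Or.inr ⟨hx, hy, rfl⟩))))⟩
  · exact absurd (hx.trans hy.symm) hxy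

/-- a face with three vertices in `{a, b, c}` is `a b c` -/
theorem sphGlue_tri {a b c x y z : V} (hx : x = a ∨ x = b ∨ x = c) (hy : y = a ∨ y = b ∨ y = c)
    (hz : z = a ∨ z = b ∨ z = c) (hxy : x ≠ y) (hyz : y ≠ z) (hzx : z ≠ x) :
    Tri a b c x y z := by
  obtain ⟨t, ht⟩ := sphGlue_exists hx hy hxy
  have e : z = t := by
    rcases ht with ⟨e1, e2, e3⟩ | ⟨e1, e2, e3⟩ | ⟨e1, e2, e3⟩ | ⟨e1, e2, e3⟩ | ⟨e1, e2, e3⟩ |
      ⟨e1, e2, e3⟩ <;>
    · subst e1 e2 e3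
      rcases hz with hz | hz | hz <;>
      first
      | exact hz
      | exact absurd hz hzx
      | exact absurd hz.symm hyz
  rw [e]
  exact ht

/-- two pairs which complete `v` to `a b c` are equal up to order -/
theorem sphGlue_pair {a b c v x y p q : V} (hab : a ≠ b) (hbc : b ≠ c) (hca : c ≠ a)
    (h1 : Tri a b c v x y) (h2 : Tri a b c v p q) : (p = x ∧ q = y) ∨ (p = y ∧ q = x) := by
  have m1 : p = x ∨ p = y := by
    rcases h1 with ⟨e1, e2, e3⟩ | ⟨e1, e2, e3⟩ | ⟨e1, e2, e3⟩ | ⟨e1, e2, e3⟩ | ⟨e1, e2, e3⟩ |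
      ⟨e1, e2, e3⟩ <;>
    rcases h2 with ⟨k1, k2, k3⟩ | ⟨k1, k2, k3⟩ | ⟨k1, k2, k3⟩ | ⟨k1, k2, k3⟩ | ⟨k1, k2, k3⟩ |
      ⟨k1, k2, k3⟩ <;>
    first
    | exact Or.inl (k2.trans e2.symm)
    | exact Or.inr (k2.trans e3.symm)
    | exact absurd (e1.symm.trans k1) hab
    | exact absurd (e1.symm.trans k1) hab.symm
    | exact absurd (e1.symm.trans k1) hbc
    | exact absurd (e1.symm.trans k1) hbc.symm
    | exact absurd (e1.symm.trans k1) hca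
    | exact absurd (e1.symm.trans k1) hca.symm
  rcases m1 with rfl | rfl
  · exact Or.inl ⟨rfl, (sphGlue_third hab hbc hca h1 h2).symm⟩
  · refine Or.inr ⟨rfl, ?_⟩
    have h3 : Tri a b c v p x := tri_rot.1 (tri_swp.1 h1)
    exact (sphGlue_third hab hbc hca h3 h2).symm

section
variable {a b c : V}

theorem sphGlue_comm (x y z : V) : glue T₁ T₂ a b c x y z ↔ glue T₂ T₁ a b c x y z := by
  unfold glue
  rw [or_comm]

theorem sphGlue_left {x y z : V} (h : T₁ x y z) (hn : ¬ Tri a b c x y z) :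
    glue T₁ T₂ a b c x y z := ⟨Or.inl h, hn⟩

theorem sphGlue_right {x y z : V} (h : T₂ x y z) (hn : ¬ Tri a b c x y z) :
    glue T₁ T₂ a b c x y z := ⟨Or.inr h, hn⟩

theorem sphGlue_adj1 (h₁ : IsSph T₁) (ha : T₁ a b c) {x y : V} (h : Adj3 T₁ x y) :
    Adj3 (glue T₁ T₂ a b c) x y := by
  obtain ⟨hab, hbc, hca⟩ := h₁.distinct ha
  obtain ⟨z, hz⟩ := h
  by_cases ht : Tri a b c x y z
  · obtain ⟨w, hw1, hw2, -⟩ := h₁.opp hz
    exact ⟨w, sphGlue_left hw2 fun ht' => hw1 (sphGlue_third hab hbc hca ht' ht)⟩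
  · exact ⟨z, sphGlue_left hz ht⟩

theorem sphGlue_adj2 (h₂ : IsSph T₂) (hb : T₂ a b c) {x y : V} (h : Adj3 T₂ x y) :
    Adj3 (glue T₁ T₂ a b c) x y := by
  obtain ⟨z, hz⟩ := sphGlue_adj1 (T₂ := T₁) h₂ hb h
  exact ⟨z, (sphGlue_comm x y z).1 hz⟩

theorem sphGlue_link1 (h₁ : IsSph T₁) (ha : T₁ a b c) {v x y : V}
    (h : ReflTransGen (T₁ v) x y) : ReflTransGen (glue T₁ T₂ a b c v) x y := by
  obtain ⟨hab, hbc, hca⟩ := h₁.distinct ha
  induction h with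
  | refl => exact ReflTransGen.refl
  | @tail p q _ hpq ih =>
    refine ih.trans ?_
    by_cases ht : Tri a b c v p q
    · have h1 := h₁.link_avoid_edge hpq
      refine ReflTransGen.mono (fun s t k => ?_) _ _ h1
      refine sphGlue_left k.1 fun ht' => ?_
      rcases sphGlue_pair hab hbc hca ht ht' with e | e
      · exact k.2.1 e
      · exact k.2.2 e
    · exact ReflTransGen.single (sphGlue_left hpq ht)

theorem sphGlue_link2 (h₂ : IsSph T₂) (hb : T₂ a b c) {v x y : V}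
    (h : ReflTransGen (T₂ v) x y) : ReflTransGen (glue T₁ T₂ a b c v) x y := by
  have := sphGlue_link1 (T₂ := T₁) h₂ hb h
  exact ReflTransGen.mono (fun s t k => (sphGlue_comm v s t).1 k) _ _ this

theorem sphGlue_opp1 (h₁ : IsSph T₁) (h₂ : IsSph T₂) (ha : T₁ a b c) (hb : T₂ a b c)
    (hV : ∀ x, x ∈ Vert T₁ → x ∈ Vert T₂ → x = a ∨ x = b ∨ x = c) {x y z : V}
    (hz : T₁ x y z) (hn : ¬ Tri a b c x y z) :
    ∃ w, w ≠ z ∧ glue T₁ T₂ a b c x y w ∧ ∀ w', glue T₁ T₂ a b c x y w' → w' = z ∨ w' = w := by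
  obtain ⟨hab, hbc, hca⟩ := h₁.distinct ha
  obtain ⟨w, hw1, hw2, hw3⟩ := h₁.opp hz
  by_cases ht : Tri a b c x y w
  · have hw4 : T₂ x y w := h₂.tri hb ht
    obtain ⟨w2, k1, k2, k3⟩ := h₂.opp hw4
    refine ⟨w2, ?_, ?_, ?_⟩
    · rintro rfl
      apply hn
      obtain ⟨d1, d2, d3⟩ := h₁.distinct hz
      exact sphGlue_tri (hV x (IsSph.vert1 hz) (IsSph.vert1 k2))
        (hV y (h₁.vert2 hz) (h₂.vert2 k2)) (hV w2 (h₁.vert3 hz) (h₂.vert3 k2)) d1 d2 d3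
    · exact sphGlue_right k2 fun ht' => k1 (sphGlue_third hab hbc hca ht' ht)
    · rintro w' ⟨h3 | h3, h4⟩
      · rcases hw3 w' h3 with e | e
        · exact Or.inl e
        · exact absurd (e ▸ ht) h4
      · rcases k3 w' h3 with e | e
        · exact absurd (e ▸ ht) h4
        · exact Or.inr e
  · refine ⟨w, hw1, sphGlue_left hw2 ht, ?_⟩
    rintro w' ⟨h3 | h3, h4⟩
    · exact hw3 w' h3
    · exfalso
      obtain ⟨t, ht'⟩ := sphGlue_exists (hV x (IsSph.vert1 hz) (IsSph.vert1 h3))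
        (hV y (h₁.vert2 hz) (h₂.vert2 h3)) (h₁.ne hz)
      rcases hw3 t (h₁.tri ha ht') with e | e
      · exact hn (e ▸ ht')
      · exact ht (e ▸ ht')

end

theorem adj_glue {a b c : V} (h₁ : IsSph T₁) (h₂ : IsSph T₂) (ha : T₁ a b c) (hb : T₂ a b c)
    (hV : ∀ x, x ∈ Vert T₁ → x ∈ Vert T₂ → x = a ∨ x = b ∨ x = c) (x y : V) :
    Adj3 (glue T₁ T₂ a b c) x y ↔ Adj3 T₁ x y ∨ Adj3 T₂ x y := by
  constructor
  · rintro ⟨z, hz | hz, -⟩
    · exact Or.inl ⟨z, hz⟩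
    · exact Or.inr ⟨z, hz⟩
  · rintro (h | h)
    · exact sphGlue_adj1 h₁ ha h
    · exact sphGlue_adj2 h₂ hb h

theorem vert_glue {a b c : V} (h₁ : IsSph T₁) (h₂ : IsSph T₂) (ha : T₁ a b c) (hb : T₂ a b c)
    (hV : ∀ x, x ∈ Vert T₁ → x ∈ Vert T₂ → x = a ∨ x = b ∨ x = c) :
    Vert (glue T₁ T₂ a b c) = Vert T₁ ∪ Vert T₂ := by
  ext x
  constructor
  · rintro ⟨y, z, hz | hz, -⟩
    · exact Or.inl ⟨y, z, hz⟩
    · exact Or.inr ⟨y, z, hz⟩
  · rintro (⟨y, z, hz⟩ | ⟨y, z, hz⟩)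
    · exact ⟨y, (adj_glue h₁ h₂ ha hb hV x y).2 (Or.inl ⟨z, hz⟩)⟩
    · exact ⟨y, (adj_glue h₁ h₂ ha hb hV x y).2 (Or.inr ⟨z, hz⟩)⟩

theorem sphGlue_coh {a b c : V} (h₁ : IsSph T₁) (h₂ : IsSph T₂) (ha : T₁ a b c) (hb : T₂ a b c)
    (hV : ∀ x, x ∈ Vert T₁ → x ∈ Vert T₂ → x = a ∨ x = b ∨ x = c) (g : V → V → ZMod 2)
    (hs : ∀ x y, g x y = g y x)
    (hg : ∀ x y z, glue T₁ T₂ a b c x y z → g x y + g y z + g z x = 0) :
    ∃ h : V → ZMod 2, ∀ x y z, glue T₁ T₂ a b c x y z → g x y = h x + h y := by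
  classical
  have habc : g a b + g b c + g c a = 0 :=
    h₁.balanced_of_others ha g hs fun x y z h hn => hg x y z (sphGlue_left h hn)
  have hbal : ∀ x y z, Tri a b c x y z → g x y + g y z + g z x = 0 := by
    intro x y z ht
    rcases ht with ⟨rfl, rfl, rfl⟩ | ⟨rfl, rfl, rfl⟩ | ⟨rfl, rfl, rfl⟩ | ⟨rfl, rfl, rfl⟩ |
      ⟨rfl, rfl, rfl⟩ | ⟨rfl, rfl, rfl⟩
    · exact habc
    · rw [hs x y, hs y z, hs z x]; linear_combination habc
    · rw [hs x y, hs y z, hs z x]; linear_combination habc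
    · linear_combination habc
    · linear_combination habc
    · rw [hs x y, hs y z, hs z x]; linear_combination habc
  obtain ⟨k1, hk1⟩ := h₁.coh g hs fun x y z h => by
    by_cases ht : Tri a b c x y z
    · exact hbal x y z ht
    · exact hg x y z (sphGlue_left h ht)
  obtain ⟨k2, hk2⟩ := h₂.coh g hs fun x y z h => by
    by_cases ht : Tri a b c x y z
    · exact hbal x y z ht
    · exact hg x y z (sphGlue_right h ht)
  set k := k1 a + k2 a with hk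
  have e1 : k1 a = k2 a + k := by
    rw [hk]
    linear_combination -CharTwo.add_self_eq_zero (k2 a)
  have eb : k1 b = k2 b + k := by
    have p1 := hk1 a b c ha
    have p2 := hk2 a b c hb
    rw [hk]
    linear_combination p2 - p1 - CharTwo.add_self_eq_zero (k1 a)
  have ec : k1 c = k2 c + k := by
    have p1 := hk1 a c b (h₁.swp23 ha)
    have p2 := hk2 a c b (h₂.swp23 hb)
    rw [hk]
    linear_combination p2 - p1 - CharTwo.add_self_eq_zero (k1 a)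
  refine ⟨fun x => if x ∈ Vert T₁ then k1 x else k2 x + k, ?_⟩
  have hh2 : ∀ x, x ∈ Vert T₂ → (if x ∈ Vert T₁ then k1 x else k2 x + k) = k2 x + k := by
    intro x hx
    split_ifs with h
    · rcases hV x h hx with rfl | rfl | rfl
      · exact e1
      · exact eb
      · exact ec
    · rfl
  rintro x y z ⟨h | h, -⟩
  · simp only [if_pos (IsSph.vert1 h), if_pos (h₁.vert2 h)]
    exact hk1 x y z h
  · simp only [hh2 x (IsSph.vert1 h), hh2 y (h₂.vert2 h)]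
    rw [hk2 x y z h]
    linear_combination -CharTwo.add_self_eq_zero k

theorem isSph_glue {a b c : V} (h₁ : IsSph T₁) (h₂ : IsSph T₂) (ha : T₁ a b c) (hb : T₂ a b c)
    (hV : ∀ x, x ∈ Vert T₁ → x ∈ Vert T₂ → x = a ∨ x = b ∨ x = c) :
    IsSph (glue T₁ T₂ a b c) := by
  have hV' : ∀ x, x ∈ Vert T₂ → x ∈ Vert T₁ → x = a ∨ x = b ∨ x = c := fun x h h' => hV x h' h
  refine ⟨?_, ?_, ?_, ?_, ?_, ?_, ?_, ?_, ?_⟩
  · rintro x y z ⟨h | h, hn⟩
    · exact sphGlue_left (h₁.rot h) fun ht => hn (tri_rot.2 ht)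
    · exact sphGlue_right (h₂.rot h) fun ht => hn (tri_rot.2 ht)
  · rintro x y z ⟨h | h, hn⟩
    · exact sphGlue_left (h₁.swp h) fun ht => hn (tri_swp.2 ht)
    · exact sphGlue_right (h₂.swp h) fun ht => hn (tri_swp.2 ht)
  · rintro x y z ⟨h | h, -⟩
    · exact h₁.ne h
    · exact h₂.ne h
  · rw [vert_glue h₁ h₂ ha hb hV]
    exact h₁.fin.union h₂.fin
  · obtain ⟨z, hz⟩ := sphGlue_adj1 (T₂ := T₂) h₁ ha (x := a) (y := b) ⟨c, ha⟩
    exact ⟨a, b, z, hz⟩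
  · rintro x y z ⟨h | h, hn⟩
    · exact sphGlue_opp1 h₁ h₂ ha hb hV h hn
    · obtain ⟨w, w1, w2, w3⟩ := sphGlue_opp1 h₂ h₁ hb ha hV' h hn
      exact ⟨w, w1, (sphGlue_comm x y w).1 w2, fun w' hw' => w3 w' ((sphGlue_comm x y w').1 hw')⟩
  · rintro v p p' q q' ⟨h | h, hn⟩ ⟨k | k, kn⟩
    · exact sphGlue_link1 h₁ ha (h₁.link h k)
    · obtain ⟨x, y, ht⟩ : ∃ x y, Tri a b c v x y := by
        rcases hV v (IsSph.vert1 h) (IsSph.vert1 k) with rfl | rfl | rfl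
        · exact ⟨b, c, Or.inl ⟨rfl, rfl, rfl⟩⟩
        · exact ⟨a, c, Or.inr (Or.inr (Or.inl ⟨rfl, rfl, rfl⟩))⟩
        · exact ⟨a, b, Or.inr (Or.inr (Or.inr (Or.inr (Or.inl ⟨rfl, rfl, rfl⟩))))⟩
      exact (sphGlue_link1 h₁ ha (h₁.link h (h₁.tri ha ht))).trans
        (sphGlue_link2 h₂ hb (h₂.link (h₂.tri hb ht) k))
    · obtain ⟨x, y, ht⟩ : ∃ x y, Tri a b c v x y := by
        rcases hV v (IsSph.vert1 k) (IsSph.vert1 h) with rfl | rfl | rfl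
        · exact ⟨b, c, Or.inl ⟨rfl, rfl, rfl⟩⟩
        · exact ⟨a, c, Or.inr (Or.inr (Or.inl ⟨rfl, rfl, rfl⟩))⟩
        · exact ⟨a, b, Or.inr (Or.inr (Or.inr (Or.inr (Or.inl ⟨rfl, rfl, rfl⟩))))⟩
      exact (sphGlue_link2 h₂ hb (h₂.link h (h₂.tri hb ht))).trans
        (sphGlue_link1 h₁ ha (h₁.link (h₁.tri ha ht) k))
    · exact sphGlue_link2 h₂ hb (h₂.link h k)
  · intro x y hx hy
    rw [vert_glue h₁ h₂ ha hb hV] at hx hy
    have m1 : ∀ {p q}, ReflTransGen (Adj3 T₁) p q →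
        ReflTransGen (Adj3 (glue T₁ T₂ a b c)) p q := fun h =>
      ReflTransGen.mono (fun s t k => sphGlue_adj1 h₁ ha k) _ _ h
    have m2 : ∀ {p q}, ReflTransGen (Adj3 T₂) p q →
        ReflTransGen (Adj3 (glue T₁ T₂ a b c)) p q := fun h =>
      ReflTransGen.mono (fun s t k => sphGlue_adj2 h₂ hb k) _ _ h
    have va1 : a ∈ Vert T₁ := IsSph.vert1 ha
    have va2 : a ∈ Vert T₂ := IsSph.vert1 hb
    rcases hx with hx | hx <;> rcases hy with hy | hy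
    · exact m1 (h₁.conn hx hy)
    · exact (m1 (h₁.conn hx va1)).trans (m2 (h₂.conn va2 hy))
    · exact (m2 (h₂.conn hx va2)).trans (m1 (h₁.conn va1 hy))
    · exact m2 (h₂.conn hx hy)
  · intro g hs hg
    exact sphGlue_coh h₁ h₂ ha hb hV g hs hg

end Pool.Agent.Lib.MP_d86530_co
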