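import Pool.Agent.Lib.MP_d86530_co.OqpDefs

/-!
# MP_d86530_co: the algebraic dual at a cut vertex
-/

set_option autoImplicit false

namespace Pool.Agent.OQP

private theorem split_z2 (c : ZMod 2) : c + c = 0 := CharTwo.add_self_eq_zero c

private theorem split_handshake {V : Type} [DecidableEq V] (A : Finset V) (g : V → V → ZMod 2)
    (hs : ∀ u w, g u w = g w u) (h0 : ∀ u, g u u = 0) : ∑ u ∈ A, ∑ w ∈ A, g u w = 0 := by
  induction A using Finset.induction_on with
  | empty => simp
  | insert c A hc ih =>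
    rw [Finset.sum_insert hc, Finset.sum_insert hc, h0, zero_add]
    have h1 : ∑ u ∈ A, ∑ w ∈ insert c A, g u w = ∑ u ∈ A, g u c + ∑ u ∈ A, ∑ w ∈ A, g u w := by
      rw [← Finset.sum_add_distrib]
      exact Finset.sum_congr rfl fun u _ => Finset.sum_insert hc
    rw [h1, ih, add_zero]
    have h2 : ∑ u ∈ A, g u c = ∑ w ∈ A, g c w := Finset.sum_congr rfl fun u _ => hs u c
    rw [h2]
    exact split_z2 _

open Classical in
/-- restriction of an edge function to the edges that meet `S` -/
private noncomputable def split_rs {V : Type} (S : Set V) (x : Sym2 V → ZMod 2) (e : Sym2 V) :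
    ZMod 2 :=
  if ∃ u ∈ S, u ∈ e then x e else 0

private theorem split_rs_pos {V : Type} {S : Set V} (x : Sym2 V → ZMod 2) {e : Sym2 V}
    (h : ∃ u ∈ S, u ∈ e) : split_rs S x e = x e := if_pos h

private theorem split_rs_neg {V : Type} {S : Set V} (x : Sym2 V → ZMod 2) {e : Sym2 V}
    (h : ¬ ∃ u ∈ S, u ∈ e) : split_rs S x e = 0 := if_neg h

private theorem split_rs_zero {V : Type} (G : SimpleGraph V) (S : Set V) (x : Sym2 V → ZMod 2)
    (hx : ∀ e, e ∉ G.edgeSet → x e = 0) (e : Sym2 V) (he : e ∉ G.edgeSet) :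
    split_rs S x e = 0 := by
  by_cases h : ∃ u ∈ S, u ∈ e
  · rw [split_rs_pos x h]
    exact hx e he
  · exact split_rs_neg x h

private theorem split_rs_even {V : Type} [Fintype V] [DecidableEq V] (G : SimpleGraph V) (v : V)
    (S : Set V) (hv : v ∉ S) (hS : ∀ a ∈ S, ∀ b, G.Adj a b → b ≠ v → b ∈ S)
    (x : Sym2 V → ZMod 2) (hx : ∀ e, e ∉ G.edgeSet → x e = 0)
    (he : ∀ u, ∑ w, x s(u, w) = 0) (u : V) : ∑ w, split_rs S x s(u, w) = 0 := by
  have hne : ∀ u, u ≠ v → ∑ w, split_rs S x s(u, w) = 0 := by
    intro u huv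
    by_cases hu : u ∈ S
    · rw [← he u]
      exact Finset.sum_congr rfl fun w _ => split_rs_pos x ⟨u, hu, Sym2.mem_mk_left u w⟩
    · refine Finset.sum_eq_zero fun w _ => ?_
      by_cases hm : ∃ t ∈ S, t ∈ s(u, w)
      · rw [split_rs_pos x hm]
        obtain ⟨t, ht, htm⟩ := hm
        rcases Sym2.mem_iff.mp htm with rfl | rfl
        · exact absurd ht hu
        · refine hx _ fun hadj => hu ?_
          rw [SimpleGraph.mem_edgeSet] at hadj
          exact hS t ht u hadj.symm huv
      · exact split_rs_neg x hm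
  by_cases huv : u = v
  · subst huv
    have h1 := split_handshake (Finset.univ : Finset V) (fun a b => split_rs S x s(a, b))
      (fun a b => by rw [Sym2.eq_swap]) (fun a => by
        refine split_rs_zero G S x hx _ ?_
        rw [SimpleGraph.mem_edgeSet]
        exact G.loopless.irrefl a)
    rw [Finset.sum_eq_single u (fun a _ ha => hne a ha) (fun h => absurd (Finset.mem_univ u) h)]
      at h1
    exact h1
  · exact hne u huv

open Classical in
/-- the faces split in two copies -/
private theorem split_double {V F : Type} [Fintype V] [DecidableEq V] (G : SimpleGraph V)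
    (l r : Sym2 V → F) (h : IsDualF G l r) (v : V) (S : Set V) (hv : v ∉ S)
    (hS : ∀ a ∈ S, ∀ b, G.Adj a b → b ≠ v → b ∈ S) :
    IsDualF G (fun e => (l e, decide (∃ u ∈ S, u ∈ e))) (fun e => (r e, decide (∃ u ∈ S, u ∈ e))) := by
  intro x hx
  constructor
  · intro he
    have h1 := split_rs_even G v S hv hS x hx he
    obtain ⟨y1, hy1⟩ := (h (split_rs S x) (split_rs_zero G S x hx)).mp h1
    obtain ⟨y2, hy2⟩ := (h (fun e => x e + split_rs S x e) (fun e hne => by
      rw [hx e hne, split_rs_zero G S x hx e hne, add_zero])).mp (fun u => by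
        rw [Finset.sum_add_distrib, he u, h1 u, add_zero])
    refine ⟨fun p => if p.2 = true then y1 p.1 else y2 p.1, fun e hadj => ?_⟩
    by_cases hm : ∃ u ∈ S, u ∈ e
    · have h2 := hy1 e hadj
      rw [split_rs_pos x hm] at h2
      simp only [decide_eq_true hm, if_true]
      exact h2
    · have h2 := hy2 e hadj
      rw [split_rs_neg x hm, add_zero] at h2
      simp only [decide_eq_false hm, Bool.false_eq_true, if_false]
      exact h2
  · rintro ⟨y, hy⟩
    have hz : ∀ b : Bool, ∃ z : Sym2 V → ZMod 2, (∀ e, e ∉ G.edgeSet → z e = 0) ∧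
        (∀ e ∈ G.edgeSet, z e = y (l e, b) + y (r e, b)) ∧ ∀ u, ∑ w, z s(u, w) = 0 := by
      intro b
      refine ⟨fun e => if e ∈ G.edgeSet then y (l e, b) + y (r e, b) else 0,
        fun e he => if_neg he, fun e he => if_pos he, ?_⟩
      exact (h _ (fun e he => if_neg he)).mpr ⟨fun f => y (f, b), fun e he => if_pos he⟩
    obtain ⟨z1, hz1, hz1', hz1e⟩ := hz true
    obtain ⟨z2, hz2, hz2', hz2e⟩ := hz false
    have e1 := split_rs_even G v S hv hS z1 hz1 hz1e
    have e2 := split_rs_even G v S hv hS z2 hz2 hz2e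
    have hxe : ∀ e, x e = split_rs S z1 e + (z2 e + split_rs S z2 e) := by
      intro e
      by_cases hadj : e ∈ G.edgeSet
      · have h3 := hy e hadj
        by_cases hm : ∃ u ∈ S, u ∈ e
        · rw [split_rs_pos z1 hm, split_rs_pos z2 hm, split_z2, add_zero, hz1' e hadj, h3]
          simp only [decide_eq_true hm]
        · rw [split_rs_neg z1 hm, split_rs_neg z2 hm, add_zero, zero_add, hz2' e hadj, h3]
          simp only [decide_eq_false hm]
      · rw [hx e hadj, split_rs_zero G S z1 hz1 e hadj, split_rs_zero G S z2 hz2 e hadj, hz2 e hadj]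
        simp
    intro u
    rw [Finset.sum_congr rfl fun w _ => hxe s(u, w), Finset.sum_add_distrib,
      Finset.sum_add_distrib, e1 u, e2 u, hz2e u]
    simp

open Classical in
/-- B2a: the dual can be split at a cut vertex -/
theorem split_dual {V F : Type} [Fintype V] [DecidableEq V] (G : SimpleGraph V) (l r : Sym2 V → F)
    (h : IsDualF G l r) (v : V) (S : Set V) (hv : v ∉ S)
    (hS : ∀ a ∈ S, ∀ b, G.Adj a b → b ≠ v → b ∈ S) (a b : V) (ha : a ∈ S) (hb : b ∉ S) (hbv : b ≠ v)
    (hva : G.Adj v a) (hvb : G.Adj v b) :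
    ∃ (F' : Type) (l' r' : Sym2 V → F'), IsDualF G l' r' ∧ l' s(v, a) = l' s(v, b) := by
  have hd := split_double G l r h v S hv hS
  have hma : decide (∃ u ∈ S, u ∈ s(v, a)) = true := decide_eq_true ⟨a, ha, Sym2.mem_mk_right v a⟩
  have hmb : decide (∃ u ∈ S, u ∈ s(v, b)) = false := by
    refine decide_eq_false ?_
    rintro ⟨u, hu, hum⟩
    rcases Sym2.mem_iff.mp hum with rfl | rfl
    · exact hv hu
    · exact hb hu
  let m1 : F × Bool := (l s(v, a), true)
  let m2 : F × Bool := (l s(v, b), false)
  let q : F × Bool → F × Bool := fun p => if p = m2 then m1 else p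
  have hm12 : m1 ≠ m2 := fun h => by
    have := congrArg Prod.snd h
    exact Bool.noConfusion this
  refine ⟨F × Bool, fun e => q (l e, decide (∃ u ∈ S, u ∈ e)),
    fun e => q (r e, decide (∃ u ∈ S, u ∈ e)), ?_, ?_⟩
  · intro x hx
    rw [hd x hx]
    constructor
    · rintro ⟨y, hy⟩
      let y' : F × Bool → ZMod 2 := fun p => y p + if p.2 = true then 0 else y m1 + y m2
      have hq : ∀ p, y' (q p) = y' p := by
        intro p
        by_cases hp : p = m2
        · have h1 : q p = m1 := if_pos hp
          rw [h1, hp]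
          show y m1 + (if true = true then 0 else y m1 + y m2) =
            y m2 + (if false = true then 0 else y m1 + y m2)
          rw [if_pos rfl, if_neg Bool.false_ne_true, add_zero, add_left_comm, split_z2, add_zero]
        · have h1 : q p = p := if_neg hp
          rw [h1]
      refine ⟨y', fun e he => ?_⟩
      rw [hq, hq, hy e he]
      show y _ + y _ = (y (l e, decide (∃ u ∈ S, u ∈ e)) +
          if decide (∃ u ∈ S, u ∈ e) = true then 0 else y m1 + y m2) +
        (y (r e, decide (∃ u ∈ S, u ∈ e)) +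
          if decide (∃ u ∈ S, u ∈ e) = true then 0 else y m1 + y m2)
      rw [add_add_add_comm, split_z2 (if decide (∃ u ∈ S, u ∈ e) = true then 0 else y m1 + y m2),
        add_zero]
    · rintro ⟨y, hy⟩
      exact ⟨fun p => y (q p), hy⟩
  · show q (l s(v, a), decide (∃ u ∈ S, u ∈ s(v, a))) = q (l s(v, b), decide (∃ u ∈ S, u ∈ s(v, b)))
    rw [hma, hmb]
    have h1 : q m1 = m1 := if_neg hm12
    have h2 : q m2 = m1 := if_pos rfl
    exact h1.trans h2.symm

open Classical in
/-- B2b: a bridge can be added between two sides without edges between them -/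
theorem add_bridge {V : Type} [Fintype V] [DecidableEq V] (G : SimpleGraph V) (h : AlgPlanar G)
    (S : Set V) (hS : ∀ a ∈ S, ∀ b, G.Adj a b → b ∈ S) (a b : V) (ha : a ∈ S) (hb : b ∉ S) :
    AlgPlanar (G ⊔ SimpleGraph.edge a b) := by
  obtain ⟨F, l, r, hd⟩ := h
  rw [isDual_iff] at hd
  have hab : a ≠ b := fun h => hb (h ▸ ha)
  have hnab : ¬ G.Adj a b := fun h => hb (hS a ha b h)
  have hmem : ∀ e, e ∈ (G ⊔ SimpleGraph.edge a b).edgeSet ↔ e ∈ G.edgeSet ∨ e = s(a, b) := by
    intro e
    induction e using Sym2.ind with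
    | _ u w =>
      rw [SimpleGraph.mem_edgeSet, SimpleGraph.mem_edgeSet, SimpleGraph.sup_adj,
        SimpleGraph.edge_adj, Sym2.eq_iff]
      constructor
      · rintro (h | ⟨h | h, -⟩)
        · exact Or.inl h
        · exact Or.inr (Or.inl h)
        · exact Or.inr (Or.inr h)
      · rintro (h | h | h)
        · exact Or.inl h
        · exact Or.inr ⟨Or.inl h, by rw [h.1, h.2]; exact hab⟩
        · exact Or.inr ⟨Or.inr h, by rw [h.1, h.2]; exact hab.symm⟩
  have hnG : s(a, b) ∉ G.edgeSet := by
    rw [SimpleGraph.mem_edgeSet]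
    exact hnab
  let r' : Sym2 V → F := fun e => if e = s(a, b) then l e else r e
  refine ⟨F, l, r', ?_⟩
  rw [isDual_iff]
  intro x hx
  constructor
  · intro he
    -- the bridge carries nothing
    have h0 : x s(a, b) = 0 := by
      have h1 : ∑ u ∈ Finset.univ.filter (fun u => u ∈ S), ∑ w, x s(u, w) = 0 :=
        Finset.sum_eq_zero fun u _ => he u
      have h2 : ∀ u, ∑ w, x s(u, w) = ∑ w ∈ Finset.univ.filter (fun w => w ∈ S), x s(u, w) +
          ∑ w ∈ Finset.univ.filter (fun w => w ∉ S), x s(u, w) := fun u =>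
        (Finset.sum_filter_add_sum_filter_not _ _ _).symm
      rw [Finset.sum_congr rfl fun u _ => h2 u, Finset.sum_add_distrib,
        split_handshake _ (fun u w => x s(u, w)) (fun u w => by rw [Sym2.eq_swap]) (fun u => by
          refine hx _ fun hm => ?_
          rw [SimpleGraph.mem_edgeSet] at hm
          exact hm.ne rfl), zero_add] at h1
      have h3 : ∀ u ∈ S, ∀ w, w ∉ S → (u ≠ a ∨ w ≠ b) → x s(u, w) = 0 := by
        intro u hu w hw hor
        refine hx _ fun hm => ?_
        rcases (hmem _).mp hm with hm | hm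
        · rw [SimpleGraph.mem_edgeSet] at hm
          exact hw (hS u hu w hm)
        · rcases Sym2.eq_iff.mp hm with ⟨h4, h5⟩ | ⟨h4, h5⟩
          · rcases hor with h6 | h6
            · exact h6 h4
            · exact h6 h5
          · exact hb (h4 ▸ hu)
      rw [Finset.sum_eq_single a, Finset.sum_eq_single b] at h1
      · exact h1
      · intro w hw hwb
        exact h3 a ha w (Finset.mem_filter.mp hw).2 (Or.inr hwb)
      · intro hcon
        exact absurd (Finset.mem_filter.mpr ⟨Finset.mem_univ b, hb⟩) hcon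
      · intro u hu hua
        refine Finset.sum_eq_zero fun w hw => ?_
        exact h3 u (Finset.mem_filter.mp hu).2 w (Finset.mem_filter.mp hw).2 (Or.inl hua)
      · intro hcon
        exact absurd (Finset.mem_filter.mpr ⟨Finset.mem_univ a, ha⟩) hcon
    have hxG : ∀ e, e ∉ G.edgeSet → x e = 0 := by
      intro e heG
      by_cases hee : e = s(a, b)
      · rw [hee]
        exact h0
      · exact hx e fun hm => ((hmem e).mp hm).elim heG hee
    obtain ⟨y, hy⟩ := (hd x hxG).mp he
    refine ⟨y, fun e hm => ?_⟩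
    by_cases hee : e = s(a, b)
    · have h1 : r' e = l e := if_pos hee
      rw [h1, split_z2, hee]
      exact h0
    · have h1 : r' e = r e := if_neg hee
      rw [h1]
      exact hy e (((hmem e).mp hm).resolve_right hee)
  · rintro ⟨y, hy⟩
    have h0 : x s(a, b) = 0 := by
      have h1 := hy s(a, b) ((hmem _).mpr (Or.inr rfl))
      have h2 : r' s(a, b) = l s(a, b) := if_pos rfl
      rw [h1, h2, split_z2]
    have hxG : ∀ e, e ∉ G.edgeSet → x e = 0 := by
      intro e heG
      by_cases hee : e = s(a, b)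
      · rw [hee]
        exact h0
      · exact hx e fun hm => ((hmem e).mp hm).elim heG hee
    refine (hd x hxG).mpr ⟨y, fun e hm => ?_⟩
    have hee : e ≠ s(a, b) := fun h => hnG (h ▸ hm)
    have h1 := hy e ((hmem e).mpr (Or.inl hm))
    have h2 : r' e = r e := if_neg hee
    rw [h1, h2]

end Pool.Agent.OQP
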