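import Pool.Agent.Lib.MP_d86530_co.AddEdge
import Pool.Agent.Lib.MP_d86530_co.Split

/-!
# MP_d86530_co: edge-maximal graphs with an algebraic dual
-/

set_option autoImplicit false

namespace Pool.Agent.OQP

/-- edge-maximal -/
def EdgeMax {V : Type} (G : SimpleGraph V) : Prop :=
  AlgPlanar G ∧ ∀ a b, a ≠ b → AlgPlanar (G ⊔ SimpleGraph.edge a b) → G.Adj a b

theorem edgeMax_face {V F : Type} [Fintype V] [DecidableEq V] (G : SimpleGraph V) (h : EdgeMax G)
    (l r : Sym2 V → F) (hd : IsDualF G l r) (v a b : V) (hab : a ≠ b) (hva : G.Adj v a)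
    (hvb : G.Adj v b) (m : F) (hma : m = l s(v, a) ∨ m = r s(v, a))
    (hmb : m = l s(v, b) ∨ m = r s(v, b)) : G.Adj a b := by
  by_contra hn
  exact hn (h.2 a b hab (add_edge G l r hd v a b hab hva hvb hn m hma hmb))

/-- B3 -/
theorem edgeMax_conn {V : Type} [Fintype V] [DecidableEq V] (G : SimpleGraph V) (h : EdgeMax G)
    (v : V) : (G.induce {w | w ≠ v}).Preconnected := by
  intro x y
  by_contra hxy
  set S : Set V := {w | ∃ hw : w ≠ v, (G.induce {w | w ≠ v}).Reachable x ⟨w, hw⟩} with hSdef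
  have hvS : v ∉ S := fun hv => hv.1 rfl
  have hxS : (x : V) ∈ S := ⟨x.2, SimpleGraph.Reachable.refl x⟩
  have hyS : (y : V) ∉ S := fun hy => hxy hy.2
  have hS : ∀ a ∈ S, ∀ b, G.Adj a b → b ≠ v → b ∈ S := by
    rintro a ⟨ha, hr⟩ b hab hb
    refine ⟨hb, hr.trans (SimpleGraph.Adj.reachable ?_)⟩
    exact hab
  by_cases h1 : ∃ a ∈ S, G.Adj v a
  · obtain ⟨a, haS, hva⟩ := h1
    by_cases h2 : ∃ b, b ∉ S ∧ G.Adj v b
    · obtain ⟨b, hbS, hvb⟩ := h2
      obtain ⟨F, l, r, hd⟩ := h.1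
      obtain ⟨F', l', r', hd', he⟩ := split_dual G l r ((isDual_iff G l r).mp hd) v S hvS hS a b
        haS hbS hvb.ne' hva hvb
      have hab : a ≠ b := fun e => hbS (e ▸ haS)
      have := edgeMax_face G h l' r' hd' v a b hab hva hvb (l' s(v, a)) (Or.inl rfl) (Or.inl he)
      exact hbS (hS a haS b this hvb.ne')
    · push Not at h2
      have hS' : ∀ a ∈ S ∪ {v}, ∀ b, G.Adj a b → b ∈ S ∪ {v} := by
        rintro a (ha | ha) b hab
        · by_cases hb : b = v
          · exact Or.inr hb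
          · exact Or.inl (hS a ha b hab hb)
        · rw [Set.mem_singleton_iff] at ha
          left
          by_contra hb
          exact h2 b hb (ha ▸ hab)
      have hyS' : (y : V) ∉ S ∪ {v} := by
        rintro (hy | hy)
        · exact hyS hy
        · exact y.2 hy
      have := h.2 x y (fun e => hyS (e ▸ hxS)) (add_bridge G h.1 (S ∪ {v}) hS' x y (Or.inl hxS) hyS')
      exact hyS (hS x hxS y this y.2)
  · push Not at h1
    have hS' : ∀ a ∈ S, ∀ b, G.Adj a b → b ∈ S := by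
      intro a ha b hab
      exact hS a ha b hab (fun e => h1 a ha (e ▸ hab.symm))
    have := h.2 x y (fun e => hyS (e ▸ hxS)) (add_bridge G h.1 S hS' x y hxS hyS)
    exact hyS (hS x hxS y this y.2)

theorem exists_edgeMax {V : Type} [Fintype V] [DecidableEq V] (G : SimpleGraph V)
    (h : AlgPlanar G) : ∃ G', G ≤ G' ∧ EdgeMax G' := by
  obtain ⟨G', hG', hmax⟩ := (Set.toFinite {G' : SimpleGraph V | AlgPlanar G'}).exists_le_maximal
    (show G ∈ {G' : SimpleGraph V | AlgPlanar G'} from h)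
  refine ⟨G', hG', hmax.prop, fun a b hab hp => ?_⟩
  have h1 : G' ⊔ SimpleGraph.edge a b ≤ G' := hmax.le_of_ge hp le_sup_left
  have h2 : (SimpleGraph.edge a b).Adj a b := by
    rw [SimpleGraph.edge_adj]
    exact ⟨Or.inl ⟨rfl, rfl⟩, hab⟩
  exact (le_sup_right.trans h1) h2

end Pool.Agent.OQP
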