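import Mathlib
import Pool.Agent.Lib.MP_d86530_co.OqpDefs

/-!
# MP_d86530_co, piece A6: T-joins modulo 2 in a connected finite set of vertices
-/

set_option autoImplicit false

namespace Pool.Agent.OQP

section tj
variable {W : Type}

/-- `x` is supported on the edges of `H` inside `B` -/
private def tjOk (H : SimpleGraph W) (B : Set W) (x : Sym2 W → ZMod 2) : Prop :=
  (∀ e, e ∉ H.edgeSet → x e = 0) ∧ ∀ e, x e ≠ 0 → ∀ w ∈ e, w ∈ B

private theorem tj_supp {B : Set W} (hB : B.Finite) (z : Sym2 W → ZMod 2)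
    (hz : ∀ f, z f ≠ 0 → ∀ w ∈ f, w ∈ B) : (Function.support z).Finite := by
  classical
  refine ((hB.toFinset ×ˢ hB.toFinset).image
    (fun p : W × W => s(p.1, p.2))).finite_toSet.subset fun f hf => ?_
  induction f with
  | _ a c =>
    have h := hz _ hf
    rw [Finset.coe_image, Set.mem_image]
    exact ⟨(a, c), by
      simp only [Finset.coe_product, Set.mem_prod, Finset.mem_coe, Set.Finite.mem_toFinset]
      exact ⟨h a (Sym2.mem_mk_left a c), h c (Sym2.mem_mk_right a c)⟩, rfl⟩

private theorem tj_star {B : Set W} (hB : B.Finite) (z : Sym2 W → ZMod 2)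
    (hz : ∀ f, z f ≠ 0 → ∀ w ∈ f, w ∈ B) (w : W) :
    ∑ᶠ w', z s(w, w') = ∑ w' ∈ hB.toFinset, z s(w, w') := by
  refine finsum_eq_sum_of_support_subset _ fun w' hw' => ?_
  rw [Set.Finite.coe_toFinset]
  exact hz _ hw' w' (Sym2.mem_mk_right w w')

open scoped Classical in
/-- a single edge -/
private theorem tj_edge (H : SimpleGraph W) {B : Set W} (hB : B.Finite) {u v : W}
    (hu : u ∈ B) (hv : v ∈ B) (huv : H.Adj u v) :
    ∃ x : Sym2 W → ZMod 2, tjOk H B x ∧
      ∀ w, ∑ w' ∈ hB.toFinset, x s(w, w') = (if w = u then 1 else 0) + (if w = v then 1 else 0) := by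
  refine ⟨fun e => if e = s(u, v) then 1 else 0, ⟨?_, ?_⟩, ?_⟩
  · intro e he
    refine if_neg ?_
    rintro rfl
    exact he huv
  · intro e he w hw
    by_cases h : e = s(u, v)
    · rw [h] at hw
      rcases Sym2.mem_iff.1 hw with rfl | rfl
      · exact hu
      · exact hv
    · exact absurd (if_neg h) he
  · intro w
    have hne := H.ne_of_adj huv
    show ∑ w' ∈ hB.toFinset, (if s(w, w') = s(u, v) then (1 : ZMod 2) else 0) = _
    by_cases h1 : w = u
    · subst h1
      rw [if_pos rfl, if_neg hne, add_zero, Finset.sum_eq_single v]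
      · exact if_pos rfl
      · intro w' _ h
        refine if_neg fun h2 => ?_
        rcases Sym2.eq_iff.1 h2 with ⟨_, h3⟩ | ⟨h3, _⟩
        · exact h h3
        · exact hne h3
      · intro h
        exact absurd (hB.mem_toFinset.2 hv) h
    · by_cases h2 : w = v
      · subst h2
        rw [if_neg h1, if_pos rfl, zero_add, Finset.sum_eq_single u]
        · exact if_pos Sym2.eq_swap
        · intro w' _ h
          refine if_neg fun h2 => ?_
          rcases Sym2.eq_iff.1 h2 with ⟨h3, _⟩ | ⟨_, h3⟩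
          · exact h1 h3
          · exact h h3
        · intro h
          exact absurd (hB.mem_toFinset.2 hu) h
      · rw [if_neg h1, if_neg h2, add_zero]
        refine Finset.sum_eq_zero fun w' _ => if_neg fun h3 => ?_
        rcases Sym2.eq_iff.1 h3 with ⟨h4, _⟩ | ⟨h4, _⟩
        · exact h1 h4
        · exact h2 h4

private theorem tjOk_add {H : SimpleGraph W} {B : Set W} {x y : Sym2 W → ZMod 2}
    (hx : tjOk H B x) (hy : tjOk H B y) : tjOk H B (fun e => x e + y e) := by
  refine ⟨fun e he => ?_, fun e he w hw => ?_⟩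
  · show x e + y e = 0
    rw [hx.1 e he, hy.1 e he, add_zero]
  · by_cases h : x e = 0
    · refine hy.2 e (fun h2 => he ?_) w hw
      show x e + y e = 0
      rw [h, h2, add_zero]
    · exact hx.2 e h w hw

open scoped Classical in
/-- a walk -/
private theorem tj_walk (H : SimpleGraph W) {B : Set W} (hB : B.Finite) {a b : B}
    (p : (H.induce B).Walk a b) :
    ∃ x : Sym2 W → ZMod 2, tjOk H B x ∧
      ∀ w, ∑ w' ∈ hB.toFinset, x s(w, w') =
        (if w = a.1 then 1 else 0) + (if w = b.1 then 1 else 0) := by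
  induction p with
  | nil =>
    refine ⟨fun _ => 0, ⟨fun _ _ => rfl, fun e he => absurd rfl he⟩, fun w => ?_⟩
    rw [Finset.sum_const_zero]
    exact (CharTwo.add_self_eq_zero _).symm
  | cons h p ih =>
    rename_i u v w
    obtain ⟨x, hx, hx'⟩ := ih
    obtain ⟨y, hy, hy'⟩ := tj_edge H hB u.2 v.2 h
    refine ⟨fun e => y e + x e, tjOk_add hy hx, fun z => ?_⟩
    rw [Finset.sum_add_distrib, hx', hy']
    calc ((if z = u.1 then (1 : ZMod 2) else 0) + (if z = v.1 then 1 else 0)) +
          ((if z = v.1 then (1 : ZMod 2) else 0) + (if z = w.1 then 1 else 0))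
        = (if z = u.1 then (1 : ZMod 2) else 0) + (if z = w.1 then 1 else 0) +
          ((if z = v.1 then (1 : ZMod 2) else 0) + (if z = v.1 then (1 : ZMod 2) else 0)) := by ring
      _ = _ := by rw [CharTwo.add_self_eq_zero, add_zero]

end tj

/-- A6: T-joins in a connected graph -/
theorem exists_tjoin {W : Type} (H : SimpleGraph W) (B : Set W) (hB : B.Finite)
    (hc : (H.induce B).Preconnected) (t : W → ZMod 2) (ht : ∀ w, w ∉ B → t w = 0)
    (h0 : ∑ᶠ w, t w = 0) :
    ∃ x : Sym2 W → ZMod 2, (Function.support x).Finite ∧ (∀ e, e ∉ H.edgeSet → x e = 0) ∧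
      (∀ e, x e ≠ 0 → ∀ w ∈ e, w ∈ B) ∧ ∀ v, ∑ᶠ w, x s(v, w) = t v := by
  classical
  rcases B.eq_empty_or_nonempty with hBe | ⟨b0, hb0⟩
  · refine ⟨fun _ => 0, ?_, fun _ _ => rfl, fun e he => absurd rfl he, fun v => ?_⟩
    · exact Set.finite_empty.subset fun e he => absurd rfl he
    · rw [finsum_zero, ht v (by rw [hBe]; exact Set.notMem_empty v)]
  have h0' : ∑ w ∈ hB.toFinset, t w = 0 := by
    rw [← h0]
    refine (finsum_eq_sum_of_support_subset _ fun w hw => ?_).symm
    rw [Set.Finite.coe_toFinset]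
    by_contra h
    exact hw (ht w h)
  have hp : ∀ a : W, ∃ x : Sym2 W → ZMod 2, a ∈ B → tjOk H B x ∧
      ∀ w, ∑ w' ∈ hB.toFinset, x s(w, w') =
        (if w = a then 1 else 0) + (if w = b0 then 1 else 0) := by
    intro a
    by_cases ha : a ∈ B
    · obtain ⟨p⟩ := hc ⟨a, ha⟩ ⟨b0, hb0⟩
      obtain ⟨x, hx⟩ := tj_walk H hB p
      exact ⟨x, fun _ => hx⟩
    · exact ⟨fun _ => 0, fun h => absurd h ha⟩
  choose X hX using hp
  let x : Sym2 W → ZMod 2 := fun e => ∑ a ∈ hB.toFinset, t a * X a e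
  have hxB : ∀ e, x e ≠ 0 → ∀ w ∈ e, w ∈ B := by
    intro e he w hw
    obtain ⟨a, ha, h⟩ := Finset.exists_ne_zero_of_sum_ne_zero he
    exact (hX a (hB.mem_toFinset.1 ha)).1.2 e (fun h2 => h (by rw [h2, mul_zero])) w hw
  refine ⟨x, tj_supp hB x hxB, ?_, hxB, ?_⟩
  · intro e he
    refine Finset.sum_eq_zero fun a ha => ?_
    rw [(hX a (hB.mem_toFinset.1 ha)).1.1 e he, mul_zero]
  · intro v
    rw [tj_star hB x hxB v]
    show ∑ w ∈ hB.toFinset, ∑ a ∈ hB.toFinset, t a * X a s(v, w) = t v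
    rw [Finset.sum_comm]
    have h1 : ∀ a ∈ hB.toFinset, ∑ w ∈ hB.toFinset, t a * X a s(v, w) =
        (if v = a then t a else 0) + t a * (if v = b0 then 1 else 0) := by
      intro a ha
      rw [← Finset.mul_sum, (hX a (hB.mem_toFinset.1 ha)).2 v, mul_add]
      congr 1
      by_cases h : v = a
      · rw [if_pos h, if_pos h, mul_one]
      · rw [if_neg h, if_neg h, mul_zero]
    rw [Finset.sum_congr rfl h1, Finset.sum_add_distrib, ← Finset.sum_mul, h0', zero_mul, add_zero,
      Finset.sum_ite_eq]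
    split_ifs with h
    · rfl
    · exact (ht v fun h2 => h (hB.mem_toFinset.2 h2)).symm

end Pool.Agent.OQP
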