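import Mathlib
import Pool.Agent.Lib.MP_d86530_co.OqpDefs
import Pool.Agent.Lib.MP_d86530_co.TJoin

/-!
# MP_d86530_co, piece A7: graphs with an algebraic dual are closed under minors
-/

set_option autoImplicit false

namespace Pool.Agent.OQP

section md
variable {V W : Type}

open scoped Classical in
/-- sums over stars of functions supported on a finite set of vertices -/
private theorem md_star (S : Finset W) (z : Sym2 W → ZMod 2) (hz : ∀ f, z f ≠ 0 → ∀ w ∈ f, w ∈ S)
    (w : W) : ∑ᶠ w', z s(w, w') = ∑ w' ∈ S, z s(w, w') := by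
  refine finsum_eq_sum_of_support_subset _ fun w' hw' => ?_
  exact hz _ hw' w' (Sym2.mem_mk_right w w')

private theorem md_supp (S : Finset W) (z : Sym2 W → ZMod 2)
    (hz : ∀ f, z f ≠ 0 → ∀ w ∈ f, w ∈ S) : (Function.support z).Finite := by
  classical
  refine ((S ×ˢ S).image (fun p : W × W => s(p.1, p.2))).finite_toSet.subset fun f hf => ?_
  induction f with
  | _ a c =>
    have h := hz _ hf
    rw [Finset.coe_image, Set.mem_image]
    exact ⟨(a, c), by
      simp only [Finset.coe_product, Set.mem_prod, Finset.mem_coe]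
      exact ⟨h a (Sym2.mem_mk_left a c), h c (Sym2.mem_mk_right a c)⟩, rfl⟩

/-- the sum over all pairs of a symmetric function vanishing on the diagonal -/
private theorem md_inner (b : Finset W) (z : Sym2 W → ZMod 2) (hd : ∀ a, z s(a, a) = 0) :
    ∑ w ∈ b, ∑ w' ∈ b, z s(w, w') = 0 := by
  classical
  rw [← Finset.sum_product']
  refine Finset.sum_involution (fun p _ => (p.2, p.1)) ?_ ?_ ?_ ?_
  · rintro ⟨a, c⟩ _
    rw [Sym2.eq_swap (a := a)]
    exact CharTwo.add_self_eq_zero _
  · rintro ⟨a, c⟩ _ h heq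
    simp only [Prod.mk.injEq] at heq
    apply h
    simp only
    rw [heq.2]
    exact hd _
  · rintro ⟨a, c⟩ h
    rw [Finset.mem_product] at h ⊢
    exact ⟨h.2, h.1⟩
  · rintro ⟨a, c⟩ _
    rfl

variable {G : SimpleGraph V} {B : V → Set W} {φ : Sym2 V → Sym2 W}

/-- the edge between the branch sets is determined -/
private theorem md_K1 (hBd : ∀ u v, u ≠ v → Disjoint (B u) (B v))
    (hφ : ∀ e ∈ G.edgeSet, ∀ u v, e = s(u, v) → ∃ a ∈ B u, ∃ c ∈ B v, φ e = s(a, c))
    {u v : V} {a c : W} (ha : a ∈ B u) (hc : c ∈ B v) {e : Sym2 V}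
    (he : e ∈ G.edgeSet) (h : s(a, c) = φ e) : e = s(u, v) := by
  have dis : ∀ {u p : V} {a : W}, a ∈ B u → a ∈ B p → u = p := by
    intro u p a h1 h2
    by_contra hne
    exact Set.disjoint_left.1 (hBd u p hne) h1 h2
  induction e with
  | _ p q =>
    obtain ⟨a', ha', c', hc', h'⟩ := hφ _ he p q rfl
    rw [h'] at h
    rcases Sym2.eq_iff.1 h with ⟨rfl, rfl⟩ | ⟨rfl, rfl⟩
    · rw [dis ha ha', dis hc hc']
    · rw [dis ha hc', dis hc ha', Sym2.eq_swap]

private theorem md_K2 (hBd : ∀ u v, u ≠ v → Disjoint (B u) (B v)) {u v : V} (huv : u ≠ v) {a c : W}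
    (ha : a ∈ B u) (hc : c ∈ B v) {p : V} (h : ∀ w ∈ s(a, c), w ∈ B p) : False := by
  have dis : ∀ {u p : V} {a : W}, a ∈ B u → a ∈ B p → u = p := by
    intro u p a h1 h2
    by_contra hne
    exact Set.disjoint_left.1 (hBd u p hne) h1 h2
  exact huv ((dis ha (h a (Sym2.mem_mk_left a c))).trans
    (dis hc (h c (Sym2.mem_mk_right a c))).symm)

open scoped Classical in
/-- the counting lemma -/
private theorem md_total [Fintype V] (hBf : ∀ v, (B v).Finite)
    (hBd : ∀ u v, u ≠ v → Disjoint (B u) (B v))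
    (hφ : ∀ e ∈ G.edgeSet, ∀ u v, e = s(u, v) → ∃ a ∈ B u, ∃ c ∈ B v, φ e = s(a, c))
    (z : Sym2 W → ZMod 2) (hd : ∀ a, z s(a, a) = 0)
    (hz : ∀ f, z f ≠ 0 → (∃ e ∈ G.edgeSet, f = φ e) ∨ ∃ u, ∀ w ∈ f, w ∈ B u) (v : V) :
    ∑ w ∈ (hBf v).toFinset, ∑ w' ∈ Finset.univ.biUnion (fun u => (hBf u).toFinset), z s(w, w') =
      ∑ u, if G.Adj v u then z (φ s(v, u)) else 0 := by
  have dis : ∀ {u p : V} {a : W}, a ∈ B u → a ∈ B p → u = p := by
    intro u p a h1 h2
    by_contra hne
    exact Set.disjoint_left.1 (hBd u p hne) h1 h2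
  have h1 : ∀ w, ∑ w' ∈ Finset.univ.biUnion (fun u => (hBf u).toFinset), z s(w, w') =
      ∑ u, ∑ w' ∈ (hBf u).toFinset, z s(w, w') := by
    intro w
    refine Finset.sum_biUnion fun u _ p _ hup => ?_
    rw [Function.onFun, Finset.disjoint_left]
    intro a ha ha'
    rw [Set.Finite.mem_toFinset] at ha ha'
    exact hup (dis ha ha')
  simp only [h1]
  rw [Finset.sum_comm]
  refine Finset.sum_congr rfl fun u _ => ?_
  by_cases huv : u = v
  · subst huv
    rw [if_neg (G.loopless.irrefl u)]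
    exact md_inner _ z hd
  · have hz' : ∀ w ∈ B v, ∀ w' ∈ B u, z s(w, w') ≠ 0 → G.Adj v u ∧ s(w, w') = φ s(v, u) := by
      intro w hw w' hw' h
      rcases hz _ h with ⟨e, he, hfe⟩ | ⟨p, hp⟩
      · have h2 := md_K1 hBd hφ hw hw' he hfe
        rw [h2] at he hfe
        exact ⟨he, hfe⟩
      · exact (md_K2 hBd (Ne.symm huv) hw hw' hp).elim
    by_cases hadj : G.Adj v u
    · rw [if_pos hadj]
      obtain ⟨a, ha, c, hc, hac⟩ := hφ s(v, u) hadj v u rfl
      have key : ∀ w ∈ B v, ∀ w' ∈ B u, z s(w, w') ≠ 0 → w = a ∧ w' = c := by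
        intro w hw w' hw' h
        have h2 := (hz' w hw w' hw' h).2
        rw [hac] at h2
        rcases Sym2.eq_iff.1 h2 with h3 | ⟨rfl, rfl⟩
        · exact h3
        · exact absurd (dis hw hc) (Ne.symm huv)
      rw [Finset.sum_eq_single a, Finset.sum_eq_single c, hac]
      · intro w' hw' hne
        rw [Set.Finite.mem_toFinset] at hw'
        by_contra h
        exact hne (key a ha w' hw' h).2
      · intro h
        exact absurd ((hBf u).mem_toFinset.2 hc) h
      · intro w hw hne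
        rw [Set.Finite.mem_toFinset] at hw
        refine Finset.sum_eq_zero fun w' hw' => ?_
        rw [Set.Finite.mem_toFinset] at hw'
        by_contra h
        exact hne (key w hw w' hw' h).1
      · intro h
        exact absurd ((hBf v).mem_toFinset.2 ha) h
    · rw [if_neg hadj]
      refine Finset.sum_eq_zero fun w hw => Finset.sum_eq_zero fun w' hw' => ?_
      rw [Set.Finite.mem_toFinset] at hw hw'
      by_contra h
      exact hadj (hz' w hw w' hw' h).1

end md

/-- A7: minors -/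
theorem algPlanar_of_minor {V W : Type} [Finite V] (G : SimpleGraph V) (H : SimpleGraph W)
    (h : IsMinor G H) (hH : AlgPlanar H) : AlgPlanar G := by
  classical
  have : Fintype V := Fintype.ofFinite V
  obtain ⟨B, hBf, hBc, hBd, hBa⟩ := h
  obtain ⟨F, l, r, hdual⟩ := hH
  rcases isEmpty_or_nonempty V with hV | hV
  · refine ⟨PUnit, fun _ => PUnit.unit, fun _ => PUnit.unit, ?_⟩
    intro x _ _
    constructor
    · intro _
      refine ⟨fun _ => 0, fun e _ => ?_⟩
      induction e with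
      | _ u v => exact (hV.false u).elim
    · intro _ v
      exact (hV.false v).elim
  have dis : ∀ {u p : V} {a : W}, a ∈ B u → a ∈ B p → u = p := by
    intro u p a h1 h2
    by_contra hne
    exact Set.disjoint_left.1 (hBd u p hne) h1 h2
  -- the edges between the branch sets
  have hex : ∀ e ∈ G.edgeSet, ∃ f ∈ H.edgeSet, ∀ u v, e = s(u, v) →
      ∃ a ∈ B u, ∃ c ∈ B v, f = s(a, c) := by
    intro e he
    induction e with
    | _ u v =>
      obtain ⟨a, ha, c, hc, hac⟩ := hBa u v he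
      refine ⟨s(a, c), hac, fun u' v' h => ?_⟩
      rcases Sym2.eq_iff.1 h with ⟨rfl, rfl⟩ | ⟨rfl, rfl⟩
      · exact ⟨a, ha, c, hc, rfl⟩
      · exact ⟨c, hc, a, ha, Sym2.eq_swap⟩
  obtain ⟨v0⟩ := hV
  obtain ⟨w0, _⟩ := (hBc v0).nonempty
  have hne0 : Nonempty (Sym2 W) := ⟨s(w0, w0)⟩
  choose! φ hφH hφ using hex
  have hφinj : ∀ e ∈ G.edgeSet, ∀ e' ∈ G.edgeSet, φ e = φ e' → e = e' := by
    intro e he e' he' h
    induction e with
    | _ p q =>
      obtain ⟨a, ha, c, hc, hac⟩ := hφ _ he p q rfl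
      exact (md_K1 hBd hφ ha hc he' (hac.symm.trans h)).symm
  have hφne : ∀ e ∈ G.edgeSet, ∀ p, (∀ w ∈ φ e, w ∈ B p) → False := by
    intro e he p hp
    induction e with
    | _ u v =>
      obtain ⟨a, ha, c, hc, hac⟩ := hφ _ he u v rfl
      rw [hac] at hp
      exact md_K2 hBd (G.ne_of_adj he) ha hc hp
  set S : Finset W := Finset.univ.biUnion (fun u => (hBf u).toFinset) with hS
  have hSm : ∀ {u : V} {a : W}, a ∈ B u → a ∈ S := by
    intro u a ha
    rw [hS, Finset.mem_biUnion]
    exact ⟨u, Finset.mem_univ _, (hBf u).mem_toFinset.2 ha⟩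
  -- functions supported on inner edges and edges between branch sets
  have hzS : ∀ z : Sym2 W → ZMod 2,
      (∀ f, z f ≠ 0 → (∃ e ∈ G.edgeSet, f = φ e) ∨ ∃ u, ∀ w ∈ f, w ∈ B u) →
      ∀ f, z f ≠ 0 → ∀ w ∈ f, w ∈ S := by
    intro z hz f hf w hw
    rcases hz f hf with ⟨e, he, rfl⟩ | ⟨u, hu⟩
    · induction e with
      | _ p q =>
        obtain ⟨a, ha, c, hc, hac⟩ := hφ _ he p q rfl
        rw [hac] at hw
        rcases Sym2.mem_iff.1 hw with rfl | rfl
        · exact hSm ha
        · exact hSm hc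
    · exact hSm (hu w hw)
  -- the deleted edges
  let D : Set (Sym2 W) := {f | f ∈ H.edgeSet ∧ (¬ ∃ e ∈ G.edgeSet, f = φ e) ∧
    ¬ ∃ u, ∀ w ∈ f, w ∈ B u}
  let rel : F → F → Prop := fun p q => ∃ f ∈ D, p = l f ∧ q = r f
  refine ⟨Quot rel, fun e => Quot.mk rel (l (φ e)), fun e => Quot.mk rel (r (φ e)), ?_⟩
  rw [isDual_iff]
  intro x hx
  constructor
  · -- from even to coboundary
    intro heven
    let xφ : Sym2 W → ZMod 2 := fun f => if h : ∃ e ∈ G.edgeSet, f = φ e then x h.choose else 0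
    have hxφ : ∀ e ∈ G.edgeSet, xφ (φ e) = x e := by
      intro e he
      have h : ∃ e' ∈ G.edgeSet, φ e = φ e' := ⟨e, he, rfl⟩
      have h1 : xφ (φ e) = x h.choose := dif_pos h
      rw [h1]
      congr 1
      exact (hφinj e he _ h.choose_spec.1 h.choose_spec.2).symm
    have hxφz : ∀ f, xφ f ≠ 0 → ∃ e ∈ G.edgeSet, f = φ e := by
      intro f hf
      by_contra h
      exact hf (dif_neg h)
    have hxφH : ∀ f, f ∉ H.edgeSet → xφ f = 0 := by
      intro f hf
      by_contra h
      obtain ⟨e, he, rfl⟩ := hxφz f h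
      exact hf (hφH e he)
    have hdiag : ∀ z : Sym2 W → ZMod 2, (∀ f, f ∉ H.edgeSet → z f = 0) → ∀ a, z s(a, a) = 0 := by
      intro z hz a
      exact hz _ (fun h => H.loopless.irrefl a h)
    have htot := md_total hBf hBd hφ xφ (hdiag xφ hxφH) (fun f hf => Or.inl (hxφz f hf))
    have htot0 : ∀ v, ∑ w ∈ (hBf v).toFinset, ∑ w' ∈ S, xφ s(w, w') = 0 := by
      intro v
      rw [hS, htot v]
      refine Eq.trans ?_ (heven v)
      refine Finset.sum_congr rfl fun u _ => ?_
      split_ifs with hadj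
      · exact hxφ _ hadj
      · exact (hx s(v, u) hadj).symm
    -- the joins
    have hj : ∀ v, ∃ xv : Sym2 W → ZMod 2, (Function.support xv).Finite ∧
        (∀ e, e ∉ H.edgeSet → xv e = 0) ∧ (∀ e, xv e ≠ 0 → ∀ w ∈ e, w ∈ B v) ∧
        ∀ w, ∑ᶠ w', xv s(w, w') = if w ∈ B v then ∑ w' ∈ S, xφ s(w, w') else 0 := by
      intro v
      refine exists_tjoin H (B v) (hBf v) (hBc v).preconnected
        (fun w => if w ∈ B v then ∑ w' ∈ S, xφ s(w, w') else 0) (fun w hw => if_neg hw) ?_
      rw [finsum_eq_sum_of_support_subset (s := (hBf v).toFinset)]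
      · rw [← htot0 v]
        refine Finset.sum_congr rfl fun w hw => ?_
        rw [if_pos ((hBf v).mem_toFinset.1 hw)]
      · intro w hw
        rw [Set.Finite.coe_toFinset]
        by_contra h
        exact hw (if_neg h)
    choose xv hxv1 hxv2 hxv3 hxv4 using hj
    let z : Sym2 W → ZMod 2 := fun f => xφ f + ∑ v, xv v f
    have hzz : ∀ f, z f ≠ 0 → (∃ e ∈ G.edgeSet, f = φ e) ∨ ∃ u, ∀ w ∈ f, w ∈ B u := by
      intro f hf
      by_cases h1 : xφ f = 0
      · have h2 : ∑ v, xv v f ≠ 0 := by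
          intro h2
          apply hf
          show xφ f + ∑ v, xv v f = 0
          rw [h1, h2, add_zero]
        obtain ⟨v, _, hv⟩ := Finset.exists_ne_zero_of_sum_ne_zero h2
        exact Or.inr ⟨v, hxv3 v f hv⟩
      · exact Or.inl (hxφz f h1)
    have hzH : ∀ f, f ∉ H.edgeSet → z f = 0 := by
      intro f hf
      show xφ f + ∑ v, xv v f = 0
      rw [hxφH f hf, Finset.sum_eq_zero fun v _ => hxv2 v f hf, add_zero]
    have hze : ∀ w, ∑ᶠ w', z s(w, w') = 0 := by
      intro w
      rw [md_star S z (hzS z hzz)]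
      show ∑ w' ∈ S, (xφ s(w, w') + ∑ v, xv v s(w, w')) = 0
      rw [Finset.sum_add_distrib, Finset.sum_comm]
      have h1 : ∀ v, ∑ w' ∈ S, xv v s(w, w') =
          if w ∈ B v then ∑ w' ∈ S, xφ s(w, w') else 0 := by
        intro v
        rw [← hxv4 v w, md_star S (xv v)]
        intro f hf w hw
        exact hSm (hxv3 v f hf w hw)
      simp only [h1]
      by_cases hw : ∃ v, w ∈ B v
      · obtain ⟨v, hv⟩ := hw
        rw [Finset.sum_eq_single v]
        · rw [if_pos hv]
          exact CharTwo.add_self_eq_zero _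
        · intro u _ huv
          rw [if_neg]
          intro hu
          exact huv (dis hu hv)
        · intro h
          exact absurd (Finset.mem_univ v) h
      · push Not at hw
        rw [Finset.sum_eq_zero fun v _ => if_neg (hw v), add_zero]
        refine Finset.sum_eq_zero fun w' _ => ?_
        by_contra hne
        have h2 := hzS xφ (fun f hf => Or.inl (hxφz f hf)) _ hne w (Sym2.mem_mk_left w w')
        rw [hS, Finset.mem_biUnion] at h2
        obtain ⟨u, _, hu⟩ := h2
        exact hw u ((hBf u).mem_toFinset.1 hu)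
    obtain ⟨y, hy⟩ := (hdual z (md_supp S z (hzS z hzz)) hzH).1 hze
    have hyD : ∀ p q, rel p q → y p = y q := by
      rintro p q ⟨f, ⟨hf1, hf2, hf3⟩, rfl, rfl⟩
      have h1 : z f = 0 := by
        by_contra hne
        rcases hzz f hne with h | h
        · exact hf2 h
        · exact hf3 h
      rw [hy f hf1] at h1
      exact CharTwo.add_eq_zero.1 h1
    refine ⟨Quot.lift y hyD, fun e he => ?_⟩
    show x e = y (l (φ e)) + y (r (φ e))
    rw [← hy _ (hφH e he)]
    show x e = xφ (φ e) + ∑ v, xv v (φ e)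
    rw [hxφ e he, Finset.sum_eq_zero, add_zero]
    intro v _
    by_contra hne
    exact hφne e he v (hxv3 v _ hne)
  · -- from coboundary to even
    rintro ⟨y', hy'⟩ v
    let y : F → ZMod 2 := fun p => y' (Quot.mk rel p)
    let z : Sym2 W → ZMod 2 := fun f => if f ∈ H.edgeSet then y (l f) + y (r f) else 0
    have hzH : ∀ f, f ∉ H.edgeSet → z f = 0 := fun f hf => if_neg hf
    have hzz : ∀ f, z f ≠ 0 → (∃ e ∈ G.edgeSet, f = φ e) ∨ ∃ u, ∀ w ∈ f, w ∈ B u := by
      intro f hf
      by_contra hcon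
      rw [not_or] at hcon
      apply hf
      by_cases hfH : f ∈ H.edgeSet
      · have h1 : Quot.mk rel (l f) = Quot.mk rel (r f) :=
          Quot.sound ⟨f, ⟨hfH, hcon.1, hcon.2⟩, rfl, rfl⟩
        show (if f ∈ H.edgeSet then y (l f) + y (r f) else 0) = 0
        rw [if_pos hfH]
        show y' (Quot.mk rel (l f)) + y' (Quot.mk rel (r f)) = 0
        rw [h1]
        exact CharTwo.add_self_eq_zero _
      · exact hzH f hfH
    have hze := (hdual z (md_supp S z (hzS z hzz)) hzH).2 ⟨y, fun e he => if_pos he⟩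
    have htot := md_total hBf hBd hφ z (fun a => hzH _ (fun h => H.loopless.irrefl a h)) hzz v
    have h0 : ∑ w ∈ (hBf v).toFinset, ∑ w' ∈ S, z s(w, w') = 0 := by
      refine Finset.sum_eq_zero fun w _ => ?_
      rw [← md_star S z (hzS z hzz)]
      exact hze w
    rw [← hS, h0] at htot
    rw [htot]
    refine Finset.sum_congr rfl fun u _ => ?_
    split_ifs with hadj
    · rw [hy' _ hadj]
      show y (l (φ s(v, u))) + y (r (φ s(v, u))) = _
      exact (if_pos (hφH _ hadj)).symm
    · exact hx s(v, u) hadj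

end Pool.Agent.OQP
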