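import Pool.Agent.Lib.MP_d86530_co.Jordan
import Pool.Agent.Lib.MP_d86530_co.Ham

/-! The two pages of a Hamiltonian cycle of a combinatorial sphere. -/

set_option autoImplicit false

namespace Pool.Agent.Lib.MP_d86530_co

open Relation

variable {V : Type*} {T : V → V → V → Prop}

/-- `c` is a 2-colouring of the faces which changes exactly across the edges with `z = 1` -/
structure PagesCol (T : V → V → V → Prop) (z : V → V → ZMod 2) (c : V → V → V → ZMod 2) :
    Prop where
  swp : ∀ x y w, c x y w = c y x w
  rot : ∀ x y w, c x y w = c y w x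
  chg : ∀ x y w w', T x y w → T x y w' → w ≠ w' → c x y w + c x y w' = z x y

theorem PagesCol.swp23 {z : V → V → ZMod 2} {c : V → V → V → ZMod 2} (hc : PagesCol T z c)
    (x y w : V) : c x y w = c x w y := by
  rw [hc.rot x w y, hc.swp w y x, hc.rot x y w]

theorem PagesCol.same {z : V → V → ZMod 2} {c : V → V → V → ZMod 2} (hc : PagesCol T z c)
    {x y w w' : V} (hz : z x y = 0) (h1 : T x y w) (h2 : T x y w') : c x y w = c x y w' := by
  by_cases e : w = w'
  · rw [e]
  · have := hc.chg x y w w' h1 h2 e
    rw [hz] at this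
    exact CharTwo.add_eq_zero.1 this

/-- the colour is constant around a vertex which meets no edge with `z = 1` -/
theorem PagesCol.const (h : IsSph T) {z : V → V → ZMod 2} {c : V → V → V → ZMod 2}
    (hc : PagesCol T z c) {v a b a' b' : V} (hz : ∀ y, z v y = 0) (h1 : T v a b)
    (h2 : T v a' b') : c v a' b' = c v a b := by
  have hl := h.link h1 h2
  have key : ∀ f, ReflTransGen (T v) a f → ∀ f', T v f f' → c v f f' = c v a b := by
    intro f hl
    induction hl with
    | refl => intro f' hf'; exact hc.same (hz a) hf' h1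
    | @tail y t _ hyt ih =>
      intro f' hf'
      rw [← ih t hyt, hc.swp23 v y t]
      exact hc.same (hz t) hf' (h.swp23 hyt)
  exact key a' hl b' h2

/-- the colour is carried over from a vertex to a neighbour -/
theorem PagesCol.carry (h : IsSph T) {z : V → V → ZMod 2} {c : V → V → V → ZMod 2}
    (hc : PagesCol T z c) {v v' : V} {r : ZMod 2} (hv : ∀ x y, T v x y → c v x y = r)
    (ha : Adj3 T v v') (hz : ∀ y, z v' y = 0) : ∀ x y, T v' x y → c v' x y = r := by
  obtain ⟨w, hw⟩ := ha
  intro x y hxy
  rw [hc.const h hz (h.swp hw) hxy, ← hc.swp v v' w]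
  exact hv _ _ hw

/-- the edge labelling of a relation on the indices -/
noncomputable def pagesZ (n : ℕ) (s : ℕ → V) (R : ℕ → ℕ → Prop) (x y : V) : ZMod 2 :=
  ind2 (∃ a b, a < n ∧ b < n ∧ s a = x ∧ s b = y ∧ R a b)

theorem HamOrd.pagesZ_apply {n : ℕ} {s : ℕ → V} (H : HamOrd T n s) (R : ℕ → ℕ → Prop)
    {a b : ℕ} (ha : a < n) (hb : b < n) : pagesZ n s R (s a) (s b) = ind2 (R a b) := by
  unfold pagesZ
  apply ind2_congr
  constructor
  · rintro ⟨a', b', h1, h2, h3, h4, h5⟩
    rw [← H.inj a' h1 a ha h3, ← H.inj b' h2 b hb h4]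
    exact h5
  · intro k
    exact ⟨a, b, ha, hb, rfl, rfl, k⟩

theorem pagesZ_eq_zero {n : ℕ} {s : ℕ → V} {R : ℕ → ℕ → Prop} {x y : V}
    (hR : ∀ a b, a < n → b < n → s a = x → s b = y → ¬ R a b) : pagesZ n s R x y = 0 := by
  unfold pagesZ
  apply ind2_neg
  rintro ⟨a, b, h1, h2, h3, h4, h5⟩
  exact hR a b h1 h2 h3 h4 h5

/-- the colouring of an even relation on the indices -/
theorem HamOrd.pages_col (h : IsSph T) {n : ℕ} {s : ℕ → V} (H : HamOrd T n s)
    (R : ℕ → ℕ → Prop) (hs : ∀ a b, R a b → R b a)
    (hA : ∀ a b, a < n → b < n → R a b → Adj3 T (s a) (s b))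
    (hev : ∀ a < n, (∀ b < n, ¬ R a b) ∨ ∃ p q, p < n ∧ q < n ∧ p ≠ q ∧
      ∀ b < n, R a b ↔ b = p ∨ b = q) :
    ∃ c, PagesCol T (pagesZ n s R) c := by
  classical
  obtain ⟨c, c1, c2, c3⟩ := h.exists_color (pagesZ n s R) (by
      intro x y
      unfold pagesZ
      apply ind2_congr
      constructor
      · rintro ⟨a, b, h1, h2, h3, h4, h5⟩
        exact ⟨b, a, h2, h1, h4, h3, hs _ _ h5⟩
      · rintro ⟨a, b, h1, h2, h3, h4, h5⟩
        exact ⟨b, a, h2, h1, h4, h3, hs _ _ h5⟩) (by
      intro x y hxy
      apply pagesZ_eq_zero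
      intro a b h1 h2 h3 h4 h5
      exact hxy (h3 ▸ h4 ▸ hA a b h1 h2 h5)) (by
      intro x
      have hV : h.fin.toFinset = (Finset.range n).image s := by
        ext y
        rw [Set.Finite.mem_toFinset, Finset.mem_image]
        constructor
        · intro hy
          obtain ⟨i, hi, e⟩ := H.surj y hy
          exact ⟨i, Finset.mem_range.2 hi, e⟩
        · rintro ⟨i, hi, rfl⟩
          exact H.mem i (Finset.mem_range.1 hi)
      rw [hV, Finset.sum_image (fun i hi j hj e =>
        H.inj i (Finset.mem_range.1 hi) j (Finset.mem_range.1 hj) e)]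
      by_cases hx : ∃ a < n, s a = x
      · obtain ⟨a, ha, rfl⟩ := hx
        rw [Finset.sum_congr rfl (fun b hb => H.pagesZ_apply R ha (Finset.mem_range.1 hb))]
        rcases hev a ha with k | ⟨p, q, hp, hq, hpq, k⟩
        · exact Finset.sum_eq_zero fun b hb => ind2_neg (k b (Finset.mem_range.1 hb))
        · have e1 : ∀ b ∈ Finset.range n, ind2 (R a b) =
              (if b = p then (1 : ZMod 2) else 0) + (if b = q then (1 : ZMod 2) else 0) := by
            intro b hb
            rw [ind2_congr (k b (Finset.mem_range.1 hb))]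
            by_cases e2 : b = p
            · subst e2
              rw [ind2_pos (Or.inl rfl), if_pos rfl, if_neg hpq, add_zero]
            · by_cases e3 : b = q
              · subst e3
                rw [ind2_pos (Or.inr rfl), if_neg e2, if_pos rfl, zero_add]
              · rw [ind2_neg (fun k => k.elim e2 e3), if_neg e2, if_neg e3, add_zero]
          rw [Finset.sum_congr rfl e1, Finset.sum_add_distrib, Finset.sum_ite_eq',
            Finset.sum_ite_eq', if_pos (Finset.mem_range.2 hp), if_pos (Finset.mem_range.2 hq)]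
          exact CharTwo.add_self_eq_zero _
      · refine Finset.sum_eq_zero fun b _ => pagesZ_eq_zero ?_
        intro a' b' h1 _ h3 _ _
        exact hx ⟨a', h1, h3⟩)
  exact ⟨c, c1, c2, c3⟩

theorem HamOrd.three_le (h : IsSph T) {n : ℕ} {s : ℕ → V} (H : HamOrd T n s) : 3 ≤ n := by
  obtain ⟨x, y, z, hT⟩ := h.inh
  obtain ⟨h1, h2, h3⟩ := h.distinct hT
  obtain ⟨i, hi, ei⟩ := H.surj x (IsSph.vert1 hT)
  obtain ⟨j, hj, ej⟩ := H.surj y (h.vert2 hT)
  obtain ⟨k, hk, ek⟩ := H.surj z (h.vert3 hT)
  have e1 : i ≠ j := by rintro rfl; exact h1 (ei.symm.trans ej)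
  have e2 : j ≠ k := by rintro rfl; exact h2 (ej.symm.trans ek)
  have e3 : k ≠ i := by rintro rfl; exact h3 (ek.symm.trans ei)
  omega

/-- the walk in the link of `v` from the chord `v u` -/
theorem pages_walk (h : IsSph T) {z0 z1 : V → V → ZMod 2} {c c1 : V → V → V → ZMod 2}
    (hc : PagesCol T z0 c) (hc1 : PagesCol T z1 c1) {v u x : V} {e r : ZMod 2}
    (h0 : z0 v u = 0) (h1 : z1 v u = 1) (hx : T v u x) (hcx : c v u x = e)
    (hno : ∀ y t, y ≠ u → T v y t → c v y t = e → c1 v y t = r → z0 v y = 0 ∧ z1 v y = 0) :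
    False := by
  -- a face at the chord with `c1 = r`
  have main : ∀ x x', T v u x → T v u x' → x ≠ x' → c v u x = e → c1 v u x = r → False := by
    intro x x' hx hx' hne e1 e2
    have e3 := hc1.chg v u x x' hx hx' hne
    have hw := h.link_avoid hx hx' hne
    have key : ∀ y, ReflTransGen (fun a b => T v a b ∧ a ≠ u ∧ b ≠ u) x y →
        ∀ t, T v y t → c v y t = e ∧ c1 v y t = r := by
      intro y hy
      induction hy with
      | refl =>
        intro t ht
        have hxu : T v x u := h.swp23 hx
        have f1 : c v x u = e := by rw [hc.swp23 v x u]; exact e1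
        have f2 : c1 v x u = r := by rw [hc1.swp23 v x u]; exact e2
        obtain ⟨g1, g2⟩ := hno x u (fun k => h.ne (h.rot hx) k.symm) hxu f1 f2
        exact ⟨(hc.same g1 ht hxu).trans f1, (hc1.same g2 ht hxu).trans f2⟩
      | @tail y t _ hyt ih =>
        intro f hf
        obtain ⟨i1, i2⟩ := ih t hyt.1
        have hty : T v t y := h.swp23 hyt.1
        have f1 : c v t y = e := by rw [hc.swp23 v t y]; exact i1
        have f2 : c1 v t y = r := by rw [hc1.swp23 v t y]; exact i2
        obtain ⟨g1, g2⟩ := hno t y hyt.2.2 hty f1 f2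
        exact ⟨(hc.same g1 hf hty).trans f1, (hc1.same g2 hf hty).trans f2⟩
    have e4 := (key x' hw u (h.swp23 hx')).2
    rw [hc1.swp23 v x' u] at e4
    rw [e2, e4, h1, CharTwo.add_self_eq_zero] at e3
    exact absurd e3 (by decide)
  obtain ⟨x', hne, hx', -⟩ := h.opp hx
  have e1 : c v u x' = e := (hc.same h0 hx' hx).trans hcx
  have e3 := hc1.chg v u x x' hx hx' (Ne.symm hne)
  rw [h1] at e3
  by_cases k : c1 v u x = r
  · exact main x x' hx hx' (Ne.symm hne) hcx k
  · refine main x' x hx' hx hne e1 ?_
    have key : ∀ p q r : ZMod 2, p + q = 1 → ¬ p = r → q = r := by decide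
    exact key _ _ _ e3 k

/-- the closed curve of the chord `i k` and the path from `i` to `k` -/
def pagesR (i k a b : ℕ) : Prop :=
  (i ≤ a ∧ a < k ∧ b = a + 1) ∨ (i ≤ b ∧ b < k ∧ a = b + 1) ∨ (a = i ∧ b = k) ∨ (a = k ∧ b = i)

/-- the two pages of a Hamiltonian order -/
theorem HamOrd.exists_pages (h : IsSph T) {n : ℕ} {s : ℕ → V} (H : HamOrd T n s) :
    ∃ c : V → V → V → ZMod 2, (∀ x y w, c x y w = c y x w) ∧ (∀ x y w, c x y w = c y w x) ∧
      (∀ i j x x', i < n → j < n → T (s i) (s j) x → T (s i) (s j) x' → x ≠ x' →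
        (c (s i) (s j) x = c (s i) (s j) x' ↔ ¬ CycAdj n i j)) ∧
      (∀ i j k l x x', i < j → j < k → k < l → l < n → T (s i) (s k) x → T (s j) (s l) x' →
        c (s i) (s k) x ≠ c (s j) (s l) x') := by
  classical
  have hn := H.three_le h
  have hadj : ∀ a, a + 1 < n → Adj3 T (s a) (s (a + 1)) := H.adj
  have hadj' : ∀ a, a + 1 < n → Adj3 T (s (a + 1)) (s a) := fun a ha => h.adj_symm (H.adj a ha)
  obtain ⟨c, hc⟩ := H.pages_col h (CycAdj n) (by
      intro a b
      unfold CycAdj
      omega) (by
      intro a b ha hb hR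
      rcases hR with e | e | ⟨e1, e2⟩ | ⟨e1, e2⟩
      · subst e; exact hadj a hb
      · subst e; exact hadj' b ha
      · have : b = n - 1 := by omega
        rw [e1, this]; exact h.adj_symm H.closed
      · have : a = n - 1 := by omega
        rw [e1, this]; exact H.closed) (by
      intro a ha
      right
      refine ⟨if a + 1 < n then a + 1 else 0, if 0 < a then a - 1 else n - 1, ?_, ?_, ?_, ?_⟩
      · split_ifs <;> omega
      · split_ifs <;> omega
      · split_ifs <;> omega
      · intro b hb
        unfold CycAdj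
        split_ifs <;> omega)
  refine ⟨c, hc.swp, hc.rot, ?_, ?_⟩
  · intro i j x x' hi hj h1 h2 hne
    have e := hc.chg _ _ _ _ h1 h2 hne
    rw [H.pagesZ_apply _ hi hj] at e
    by_cases hR : CycAdj n i j
    · rw [ind2_pos hR] at e
      constructor
      · intro k
        rw [k, CharTwo.add_self_eq_zero] at e
        exact absurd e (by decide)
      · intro k; exact absurd hR k
    · rw [ind2_neg hR] at e
      exact ⟨fun _ => hR, fun _ => CharTwo.add_eq_zero.1 e⟩
  · intro i j k l x x' hij hjk hkl hln hx hx' hE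
    have hR : ∀ a b, a < n → b < n → pagesR i k a b → Adj3 T (s a) (s b) := by
      intro a b ha hb hR
      rcases hR with ⟨e1, e2, e3⟩ | ⟨e1, e2, e3⟩ | ⟨e1, e2⟩ | ⟨e1, e2⟩
      · subst e3; exact hadj a hb
      · subst e3; exact hadj' b ha
      · rw [e1, e2]; exact ⟨x, hx⟩
      · rw [e1, e2]; exact h.adj_symm ⟨x, hx⟩
    obtain ⟨c1, hc1⟩ := H.pages_col h (pagesR i k) (by
        intro a b
        unfold pagesR
        omega) hR (by
        intro a ha
        by_cases e1 : a < i ∨ k < a
        · left
          intro b hb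
          unfold pagesR
          omega
        · right
          refine ⟨if a = k then i else a + 1, if a = i then k else a - 1, ?_, ?_, ?_, ?_⟩
          · split_ifs <;> omega
          · split_ifs <;> omega
          · split_ifs <;> omega
          · intro b hb
            unfold pagesR
            split_ifs <;> omega)
    have hi : i < n := by omega
    have hj : j < n := by omega
    have hk : k < n := by omega
    set z0 := pagesZ n s (CycAdj n) with hz0
    set z1 := pagesZ n s (pagesR i k) with hz1
    -- the sum of the two colourings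
    have hd : PagesCol T (fun x y => z0 x y + z1 x y) (fun x y w => c x y w + c1 x y w) := by
      refine ⟨?_, ?_, ?_⟩
      · intro x y w; rw [hc.swp, hc1.swp]
      · intro x y w; rw [hc.rot, hc1.rot]
      · intro x y w w' h1 h2 h3
        have f1 := hc.chg x y w w' h1 h2 h3
        have f2 := hc1.chg x y w w' h1 h2 h3
        rw [← f1, ← f2]
        ring
    -- no change around the inner vertices
    have hin : ∀ t, i < t → t < k → ∀ y, z0 (s t) y + z1 (s t) y = 0 := by
      intro t h1 h2 y
      have ht : t < n := by omega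
      have e : z0 (s t) y = z1 (s t) y := by
        rw [hz0, hz1]
        unfold pagesZ
        apply ind2_congr
        constructor
        · rintro ⟨a, b, g1, g2, g3, g4, g5⟩
          have : a = t := H.inj a g1 t ht g3
          subst this
          refine ⟨a, b, g1, g2, g3, g4, ?_⟩
          unfold CycAdj at g5
          unfold pagesR
          omega
        · rintro ⟨a, b, g1, g2, g3, g4, g5⟩
          have : a = t := H.inj a g1 t ht g3
          subst this
          refine ⟨a, b, g1, g2, g3, g4, ?_⟩
          unfold pagesR at g5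
          unfold CycAdj
          omega
      rw [e]
      exact CharTwo.add_self_eq_zero _
    -- no change of `c1` around the outer vertices
    have hout : ∀ t, t < n → (t < i ∨ k < t) → ∀ y, z1 (s t) y = 0 := by
      intro t ht h1 y
      apply pagesZ_eq_zero
      intro a b g1 g2 g3 g4 g5
      have : a = t := H.inj a g1 t ht g3
      subst this
      unfold pagesR at g5
      omega
    -- the value of `c + c1` at the inner vertices
    obtain ⟨w1, hw1⟩ := hadj i (by omega)
    have hw1' : T (s (i + 1)) (s i) w1 := h.swp hw1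
    set κ := c (s (i + 1)) (s i) w1 + c1 (s (i + 1)) (s i) w1 with hκ
    have hP : ∀ t, i + 1 ≤ t → t < k → ∀ x y, T (s t) x y → c (s t) x y + c1 (s t) x y = κ := by
      intro t ht
      induction t, ht using Nat.le_induction with
      | base =>
        intro h1 x y hxy
        exact hd.const h (hin (i + 1) (by omega) h1) hw1' hxy
      | succ t ht ih =>
        intro h1
        exact hd.carry h (ih (by omega)) (hadj t (by omega)) (hin (t + 1) (by omega) h1)
    -- the value of `c1` at the outer vertices
    set ζ := c1 (s l) (s j) x' with hζ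
    have hx'' : T (s l) (s j) x' := h.swp hx'
    have hQ : ∀ t, l ≤ t → t < n → ∀ x y, T (s t) x y → c1 (s t) x y = ζ := by
      intro t ht
      induction t, ht using Nat.le_induction with
      | base =>
        intro h1 x y hxy
        exact hc1.const h (hout l h1 (Or.inr hkl)) hx'' hxy
      | succ t ht ih =>
        intro h1
        exact hc1.carry h (ih (by omega)) (hadj t (by omega)) (hout (t + 1) h1 (Or.inr (by omega)))
    have hQ0 : 0 < i → ∀ x y, T (s 0) x y → c1 (s 0) x y = ζ := by
      intro h1
      exact hc1.carry h (hQ (n - 1) (by omega) (by omega)) H.closed (hout 0 (by omega) (Or.inl h1))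
    have hQ1 : ∀ t, t < i → ∀ x y, T (s t) x y → c1 (s t) x y = ζ := by
      intro t
      induction t with
      | zero => exact hQ0
      | succ t ih =>
        intro h1
        exact hc1.carry h (ih (by omega)) (hadj t (by omega)) (hout (t + 1) (by omega) (Or.inl h1))
    have hQ2 : ∀ t, t < n → (t < i ∨ l ≤ t) → ∀ x y, T (s t) x y → c1 (s t) x y = ζ := by
      intro t h1 h2
      rcases h2 with h2 | h2
      · exact hQ1 t h2
      · exact hQ t h2 h1
    -- comparison at the edge `j l`
    have hκζ : c (s i) (s k) x + ζ = κ := by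
      have e1 := hP j (by omega) hjk _ _ hx'
      rw [← hE, hc1.swp] at e1
      exact e1
    have hcyc : ¬ CycAdj n i k := by unfold CycAdj; omega
    refine pages_walk h hc hc1 (v := s i) (u := s k) (x := x) (e := c (s i) (s k) x)
      (r := ζ + 1) ?_ ?_ hx rfl ?_
    · rw [hz0, H.pagesZ_apply _ hi hk, ind2_neg hcyc]
    · rw [hz1, H.pagesZ_apply _ hi hk, ind2_pos]
      unfold pagesR
      omega
    · intro y t hy hyt g1 g2
      obtain ⟨b, hb, rfl⟩ := H.surj y (h.vert2 hyt)
      have hbk : b ≠ k := by rintro rfl; exact hy rfl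
      have hb1 : b ≠ i + 1 := by
        rintro rfl
        have e1 := hP (i + 1) le_rfl (by omega) _ _ (h.swp hyt)
        rw [hc.swp, hc1.swp, g1, g2, ← hκζ] at e1
        have e2 : (1 : ZMod 2) = 0 := by linear_combination e1
        exact absurd e2 (by decide)
      have hb2 : ¬ (b < i ∨ l ≤ b) := by
        intro k2
        have e1 := hQ2 b hb k2 _ _ (h.swp hyt)
        rw [hc1.swp, g2] at e1
        have e2 : (1 : ZMod 2) = 0 := by linear_combination e1
        exact absurd e2 (by decide)
      rw [hz0, hz1, H.pagesZ_apply _ hi hb, H.pagesZ_apply _ hi hb]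
      refine ⟨ind2_neg ?_, ind2_neg ?_⟩
      · unfold CycAdj; omega
      · unfold pagesR; omega

end Pool.Agent.Lib.MP_d86530_co
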