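import Mathlib
import Pool.Agent.Lib.MP_d86530_co.OqpDefs

/-!
# A4: the compact connected sets of a drawing
-/

set_option autoImplicit false

namespace Pool.Agent.OQP

namespace SetsAux

/-- the parameter `1 / 3` -/
noncomputable def c1 : unitInterval := ⟨1 / 3, by norm_num, by norm_num⟩

/-- the parameter `2 / 3` -/
noncomputable def c2 : unitInterval := ⟨2 / 3, by norm_num, by norm_num⟩

theorem c1_pos : (0 : unitInterval) < c1 := by
  rw [← Subtype.coe_lt_coe]
  norm_num [c1]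

theorem c1_lt : c1 < c2 := by
  rw [← Subtype.coe_lt_coe]
  norm_num [c1, c2]

theorem c2_lt : c2 < (1 : unitInterval) := by
  rw [← Subtype.coe_lt_coe]
  norm_num [c2]

variable {V : Type} (G : SimpleGraph V) (p : V → ℝ × ℝ) (γ : V → V → (unitInterval → ℝ × ℝ))

/-- the first endpoint -/
noncomputable def fa (e : Sym2 V) : V := (Quot.out e).1

/-- the second endpoint -/
noncomputable def fb (e : Sym2 V) : V := (Quot.out e).2

theorem mk_out (e : Sym2 V) : s(fa e, fb e) = e := Quot.out_eq e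

theorem adj_out {e : Sym2 V} (he : e ∈ G.edgeSet) : G.Adj (fa e) (fb e) := by
  rw [← mk_out e] at he
  exact he

/-- the arc of an edge -/
noncomputable def arc (e : Sym2 V) : unitInterval → ℝ × ℝ := γ (fa e) (fb e)

/-- the middle part -/
noncomputable def mid (e : Sym2 V) : Set (ℝ × ℝ) := arc γ e '' Set.Icc c1 c2

open Classical in
/-- the first part of the arc, if it starts in `v` -/
noncomputable def st (v : V) (e : Sym2 V) : Set (ℝ × ℝ) :=
  if e ∈ G.edgeSet ∧ fa e = v then arc γ e '' Set.Icc 0 c1 else {p v}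

open Classical in
/-- the last part of the arc, if it ends in `v` -/
noncomputable def en (v : V) (e : Sym2 V) : Set (ℝ × ℝ) :=
  if e ∈ G.edgeSet ∧ fb e = v then arc γ e '' Set.Icc c2 1 else {p v}

/-- the star of `v` -/
noncomputable def star (v : V) : Set (ℝ × ℝ) := ⋃ e, (st G p γ v e ∪ en G p γ v e)

/-- `z` is the point of the arc `e` with parameter `t`, near the end `v` -/
def Near (v : V) (e : Sym2 V) (t : unitInterval) : Prop :=
  (fa e = v ∧ t ≤ c1) ∨ (fb e = v ∧ c2 ≤ t)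

theorem mem_star {v : V} {z : ℝ × ℝ} (h : z ∈ star G p γ v) :
    z = p v ∨ ∃ e ∈ G.edgeSet, ∃ t, arc γ e t = z ∧ Near v e t := by
  unfold star at h
  obtain ⟨e, he⟩ := Set.mem_iUnion.1 h
  rcases he with he | he
  · unfold st at he
    split_ifs at he with hc
    · obtain ⟨t, ht, rfl⟩ := he
      exact Or.inr ⟨e, hc.1, t, rfl, Or.inl ⟨hc.2, ht.2⟩⟩
    · exact Or.inl he
  · unfold en at he
    split_ifs at he with hc
    · obtain ⟨t, ht, rfl⟩ := he
      exact Or.inr ⟨e, hc.1, t, rfl, Or.inr ⟨hc.2, ht.1⟩⟩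
    · exact Or.inl he

end SetsAux

open SetsAux

/-- A4: the compact sets of a drawing -/
theorem exists_sets {V : Type} [Finite V] (G : SimpleGraph V) (h : TopPlanar G) :
    ∃ (A : V → Set (ℝ × ℝ)) (E : Sym2 V → Set (ℝ × ℝ)),
      (∀ v, IsCompact (A v) ∧ IsConnected (A v)) ∧
      (∀ e ∈ G.edgeSet, IsCompact (E e) ∧ IsConnected (E e)) ∧
      (∀ u v, u ≠ v → Disjoint (A u) (A v)) ∧
      (∀ e ∈ G.edgeSet, ∀ f ∈ G.edgeSet, e ≠ f → Disjoint (E e) (E f)) ∧
      (∀ e ∈ G.edgeSet, ∀ v, v ∉ e → Disjoint (E e) (A v)) ∧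
      (∀ e ∈ G.edgeSet, ∀ v ∈ e, (E e ∩ A v).Nonempty) := by
  obtain ⟨p, hp, γ, h1, h2, h3⟩ := h
  have hcont : ∀ e ∈ G.edgeSet, Continuous (arc γ e) := fun e he => (h1 _ _ (adj_out G he)).1
  have hinj : ∀ e ∈ G.edgeSet, Function.Injective (arc γ e) :=
    fun e he => (h1 _ _ (adj_out G he)).2.1
  have h0 : ∀ e ∈ G.edgeSet, arc γ e 0 = p (fa e) := fun e he => (h1 _ _ (adj_out G he)).2.2.1
  have h1' : ∀ e ∈ G.edgeSet, arc γ e 1 = p (fb e) := fun e he => (h1 _ _ (adj_out G he)).2.2.2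
  have hne : ∀ e ∈ G.edgeSet, ∀ f ∈ G.edgeSet, e ≠ f → ∀ s t : unitInterval,
      arc γ e s = arc γ f t → (s = 0 ∨ s = 1) ∧ (t = 0 ∨ t = 1) := by
    intro e he f hf hef s t hst
    refine h2 _ _ _ _ (adj_out G he) (adj_out G hf) ?_ s t hst
    intro hc
    apply hef
    rw [← mk_out e, ← mk_out f]
    exact Sym2.eq_iff.2 hc
  have hv : ∀ e ∈ G.edgeSet, ∀ w, ∀ s : unitInterval, arc γ e s = p w → s = 0 ∨ s = 1 :=
    fun e he w s hs => h3 _ _ w (adj_out G he) s hs
  -- a vertex near `v` is `v`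
  have nearv : ∀ e ∈ G.edgeSet, ∀ v w t, Near v e t → arc γ e t = p w → w = v := by
    intro e he v w t hN hw
    rcases hv e he w t hw with ht | ht
    · subst ht
      rw [h0 e he] at hw
      rcases hN with ⟨ha, _⟩ | ⟨_, hb⟩
      · rw [← hp hw, ha]
      · exact absurd (c1_pos.trans c1_lt) (not_lt.2 hb)
    · subst ht
      rw [h1' e he] at hw
      rcases hN with ⟨_, ha⟩ | ⟨hb, _⟩
      · exact absurd (c1_lt.trans c2_lt) (not_lt.2 ha)
      · rw [← hp hw, hb]
  have endv : ∀ e ∈ G.edgeSet, ∀ t : unitInterval, (t = 0 ∨ t = 1) → ∃ w, arc γ e t = p w := by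
    intro e he t ht
    rcases ht with rfl | rfl
    · exact ⟨_, h0 e he⟩
    · exact ⟨_, h1' e he⟩
  have hmid : ∀ t : unitInterval, t ∈ Set.Icc c1 c2 → ¬ (t = 0 ∨ t = 1) := by
    rintro t ht (rfl | rfl)
    · exact absurd c1_pos (not_lt.2 ht.1)
    · exact absurd c2_lt (not_lt.2 ht.2)
  have cst : ∀ v e, IsCompact (st G p γ v e) ∧ IsPreconnected (st G p γ v e) ∧
      p v ∈ st G p γ v e := by
    intro v e
    unfold st
    split_ifs with hc
    · refine ⟨isCompact_Icc.image (hcont e hc.1),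
        isPreconnected_Icc.image _ (hcont e hc.1).continuousOn, ?_⟩
      exact ⟨0, ⟨le_rfl, c1_pos.le⟩, by rw [h0 e hc.1, hc.2]⟩
    · exact ⟨isCompact_singleton, isPreconnected_singleton, rfl⟩
  have cen : ∀ v e, IsCompact (en G p γ v e) ∧ IsPreconnected (en G p γ v e) ∧
      p v ∈ en G p γ v e := by
    intro v e
    unfold en
    split_ifs with hc
    · refine ⟨isCompact_Icc.image (hcont e hc.1),
        isPreconnected_Icc.image _ (hcont e hc.1).continuousOn, ?_⟩
      exact ⟨1, ⟨c2_lt.le, le_rfl⟩, by rw [h1' e hc.1, hc.2]⟩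
    · exact ⟨isCompact_singleton, isPreconnected_singleton, rfl⟩
  refine ⟨star G p γ, mid γ, ?_, ?_, ?_, ?_, ?_, ?_⟩
  · intro v
    have hpv : p v ∈ star G p γ v :=
      Set.mem_iUnion.2 ⟨s(v, v), Or.inl (cst v s(v, v)).2.2⟩
    refine ⟨isCompact_iUnion fun e => (cst v e).1.union (cen v e).1, ⟨p v, hpv⟩, ?_⟩
    refine isPreconnected_iUnion ⟨p v, ?_⟩ fun e =>
      IsPreconnected.union (p v) (cst v e).2.2 (cen v e).2.2 (cst v e).2.1 (cen v e).2.1
    exact Set.mem_iInter.2 fun e => Or.inl (cst v e).2.2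
  · intro e he
    refine ⟨isCompact_Icc.image (hcont e he), ⟨arc γ e c1, c1, ⟨le_rfl, c1_lt.le⟩, rfl⟩,
      isPreconnected_Icc.image _ (hcont e he).continuousOn⟩
  · intro u v huv
    rw [Set.disjoint_left]
    intro z hu hz
    rcases mem_star G p γ hu with rfl | ⟨e, he, t, rfl, hN⟩
    · rcases mem_star G p γ hz with hz' | ⟨f, hf, s, hs, hN'⟩
      · exact huv (hp hz')
      · exact huv (nearv f hf v u s hN' hs)
    · rcases mem_star G p γ hz with hz' | ⟨f, hf, s, hs, hN'⟩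
      · exact huv (nearv e he u v t hN hz').symm
      · by_cases hef : e = f
        · subst hef
          have hst : s = t := hinj e he hs
          subst hst
          rcases hN with ⟨ha, hc⟩ | ⟨ha, hc⟩ <;> rcases hN' with ⟨hb, hd⟩ | ⟨hb, hd⟩
          · exact huv (ha.symm.trans hb)
          · exact absurd c1_lt (not_lt.2 (hd.trans hc))
          · exact absurd c1_lt (not_lt.2 (hc.trans hd))
          · exact huv (ha.symm.trans hb)
        · have hh := hne e he f hf hef t s hs.symm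
          obtain ⟨w, hw⟩ := endv e he t hh.1
          have e1 := nearv e he u w t hN hw
          have e2 := nearv f hf v w s hN' (hs.trans hw)
          exact huv (e1.symm.trans e2)
  · intro e he f hf hef
    rw [Set.disjoint_left]
    rintro z ⟨t, ht, rfl⟩ ⟨s, hs, hst⟩
    exact hmid t ht (hne e he f hf hef t s hst.symm).1
  · intro e he v hve
    rw [Set.disjoint_left]
    rintro z ⟨t, ht, rfl⟩ hz
    rcases mem_star G p γ hz with hz' | ⟨f, hf, s, hs, hN⟩
    · exact hmid t ht (hv e he v t hz')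
    · by_cases hef : e = f
      · subst hef
        apply hve
        rw [← mk_out e, Sym2.mem_iff]
        rcases hN with ⟨ha, _⟩ | ⟨hb, _⟩
        · exact Or.inl ha.symm
        · exact Or.inr hb.symm
      · exact hmid t ht (hne e he f hf hef t s hs.symm).1
  · intro e he v hve
    rw [← mk_out e, Sym2.mem_iff] at hve
    rcases hve with rfl | rfl
    · refine ⟨arc γ e c1, ⟨c1, ⟨le_rfl, c1_lt.le⟩, rfl⟩, Set.mem_iUnion.2 ⟨e, Or.inl ?_⟩⟩
      unfold st
      rw [if_pos ⟨he, rfl⟩]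
      exact ⟨c1, ⟨c1_pos.le, le_rfl⟩, rfl⟩
    · refine ⟨arc γ e c2, ⟨c2, ⟨c1_lt.le, le_rfl⟩, rfl⟩, Set.mem_iUnion.2 ⟨e, Or.inr ?_⟩⟩
      unfold en
      rw [if_pos ⟨he, rfl⟩]
      exact ⟨c2, ⟨le_rfl, c2_lt.le⟩, rfl⟩

end Pool.Agent.OQP
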