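import Pool.Agent.Lib.MP_d86530_co.Basic
import Pool.Agent.Lib.MP_d86530_co.SphK4
import Pool.Agent.Lib.MP_d86530_co.SphGlue
import Pool.Agent.Lib.MP_d86530_co.SphSplit
import Pool.Agent.Lib.MP_d86530_co.SphContr

/-!
# S6: contraction of any edge, up to a supergraph
-/

set_option autoImplicit false

namespace Pool.Agent.Lib.MP_d86530_co

open Relation

variable {V : Type*} {T T₁ T₂ : V → V → V → Prop}

theorem SphContrAll_adjK4 {a b c d x y : V} (hx : x = a ∨ x = b ∨ x = c ∨ x = d)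
    (hy : y = a ∨ y = b ∨ y = c ∨ y = d) (hxy : x ≠ y) : Adj3 (K4 a b c d) x y := by
  unfold Adj3 K4 Tri
  rcases hx with rfl | rfl | rfl | rfl <;> rcases hy with rfl | rfl | rfl | rfl <;>
    first
    | exact absurd rfl hxy
    | exact ⟨a, by simp⟩
    | exact ⟨b, by simp⟩
    | exact ⟨c, by simp⟩

/-- insertion of a new vertex into the face `u z a'` -/
theorem SphContrAll_ext (h : IsSph T) {u z a p : V} (hf : T u z a) (hp : p ∉ Vert T) :
    ∃ T' : V → V → V → Prop, IsSph T' ∧ Vert T' = Vert T ∪ {p} ∧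
      (∀ x y, Adj3 T x y → Adj3 T' x y) ∧ T' u z p := by
  obtain ⟨h1, h2, h3⟩ := h.distinct hf
  have hu := IsSph.vert1 hf
  have hz := h.vert2 hf
  have ha := h.vert3 hf
  have pu : u ≠ p := fun e => hp (e ▸ hu)
  have pz : z ≠ p := fun e => hp (e ▸ hz)
  have pa : a ≠ p := fun e => hp (e ▸ ha)
  have hK : IsSph (K4 u z a p) := isSph_K4 h1 h3.symm pu h2 pz pa
  have hKf : K4 u z a p u z a := Or.inl (tri_self u z a)
  have hV : ∀ x, x ∈ Vert T → x ∈ Vert (K4 u z a p) → x = u ∨ x = z ∨ x = a := by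
    intro x hx hx'
    rw [vert_K4] at hx'
    simp only [Set.mem_insert_iff, Set.mem_singleton_iff] at hx'
    rcases hx' with e | e | e | e
    · exact Or.inl e
    · exact Or.inr (Or.inl e)
    · exact Or.inr (Or.inr e)
    · exact absurd (e ▸ hx) hp
  refine ⟨glue T (K4 u z a p) u z a, isSph_glue h hK hf hKf hV, ?_, ?_, ?_⟩
  · rw [vert_glue h hK hf hKf hV, vert_K4]
    ext x
    simp only [Set.mem_union, Set.mem_insert_iff, Set.mem_singleton_iff]
    constructor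
    · rintro (k | rfl | rfl | rfl | rfl)
      · exact Or.inl k
      · exact Or.inl hu
      · exact Or.inl hz
      · exact Or.inl ha
      · exact Or.inr rfl
    · rintro (k | rfl)
      · exact Or.inl k
      · simp
  · intro x y hxy
    exact (adj_glue h hK hf hKf hV x y).2 (Or.inl hxy)
  · refine ⟨Or.inr (Or.inr (Or.inl (tri_self u z p))), fun k => ?_⟩
    rcases tri_mem3 k with e | e | e
    · exact pu e.symm
    · exact pz e.symm
    · exact pa e.symm

theorem SphContrAll_pj {u w x : V} (hx : x ≠ w) : pj u w x = x := by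
  unfold pj
  rw [if_neg hx]

theorem SphContrAll_pju (u w : V) : pj u w u = u := by
  unfold pj
  split_ifs <;> rfl

theorem SphContrAll_pjw (u w : V) : pj u w w = u := by
  unfold pj
  rw [if_pos rfl]

/-- the small complexes: four vertices -/
theorem SphContrAll_pj4 {u w z p x : V} (hz : z ≠ w) (hp : p ≠ w)
    (hx : x = u ∨ x = w ∨ x = z ∨ x = p) : pj u w x = u ∨ pj u w x = z ∨ pj u w x = p := by
  rcases hx with rfl | rfl | rfl | rfl
  · exact Or.inl (SphContrAll_pju _ _)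
  · exact Or.inl (SphContrAll_pjw _ _)
  · exact Or.inr (Or.inl (SphContrAll_pj hz))
  · exact Or.inr (Or.inr (SphContrAll_pj hp))

/-- the conclusion for a complex -/
def SphContrAllA (T : V → V → V → Prop) (u w : V) (T' : V → V → V → Prop) : Prop :=
  IsSph T' ∧ Vert T' ⊆ Vert T \ {w} ∧
      ∀ x y, Adj3 T x y → pj u w x ≠ pj u w y → Adj3 T' (pj u w x) (pj u w y)

/-- four vertices -/
def SphContrAllB (T : V → V → V → Prop) (u w z p : V) : Prop :=
  p ∈ Vert T ∧ p ≠ u ∧ p ≠ w ∧ p ≠ z ∧ ∀ x ∈ Vert T, x = u ∨ x = w ∨ x = z ∨ x = p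

theorem SphContrAll_AA {u w z : V} (h₁ : IsSph T₁) (h₂ : IsSph T₂) (f₁ : T₁ u w z)
    (f₂ : T₂ u w z) (hV : ∀ x, x ∈ Vert T₁ → x ∈ Vert T₂ → x = u ∨ x = w ∨ x = z)
    {S₁ S₂ : V → V → V → Prop} (A₁ : SphContrAllA T₁ u w S₁) (A₂ : SphContrAllA T₂ u w S₂) :
    ∃ T' : V → V → V → Prop, IsSph T' ∧ Vert T' ⊆ (Vert T₁ ∪ Vert T₂) \ {w} ∧
      ∀ x y, Adj3 T₁ x y ∨ Adj3 T₂ x y → pj u w x ≠ pj u w y →
        Adj3 T' (pj u w x) (pj u w y) := by
  obtain ⟨s₁, v₁, a₁⟩ := A₁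
  obtain ⟨s₂, v₂, a₂⟩ := A₂
  obtain ⟨huw, hwz, hzu⟩ := h₁.distinct f₁
  have uz₁ : Adj3 S₁ u z := by
    have := a₁ u z (h₁.adj_symm (h₁.adj31 f₁)) (by
      rw [SphContrAll_pju, SphContrAll_pj hwz.symm]; exact hzu.symm)
    rwa [SphContrAll_pju, SphContrAll_pj hwz.symm] at this
  have uz₂ : Adj3 S₂ u z := by
    have := a₂ u z (h₂.adj_symm (h₂.adj31 f₂)) (by
      rw [SphContrAll_pju, SphContrAll_pj hwz.symm]; exact hzu.symm)
    rwa [SphContrAll_pju, SphContrAll_pj hwz.symm] at this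
  obtain ⟨a, ha⟩ := uz₁
  obtain ⟨b, hb⟩ := uz₂
  obtain ⟨_, k2, k3⟩ := s₂.distinct hb
  have hb2 := v₂ (s₂.vert3 hb)
  have hbS : b ∉ Vert S₁ := by
    intro k
    rcases hV b (v₁ k).1 hb2.1 with e | e | e
    · exact k3 e
    · exact hb2.2 e
    · exact k2 e.symm
  obtain ⟨S, sS, vS, aS, fS⟩ := SphContrAll_ext s₁ ha hbS
  have hVS : ∀ x, x ∈ Vert S → x ∈ Vert S₂ → x = u ∨ x = z ∨ x = b := by
    intro x hx hx'
    rw [vS] at hx
    rcases hx with hx | hx
    · rcases hV x (v₁ hx).1 (v₂ hx').1 with e | e | e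
      · exact Or.inl e
      · exact absurd e (v₁ hx).2
      · exact Or.inr (Or.inl e)
    · exact Or.inr (Or.inr hx)
  refine ⟨glue S S₂ u z b, isSph_glue sS s₂ fS hb hVS, ?_, ?_⟩
  · rw [vert_glue sS s₂ fS hb hVS, vS]
    rintro x ((hx | hx) | hx)
    · exact ⟨Or.inl (v₁ hx).1, (v₁ hx).2⟩
    · have hx' : x = b := hx
      rw [hx']
      exact ⟨Or.inr hb2.1, hb2.2⟩
    · exact ⟨Or.inr (v₂ hx).1, (v₂ hx).2⟩
  · intro x y hxy hne
    rw [adj_glue sS s₂ fS hb hVS]
    rcases hxy with k | k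
    · exact Or.inl (aS _ _ (a₁ x y k hne))
    · exact Or.inr (a₂ x y k hne)

theorem SphContrAll_AB {u w z p : V} (h₁ : IsSph T₁) (h₂ : IsSph T₂) (f₁ : T₁ u w z)
    (hV : ∀ x, x ∈ Vert T₁ → x ∈ Vert T₂ → x = u ∨ x = w ∨ x = z)
    {S₁ : V → V → V → Prop} (A₁ : SphContrAllA T₁ u w S₁) (A₂ : SphContrAllB T₂ u w z p) :
    ∃ T' : V → V → V → Prop, IsSph T' ∧ Vert T' ⊆ (Vert T₁ ∪ Vert T₂) \ {w} ∧
      ∀ x y, Adj3 T₁ x y ∨ Adj3 T₂ x y → pj u w x ≠ pj u w y →
        Adj3 T' (pj u w x) (pj u w y) := by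
  obtain ⟨s₁, v₁, a₁⟩ := A₁
  obtain ⟨hp, pu, pw, pz, hall⟩ := A₂
  obtain ⟨huw, hwz, hzu⟩ := h₁.distinct f₁
  have uz₁ : Adj3 S₁ u z := by
    have := a₁ u z (h₁.adj_symm (h₁.adj31 f₁)) (by
      rw [SphContrAll_pju, SphContrAll_pj hwz.symm]; exact hzu.symm)
    rwa [SphContrAll_pju, SphContrAll_pj hwz.symm] at this
  obtain ⟨a, ha⟩ := uz₁
  have hpS : p ∉ Vert S₁ := by
    intro k
    rcases hV p (v₁ k).1 hp with e | e | e
    · exact pu e
    · exact pw e
    · exact pz e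
  obtain ⟨S, sS, vS, aS, fS⟩ := SphContrAll_ext s₁ ha hpS
  refine ⟨S, sS, ?_, ?_⟩
  · rw [vS]
    rintro x (hx | hx)
    · exact ⟨Or.inl (v₁ hx).1, (v₁ hx).2⟩
    · have hx' : x = p := hx
      rw [hx']
      exact ⟨Or.inr hp, pw⟩
  · intro x y hxy hne
    rcases hxy with k | k
    · exact aS _ _ (a₁ x y k hne)
    · obtain ⟨kx, ky⟩ := h₂.vert_of_adj k
      have qx := SphContrAll_pj4 hwz.symm pw (hall x kx)
      have qy := SphContrAll_pj4 hwz.symm pw (hall y ky)
      have e1 : Adj3 S u z := IsSph.adj12 fS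
      have e2 : Adj3 S z p := sS.adj23 fS
      have e3 : Adj3 S p u := sS.adj31 fS
      rcases qx with ex | ex | ex <;> rcases qy with ey | ey | ey
      · exact absurd (ex.trans ey.symm) hne
      · rw [ex, ey]; exact e1
      · rw [ex, ey]; exact sS.adj_symm e3
      · rw [ex, ey]; exact sS.adj_symm e1
      · exact absurd (ex.trans ey.symm) hne
      · rw [ex, ey]; exact e2
      · rw [ex, ey]; exact e3
      · rw [ex, ey]; exact sS.adj_symm e2
      · exact absurd (ex.trans ey.symm) hne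

theorem SphContrAll_BB {u w z p q : V} (h₁ : IsSph T₁) (h₂ : IsSph T₂) (f₁ : T₁ u w z)
    (hV : ∀ x, x ∈ Vert T₁ → x ∈ Vert T₂ → x = u ∨ x = w ∨ x = z)
    (A₁ : SphContrAllB T₁ u w z p) (A₂ : SphContrAllB T₂ u w z q) :
    ∃ T' : V → V → V → Prop, IsSph T' ∧ Vert T' ⊆ (Vert T₁ ∪ Vert T₂) \ {w} ∧
      ∀ x y, Adj3 T₁ x y ∨ Adj3 T₂ x y → pj u w x ≠ pj u w y →
        Adj3 T' (pj u w x) (pj u w y) := by
  obtain ⟨hp, pu, pw, pz, hall⟩ := A₁
  obtain ⟨hq, qu, qw, qz, hall'⟩ := A₂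
  obtain ⟨huw, hwz, hzu⟩ := h₁.distinct f₁
  have hpq : p ≠ q := by
    rintro rfl
    rcases hV p hp hq with e | e | e
    · exact pu e
    · exact pw e
    · exact pz e
  refine ⟨K4 u z p q, isSph_K4 hzu.symm pu.symm qu.symm pz.symm qz.symm hpq, ?_, ?_⟩
  · rw [vert_K4]
    intro x hx
    simp only [Set.mem_insert_iff, Set.mem_singleton_iff] at hx
    rcases hx with rfl | rfl | rfl | rfl
    · exact ⟨Or.inl (IsSph.vert1 f₁), huw⟩
    · exact ⟨Or.inl (h₁.vert3 f₁), hwz.symm⟩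
    · exact ⟨Or.inl hp, pw⟩
    · exact ⟨Or.inr hq, qw⟩
  · intro x y hxy hne
    have key : (pj u w x = u ∨ pj u w x = z ∨ pj u w x = p ∨ pj u w x = q) ∧
        (pj u w y = u ∨ pj u w y = z ∨ pj u w y = p ∨ pj u w y = q) := by
      rcases hxy with k | k
      · obtain ⟨kx, ky⟩ := h₁.vert_of_adj k
        have qx := SphContrAll_pj4 hwz.symm pw (hall x kx)
        have qy := SphContrAll_pj4 hwz.symm pw (hall y ky)
        constructor
        · tauto
        · tauto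
      · obtain ⟨kx, ky⟩ := h₂.vert_of_adj k
        have qx := SphContrAll_pj4 hwz.symm qw (hall' x kx)
        have qy := SphContrAll_pj4 hwz.symm qw (hall' y ky)
        constructor
        · tauto
        · tauto
    exact SphContrAll_adjK4 key.1 key.2 hne

theorem SphContrAll_part (h : IsSph T) {u w z : V} (f : T u w z) {n : ℕ}
    (hn : (Vert T).ncard < n)
    (ih : ∀ m < n, ∀ T : V → V → V → Prop, IsSph T → Adj3 T u w → 5 ≤ (Vert T).ncard →
      (Vert T).ncard = m → ∃ T', SphContrAllA T u w T') :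
    (∃ T', SphContrAllA T u w T') ∨ ∃ p, SphContrAllB T u w z p := by
  by_cases h5 : 5 ≤ (Vert T).ncard
  · exact Or.inl (ih _ hn T h (IsSph.adj12 f) h5 rfl)
  · right
    obtain ⟨p, hpz, hp, _⟩ := h.opp f
    obtain ⟨h1, h2, h3⟩ := h.distinct f
    obtain ⟨_, k2, k3⟩ := h.distinct hp
    refine ⟨p, h.vert3 hp, k3, k2.symm, hpz, ?_⟩
    have hsub : ({u, w, z, p} : Set V) ⊆ Vert T := by
      intro x hx
      simp only [Set.mem_insert_iff, Set.mem_singleton_iff] at hx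
      rcases hx with rfl | rfl | rfl | rfl
      · exact IsSph.vert1 f
      · exact h.vert2 f
      · exact h.vert3 f
      · exact h.vert3 hp
    have hcard : ({u, w, z, p} : Set V).ncard = 4 := by
      rw [Set.ncard_insert_of_notMem, Set.ncard_insert_of_notMem, Set.ncard_pair hpz.symm]
      · simp only [Set.mem_insert_iff, Set.mem_singleton_iff, not_or]
        exact ⟨h2, k2⟩
      · simp only [Set.mem_insert_iff, Set.mem_singleton_iff, not_or]
        exact ⟨h1, h3.symm, k3.symm⟩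
    have heq := Set.eq_of_subset_of_ncard_le hsub (by omega) h.fin
    intro x hx
    rw [← heq] at hx
    simpa only [Set.mem_insert_iff, Set.mem_singleton_iff] using hx

theorem SphContrAll_aux {u w : V} (n : ℕ) : ∀ T : V → V → V → Prop, IsSph T → Adj3 T u w →
    5 ≤ (Vert T).ncard → (Vert T).ncard = n → ∃ T', SphContrAllA T u w T' := by
  induction n using Nat.strong_induction_on with
  | _ n ih =>
    intro T h huw h5 hn
    obtain ⟨a, ha⟩ := huw
    obtain ⟨b, hba, hb, _⟩ := h.opp ha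
    by_cases hcom : ∀ z, Adj3 T u z → Adj3 T w z → z = a ∨ z = b
    · have h5' : ∃ x ∈ Vert T, x ≠ u ∧ x ≠ w ∧ x ≠ a ∧ x ≠ b := by
        by_contra hcon
        have hsub : Vert T ⊆ ({u, w, a, b} : Set V) := by
          intro x hx
          by_contra hx'
          simp only [Set.mem_insert_iff, Set.mem_singleton_iff, not_or] at hx'
          exact hcon ⟨x, hx, hx'.1, hx'.2.1, hx'.2.2.1, hx'.2.2.2⟩
        have h6 : (Vert T).ncard ≤ ({u, w, a, b} : Set V).ncard :=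
          Set.ncard_le_ncard hsub (Set.toFinite _)
        have h7 : ({u, w, a, b} : Set V).ncard ≤ 4 := by
          refine (Set.ncard_insert_le _ _).trans ?_
          have := (Set.ncard_insert_le w ({a, b} : Set V))
          have := (Set.ncard_insert_le a ({b} : Set V))
          have := Set.ncard_singleton b
          omega
        omega
      exact ⟨contr T u w, isSph_contr h hba.symm ha hb hcom h5',
        (vert_contr h hba.symm ha hb hcom h5').le,
        fun x y hxy hne => adj_contr h hba.symm ha hb hcom h5' hxy hne⟩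
    · push Not at hcom
      obtain ⟨z, hz1, hz2, hza, hzb⟩ := hcom
      have hnf : ¬ T u w z := fun k => by
        rcases h.opp_uniq ha hb hba.symm k with e | e
        · exact hza e
        · exact hzb e
      obtain ⟨T₁, T₂, h₁, h₂, f₁, f₂, hV, hT, ⟨x₁, hx₁, hx₁'⟩, ⟨x₂, hx₂, hx₂'⟩⟩ :=
        exists_split h (IsSph.adj12 ha) hz2 (h.adj_symm hz1) hnf
      have hTe : T = glue T₁ T₂ u w z := by
        funext x y z'
        exact propext (hT x y z')
      have hVe : Vert T = Vert T₁ ∪ Vert T₂ := by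
        rw [hTe, vert_glue h₁ h₂ f₁ f₂ hV]
      have n1 : (Vert T₁).ncard < n := by
        rw [← hn]
        refine Set.ncard_lt_ncard ⟨?_, fun k => hx₂' (k ?_)⟩ h.fin
        · rw [hVe]; exact Set.subset_union_left
        · rw [hVe]; exact Or.inr hx₂
      have n2 : (Vert T₂).ncard < n := by
        rw [← hn]
        refine Set.ncard_lt_ncard ⟨?_, fun k => hx₁' (k ?_)⟩ h.fin
        · rw [hVe]; exact Set.subset_union_right
        · rw [hVe]; exact Or.inl hx₁
      have fin : (∃ T' : V → V → V → Prop, IsSph T' ∧ Vert T' ⊆ (Vert T₁ ∪ Vert T₂) \ {w} ∧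
          ∀ x y, Adj3 T₁ x y ∨ Adj3 T₂ x y → pj u w x ≠ pj u w y →
            Adj3 T' (pj u w x) (pj u w y)) → ∃ T', SphContrAllA T u w T' := by
        rintro ⟨T', k1, k2, k3⟩
        refine ⟨T', k1, ?_, ?_⟩
        · rw [hVe]; exact k2
        · intro x y hxy hne
          rw [hTe, adj_glue h₁ h₂ f₁ f₂ hV] at hxy
          exact k3 x y hxy hne
      have hV' : ∀ x, x ∈ Vert T₂ → x ∈ Vert T₁ → x = u ∨ x = w ∨ x = z := fun x a b => hV x b a
      apply fin
      rcases SphContrAll_part h₁ f₁ n1 ih with ⟨S₁, A₁⟩ | ⟨p, B₁⟩ <;>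
        rcases SphContrAll_part h₂ f₂ n2 ih with ⟨S₂, A₂⟩ | ⟨q, B₂⟩
      · exact SphContrAll_AA h₁ h₂ f₁ f₂ hV A₁ A₂
      · exact SphContrAll_AB h₁ h₂ f₁ hV A₁ B₂
      · obtain ⟨T', k1, k2, k3⟩ := SphContrAll_AB h₂ h₁ f₂ hV' A₂ B₁
        refine ⟨T', k1, ?_, fun x y hxy => k3 x y hxy.symm⟩
        rw [Set.union_comm]
        exact k2
      · exact SphContrAll_BB h₁ h₂ f₁ hV B₁ B₂

theorem exists_contr (h : IsSph T) {u w : V} (huw : Adj3 T u w) (h5 : 5 ≤ (Vert T).ncard) :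
    ∃ T' : V → V → V → Prop, IsSph T' ∧ Vert T' ⊆ Vert T \ {w} ∧
      ∀ x y, Adj3 T x y → pj u w x ≠ pj u w y → Adj3 T' (pj u w x) (pj u w y) :=
  SphContrAll_aux _ T h huw h5 rfl

end Pool.Agent.Lib.MP_d86530_co
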