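import Pool.Agent.Lib.MP_d86530_co.CycAvoid

/-! Flips of edges of a combinatorial sphere. -/

set_option autoImplicit false

namespace Pool.Agent.Lib.MP_d86530_co

open Relation

variable {V : Type*} {T : V → V → V → Prop}

theorem SphFlip.rot' {x y z w p q r : V} (h : IsSph T) (hf : flip T x y z w p q r) :
    flip T x y z w q r p := by
  rcases hf with ⟨h1, h2, h3⟩ | h1 | h1
  · exact Or.inl ⟨h.rot h1, fun k => h2 (tri_rot.2 k), fun k => h3 (tri_rot.2 k)⟩
  · exact Or.inr (Or.inl (tri_rot.1 h1))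
  · exact Or.inr (Or.inr (tri_rot.1 h1))

theorem SphFlip.swp' {x y z w p q r : V} (h : IsSph T) (hf : flip T x y z w p q r) :
    flip T x y z w q p r := by
  rcases hf with ⟨h1, h2, h3⟩ | h1 | h1
  · exact Or.inl ⟨h.swp h1, fun k => h2 (tri_swp.2 k), fun k => h3 (tri_swp.2 k)⟩
  · exact Or.inr (Or.inl (tri_swp.1 h1))
  · exact Or.inr (Or.inr (tri_swp.1 h1))

/-- exchanging `x` and `y` -/
theorem SphFlip.comm12 {x y z w p q r : V} : flip T x y z w p q r ↔ flip T y x z w p q r := by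
  unfold flip
  rw [tri_swp' (a := x) (b := y) (c := z), tri_swp' (a := x) (b := y) (c := w)]
  tauto

/-- exchanging `z` and `w` -/
theorem SphFlip.comm34 {x y z w p q r : V} : flip T x y z w p q r ↔ flip T x y w z p q r := by
  unfold flip
  rw [tri_swp' (a := z) (b := w) (c := x), tri_swp' (a := z) (b := w) (c := y)]
  tauto

theorem adj_flip (h : IsSph T) {x y z w : V} (h1 : T x y z) (h2 : T x y w) (hzw : z ≠ w)
    (hn : ¬ Adj3 T z w) (p q : V) :
    Adj3 (flip T x y z w) p q ↔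
      (Adj3 T p q ∧ ¬ (p = x ∧ q = y) ∧ ¬ (p = y ∧ q = x)) ∨ (p = z ∧ q = w) ∨
        (p = w ∧ q = z) := by
  obtain ⟨d1, d2, d3⟩ := h.distinct h1
  obtain ⟨e1, e2, e3⟩ := h.distinct h2
  have hop : ∀ t, T x y t → t = z ∨ t = w := fun t ht => h.opp_uniq h1 h2 hzw ht
  constructor
  · rintro ⟨r, hr⟩
    rcases hr with ⟨k1, k2, k3⟩ | k | k
    · refine Or.inl ⟨⟨r, k1⟩, ?_, ?_⟩
      · rintro ⟨rfl, rfl⟩
        rcases hop r k1 with rfl | rfl
        · exact k2 (tri_self _ _ _)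
        · exact k3 (tri_self _ _ _)
      · rintro ⟨rfl, rfl⟩
        rcases hop r (h.swp k1) with rfl | rfl
        · exact k2 (tri_swp.1 (tri_self _ _ _))
        · exact k3 (tri_swp.1 (tri_self _ _ _))
    · unfold Tri at k
      rcases k with ⟨rfl, rfl, rfl⟩ | ⟨rfl, rfl, rfl⟩ | ⟨rfl, rfl, rfl⟩ | ⟨rfl, rfl, rfl⟩ |
        ⟨rfl, rfl, rfl⟩ | ⟨rfl, rfl, rfl⟩
      · exact Or.inr (Or.inl ⟨rfl, rfl⟩)
      · exact Or.inl ⟨⟨y, h.rot2 h1⟩, fun k => d3 k.1, fun k => d2 k.1.symm⟩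
      · exact Or.inr (Or.inr ⟨rfl, rfl⟩)
      · exact Or.inl ⟨⟨y, h.rot2 h2⟩, fun k => e3 k.1, fun k => e2 k.1.symm⟩
      · exact Or.inl ⟨⟨y, h.swp23 h1⟩, fun k => d2 k.2.symm, fun k => d3 k.2⟩
      · exact Or.inl ⟨⟨y, h.swp23 h2⟩, fun k => e2 k.2.symm, fun k => e3 k.2⟩
    · unfold Tri at k
      rcases k with ⟨rfl, rfl, rfl⟩ | ⟨rfl, rfl, rfl⟩ | ⟨rfl, rfl, rfl⟩ | ⟨rfl, rfl, rfl⟩ |
        ⟨rfl, rfl, rfl⟩ | ⟨rfl, rfl, rfl⟩
      · exact Or.inr (Or.inl ⟨rfl, rfl⟩)
      · exact Or.inl ⟨⟨x, h.swp13 h1⟩, fun k => d3 k.1, fun k => d2 k.1.symm⟩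
      · exact Or.inr (Or.inr ⟨rfl, rfl⟩)
      · exact Or.inl ⟨⟨x, h.swp13 h2⟩, fun k => e3 k.1, fun k => e2 k.1.symm⟩
      · exact Or.inl ⟨⟨x, h.rot h1⟩, fun k => d2 k.2.symm, fun k => d3 k.2⟩
      · exact Or.inl ⟨⟨x, h.rot h2⟩, fun k => e2 k.2.symm, fun k => e3 k.2⟩
  · rintro (⟨⟨r, hr⟩, k1, k2⟩ | ⟨rfl, rfl⟩ | ⟨rfl, rfl⟩)
    · by_cases m1 : Tri x y z p q r
      · unfold Tri at m1
        rcases m1 with ⟨rfl, rfl, rfl⟩ | ⟨rfl, rfl, rfl⟩ | ⟨rfl, rfl, rfl⟩ | ⟨rfl, rfl, rfl⟩ |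
          ⟨rfl, rfl, rfl⟩ | ⟨rfl, rfl, rfl⟩
        · exact absurd ⟨rfl, rfl⟩ k1
        · exact ⟨w, Or.inr (Or.inl (by unfold Tri; simp))⟩
        · exact absurd ⟨rfl, rfl⟩ k2
        · exact ⟨w, Or.inr (Or.inr (by unfold Tri; simp))⟩
        · exact ⟨w, Or.inr (Or.inl (by unfold Tri; simp))⟩
        · exact ⟨w, Or.inr (Or.inr (by unfold Tri; simp))⟩
      · by_cases m2 : Tri x y w p q r
        · unfold Tri at m2
          rcases m2 with ⟨rfl, rfl, rfl⟩ | ⟨rfl, rfl, rfl⟩ | ⟨rfl, rfl, rfl⟩ | ⟨rfl, rfl, rfl⟩ |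
            ⟨rfl, rfl, rfl⟩ | ⟨rfl, rfl, rfl⟩
          · exact absurd ⟨rfl, rfl⟩ k1
          · exact ⟨z, Or.inr (Or.inl (by unfold Tri; simp))⟩
          · exact absurd ⟨rfl, rfl⟩ k2
          · exact ⟨z, Or.inr (Or.inr (by unfold Tri; simp))⟩
          · exact ⟨z, Or.inr (Or.inl (by unfold Tri; simp))⟩
          · exact ⟨z, Or.inr (Or.inr (by unfold Tri; simp))⟩
        · exact ⟨r, Or.inl ⟨hr, m1, m2⟩⟩
    · exact ⟨x, Or.inr (Or.inl (tri_self _ _ _))⟩
    · exact ⟨x, Or.inr (Or.inl (tri_swp.1 (tri_self _ _ _)))⟩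

/-- exactly two faces at the edge `x z` of the flip -/
theorem SphFlip.two_xz (h : IsSph T) {x y z w : V} (h1 : T x y z) (h2 : T x y w) (hzw : z ≠ w)
    (hn : ¬ Adj3 T z w) : ∃ a b, a ≠ b ∧ ∀ s, flip T x y z w x z s ↔ s = a ∨ s = b := by
  obtain ⟨d1, d2, d3⟩ := h.distinct h1
  obtain ⟨e1, e2, e3⟩ := h.distinct h2
  obtain ⟨t, ht1, ht2, ht3⟩ := h.opp (h.swp23 h1)
  have hwt : w ≠ t := by
    rintro rfl
    exact hn ⟨x, h.rot ht2⟩
  refine ⟨w, t, hwt, fun s => ?_⟩
  unfold flip Tri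
  constructor
  · rintro (⟨k1, k2, k3⟩ | k | k)
    · rcases ht3 s k1 with rfl | rfl
      · exact absurd (by simp) k2
      · exact Or.inr rfl
    · left
      grind
    · grind
  · rintro (rfl | rfl)
    · simp
    · left
      refine ⟨ht2, ?_, ?_⟩
      · grind
      · grind

/-- exactly two faces at the edge `z w` of the flip -/
theorem SphFlip.two_zw (h : IsSph T) {x y z w : V} (h1 : T x y z) (h2 : T x y w) (hzw : z ≠ w)
    (hn : ¬ Adj3 T z w) : ∃ a b, a ≠ b ∧ ∀ s, flip T x y z w z w s ↔ s = a ∨ s = b := by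
  obtain ⟨d1, d2, d3⟩ := h.distinct h1
  obtain ⟨e1, e2, e3⟩ := h.distinct h2
  refine ⟨x, y, d1, fun s => ?_⟩
  unfold flip Tri
  constructor
  · rintro (⟨k1, k2, k3⟩ | k | k)
    · exact absurd ⟨s, k1⟩ hn
    · grind
    · grind
  · rintro (rfl | rfl)
    · simp
    · simp

theorem SphFlip.two (h : IsSph T) {x y z w : V} (h1 : T x y z) (h2 : T x y w) (hzw : z ≠ w)
    (hn : ¬ Adj3 T z w) {p q r : V} (hf : flip T x y z w p q r) :
    ∃ a b, a ≠ b ∧ ∀ s, flip T x y z w p q s ↔ s = a ∨ s = b := by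
  obtain ⟨d1, d2, d3⟩ := h.distinct h1
  obtain ⟨e1, e2, e3⟩ := h.distinct h2
  have hn' : ¬ Adj3 T w z := fun k => hn (h.adj_symm k)
  have swp : ∀ {p q : V}, (∃ a b, a ≠ b ∧ ∀ s, flip T x y z w p q s ↔ s = a ∨ s = b) →
      ∃ a b, a ≠ b ∧ ∀ s, flip T x y z w q p s ↔ s = a ∨ s = b := by
    rintro p q ⟨a, b, hab, k⟩
    exact ⟨a, b, hab, fun s => ⟨fun m => (k s).1 (SphFlip.swp' h m),
      fun m => SphFlip.swp' h ((k s).2 m)⟩⟩
  have a1 := SphFlip.two_xz h h1 h2 hzw hn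
  have a2 : ∃ a b, a ≠ b ∧ ∀ s, flip T x y z w x w s ↔ s = a ∨ s = b := by
    obtain ⟨a, b, hab, k⟩ := SphFlip.two_xz h h2 h1 hzw.symm hn'
    exact ⟨a, b, hab, fun s => SphFlip.comm34.trans (k s)⟩
  have a3 : ∃ a b, a ≠ b ∧ ∀ s, flip T x y z w y z s ↔ s = a ∨ s = b := by
    obtain ⟨a, b, hab, k⟩ := SphFlip.two_xz h (h.swp h1) (h.swp h2) hzw hn
    exact ⟨a, b, hab, fun s => SphFlip.comm12.trans (k s)⟩
  have a4 : ∃ a b, a ≠ b ∧ ∀ s, flip T x y z w y w s ↔ s = a ∨ s = b := by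
    obtain ⟨a, b, hab, k⟩ := SphFlip.two_xz h (h.swp h2) (h.swp h1) hzw.symm hn'
    exact ⟨a, b, hab, fun s => (SphFlip.comm34.trans SphFlip.comm12).trans (k s)⟩
  have a5 := SphFlip.two_zw h h1 h2 hzw hn
  by_cases b1 : p = x ∧ q = z
  · rw [b1.1, b1.2]; exact a1
  by_cases b1' : p = z ∧ q = x
  · rw [b1'.1, b1'.2]; exact swp a1
  by_cases b2 : p = x ∧ q = w
  · rw [b2.1, b2.2]; exact a2
  by_cases b2' : p = w ∧ q = x
  · rw [b2'.1, b2'.2]; exact swp a2
  by_cases b3 : p = y ∧ q = z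
  · rw [b3.1, b3.2]; exact a3
  by_cases b3' : p = z ∧ q = y
  · rw [b3'.1, b3'.2]; exact swp a3
  by_cases b4 : p = y ∧ q = w
  · rw [b4.1, b4.2]; exact a4
  by_cases b4' : p = w ∧ q = y
  · rw [b4'.1, b4'.2]; exact swp a4
  by_cases b5 : p = z ∧ q = w
  · rw [b5.1, b5.2]; exact a5
  by_cases b5' : p = w ∧ q = z
  · rw [b5'.1, b5'.2]; exact swp a5
  have hne : ¬ (p = x ∧ q = y) ∧ ¬ (p = y ∧ q = x) := by
    rcases (adj_flip h h1 h2 hzw hn p q).1 ⟨r, hf⟩ with k | k | k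
    · exact k.2
    · exact absurd k b5
    · exact absurd k b5'
  have key : ∀ s, flip T x y z w p q s ↔ T p q s := by
    intro s
    unfold flip Tri
    constructor
    · rintro (k | k | k)
      · exact k.1
      · exfalso
        rcases k with ⟨u, v, -⟩ | ⟨u, v, -⟩ | ⟨u, v, -⟩ | ⟨u, v, -⟩ | ⟨u, v, -⟩ | ⟨u, v, -⟩
        · exact b5 ⟨u, v⟩
        · exact b1' ⟨u, v⟩
        · exact b5' ⟨u, v⟩
        · exact b2' ⟨u, v⟩
        · exact b1 ⟨u, v⟩
        · exact b2 ⟨u, v⟩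
      · exfalso
        rcases k with ⟨u, v, -⟩ | ⟨u, v, -⟩ | ⟨u, v, -⟩ | ⟨u, v, -⟩ | ⟨u, v, -⟩ | ⟨u, v, -⟩
        · exact b5 ⟨u, v⟩
        · exact b3' ⟨u, v⟩
        · exact b5' ⟨u, v⟩
        · exact b4' ⟨u, v⟩
        · exact b3 ⟨u, v⟩
        · exact b4 ⟨u, v⟩
    · intro k
      left
      refine ⟨k, ?_, ?_⟩
      · rintro (⟨u, v, -⟩ | ⟨u, v, -⟩ | ⟨u, v, -⟩ | ⟨u, v, -⟩ | ⟨u, v, -⟩ | ⟨u, v, -⟩)
        · exact hne.1 ⟨u, v⟩
        · exact b1 ⟨u, v⟩
        · exact hne.2 ⟨u, v⟩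
        · exact b3 ⟨u, v⟩
        · exact b1' ⟨u, v⟩
        · exact b3' ⟨u, v⟩
      · rintro (⟨u, v, -⟩ | ⟨u, v, -⟩ | ⟨u, v, -⟩ | ⟨u, v, -⟩ | ⟨u, v, -⟩ | ⟨u, v, -⟩)
        · exact hne.1 ⟨u, v⟩
        · exact b2 ⟨u, v⟩
        · exact hne.2 ⟨u, v⟩
        · exact b4 ⟨u, v⟩
        · exact b2' ⟨u, v⟩
        · exact b4' ⟨u, v⟩
  have hr := (key r).1 hf
  obtain ⟨s, s1, s2, s3⟩ := h.opp hr
  refine ⟨r, s, s1.symm, fun t => ?_⟩
  rw [key]
  constructor
  · exact s3 t
  · rintro (rfl | rfl)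
    · exact hr
    · exact s2

theorem SphFlip.opp (h : IsSph T) {x y z w : V} (h1 : T x y z) (h2 : T x y w) (hzw : z ≠ w)
    (hn : ¬ Adj3 T z w) {p q r : V} (hf : flip T x y z w p q r) :
    ∃ s, s ≠ r ∧ flip T x y z w p q s ∧ ∀ s', flip T x y z w p q s' → s' = r ∨ s' = s := by
  obtain ⟨a, b, hab, k⟩ := SphFlip.two h h1 h2 hzw hn hf
  rcases (k r).1 hf with e | e
  · refine ⟨b, ?_, (k b).2 (Or.inr rfl), fun s hs => ?_⟩
    · rw [e]; exact hab.symm
    · rw [e]; exact (k s).1 hs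
  · refine ⟨a, ?_, (k a).2 (Or.inl rfl), fun s hs => ?_⟩
    · rw [e]; exact hab
    · rw [e]; exact ((k s).1 hs).symm

/-- the link of `x` -/
theorem SphFlip.link_x (h : IsSph T) {x y z w : V} (h1 : T x y z) (h2 : T x y w) (hzw : z ≠ w)
    {a b a' b' : V} (ha : flip T x y z w x a a')
    (hb : flip T x y z w x b b') : ReflTransGen (flip T x y z w x) a b := by
  classical
  obtain ⟨d1, d2, d3⟩ := h.distinct h1
  obtain ⟨e1, e2, e3⟩ := h.distinct h2
  have hop : ∀ t, T x y t → t = z ∨ t = w := fun t ht => h.opp_uniq h1 h2 hzw ht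
  have hmem : ∀ a a', flip T x y z w x a a' → a ≠ y ∧ ∃ a'', T x a a'' := by
    rintro a a' (⟨k1, k2, k3⟩ | k | k)
    · refine ⟨?_, a', k1⟩
      rintro rfl
      rcases hop a' k1 with rfl | rfl
      · exact k2 (tri_self _ _ _)
      · exact k3 (tri_self _ _ _)
    · have : a = z ∨ a = w := by unfold Tri at k; grind
      rcases this with rfl | rfl
      · exact ⟨d2.symm, y, h.swp23 h1⟩
      · exact ⟨e2.symm, y, h.swp23 h2⟩
    · exfalso
      unfold Tri at k
      grind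
  have hzw' : flip T x y z w x z w := Or.inr (Or.inl (by unfold Tri; simp))
  have hwz' : flip T x y z w x w z := Or.inr (Or.inl (by unfold Tri; simp))
  obtain ⟨na, a'', ha''⟩ := hmem a a' ha
  obtain ⟨nb, b'', hb''⟩ := hmem b b' hb
  have hchain := h.link ha'' hb''
  let σ : V → V := fun t => if t = y then z else t
  have hσ : ReflTransGen (flip T x y z w x) (σ a) (σ b) := by
    refine ReflTransGen.lift' σ (fun s t hst => ?_) _ _ hchain
    show ReflTransGen (flip T x y z w x) (σ s) (σ t)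
    by_cases hs : s = y
    · have ht : t ≠ y := by rintro rfl; exact h.ne (h.rot hst) hs
      have h3 : σ s = z := by simp [σ, hs]
      have h4 : σ t = t := by simp [σ, ht]
      rw [h3, h4]
      rw [hs] at hst
      rcases hop t hst with rfl | rfl
      · exact ReflTransGen.refl
      · exact ReflTransGen.single hzw'
    · by_cases ht : t = y
      · have h3 : σ s = s := by simp [σ, hs]
        have h4 : σ t = z := by simp [σ, ht]
        rw [h3, h4]
        rw [ht] at hst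
        rcases hop s (h.swp23 hst) with rfl | rfl
        · exact ReflTransGen.refl
        · exact ReflTransGen.single hwz'
      · have h3 : σ s = s := by simp [σ, hs]
        have h4 : σ t = t := by simp [σ, ht]
        rw [h3, h4]
        refine ReflTransGen.single (Or.inl ⟨hst, ?_, ?_⟩)
        · unfold Tri; grind
        · unfold Tri; grind
  have h3 : σ a = a := by simp [σ, na]
  have h4 : σ b = b := by simp [σ, nb]
  rwa [h3, h4] at hσ

/-- the link of `z` -/
theorem SphFlip.link_z (h : IsSph T) {x y z w : V} (h1 : T x y z) (h2 : T x y w) (hzw : z ≠ w)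
    (hn : ¬ Adj3 T z w)
    {a b a' b' : V} (ha : flip T x y z w z a a')
    (hb : flip T x y z w z b b') : ReflTransGen (flip T x y z w z) a b := by
  obtain ⟨d1, d2, d3⟩ := h.distinct h1
  obtain ⟨e1, e2, e3⟩ := h.distinct h2
  have fs : ∀ s t, flip T x y z w z s t → flip T x y z w z t s := fun s t k =>
    SphFlip.rot' h (SphFlip.swp' h k)
  have hxw : flip T x y z w z x w := Or.inr (Or.inl (by unfold Tri; simp))
  have hyw : flip T x y z w z y w := Or.inr (Or.inr (by unfold Tri; simp))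
  have hmem : ∀ a a', flip T x y z w z a a' → ∃ c c', T z c c' ∧
      ReflTransGen (flip T x y z w z) a c ∧ ReflTransGen (flip T x y z w z) c a := by
    rintro a a' (⟨k1, k2, k3⟩ | k | k)
    · exact ⟨a, a', k1, ReflTransGen.refl, ReflTransGen.refl⟩
    · have : a = x ∨ a = w := by unfold Tri at k; grind
      refine ⟨x, y, h.rot2 h1, ?_⟩
      rcases this with rfl | rfl
      · exact ⟨ReflTransGen.refl, ReflTransGen.refl⟩
      · exact ⟨ReflTransGen.single (fs _ _ hxw), ReflTransGen.single hxw⟩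
    · have : a = y ∨ a = w := by unfold Tri at k; grind
      refine ⟨y, x, h.swp13 h1, ?_⟩
      rcases this with rfl | rfl
      · exact ⟨ReflTransGen.refl, ReflTransGen.refl⟩
      · exact ⟨ReflTransGen.single (fs _ _ hyw), ReflTransGen.single hyw⟩
  obtain ⟨c, c', hc, c1, c2⟩ := hmem a a' ha
  obtain ⟨d, d', hd, f1, f2⟩ := hmem b b' hb
  have hcd : ReflTransGen (flip T x y z w z) c d := by
    refine ReflTransGen.lift' id (fun s t hst => ?_) _ _ (h.link hc hd)
    show ReflTransGen (flip T x y z w z) s t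
    by_cases k1 : s = x ∧ t = y
    · rw [k1.1, k1.2]
      exact (ReflTransGen.single hxw).trans (ReflTransGen.single (fs _ _ hyw))
    by_cases k2 : s = y ∧ t = x
    · rw [k2.1, k2.2]
      exact (ReflTransGen.single hyw).trans (ReflTransGen.single (fs _ _ hxw))
    refine ReflTransGen.single (Or.inl ⟨hst, ?_, ?_⟩)
    · unfold Tri; grind
    · unfold Tri; grind
  exact c1.trans (hcd.trans f2)

theorem isSph_flip (h : IsSph T) {x y z w : V} (h1 : T x y z) (h2 : T x y w) (hzw : z ≠ w)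
    (hn : ¬ Adj3 T z w) : IsSph (flip T x y z w) := by
  obtain ⟨d1, d2, d3⟩ := h.distinct h1
  obtain ⟨e1, e2, e3⟩ := h.distinct h2
  have hop : ∀ t, T x y t → t = z ∨ t = w := fun t ht => h.opp_uniq h1 h2 hzw ht
  have hn' : ¬ Adj3 T w z := fun k => hn (h.adj_symm k)
  have hvert : Vert (flip T x y z w) ⊆ Vert T := by
    rintro p ⟨q, r, ⟨k, -, -⟩ | k | k⟩
    · exact IsSph.vert1 k
    · rcases tri_mem k with rfl | rfl | rfl
      · exact h.vert3 h1
      · exact h.vert3 h2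
      · exact IsSph.vert1 h1
    · rcases tri_mem k with rfl | rfl | rfl
      · exact h.vert3 h1
      · exact h.vert3 h2
      · exact h.vert2 h1
  refine ⟨fun k => SphFlip.rot' h k, fun k => SphFlip.swp' h k, ?_, h.fin.subset hvert, ?_,
    fun k => SphFlip.opp h h1 h2 hzw hn k, ?_, ?_, ?_⟩
  · rintro p q r (⟨k, -, -⟩ | k | k)
    · exact h.ne k
    · unfold Tri at k; grind
    · unfold Tri at k; grind
  · exact ⟨z, w, x, Or.inr (Or.inl (tri_self _ _ _))⟩
  · -- links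
    intro v a a' b b' ha hb
    by_cases hvx : v = x
    · subst hvx
      exact SphFlip.link_x h h1 h2 hzw ha hb
    by_cases hvy : v = y
    · subst hvy
      have k := SphFlip.link_x h (h.swp h1) (h.swp h2) hzw (SphFlip.comm12.1 ha)
        (SphFlip.comm12.1 hb)
      exact ReflTransGen.mono (fun s t m => SphFlip.comm12.2 m) _ _ k
    by_cases hvz : v = z
    · subst hvz
      exact SphFlip.link_z h h1 h2 hzw hn ha hb
    by_cases hvw : v = w
    · subst hvw
      have k := SphFlip.link_z h h2 h1 hzw.symm hn' (SphFlip.comm34.1 ha)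
        (SphFlip.comm34.1 hb)
      exact ReflTransGen.mono (fun s t m => SphFlip.comm34.2 m) _ _ k
    · have key : ∀ s t, flip T x y z w v s t ↔ T v s t := by
        intro s t
        unfold flip Tri
        constructor
        · rintro (k | k | k)
          · exact k.1
          · exfalso; grind
          · exfalso; grind
        · intro k
          exact Or.inl ⟨k, by grind, by grind⟩
      exact ReflTransGen.mono (fun s t m => (key s t).2 m) _ _
        (h.link ((key _ _).1 ha) ((key _ _).1 hb))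
  · -- connectedness
    intro p q hp hq
    have hxz : Adj3 (flip T x y z w) x z := ⟨w, Or.inr (Or.inl (by unfold Tri; simp))⟩
    have hzx : Adj3 (flip T x y z w) z x := ⟨w, Or.inr (Or.inl (by unfold Tri; simp))⟩
    have hyz : Adj3 (flip T x y z w) y z := ⟨w, Or.inr (Or.inr (by unfold Tri; simp))⟩
    have hzy : Adj3 (flip T x y z w) z y := ⟨w, Or.inr (Or.inr (by unfold Tri; simp))⟩
    refine ReflTransGen.lift' id (fun s t hst => ?_) _ _ (h.conn (hvert hp) (hvert hq))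
    show ReflTransGen (Adj3 (flip T x y z w)) s t
    by_cases k1 : s = x ∧ t = y
    · rw [k1.1, k1.2]
      exact (ReflTransGen.single hxz).trans (ReflTransGen.single hzy)
    by_cases k2 : s = y ∧ t = x
    · rw [k2.1, k2.2]
      exact (ReflTransGen.single hyz).trans (ReflTransGen.single hzx)
    exact ReflTransGen.single ((adj_flip h h1 h2 hzw hn s t).2 (Or.inl ⟨hst, k1, k2⟩))
  · -- cohomology
    intro g gs gb
    classical
    have b1 : g z w + g w x + g x z = 0 := gb z w x (Or.inr (Or.inl (tri_self _ _ _)))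
    have b2 : g z w + g w y + g y z = 0 := gb z w y (Or.inr (Or.inr (tri_self _ _ _)))
    let g' : V → V → ZMod 2 := fun s t =>
      if (s = x ∧ t = y) ∨ (s = y ∧ t = x) then g x z + g y z else g s t
    have gs' : ∀ s t, g' s t = g' t s := by
      intro s t
      simp only [g']
      by_cases k : (s = x ∧ t = y) ∨ (s = y ∧ t = x)
      · rw [if_pos k, if_pos (by tauto)]
      · rw [if_neg k, if_neg (by tauto), gs]
    have g'1 : g' x y = g x z + g y z := by simp [g']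
    have g'2 : ∀ s t, ¬ ((s = x ∧ t = y) ∨ (s = y ∧ t = x)) → g' s t = g s t := fun s t k =>
      if_neg k
    have hc2 : ∀ u : ZMod 2, u + u = 0 := fun u => CharTwo.add_self_eq_zero u
    have gb1 : g' x y + g' y z + g' z x = 0 := by
      rw [g'1, g'2 y z (by tauto), g'2 z x (by grind), gs z x]
      linear_combination hc2 (g x z) + hc2 (g y z)
    have gb2 : g' x y + g' y w + g' w x = 0 := by
      rw [g'1, g'2 y w (by grind), g'2 w x (by grind)]
      linear_combination b1 + b2 - hc2 (g z w) + gs y w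
    have perm : ∀ {a b c p q r : V}, g' a b + g' b c + g' c a = 0 → Tri a b c p q r →
        g' p q + g' q r + g' r p = 0 := by
      intro a b c p q r hs ht
      rcases ht with ⟨rfl, rfl, rfl⟩ | ⟨rfl, rfl, rfl⟩ | ⟨rfl, rfl, rfl⟩ | ⟨rfl, rfl, rfl⟩ |
        ⟨rfl, rfl, rfl⟩ | ⟨rfl, rfl, rfl⟩
      · exact hs
      · linear_combination hs + gs' p q + gs' q r + gs' r p
      · linear_combination hs + gs' p q + gs' q r + gs' r p
      · linear_combination hs
      · linear_combination hs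
      · linear_combination hs + gs' p q + gs' q r + gs' r p
    obtain ⟨e, he⟩ := h.coh g' gs' (by
      intro p q r hpqr
      by_cases m1 : Tri x y z p q r
      · exact perm gb1 m1
      by_cases m2 : Tri x y w p q r
      · exact perm gb2 m2
      have hf : flip T x y z w p q r := Or.inl ⟨hpqr, m1, m2⟩
      have key : ∀ {p q r : V}, flip T x y z w p q r → g' p q = g p q := by
        intro p q r k
        refine g'2 p q ?_
        have := (adj_flip h h1 h2 hzw hn p q).1 ⟨r, k⟩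
        rintro (⟨rfl, rfl⟩ | ⟨rfl, rfl⟩)
        · rcases this with k | k | k
          · exact k.2.1 ⟨rfl, rfl⟩
          · exact d3 k.1.symm
          · exact e3 k.1.symm
        · rcases this with k | k | k
          · exact k.2.2 ⟨rfl, rfl⟩
          · exact d2 k.1
          · exact e2 k.1
      rw [key hf, key (SphFlip.rot' h hf), key (SphFlip.rot' h (SphFlip.rot' h hf))]
      exact gb p q r hf)
    have hT : ∀ s t, Adj3 T s t → ¬ ((s = x ∧ t = y) ∨ (s = y ∧ t = x)) →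
        g s t = e s + e t := by
      rintro s t ⟨u, hu⟩ k
      rw [← g'2 s t k]
      exact he s t u hu
    have hzx : g x z = e x + e z := hT x z ⟨y, h.swp23 h1⟩ (by grind)
    have hwx : g w x = e w + e x := hT w x ⟨y, h.rot2 h2⟩ (by grind)
    have hzw' : g z w = e z + e w := by
      linear_combination b1 - hzx - hwx - hc2 (e x) - hc2 (e z) - hc2 (e w)
    refine ⟨e, fun s t u hstu => ?_⟩
    rcases (adj_flip h h1 h2 hzw hn s t).1 ⟨u, hstu⟩ with k | k | k
    · exact hT s t k.1 (by tauto)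
    · rw [k.1, k.2]
      exact hzw'
    · rw [k.1, k.2, gs w z, hzw']
      ring

end Pool.Agent.Lib.MP_d86530_co
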