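import Pool.Agent.Lib.MP_d86530_co.Basic
import Pool.Agent.Lib.MP_d86530_co.SphK4
import Pool.Agent.Lib.MP_d86530_co.SphGlue
import Pool.Agent.Lib.MP_d86530_co.SphFlip
import Pool.Agent.Lib.MP_d86530_co.OqpDefs

set_option autoImplicit false

namespace Pool.Agent.Lib.MP_d86530_co

open Relation

section
variable {V : Type*} {T : V → V → V → Prop}

/-- inserting a new vertex into a face -/
theorem sphGrid_insert (h : IsSph T) {a b c d : V} (habc : T a b c) (hd : d ∉ Vert T) :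
    ∃ T' : V → V → V → Prop, IsSph T' ∧ (∀ v ∈ Vert T', v ∈ Vert T ∨ v = d) ∧
      (∀ x y, Adj3 T x y → Adj3 T' x y) ∧
      (∀ x y z, T x y z → ¬ Tri a b c x y z → T' x y z) ∧ T' a b d ∧ T' b c d ∧ T' a c d ∧
      (∀ x, Adj3 T' d x → x = a ∨ x = b ∨ x = c) := by
  obtain ⟨hab, hbc, hca⟩ := h.distinct habc
  have hda : d ≠ a := fun e => hd (e ▸ IsSph.vert1 habc)
  have hdb : d ≠ b := fun e => hd (e ▸ h.vert2 habc)
  have hdc : d ≠ c := fun e => hd (e ▸ h.vert3 habc)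
  have hK := isSph_K4 hab hca.symm hda.symm hbc hdb.symm hdc.symm
  have hKf : K4 a b c d a b c := Or.inl (tri_self a b c)
  have hV : ∀ x, x ∈ Vert T → x ∈ Vert (K4 a b c d) → x = a ∨ x = b ∨ x = c := by
    intro x hx hx'
    rw [vert_K4] at hx'
    rcases hx' with rfl | rfl | rfl | hx'
    · exact Or.inl rfl
    · exact Or.inr (Or.inl rfl)
    · exact Or.inr (Or.inr rfl)
    · exact absurd (hx' ▸ hx) hd
  have hnt : ∀ x y, ¬ Tri a b c x y d := by
    intro x y ht
    rcases tri_mem3 ht with e | e | e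
    · exact hda e
    · exact hdb e
    · exact hdc e
  refine ⟨glue T (K4 a b c d) a b c, isSph_glue h hK habc hKf hV, ?_, ?_, ?_, ?_, ?_, ?_, ?_⟩
  · intro v hv
    rw [vert_glue h hK habc hKf hV, vert_K4] at hv
    rcases hv with hv | hv
    · exact Or.inl hv
    · rcases hv with rfl | rfl | rfl | hv
      · exact Or.inl (IsSph.vert1 habc)
      · exact Or.inl (h.vert2 habc)
      · exact Or.inl (h.vert3 habc)
      · exact Or.inr hv
  · intro x y hxy
    exact (adj_glue h hK habc hKf hV x y).mpr (Or.inl hxy)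
  · intro x y z hT hn
    exact ⟨Or.inl hT, hn⟩
  · exact ⟨Or.inr (Or.inr (Or.inl (tri_self _ _ _))), hnt _ _⟩
  · exact ⟨Or.inr (Or.inr (Or.inr (Or.inr (tri_self _ _ _)))), hnt _ _⟩
  · exact ⟨Or.inr (Or.inr (Or.inr (Or.inl (tri_self _ _ _)))), hnt _ _⟩
  · intro x hx
    rcases (adj_glue h hK habc hKf hV d x).mp hx with hx | hx
    · exact absurd (h.vert_of_adj hx).1 hd
    · have h1 := (hK.vert_of_adj hx).2
      have h2 := hK.adj_ne hx
      rw [vert_K4] at h1
      rcases h1 with rfl | rfl | rfl | h1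
      · exact Or.inl rfl
      · exact Or.inr (Or.inl rfl)
      · exact Or.inr (Or.inr rfl)
      · exact absurd h1.symm h2

theorem sphGrid_tri_mem {a b c x y z : V} (h : Tri a b c x y z) (t : V)
    (ht : t = a ∨ t = b ∨ t = c) : x = t ∨ y = t ∨ z = t := by
  rw [tri_comm] at h
  rcases ht with rfl | rfl | rfl
  · rcases tri_mem h with e | e | e <;> simp [e]
  · rcases tri_mem2 h with e | e | e <;> simp [e]
  · rcases tri_mem3 h with e | e | e <;> simp [e]

/-- adding a new vertex in front of a frontier vertex `q` with neighbours `p`, `r` -/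
theorem sphGrid_ext (h : IsSph T) {o p q r d : V} (h1 : T o p q) (h2 : T o q r) (hpr : p ≠ r)
    (hd : d ∉ Vert T) :
    ∃ T' : V → V → V → Prop, IsSph T' ∧ (∀ v ∈ Vert T', v ∈ Vert T ∨ v = d) ∧
      (∀ x y, Adj3 T x y → x ≠ o → y ≠ o → Adj3 T' x y) ∧
      (∀ x y z, T x y z → x ≠ q → y ≠ q → z ≠ q → T' x y z) ∧ T' o p d ∧ T' o d r ∧
      Adj3 T' q d := by
  obtain ⟨T₁, g1, g2, g3, g4, g5, g6, g7, g8⟩ := sphGrid_insert h h1 hd
  obtain ⟨hop, hpq, hqo⟩ := h.distinct h1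
  obtain ⟨hoq, hqr, hro⟩ := h.distinct h2
  have hdq : d ≠ q := fun e => hd (e ▸ h.vert3 h1)
  have hdr : d ≠ r := fun e => hd (e ▸ h.vert3 h2)
  have k2 : T₁ o q r := by
    refine g4 _ _ _ h2 fun ht => ?_
    rcases tri_mem3 ht with e | e | e
    · exact hro e
    · exact hpr e.symm
    · exact hqr e.symm
  have hn : ¬ Adj3 T₁ d r := by
    intro ha
    rcases g8 r ha with e | e | e
    · exact hro e
    · exact hpr e.symm
    · exact hqr e.symm
  have hs := isSph_flip g1 g7 k2 hdr hn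
  refine ⟨flip T₁ o q d r, hs, ?_, ?_, ?_, ?_, ?_, ?_⟩
  · rintro v ⟨y, z, hv⟩
    rcases hv with hv | hv | hv
    · exact g2 v ⟨y, z, hv.1⟩
    · rcases tri_mem hv with e | e | e
      · exact Or.inr e
      · exact Or.inl (e ▸ h.vert3 h2)
      · exact Or.inl (e ▸ IsSph.vert1 h2)
    · rcases tri_mem hv with e | e | e
      · exact Or.inr e
      · exact Or.inl (e ▸ h.vert3 h2)
      · exact Or.inl (e ▸ h.vert2 h2)
  · intro x y hxy hx hy
    refine (adj_flip g1 g7 k2 hdr hn x y).mpr (Or.inl ⟨g3 x y hxy, ?_, ?_⟩)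
    · rintro ⟨e, _⟩; exact hx e
    · rintro ⟨_, e⟩; exact hy e
  · intro x y z hT hx hy hz
    have hno : ∀ a b c : V, (q = a ∨ q = b ∨ q = c) → ¬ Tri a b c x y z := by
      intro a b c hq ht
      rcases sphGrid_tri_mem ht q hq with e | e | e
      · exact hx e
      · exact hy e
      · exact hz e
    exact Or.inl ⟨g4 x y z hT (hno _ _ _ (by simp)), hno _ _ _ (by simp), hno _ _ _ (by simp)⟩
  · have hno : ∀ a b c : V, (q = a ∨ q = b ∨ q = c) → ¬ Tri a b c o p d := by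
      intro a b c hq ht
      rcases sphGrid_tri_mem ht q hq with e | e | e
      · exact hoq e
      · exact hpq e
      · exact hdq e
    exact Or.inl ⟨g5, hno _ _ _ (by simp), hno _ _ _ (by simp)⟩
  · exact Or.inr (Or.inl (Or.inr (Or.inr (Or.inr (Or.inr (Or.inl ⟨rfl, rfl, rfl⟩))))))
  · have hdo : d ≠ o := fun e => hd (e ▸ IsSph.vert1 h1)
    refine (adj_flip g1 g7 k2 hdr hn q d).mpr (Or.inl ⟨IsSph.adj23 g1 g6, ?_, ?_⟩)
    · rintro ⟨e, _⟩; exact hqo e
    · rintro ⟨_, e⟩; exact hdo e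

/-- rows `0..j` of the grid are complete -/
structure SGRow (c : ℕ → ℕ → V) (o b : V) (M j : ℕ) (T : V → V → V → Prop) : Prop where
  sph : IsSph T
  vert : ∀ v ∈ Vert T, v = o ∨ v = b ∨ ∃ k l, v = c k l ∧ l ≤ j
  hor : ∀ k l, k < M → l ≤ j → Adj3 T (c k l) (c (k + 1) l)
  ver : ∀ k l, k ≤ M → l < j → Adj3 T (c k l) (c k (l + 1))
  dia : ∀ k l, k < M → l < j → Adj3 T (c k l) (c (k + 1) (l + 1))
  f1 : T o b (c 0 j)
  f4 : ∀ k < M, T o (c k j) (c (k + 1) j)

/-- rows `0..j` are complete, and the cells `0..i` of row `j + 1` -/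
structure SGMid (c : ℕ → ℕ → V) (o b : V) (M j i : ℕ) (T : V → V → V → Prop) : Prop where
  sph : IsSph T
  vert : ∀ v ∈ Vert T, v = o ∨ v = b ∨ ∃ k l, v = c k l ∧ (l ≤ j ∨ (l = j + 1 ∧ k ≤ i))
  hor : ∀ k l, k < M → l ≤ j → Adj3 T (c k l) (c (k + 1) l)
  ver : ∀ k l, k ≤ M → l < j → Adj3 T (c k l) (c k (l + 1))
  dia : ∀ k l, k < M → l < j → Adj3 T (c k l) (c (k + 1) (l + 1))
  hor' : ∀ k < i, Adj3 T (c k (j + 1)) (c (k + 1) (j + 1))
  ver' : ∀ k ≤ i, Adj3 T (c k j) (c k (j + 1))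
  dia' : ∀ k < i, Adj3 T (c k j) (c (k + 1) (j + 1))
  f1 : T o b (c 0 (j + 1))
  f2 : ∀ k < i, T o (c k (j + 1)) (c (k + 1) (j + 1))
  f3 : T o (c i (j + 1)) (c i j)
  f4 : ∀ k, i ≤ k → k < M → T o (c k j) (c (k + 1) j)

variable {c : ℕ → ℕ → V} {o b : V} {M : ℕ}

theorem sphGrid_row_mid (hc : ∀ i j i' j', c i j = c i' j' → i = i' ∧ j = j')
    (ho : ∀ i j, c i j ≠ o) (hb : ∀ i j, c i j ≠ b) (hob : o ≠ b) {j : ℕ}
    (H : SGRow c o b M j T) : ∃ T' : V → V → V → Prop, SGMid c o b M j 0 T' := by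
  have hd : c 0 (j + 1) ∉ Vert T := by
    intro hd
    rcases H.vert _ hd with e | e | ⟨k, l, e, hl⟩
    · exact ho _ _ e
    · exact hb _ _ e
    · have := (hc _ _ _ _ e).2
      omega
  obtain ⟨T', g1, g2, g3, g4, g5, g6, g7, g8⟩ := sphGrid_insert H.sph H.f1 hd
  refine ⟨T', g1, ?_, ?_, ?_, ?_, ?_, ?_, ?_, g5, ?_, ?_, ?_⟩
  · intro v hv
    rcases g2 v hv with hv | rfl
    · rcases H.vert v hv with e | e | ⟨k, l, e, hl⟩
      · exact Or.inl e
      · exact Or.inr (Or.inl e)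
      · exact Or.inr (Or.inr ⟨k, l, e, Or.inl hl⟩)
    · exact Or.inr (Or.inr ⟨0, j + 1, rfl, Or.inr ⟨rfl, le_rfl⟩⟩)
  · intro k l hk hl
    exact g3 _ _ (H.hor k l hk hl)
  · intro k l hk hl
    exact g3 _ _ (H.ver k l hk hl)
  · intro k l hk hl
    exact g3 _ _ (H.dia k l hk hl)
  · intro k hk
    omega
  · intro k hk
    obtain rfl : k = 0 := by omega
    exact IsSph.adj23 g1 g7
  · intro k hk
    omega
  · intro k hk
    omega
  · exact g1.swp23 g7
  · intro k _ hk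
    refine g4 _ _ _ (H.f4 k hk) fun ht => ?_
    rcases sphGrid_tri_mem ht b (by simp) with e | e | e
    · exact hob e
    · exact hb _ _ e
    · exact hb _ _ e

theorem sphGrid_mid_mid (hc : ∀ i j i' j', c i j = c i' j' → i = i' ∧ j = j')
    (ho : ∀ i j, c i j ≠ o) (hb : ∀ i j, c i j ≠ b) {j i : ℕ} (hi : i < M)
    (H : SGMid c o b M j i T) : ∃ T' : V → V → V → Prop, SGMid c o b M j (i + 1) T' := by
  have hd : c (i + 1) (j + 1) ∉ Vert T := by
    intro hd
    rcases H.vert _ hd with e | e | ⟨k, l, e, hl⟩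
    · exact ho _ _ e
    · exact hb _ _ e
    · have := hc _ _ _ _ e
      omega
  have hpr : c i (j + 1) ≠ c (i + 1) j := by
    intro e
    have := hc _ _ _ _ e
    omega
  obtain ⟨T', g1, g2, g3, g4, g5, g6, g7⟩ := sphGrid_ext H.sph H.f3 (H.f4 i le_rfl hi) hpr hd
  have gadj : ∀ k l k' l', Adj3 T (c k l) (c k' l') → Adj3 T' (c k l) (c k' l') :=
    fun k l k' l' ha => g3 _ _ ha (ho _ _) (ho _ _)
  refine ⟨T', g1, ?_, ?_, ?_, ?_, ?_, ?_, ?_, ?_, ?_, g6, ?_⟩
  · intro v hv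
    rcases g2 v hv with hv | rfl
    · rcases H.vert v hv with e | e | ⟨k, l, e, hl⟩
      · exact Or.inl e
      · exact Or.inr (Or.inl e)
      · refine Or.inr (Or.inr ⟨k, l, e, ?_⟩)
        omega
    · exact Or.inr (Or.inr ⟨i + 1, j + 1, rfl, Or.inr ⟨rfl, le_rfl⟩⟩)
  · intro k l hk hl
    exact gadj _ _ _ _ (H.hor k l hk hl)
  · intro k l hk hl
    exact gadj _ _ _ _ (H.ver k l hk hl)
  · intro k l hk hl
    exact gadj _ _ _ _ (H.dia k l hk hl)
  · intro k hk
    rcases Nat.lt_succ_iff_lt_or_eq.mp hk with hk' | rfl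
    · exact gadj _ _ _ _ (H.hor' k hk')
    · exact IsSph.adj23 g1 g5
  · intro k hk
    rcases Nat.le_succ_iff.mp hk with hk' | rfl
    · exact gadj _ _ _ _ (H.ver' k hk')
    · exact g1.adj_symm (IsSph.adj23 g1 g6)
  · intro k hk
    rcases Nat.lt_succ_iff_lt_or_eq.mp hk with hk' | rfl
    · exact gadj _ _ _ _ (H.dia' k hk')
    · exact g7
  · refine g4 _ _ _ H.f1 ?_ ?_ ?_
    · exact (ho _ _).symm
    · exact (hb _ _).symm
    · intro e
      have := hc _ _ _ _ e
      omega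
  · intro k hk
    rcases Nat.lt_succ_iff_lt_or_eq.mp hk with hk' | rfl
    · refine g4 _ _ _ (H.f2 k hk') (ho _ _).symm ?_ ?_
      · intro e
        have := hc _ _ _ _ e
        omega
      · intro e
        have := hc _ _ _ _ e
        omega
    · exact g5
  · intro k hk hkM
    refine g4 _ _ _ (H.f4 k (by omega) hkM) (ho _ _).symm ?_ ?_
    · intro e
      have := hc _ _ _ _ e
      omega
    · intro e
      have := hc _ _ _ _ e
      omega

theorem sphGrid_mid_row {j : ℕ} (H : SGMid c o b M j M T) : SGRow c o b M (j + 1) T := by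
  refine ⟨H.sph, ?_, ?_, ?_, ?_, H.f1, H.f2⟩
  · intro v hv
    rcases H.vert v hv with e | e | ⟨k, l, e, hl⟩
    · exact Or.inl e
    · exact Or.inr (Or.inl e)
    · exact Or.inr (Or.inr ⟨k, l, e, by omega⟩)
  · intro k l hk hl
    rcases Nat.le_succ_iff.mp hl with hl' | rfl
    · exact H.hor k l hk hl'
    · exact H.hor' k hk
  · intro k l hk hl
    rcases Nat.lt_succ_iff_lt_or_eq.mp hl with hl' | rfl
    · exact H.ver k l hk hl'
    · exact H.ver' k hk
  · intro k l hk hl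
    rcases Nat.lt_succ_iff_lt_or_eq.mp hl with hl' | rfl
    · exact H.dia k l hk hl'
    · exact H.dia' k hk

/-- the first row: the cells `0..i+1` -/
theorem sphGrid_row0 (hc : ∀ i j i' j', c i j = c i' j' → i = i' ∧ j = j')
    (ho : ∀ i j, c i j ≠ o) (hb : ∀ i j, c i j ≠ b) (hob : o ≠ b) (i : ℕ) :
    ∃ T : V → V → V → Prop, IsSph T ∧
      (∀ v ∈ Vert T, v = o ∨ v = b ∨ ∃ k, v = c k 0 ∧ k ≤ i + 1) ∧
      (∀ k < i + 1, Adj3 T (c k 0) (c (k + 1) 0)) ∧ T o b (c 0 0) ∧ T o b (c (i + 1) 0) ∧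
      ∀ k < i + 1, T o (c k 0) (c (k + 1) 0) := by
  induction i with
  | zero =>
    have h01 : c 0 0 ≠ c 1 0 := by
      intro e
      have := (hc _ _ _ _ e).1
      omega
    have hK := isSph_K4 hob (ho 0 0).symm (ho 1 0).symm (hb 0 0).symm (hb 1 0).symm h01
    refine ⟨K4 o b (c 0 0) (c 1 0), hK, ?_, ?_, ?_, ?_, ?_⟩
    · intro v hv
      rw [vert_K4] at hv
      rcases hv with e | e | e | e
      · exact Or.inl e
      · exact Or.inr (Or.inl e)
      · exact Or.inr (Or.inr ⟨0, e, by omega⟩)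
      · exact Or.inr (Or.inr ⟨1, e, by omega⟩)
    · intro k hk
      obtain rfl : k = 0 := by omega
      have h1 : K4 o b (c 0 0) (c 1 0) o (c 0 0) (c 1 0) :=
        Or.inr (Or.inr (Or.inl (tri_self _ _ _)))
      exact IsSph.adj23 hK h1
    · exact Or.inl (tri_self _ _ _)
    · exact Or.inr (Or.inl (tri_self _ _ _))
    · intro k hk
      obtain rfl : k = 0 := by omega
      exact Or.inr (Or.inr (Or.inl (tri_self _ _ _)))
  | succ i ih =>
    obtain ⟨T, h1, h2, h3, h4, h5, h6⟩ := ih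
    have hd : c (i + 1 + 1) 0 ∉ Vert T := by
      intro hd
      rcases h2 _ hd with e | e | ⟨k, e, hl⟩
      · exact ho _ _ e
      · exact hb _ _ e
      · have := (hc _ _ _ _ e).1
        omega
    obtain ⟨T', g1, g2, g3, g4, g5, g6, g7, g8⟩ := sphGrid_insert h1 h5 hd
    refine ⟨T', g1, ?_, ?_, ?_, g5, ?_⟩
    · intro v hv
      rcases g2 v hv with hv | rfl
      · rcases h2 v hv with e | e | ⟨k, e, hl⟩
        · exact Or.inl e
        · exact Or.inr (Or.inl e)
        · exact Or.inr (Or.inr ⟨k, e, by omega⟩)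
      · exact Or.inr (Or.inr ⟨i + 1 + 1, rfl, le_rfl⟩)
    · intro k hk
      rcases Nat.lt_succ_iff_lt_or_eq.mp hk with hk' | rfl
      · exact g3 _ _ (h3 k hk')
      · exact IsSph.adj23 g1 g7
    · refine g4 _ _ _ h4 fun ht => ?_
      rcases tri_mem3 ht with e | e | e
      · exact ho _ _ e
      · exact hb _ _ e
      · have := (hc _ _ _ _ e).1
        omega
    · intro k hk
      rcases Nat.lt_succ_iff_lt_or_eq.mp hk with hk' | rfl
      · refine g4 _ _ _ (h6 k hk') fun ht => ?_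
        rcases sphGrid_tri_mem ht b (by simp) with e | e | e
        · exact hob e
        · exact hb _ _ e
        · exact hb _ _ e
      · exact g7

theorem sphGrid_rows (hc : ∀ i j i' j', c i j = c i' j' → i = i' ∧ j = j')
    (ho : ∀ i j, c i j ≠ o) (hb : ∀ i j, c i j ≠ b) (hob : o ≠ b) (m j : ℕ) :
    ∃ T : V → V → V → Prop, SGRow c o b (m + 1) j T := by
  induction j with
  | zero =>
    obtain ⟨T, h1, h2, h3, h4, h5, h6⟩ := sphGrid_row0 hc ho hb hob m
    refine ⟨T, h1, ?_, ?_, ?_, ?_, h4, h6⟩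
    · intro v hv
      rcases h2 v hv with e | e | ⟨k, e, _⟩
      · exact Or.inl e
      · exact Or.inr (Or.inl e)
      · exact Or.inr (Or.inr ⟨k, 0, e, le_rfl⟩)
    · intro k l hk hl
      obtain rfl : l = 0 := by omega
      exact h3 k hk
    · intro k l _ hl
      omega
    · intro k l _ hl
      omega
  | succ j ih =>
    obtain ⟨T, H⟩ := ih
    have key : ∀ i, i ≤ m + 1 → ∃ T' : V → V → V → Prop, SGMid c o b (m + 1) j i T' := by
      intro i
      induction i with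
      | zero => intro _; exact sphGrid_row_mid hc ho hb hob H
      | succ i ih' =>
        intro hi
        obtain ⟨T', H'⟩ := ih' (by omega)
        exact sphGrid_mid_mid hc ho hb (by omega) H'
    obtain ⟨T', H'⟩ := key (m + 1) le_rfl
    exact ⟨T', sphGrid_mid_row H'⟩

end

theorem triGrid_sph (S : Set (ℤ × ℤ)) (hS : S.Finite) :
    ∃ T : Option (Option (ℤ × ℤ)) → Option (Option (ℤ × ℤ)) → Option (Option (ℤ × ℤ)) → Prop,
      IsSph T ∧ (∀ c ∈ S, some (some c) ∈ Vert T) ∧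
      ∀ c ∈ S, ∀ c' ∈ S, Pool.Agent.OQP.triGrid.Adj c c' →
        Adj3 T (some (some c)) (some (some c')) := by
  obtain ⟨N, hN⟩ : ∃ N : ℕ, ∀ c ∈ S, c.1.natAbs ≤ N ∧ c.2.natAbs ≤ N := by
    refine ⟨hS.toFinset.sup (fun c => max c.1.natAbs c.2.natAbs), fun c hc => ?_⟩
    have h1 := Finset.le_sup (f := fun c : ℤ × ℤ => max c.1.natAbs c.2.natAbs)
      (hS.mem_toFinset.mpr hc)
    exact ⟨(le_max_left _ _).trans h1, (le_max_right _ _).trans h1⟩
  set f : ℕ → ℕ → Option (Option (ℤ × ℤ)) :=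
    fun i j => some (some ((N : ℤ) - i, (j : ℤ) - N)) with hf
  have hc : ∀ i j i' j', f i j = f i' j' → i = i' ∧ j = j' := by
    intro i j i' j' e
    simp only [hf, Option.some.injEq, Prod.mk.injEq] at e
    omega
  obtain ⟨T, H⟩ := sphGrid_rows (c := f) (o := none) (b := some none) hc
    (fun i j => by simp [hf]) (fun i j => by simp [hf]) (by simp) (2 * N) (2 * N + 1)
  have hcell : ∀ c ∈ S, ∃ i j : ℕ, i ≤ 2 * N ∧ j ≤ 2 * N ∧ c = ((N : ℤ) - i, (j : ℤ) - N) := by
    rintro ⟨x, y⟩ hxy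
    have h1 := hN _ hxy
    simp only at h1
    refine ⟨(N - x).toNat, (y + N).toNat, by omega, by omega, ?_⟩
    simp only [Prod.mk.injEq]
    omega
  have hone : ∀ c ∈ S, ∀ c' ∈ S,
      (c' = (c.1 + 1, c.2) ∨ c' = (c.1, c.2 + 1) ∨ c' = (c.1 - 1, c.2 + 1)) →
      Adj3 T (some (some c)) (some (some c')) := by
    intro c hcS c' hcS' hg
    obtain ⟨i, j, hi, hj, rfl⟩ := hcell c hcS
    obtain ⟨i', j', hi', hj', rfl⟩ := hcell c' hcS'
    simp only [Prod.mk.injEq] at hg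
    rcases hg with ⟨h1, h2⟩ | ⟨h1, h2⟩ | ⟨h1, h2⟩
    · obtain rfl : i = i' + 1 := by omega
      obtain rfl : j = j' := by omega
      exact H.sph.adj_symm (H.hor i' j (by omega) (by omega))
    · obtain rfl : i = i' := by omega
      obtain rfl : j' = j + 1 := by omega
      exact H.ver i j (by omega) (by omega)
    · obtain rfl : i' = i + 1 := by omega
      obtain rfl : j' = j + 1 := by omega
      exact H.dia i j (by omega) (by omega)
  refine ⟨T, H.sph, ?_, ?_⟩
  · intro c hcb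
    obtain ⟨i, j, hi, hj, rfl⟩ := hcell c hcb
    exact (H.sph.vert_of_adj (H.hor i j (by omega) (by omega))).1
  · intro c hcS c' hcS' ha
    rw [Pool.Agent.OQP.triGrid, SimpleGraph.fromRel_adj] at ha
    rcases ha.2 with h1 | h1
    · exact hone c hcS c' hcS' h1
    · exact H.sph.adj_symm (hone c' hcS' c hcS h1)

end Pool.Agent.Lib.MP_d86530_co
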