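import Pool.Agent.Lib.MP_d86530_co.SphContrAll

set_option autoImplicit false

/-!
# A minor of a combinatorial sphere is a subgraph of a combinatorial sphere
-/

namespace Pool.Agent.Lib.MP_d86530_co

open Relation

private theorem sphMinor_pj_ne {W : Type*} {u w t : W} (h : t ≠ w) : pj u w t = t := by
  unfold pj
  rw [if_neg h]

private theorem sphMinor_pj_w {W : Type*} (u w : W) : pj u w w = u := by
  unfold pj
  rw [if_pos rfl]

/-- the fibres of the projection -/
private theorem sphMinor_fib {W : Type*} {u w x y : W} (h : pj u w x = pj u w y) :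
    x = y ∨ ((x = u ∨ x = w) ∧ (y = u ∨ y = w)) := by
  by_cases hx : x = w
  · by_cases hy : y = w
    · exact Or.inl (hx.trans hy.symm)
    · rw [hx, sphMinor_pj_w, sphMinor_pj_ne hy] at h
      exact Or.inr ⟨Or.inr hx, Or.inl h.symm⟩
  · by_cases hy : y = w
    · rw [hy, sphMinor_pj_w, sphMinor_pj_ne hx] at h
      exact Or.inr ⟨Or.inl h, Or.inr hy⟩
    · rw [sphMinor_pj_ne hx, sphMinor_pj_ne hy] at h
      exact Or.inl h

/-- every vertex different from `w` survives the contraction -/
private theorem sphMinor_vert {W : Type*} {T T' : W → W → W → Prop} (hT : IsSph T) {u w : W}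
    (h : ∀ x y, Adj3 T x y → pj u w x ≠ pj u w y → Adj3 T' (pj u w x) (pj u w y)) {x : W}
    (hx : x ∈ Vert T) (hxw : x ≠ w) : x ∈ Vert T' := by
  obtain ⟨y, z, hxyz⟩ := hx
  obtain ⟨h1, h2, h3⟩ := hT.distinct hxyz
  have key : ∀ y z, T x y z → y ≠ w → x ∈ Vert T' := by
    intro y z hy hyw
    have h4 := h x y ⟨z, hy⟩ (by
      rw [sphMinor_pj_ne hxw, sphMinor_pj_ne hyw]
      exact (hT.distinct hy).1)
    rw [sphMinor_pj_ne hxw] at h4
    obtain ⟨t, ht⟩ := h4
    exact ⟨_, _, ht⟩
  by_cases hy : y = w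
  · exact key z y (hT.swp23 hxyz) (by rw [← hy]; exact h2.symm)
  · exact key y z hxyz hy

theorem sph_of_model {V W : Type*} [Fintype V] (G : SimpleGraph V) (hV : 5 ≤ Fintype.card V)
    {T : W → W → W → Prop} (hT : IsSph T) {B : V → Set W} (hB : Model G (Adj3 T) (Vert T) B) :
    ∃ T' : W → W → W → Prop, IsSph T' ∧ ∃ φ : V → W, Function.Injective φ ∧
      (∀ v, φ v ∈ Vert T') ∧ ∀ u v, G.Adj u v → Adj3 T' (φ u) (φ v) := by
  induction hn : (Vert T).ncard using Nat.strong_induction_on generalizing T B with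
  | _ n ih =>
    choose φ hφ using hB.nonempty
    have hinj : Function.Injective φ := by
      intro a b hab
      by_contra hne
      exact Set.disjoint_left.mp (hB.disj a b hne) (hφ a) (hab ▸ hφ b)
    by_cases hs : ∀ v, ∀ x ∈ B v, ∀ y ∈ B v, x = y
    · refine ⟨T, hT, φ, hinj, fun v => hB.sub v (hφ v), fun a b hab => ?_⟩
      obtain ⟨x, hx, y, hy, hxy⟩ := hB.adj a b hab
      rw [hs a _ (hφ a) x hx, hs b _ (hφ b) y hy]
      exact hxy
    · push Not at hs
      obtain ⟨v₀, u, hu, y, hy, huy⟩ := hs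
      -- an edge inside `B v₀`
      obtain ⟨w, huw, hw⟩ : ∃ w, Adj3 T u w ∧ w ∈ B v₀ := by
        rcases ReflTransGen.cases_head (hB.conn v₀ u hu y hy) with h | ⟨c, hc, -⟩
        · exact absurd h huy
        · exact ⟨c, hc.1, hc.2⟩
      have h5 : 5 ≤ (Vert T).ncard := by
        have h1 : Set.range φ ⊆ Vert T := by
          rintro _ ⟨v, rfl⟩
          exact hB.sub v (hφ v)
        have h2 := Set.ncard_le_ncard h1 hT.fin
        have h3 : (Set.range φ).ncard = Fintype.card V := by
          rw [← Set.image_univ, Set.ncard_image_of_injective _ hinj, Set.ncard_univ,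
            Nat.card_eq_fintype_card]
        omega
      obtain ⟨T', hT', hsub, hadj⟩ := exists_contr hT huw h5
      have hwT : w ∈ Vert T := hB.sub v₀ hw
      have hlt : (Vert T').ncard < n := by
        rw [← hn]
        refine Set.ncard_lt_ncard ⟨fun x hx => (hsub hx).1, fun hcon => ?_⟩ hT.fin
        exact (hsub (hcon hwT)).2 rfl
      have huw' : u ≠ w := hT.adj_ne huw
      have hpj : ∀ a b : V, a ≠ b → ∀ x ∈ B a, ∀ y ∈ B b, pj u w x ≠ pj u w y := by
        intro a b hab x hx y hy hxy
        have hin : ∀ c : V, ∀ z ∈ B c, (z = u ∨ z = w) → c = v₀ := by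
          intro c z hz hzz
          by_contra hne
          refine Set.disjoint_left.mp (hB.disj c v₀ hne) hz ?_
          rcases hzz with rfl | rfl
          · exact hu
          · exact hw
        rcases sphMinor_fib hxy with h | ⟨h1, h2⟩
        · exact Set.disjoint_left.mp (hB.disj a b hab) hx (h ▸ hy)
        · exact hab ((hin a x hx h1).trans (hin b y hy h2).symm)
      refine ih _ hlt hT' (B := fun v => pj u w '' B v) ?_ rfl
      refine ⟨fun v => (hB.nonempty v).image _, fun v => ?_, fun a b hab => ?_, fun v => ?_,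
        fun a b hab => ?_⟩
      · rintro _ ⟨x, hx, rfl⟩
        by_cases hxw : x = w
        · rw [hxw, sphMinor_pj_w]
          exact sphMinor_vert hT hadj (hB.sub v₀ hu) huw'
        · rw [sphMinor_pj_ne hxw]
          exact sphMinor_vert hT hadj (hB.sub v hx) hxw
      · rw [Set.disjoint_left]
        rintro _ ⟨x, hx, rfl⟩ ⟨y, hy, hxy⟩
        exact hpj a b hab x hx y hy hxy.symm
      · rintro _ ⟨x, hx, rfl⟩ _ ⟨y, hy, rfl⟩
        have hpath := hB.conn v x hx y hy
        clear hy
        induction hpath with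
        | refl => exact ReflTransGen.refl
        | tail _ hbc ih' =>
          rename_i b c _
          by_cases hbc' : pj u w b = pj u w c
          · rw [← hbc']
            exact ih'
          · exact ih'.tail ⟨hadj b c hbc.1 hbc', ⟨c, hbc.2, rfl⟩⟩
      · obtain ⟨x, hx, y, hy, hxy⟩ := hB.adj a b hab
        exact ⟨_, ⟨x, hx, rfl⟩, _, ⟨y, hy, rfl⟩, hadj x y hxy (hpj a b hab.ne x hx y hy)⟩

end Pool.Agent.Lib.MP_d86530_co
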