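import Mathlib
import Pool.Agent.Lib.MP_d86530_co.OqpDefs

set_option autoImplicit false

namespace Pool.Agent.OQP

/-- the part of `E` which is joined to `A` inside `E \ A'` -/
private def sysR {W : Type} (H : SimpleGraph W) (E A A' : Set W) : Set W :=
  {x | ∃ s : Set W, s ⊆ E \ A' ∧ (A ∩ s).Nonempty ∧ x ∈ s ∧ (H.induce s).Connected}

private lemma sysR_sub {W : Type} (H : SimpleGraph W) (E A A' : Set W) :
    sysR H E A A' ⊆ E \ A' := by
  rintro x ⟨s, hs, -, hx, -⟩
  exact hs hx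

private lemma sysR_of_mem {W : Type} (H : SimpleGraph W) {E A A' : Set W} {x : W} (hx : x ∈ E)
    (hA : x ∈ A) (hA' : x ∉ A') : x ∈ sysR H E A A' := by
  refine ⟨{x}, Set.singleton_subset_iff.mpr ⟨hx, hA'⟩, ⟨x, hA, rfl⟩, rfl, ?_⟩
  have : Nonempty ({x} : Set W) := ⟨⟨x, rfl⟩⟩
  refine ⟨fun a b => ?_⟩
  have e : a = b := Subtype.ext (a.2.trans b.2.symm)
  rw [e]

private lemma sysR_step {W : Type} (H : SimpleGraph W) {E A A' : Set W} {a b : W}
    (ha : a ∈ sysR H E A A') (hb : b ∈ E) (hab : H.Adj a b) (hb' : b ∉ A') :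
    b ∈ sysR H E A A' := by
  obtain ⟨s, hs, ⟨y, hyA, hys⟩, has, hc⟩ := ha
  refine ⟨s ∪ {a, b}, ?_, ⟨y, hyA, Or.inl hys⟩, Or.inr (Or.inr rfl), ?_⟩
  · rintro x (hx | hx | hx)
    · exact hs hx
    · rw [hx]; exact hs has
    · rw [Set.mem_singleton_iff.mp hx]; exact ⟨hb, hb'⟩
  · exact SimpleGraph.induce_union_connected hc.preconnected
      (SimpleGraph.induce_pair_connected_of_adj hab).preconnected
      ⟨a, has, Or.inl rfl⟩

/-- A5: a touching system gives a minor -/
theorem minor_of_system {V W : Type} [Finite V] (G : SimpleGraph V) (H : SimpleGraph W)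
    (A : V → Set W) (E : Sym2 V → Set W)
    (hAf : ∀ v, (A v).Finite) (hEf : ∀ e ∈ G.edgeSet, (E e).Finite)
    (hA : ∀ v, (H.induce (A v)).Connected) (hE : ∀ e ∈ G.edgeSet, (H.induce (E e)).Connected)
    (hAA : ∀ u v, u ≠ v → Disjoint (A u) (A v))
    (hEE : ∀ e ∈ G.edgeSet, ∀ f ∈ G.edgeSet, e ≠ f → Disjoint (E e) (E f))
    (hEA : ∀ e ∈ G.edgeSet, ∀ v, v ∉ e → Disjoint (E e) (A v))
    (hn : ∀ e ∈ G.edgeSet, ∀ v ∈ e, (E e ∩ A v).Nonempty) : IsMinor G H := by
  classical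
  -- an orientation of the edges
  obtain ⟨o, ho⟩ : ∃ o : Sym2 V → V × V, ∀ e, s((o e).1, (o e).2) = e :=
    ⟨fun e => Quot.out e, fun e => Quot.out_eq e⟩
  set R : Sym2 V → Set W := fun e => sysR H (E e) (A (o e).1) (A (o e).2) with hR
  have hRsub : ∀ e, R e ⊆ E e \ A (o e).2 := fun e => sysR_sub H _ _ _
  refine ⟨fun u => A u ∪ ⋃ e ∈ {e | e ∈ G.edgeSet ∧ (o e).1 = u}, R e, ?_, ?_, ?_, ?_⟩
  · intro u
    refine (hAf u).union ?_
    refine (Set.toFinite _).biUnion fun e he => ?_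
    exact (hEf e he.1).subset fun x hx => (hRsub e hx).1
  · intro u
    obtain ⟨⟨x0, hx0⟩⟩ := (hA u).nonempty
    refine SimpleGraph.induce_connected_of_patches x0 (Or.inl hx0) ?_
    intro v hv
    rcases hv with hv | hv
    · exact ⟨A u, Set.subset_union_left, hx0, hv, (hA u).preconnected _ _⟩
    · simp only [Set.mem_iUnion] at hv
      obtain ⟨e, he, hve⟩ := hv
      obtain ⟨s, hs, hAs, hvs, hc⟩ := hve
      have hsR : s ⊆ R e := fun z hz => ⟨s, hs, hAs, hz, hc⟩
      have hou : (o e).1 = u := he.2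
      rw [hou] at hAs
      refine ⟨A u ∪ s, Set.union_subset_union_right _ ?_, Or.inl hx0, Or.inr hvs,
        (SimpleGraph.induce_union_connected (hA u).preconnected hc.preconnected
          hAs).preconnected _ _⟩
      exact hsR.trans (Set.subset_biUnion_of_mem (u := R) he)
  · intro u v huv
    -- the four cases
    have key : ∀ u v, u ≠ v → ∀ e ∈ G.edgeSet, (o e).1 = u → Disjoint (R e) (A v) := by
      intro u v huv e he heu
      rw [Set.disjoint_left]
      intro x hx hxv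
      have h1 := hRsub e hx
      by_cases hv : v = (o e).2
      · rw [hv] at hxv
        exact h1.2 hxv
      · have hve : v ∉ e := by
          rw [← ho e, Sym2.mem_iff, heu]
          rintro (h | h)
          · exact huv h.symm
          · exact hv h
        exact Set.disjoint_left.mp (hEA e he v hve) h1.1 hxv
    rw [Set.disjoint_left]
    rintro x (hxu | hxu) (hxv | hxv)
    · exact Set.disjoint_left.mp (hAA u v huv) hxu hxv
    · simp only [Set.mem_iUnion] at hxv
      obtain ⟨e, he, hxe⟩ := hxv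
      exact Set.disjoint_left.mp (key v u huv.symm e he.1 he.2) hxe hxu
    · simp only [Set.mem_iUnion] at hxu
      obtain ⟨e, he, hxe⟩ := hxu
      exact Set.disjoint_left.mp (key u v huv e he.1 he.2) hxe hxv
    · simp only [Set.mem_iUnion] at hxu hxv
      obtain ⟨e, he, hxe⟩ := hxu
      obtain ⟨f, hf, hxf⟩ := hxv
      have hef : e ≠ f := by
        rintro rfl
        exact huv (he.2.symm.trans hf.2)
      exact Set.disjoint_left.mp (hEE e he.1 f hf.1 hef) (hRsub e hxe).1 (hRsub f hxf).1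
  · -- the edges
    have key : ∀ e ∈ G.edgeSet, ∃ a ∈ R e, ∃ b ∈ A (o e).2, H.Adj a b := by
      intro e he
      have h1 : (o e).1 ∈ e := by
        have h3 : (o e).1 ∈ s((o e).1, (o e).2) := Sym2.mem_mk_left _ _
        rwa [ho e] at h3
      have h2 : (o e).2 ∈ e := by
        have h3 : (o e).2 ∈ s((o e).1, (o e).2) := Sym2.mem_mk_right _ _
        rwa [ho e] at h3
      have hne : (o e).1 ≠ (o e).2 := by
        have h3 : s((o e).1, (o e).2) ∈ G.edgeSet := by rw [ho e]; exact he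
        exact (SimpleGraph.mem_edgeSet G).mp h3 |>.ne
      obtain ⟨y, hyE, hyA⟩ := hn e he _ h1
      obtain ⟨z, hzE, hzA⟩ := hn e he _ h2
      have hyR : y ∈ R e := sysR_of_mem H hyE hyA
        (Set.disjoint_left.mp (hAA _ _ hne) hyA)
      have hzR : z ∉ R e := fun h => (hRsub e h).2 hzA
      obtain ⟨p⟩ := (hE e he).preconnected ⟨y, hyE⟩ ⟨z, hzE⟩
      obtain ⟨d, -, hd1, hd2⟩ := p.exists_boundary_dart {x | x.1 ∈ R e} hyR hzR
      have hadj : H.Adj d.fst.1 d.snd.1 := d.adj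
      refine ⟨d.fst.1, hd1, d.snd.1, ?_, hadj⟩
      by_contra hc
      exact hd2 (sysR_step H hd1 d.snd.2 hadj hc)
    intro u v huv
    have he : s(u, v) ∈ G.edgeSet := huv
    obtain ⟨a, ha, b, hb, hab⟩ := key _ he
    have haB : a ∈ A (o s(u, v)).1 ∪ ⋃ e ∈ {e | e ∈ G.edgeSet ∧ (o e).1 = (o s(u, v)).1}, R e :=
      Or.inr (Set.mem_biUnion (show s(u, v) ∈ {e | e ∈ G.edgeSet ∧ (o e).1 = (o s(u, v)).1} from
        ⟨he, rfl⟩) ha)
    rcases Sym2.eq_iff.mp (ho s(u, v)) with ⟨h1, h2⟩ | ⟨h1, h2⟩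
    · rw [h1] at haB
      rw [h2] at hb
      exact ⟨a, haB, b, Or.inl hb, hab⟩
    · rw [h1] at haB
      rw [h2] at hb
      exact ⟨b, Or.inl hb, a, haB, hab.symm⟩

end Pool.Agent.OQP
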