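import Mathlib
import Pool.Agent.Lib.MP_d86530_co.OqpDefs
import Pool.Agent.Lib.MP_d86530_co.Bricks
import Pool.Agent.Lib.MP_d86530_co.CellsConn
import Pool.Agent.Lib.MP_d86530_co.CellsDisj
import Pool.Agent.Lib.MP_d86530_co.Sets
import Pool.Agent.Lib.MP_d86530_co.System
import Pool.Agent.Lib.MP_d86530_co.MinorDual
import Pool.Agent.Lib.MP_d86530_co.Grid

/-!
# MP_d86530_co, piece A9: topological planarity gives an algebraic dual
-/

set_option autoImplicit false

namespace Pool.Agent.OQP

/-- A9 -/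
theorem algPlanar_of_topPlanar {V : Type} [Finite V] (G : SimpleGraph V) (h : TopPlanar G) :
    AlgPlanar G := by
  obtain ⟨A, E, hA, hE, hAA, hEE, hEA, hn⟩ := exists_sets G h
  have h1 : ∀ᶠ N : ℕ in Filter.atTop, ∀ u v, u ≠ v →
      Disjoint (cells N (A u)) (cells N (A v)) := by
    refine Filter.eventually_all.2 fun u => Filter.eventually_all.2 fun v => ?_
    by_cases huv : u = v
    · exact Filter.Eventually.of_forall fun N hne => absurd huv hne
    · obtain ⟨N₀, hN₀⟩ := cells_disjoint (A u) (A v) (hA u).1 (hA v).1 (hAA u v huv)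
      filter_upwards [Filter.eventually_ge_atTop N₀] with N hN _
      exact hN₀ N hN
  have h2 : ∀ᶠ N : ℕ in Filter.atTop, ∀ e f : Sym2 V, e ∈ G.edgeSet → f ∈ G.edgeSet → e ≠ f →
      Disjoint (cells N (E e)) (cells N (E f)) := by
    refine Filter.eventually_all.2 fun e => Filter.eventually_all.2 fun f => ?_
    by_cases hef : e ∈ G.edgeSet ∧ f ∈ G.edgeSet ∧ e ≠ f
    · obtain ⟨N₀, hN₀⟩ := cells_disjoint (E e) (E f) (hE e hef.1).1 (hE f hef.2.1).1
        (hEE e hef.1 f hef.2.1 hef.2.2)
      filter_upwards [Filter.eventually_ge_atTop N₀] with N hN _ _ _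
      exact hN₀ N hN
    · exact Filter.Eventually.of_forall fun N he hf hne => absurd ⟨he, hf, hne⟩ hef
  have h3 : ∀ᶠ N : ℕ in Filter.atTop, ∀ (e : Sym2 V) (v : V), e ∈ G.edgeSet → v ∉ e →
      Disjoint (cells N (E e)) (cells N (A v)) := by
    refine Filter.eventually_all.2 fun e => Filter.eventually_all.2 fun v => ?_
    by_cases hev : e ∈ G.edgeSet ∧ v ∉ e
    · obtain ⟨N₀, hN₀⟩ := cells_disjoint (E e) (A v) (hE e hev.1).1 (hA v).1
        (hEA e hev.1 v hev.2)
      filter_upwards [Filter.eventually_ge_atTop N₀] with N hN _ _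
      exact hN₀ N hN
    · exact Filter.Eventually.of_forall fun N he hv => absurd ⟨he, hv⟩ hev
  obtain ⟨N, k1, k2, k3, k4⟩ := (h1.and (h2.and (h3.and (Filter.eventually_gt_atTop 0)))).exists
  have hm : IsMinor G triGrid := by
    refine minor_of_system G triGrid (fun v => cells N (A v)) (fun e => cells N (E e))
      (fun v => cells_finite N k4 _ (hA v).1.isBounded)
      (fun e he => cells_finite N k4 _ (hE e he).1.isBounded)
      (fun v => cells_connected N k4 _ (hA v).1.isBounded (hA v).2)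
      (fun e he => cells_connected N k4 _ (hE e he).1.isBounded (hE e he).2)
      (fun u v huv => k1 u v huv) (fun e he f hf hef => k2 e f he hf hef)
      (fun e he v hv => k3 e v he hv) (fun e he v hv => ?_)
    obtain ⟨z, hz1, hz2⟩ := hn e he v hv
    obtain ⟨c, hc⟩ := exists_brick N z
    exact ⟨c, ⟨z, hc, hz1⟩, ⟨z, hc, hz2⟩⟩
  exact algPlanar_of_minor G triGrid hm algPlanar_triGrid

end Pool.Agent.OQP
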