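import Pool.Agent.Lib.MP_d86530_co.SphGrid
import Pool.Agent.Lib.MP_d86530_co.SphMinor
import Pool.Agent.Lib.MP_d86530_co.TopMinor
import Pool.Agent.Lib.MP_d86530_co.Defs

set_option autoImplicit false

namespace Pool.Agent.Lib.MP_d86530_co

open Relation Pool.Agent.OQP

/-- a finite minor of the triangular grid is a subgraph of a combinatorial sphere -/
theorem sph_of_triMinor {V : Type} [Fintype V] {G : SimpleGraph V} (h : IsMinor G triGrid)
    (hV : 5 ≤ Fintype.card V) : ∃ (W : Type) (T : W → W → W → Prop), IsSph T ∧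
      ∃ φ : V → W, Function.Injective φ ∧ (∀ v, φ v ∈ Vert T) ∧
        ∀ u v, G.Adj u v → Adj3 T (φ u) (φ v) := by
  obtain ⟨B, hf, hc, hd, ha⟩ := h
  obtain ⟨T, hT, hv, he⟩ := triGrid_sph (⋃ v, B v) (Set.finite_iUnion hf)
  have hsub : ∀ v, B v ⊆ ⋃ v, B v := fun v => Set.subset_iUnion B v
  have hinj : Function.Injective (fun c : ℤ × ℤ => (some (some c) : Option (Option (ℤ × ℤ)))) := by
    intro c c' hcc
    simpa using hcc
  have hM : Model G (Adj3 T) (Vert T)
      (fun v => (fun c : ℤ × ℤ => (some (some c) : Option (Option (ℤ × ℤ)))) '' B v) := by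
    refine ⟨?_, ?_, ?_, ?_, ?_⟩
    · intro v
      obtain ⟨x⟩ := (hc v).nonempty
      exact ⟨_, x.1, x.2, rfl⟩
    · rintro v _ ⟨c, hcB, rfl⟩
      exact hv c (hsub v hcB)
    · intro u v huv
      rw [Set.disjoint_image_iff hinj]
      exact hd u v huv
    · rintro v _ ⟨c, hcB, rfl⟩ _ ⟨c', hcB', rfl⟩
      obtain ⟨w⟩ := (hc v).preconnected ⟨c, hcB⟩ ⟨c', hcB'⟩
      have key : ∀ x y : B v, (triGrid.induce (B v)).Walk x y →
          ReflTransGen (fun a b => Adj3 T a b ∧
            b ∈ (fun c : ℤ × ℤ => (some (some c) : Option (Option (ℤ × ℤ)))) '' B v)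
            (some (some x.1)) (some (some y.1)) := by
        intro x y w
        induction w with
        | nil => exact ReflTransGen.refl
        | @cons p q r hadj w' ih =>
          exact ReflTransGen.head ⟨he _ (hsub v p.2) _ (hsub v q.2) hadj, ⟨q.1, q.2, rfl⟩⟩ ih
      exact key _ _ w
    · intro u v huv
      obtain ⟨a, haB, b, hbB, hab⟩ := ha u v huv
      exact ⟨_, ⟨a, haB, rfl⟩, _, ⟨b, hbB, rfl⟩, he a (hsub u haB) b (hsub v hbB) hab⟩
  obtain ⟨T', h1, φ, h2, h3, h4⟩ := sph_of_model G hV hT hM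
  exact ⟨_, T', h1, φ, h2, h3, h4⟩

/-- A topologically planar graph with at least five vertices is a subgraph of a combinatorial
sphere. -/
theorem topPlanar_sph {V : Type} [Fintype V] {G : SimpleGraph V} (h : Pool.Agent.OQP.TopPlanar G)
    (hV : 5 ≤ Fintype.card V) : ∃ (W : Type) (T : W → W → W → Prop), IsSph T ∧
      ∃ φ : V → W, Function.Injective φ ∧ (∀ v, φ v ∈ Vert T) ∧
        ∀ u v, G.Adj u v → Adj3 T (φ u) (φ v) :=
  sph_of_triMinor (topPlanar_isMinor G h) hV

end Pool.Agent.Lib.MP_d86530_co
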