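import Mathlib
import Pool.Agent.Lib.MP_d86530_co.OqpDefs
import Pool.Agent.Lib.MP_d86530_co.MaxConn
import Pool.Agent.Lib.MP_d86530_co.FacesNe
import Pool.Agent.Lib.MP_d86530_co.Closes

/-!
# MP_d86530_co: an edge-maximal algebraically planar graph is a triangulation
-/

set_option autoImplicit false

namespace Pool.Agent.OQP

section TriOfMax

variable {V Φ : Type} [Fintype V] [DecidableEq V]

/-- `f` is a face of the edge `e` -/
private def tmOn (l r : Sym2 V → Φ) (f : Φ) (e : Sym2 V) : Prop := f = l e ∨ f = r e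

/-- the standing hypotheses -/
private structure TmCtx (G : SimpleGraph V) (l r : Sym2 V → Φ) : Prop where
  hmax : EdgeMax G
  hd : IsDualF G l r
  h4 : 4 ≤ Fintype.card V

/-- a triangle all of whose edges have the face `f` -/
private structure TmTri (G : SimpleGraph V) (l r : Sym2 V → Φ) (f : Φ) (u v w : V) : Prop where
  huv : G.Adj u v
  hvw : G.Adj v w
  hwu : G.Adj w u
  fuv : tmOn l r f s(u, v)
  fvw : tmOn l r f s(v, w)
  fwu : tmOn l r f s(w, u)

private lemma tmOn_swap {l r : Sym2 V → Φ} {f : Φ} {u v : V} (h : tmOn l r f s(u, v)) :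
    tmOn l r f s(v, u) := by
  rw [Sym2.eq_swap]
  exact h

private lemma TmTri.rot {G : SimpleGraph V} {l r : Sym2 V → Φ} {f : Φ} {u v w : V}
    (h : TmTri G l r f u v w) : TmTri G l r f v w u :=
  ⟨h.hvw, h.hwu, h.huv, h.fvw, h.fwu, h.fuv⟩

private lemma tm_ne {G : SimpleGraph V} {l r : Sym2 V → Φ} (c : TmCtx G l r) {u v : V}
    (h : G.Adj u v) : l s(u, v) ≠ r s(u, v) := by
  refine faces_ne G (edgeMax_conn G c.hmax) ?_ l r c.hd _ ?_
  · have := c.h4
    omega
  · rw [SimpleGraph.mem_edgeSet]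
    exact h

private lemma tm_cnt [DecidableEq Φ] {G : SimpleGraph V} {l r : Sym2 V → Φ} (c : TmCtx G l r)
    (v : V) (S : Finset V) (hS : ∀ w ∈ S, G.Adj v w) (f : Φ)
    [DecidablePred (fun w => tmOn l r f s(v, w))] :
    (S.filter (fun w => l s(v, w) = f)).card + (S.filter (fun w => r s(v, w) = f)).card =
      (S.filter (fun w => tmOn l r f s(v, w))).card := by
  rw [← Finset.card_union_of_disjoint]
  · congr 1
    ext w
    rw [Finset.mem_union, Finset.mem_filter, Finset.mem_filter, Finset.mem_filter]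
    constructor
    · rintro (h | h)
      · exact ⟨h.1, Or.inl h.2.symm⟩
      · exact ⟨h.1, Or.inr h.2.symm⟩
    · rintro ⟨h1, h2 | h2⟩
      · exact Or.inl ⟨h1, h2.symm⟩
      · exact Or.inr ⟨h1, h2.symm⟩
  · rw [Finset.disjoint_left]
    intro w hw hw'
    rw [Finset.mem_filter] at hw hw'
    exact tm_ne c (hS w hw.1) (hw.2.trans hw'.2.symm)

open Classical in
private lemma tm_even {G : SimpleGraph V} {l r : Sym2 V → Φ} (c : TmCtx G l r) (v : V) (f : Φ) :
    Even (Finset.univ.filter (fun w => G.Adj v w ∧ tmOn l r f s(v, w))).card := by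
  have h := star_even G l r c.hd v f
  rw [tm_cnt c v _ (by simp) f, Finset.filter_filter] at h
  exact h

open Classical in
private lemma tm_conn {G : SimpleGraph V} {l r : Sym2 V → Φ} (c : TmCtx G l r) (v : V)
    (S : Finset V) (hS : ∀ w ∈ S, G.Adj v w) (hne : S.Nonempty)
    (hf : ∀ f : Φ, Even (S.filter (fun w => tmOn l r f s(v, w))).card) :
    ∀ w, G.Adj v w → w ∈ S := by
  refine star_conn G (edgeMax_conn G c.hmax) l r c.hd v S hS hne ?_
  intro f
  rw [tm_cnt c v S hS f]
  exact hf f

private lemma tm_next {G : SimpleGraph V} {l r : Sym2 V → Φ} (c : TmCtx G l r) {u v : V} {f : Φ}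
    (huv : G.Adj u v) (hf : tmOn l r f s(u, v)) :
    ∃ w, w ≠ u ∧ G.Adj v w ∧ tmOn l r f s(v, w) := by
  classical
  by_contra hcon
  push Not at hcon
  have h := tm_even c v f
  have h1 : Finset.univ.filter (fun w => G.Adj v w ∧ tmOn l r f s(v, w)) = {u} := by
    ext w
    simp only [Finset.mem_filter, Finset.mem_univ, true_and, Finset.mem_singleton]
    constructor
    · rintro ⟨h2, h3⟩
      by_contra h4
      exact hcon w h4 h2 h3
    · rintro rfl
      exact ⟨huv.symm, tmOn_swap hf⟩
  rw [h1, Finset.card_singleton] at h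
  exact absurd h (by decide)

private lemma tm_tri {G : SimpleGraph V} {l r : Sym2 V → Φ} (c : TmCtx G l r) {u v : V} {f : Φ}
    (huv : G.Adj u v) (hf : tmOn l r f s(u, v)) : ∃ w, TmTri G l r f u v w := by
  obtain ⟨w, hwu, hvw, fvw⟩ := tm_next c huv hf
  obtain ⟨x, hxv, hwx, fwx⟩ := tm_next c hvw fvw
  have h3 : 3 ≤ Fintype.card V := by
    have := c.h4
    omega
  have hx : x = u := face_closes G c.hmax h3 l r c.hd f u v w x huv hvw hwx hf fvw fwx hwu.symm
    hxv.symm
  subst hx
  exact ⟨w, huv, hvw, hwx, hf, fvw, fwx⟩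

private lemma tm_at {G : SimpleGraph V} {l r : Sym2 V → Φ} (c : TmCtx G l r) {f : Φ} {u v w : V}
    (h : TmTri G l r f u v w) {x : V} (hx : G.Adj v x) (fx : tmOn l r f s(v, x)) :
    x = u ∨ x = w := by
  by_cases hxu : x = u
  · exact Or.inl hxu
  · right
    have h3 : 3 ≤ Fintype.card V := by
      have := c.h4
      omega
    exact (face_closes G c.hmax h3 l r c.hd f x v u w hx.symm h.huv.symm h.hwu.symm (tmOn_swap fx)
      (tmOn_swap h.fuv) (tmOn_swap h.fwu) hxu h.hvw.ne).symm

private lemma tm_reach {G : SimpleGraph V} {l r : Sym2 V → Φ} (c : TmCtx G l r) (Z : Set V)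
    (hZ : ∀ v ∈ Z, ∀ w, G.Adj v w → w ∈ Z) {a : V} (ha : a ∈ Z) (b : V) : b ∈ Z := by
  classical
  obtain ⟨x, hx⟩ : ∃ x, x ∉ ({a, b} : Finset V) := by
    by_contra hcon
    push Not at hcon
    have h1 : (Finset.univ : Finset V) ⊆ {a, b} := fun x _ => hcon x
    have h2 := Finset.card_le_card h1
    have h3 : ({a, b} : Finset V).card ≤ 2 := Finset.card_le_two
    have h4 := c.h4
    rw [Finset.card_univ] at h2
    omega
  simp only [Finset.mem_insert, Finset.mem_singleton, not_or] at hx
  have hax : a ∈ {w | w ≠ x} := fun h => hx.1 h.symm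
  have hbx : b ∈ {w | w ≠ x} := fun h => hx.2 h.symm
  obtain ⟨p⟩ := edgeMax_conn G c.hmax x ⟨a, hax⟩ ⟨b, hbx⟩
  have key : ∀ {p q : {w : V | w ≠ x}} (_ : (G.induce {w | w ≠ x}).Walk p q),
      p.1 ∈ Z → q.1 ∈ Z := by
    intro p q w
    induction w with
    | nil => exact id
    | cons hadj _ ih =>
      intro hp
      exact ih (hZ _ hp _ hadj)
  exact key p ha

private lemma tm_sum (a b v : V) (hab : a ≠ b) :
    ∑ w, (if s(v, w) = s(a, b) then (1 : ZMod 2) else 0) =
      (if v = a then 1 else 0) + (if v = b then 1 else 0) := by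
  by_cases h1 : v = a
  · subst h1
    have h2 : ∀ w, (if s(v, w) = s(v, b) then (1 : ZMod 2) else 0) = if w = b then 1 else 0 := by
      intro w
      have : s(v, w) = s(v, b) ↔ w = b := by
        rw [Sym2.eq_iff]
        constructor
        · rintro (h | h)
          · exact h.2
          · exact absurd h.1 hab
        · intro h
          exact Or.inl ⟨rfl, h⟩
      simp only [this]
    simp_rw [h2]
    simp [hab]
  · by_cases h3 : v = b
    · subst h3
      have h2 : ∀ w, (if s(v, w) = s(a, v) then (1 : ZMod 2) else 0) = if w = a then 1 else 0 := by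
        intro w
        have : s(v, w) = s(a, v) ↔ w = a := by
          rw [Sym2.eq_iff]
          constructor
          · rintro (h | h)
            · exact absurd h.1 h1
            · exact h.2
          · intro h
            exact Or.inr ⟨rfl, h⟩
        simp only [this]
      simp_rw [h2]
      simp [h1]
    · have h2 : ∀ w, (if s(v, w) = s(a, b) then (1 : ZMod 2) else 0) = 0 := by
        intro w
        rw [if_neg]
        rw [Sym2.eq_iff]
        rintro (h | h)
        · exact h1 h.1
        · exact h3 h.1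
      simp_rw [h2]
      simp [h1, h3]

private lemma tm_z2 (z : ZMod 2) : z = 0 ∨ z = 1 := by
  revert z
  decide

private lemma tm_z2_add {a b : ZMod 2} (h : a + b = 0) : a = b := by
  revert a b
  decide

private lemma tm_star {G : SimpleGraph V} {l r : Sym2 V → Φ} (c : TmCtx G l r) {f : Φ} {u v w : V}
    (h : TmTri G l r f u v w) (y : Φ → ZMod 2) (hyf : y f = 0)
    (h1 : y (l s(u, v)) + y (r s(u, v)) = 1) (h2 : y (l s(v, w)) + y (r s(v, w)) = 1)
    (h0 : ∀ x, G.Adj v x → x ≠ u → x ≠ w → y (l s(v, x)) + y (r s(v, x)) = 0) :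
    ∀ x, G.Adj v x → x ≠ u → x ≠ w → y (l s(v, x)) = 1 := by
  classical
  set S : Finset V := Finset.univ.filter
    (fun x => G.Adj v x ∧ (x = u ∨ x = w ∨ y (l s(v, x)) = 1)) with hS
  have hmem : ∀ x, x ∈ S ↔ G.Adj v x ∧ (x = u ∨ x = w ∨ y (l s(v, x)) = 1) := by
    intro x
    simp [hS]
  -- a face with `y = 0` of an edge of the triangle is `f`
  have hface : ∀ e : Sym2 V, tmOn l r f e → y (l e) + y (r e) = 1 → ∀ g, tmOn l r g e → y g = 0 →
      g = f := by
    intro e hfe he g hge hyg
    rcases hfe with hf | hf <;> rcases hge with hg | hg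
    · rw [hf, hg]
    · exfalso
      rw [← hf, ← hg, hyf, hyg] at he
      simp at he
    · exfalso
      rw [← hf, ← hg, hyf, hyg] at he
      simp at he
    · rw [hf, hg]
  have hne : S.Nonempty := ⟨u, (hmem u).mpr ⟨h.huv.symm, Or.inl rfl⟩⟩
  have hall := tm_conn c v S (fun x hx => ((hmem x).mp hx).1) hne (by
    intro g
    rcases tm_z2 (y g) with hg | hg
    · by_cases hgf : g = f
      · have h5 : S.filter (fun x => tmOn l r g s(v, x)) = {u, w} := by
          ext x
          simp only [Finset.mem_filter, hmem, Finset.mem_insert, Finset.mem_singleton]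
          constructor
          · rintro ⟨⟨h6, h7⟩, h8⟩
            rw [hgf] at h8
            exact tm_at c h h6 h8
          · rintro (rfl | rfl)
            · exact ⟨⟨h.huv.symm, Or.inl rfl⟩, by rw [hgf]; exact tmOn_swap h.fuv⟩
            · exact ⟨⟨h.hvw, Or.inr (Or.inl rfl)⟩, by rw [hgf]; exact h.fvw⟩
        rw [h5, Finset.card_pair h.hwu.ne.symm]
        decide
      · have h5 : S.filter (fun x => tmOn l r g s(v, x)) = ∅ := by
          ext x
          simp only [Finset.mem_filter, hmem, Finset.notMem_empty, iff_false]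
          rintro ⟨⟨h6, h7⟩, h8⟩
          by_cases hxu : x = u
          · subst hxu
            exact hgf (hface s(x, v) h.fuv h1 g (tmOn_swap h8) hg)
          · by_cases hxw : x = w
            · subst hxw
              exact hgf (hface s(v, x) h.fvw h2 g h8 hg)
            · have h9 : y (l s(v, x)) = 1 := by
                rcases h7 with h7 | h7 | h7
                · exact absurd h7 hxu
                · exact absurd h7 hxw
                · exact h7
              have h10 := tm_z2_add (h0 x h6 hxu hxw)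
              rcases h8 with h8 | h8
              · rw [← h8, hg] at h9
                exact absurd h9 (by decide)
              · rw [h9, ← h8, hg] at h10
                exact absurd h10 (by decide)
        rw [h5, Finset.card_empty]
        decide
    · have h5 : S.filter (fun x => tmOn l r g s(v, x)) =
          Finset.univ.filter (fun x => G.Adj v x ∧ tmOn l r g s(v, x)) := by
        ext x
        simp only [Finset.mem_filter, hmem, Finset.mem_univ, true_and]
        constructor
        · rintro ⟨⟨h6, h7⟩, h8⟩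
          exact ⟨h6, h8⟩
        · rintro ⟨h6, h8⟩
          refine ⟨⟨h6, ?_⟩, h8⟩
          by_cases hxu : x = u
          · exact Or.inl hxu
          · by_cases hxw : x = w
            · exact Or.inr (Or.inl hxw)
            · right; right
              have h10 := tm_z2_add (h0 x h6 hxu hxw)
              rcases h8 with h8 | h8
              · rw [← h8]; exact hg
              · rw [h10, ← h8]; exact hg
      rw [h5]
      exact tm_even c v g)
  intro x hx hxu hxw
  rcases ((hmem x).mp (hall x hx)).2 with h7 | h7 | h7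
  · exact absurd h7 hxu
  · exact absurd h7 hxw
  · exact h7

private lemma tm_star' {G : SimpleGraph V} {l r : Sym2 V → Φ} (c : TmCtx G l r) {v : V}
    (y : Φ → ZMod 2) (h0 : ∀ x, G.Adj v x → y (l s(v, x)) + y (r s(v, x)) = 0)
    {w : V} (hw : G.Adj v w) (hyw : y (l s(v, w)) = 1) :
    ∀ x, G.Adj v x → y (l s(v, x)) = 1 := by
  classical
  set S : Finset V := Finset.univ.filter (fun x => G.Adj v x ∧ y (l s(v, x)) = 1) with hS
  have hmem : ∀ x, x ∈ S ↔ G.Adj v x ∧ y (l s(v, x)) = 1 := by
    intro x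
    simp [hS]
  have hall := tm_conn c v S (fun x hx => ((hmem x).mp hx).1) ⟨w, (hmem w).mpr ⟨hw, hyw⟩⟩ (by
    intro g
    rcases tm_z2 (y g) with hg | hg
    · have h5 : S.filter (fun x => tmOn l r g s(v, x)) = ∅ := by
        ext x
        simp only [Finset.mem_filter, hmem, Finset.notMem_empty, iff_false]
        rintro ⟨⟨h6, h9⟩, h8⟩
        have h10 := tm_z2_add (h0 x h6)
        rcases h8 with h8 | h8
        · rw [← h8, hg] at h9
          exact absurd h9 (by decide)
        · rw [h9, ← h8, hg] at h10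
          exact absurd h10 (by decide)
      rw [h5, Finset.card_empty]
      decide
    · have h5 : S.filter (fun x => tmOn l r g s(v, x)) =
          Finset.univ.filter (fun x => G.Adj v x ∧ tmOn l r g s(v, x)) := by
        ext x
        simp only [Finset.mem_filter, hmem, Finset.mem_univ, true_and]
        constructor
        · rintro ⟨⟨h6, h7⟩, h8⟩
          exact ⟨h6, h8⟩
        · rintro ⟨h6, h8⟩
          refine ⟨⟨h6, ?_⟩, h8⟩
          have h10 := tm_z2_add (h0 x h6)
          rcases h8 with h8 | h8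
          · rw [← h8]; exact hg
          · rw [h10, ← h8]; exact hg
      rw [h5]
      exact tm_even c v g)
  intro x hx
  exact ((hmem x).mp (hall x hx)).2

/-- no other edge has the face `f` -/
private lemma tm_far {G : SimpleGraph V} {l r : Sym2 V → Φ} (c : TmCtx G l r) {f : Φ} {u v w : V}
    (h : TmTri G l r f u v w) {a b : V} (hab : G.Adj a b) (fab : tmOn l r f s(a, b)) :
    a = u ∨ a = v ∨ a = w := by
  classical
  by_contra hcon
  push Not at hcon
  obtain ⟨hau, hav, haw⟩ := hcon
  set x : Sym2 V → ZMod 2 := fun e => (if e = s(u, v) then (1 : ZMod 2) else 0) +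
    (if e = s(v, w) then (1 : ZMod 2) else 0) + (if e = s(w, u) then (1 : ZMod 2) else 0) with hx
  have huv := h.huv.ne
  have hvw := h.hvw.ne
  have hwu := h.hwu.ne
  have hx0 : ∀ e, e ∉ G.edgeSet → x e = 0 := by
    intro e he
    simp only [hx]
    rw [if_neg, if_neg, if_neg]
    · simp
    · rintro rfl; exact he h.hwu
    · rintro rfl; exact he h.hvw
    · rintro rfl; exact he h.huv
  have hxe : ∀ z, ∑ t, x s(z, t) = 0 := by
    intro z
    simp only [hx]
    rw [Finset.sum_add_distrib, Finset.sum_add_distrib, tm_sum u v z huv, tm_sum v w z hvw,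
      tm_sum w u z hwu]
    have h2 : ∀ a b c : ZMod 2, a + b + (b + c) + (c + a) = 0 := by decide
    exact h2 _ _ _
  obtain ⟨y₀, hy₀⟩ := (c.hd x hx0).mp hxe
  set y : Φ → ZMod 2 := fun g => y₀ g + y₀ f with hy
  have hyf : y f = 0 := by
    simp only [hy]
    have h2 : ∀ a : ZMod 2, a + a = 0 := by decide
    exact h2 _
  have hye : ∀ e ∈ G.edgeSet, y (l e) + y (r e) = x e := by
    intro e he
    rw [hy₀ e he]
    simp only [hy]
    have h2 : ∀ a b c : ZMod 2, a + c + (b + c) = a + b := by decide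
    exact h2 _ _ _
  -- the values of x
  have x1 : x s(u, v) = 1 := by
    simp only [hx]
    rw [if_pos trivial, if_neg, if_neg]
    · simp
    · rw [Sym2.eq_iff]
      rintro (h2 | h2)
      · exact hwu h2.1.symm
      · exact hvw h2.2
    · rw [Sym2.eq_iff]
      rintro (h2 | h2)
      · exact huv h2.1
      · exact hwu h2.1.symm
  have x2 : x s(v, w) = 1 := by
    simp only [hx]
    rw [if_neg, if_pos trivial, if_neg]
    · simp
    · rw [Sym2.eq_iff]
      rintro (h2 | h2)
      · exact hvw h2.1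
      · exact huv h2.1.symm
    · rw [Sym2.eq_iff]
      rintro (h2 | h2)
      · exact huv h2.1.symm
      · exact hwu h2.2
  have x3 : x s(w, u) = 1 := by
    simp only [hx]
    rw [if_neg, if_neg, if_pos trivial]
    · simp
    · rw [Sym2.eq_iff]
      rintro (h2 | h2)
      · exact hvw h2.1.symm
      · exact huv h2.2
    · rw [Sym2.eq_iff]
      rintro (h2 | h2)
      · exact hwu h2.1
      · exact hvw h2.1.symm
  have xout : ∀ z t, ¬ (s(z, t) = s(u, v)) → ¬ (s(z, t) = s(v, w)) → ¬ (s(z, t) = s(w, u)) →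
      x s(z, t) = 0 := by
    intro z t h2 h3 h4
    simp only [hx]
    rw [if_neg h2, if_neg h3, if_neg h4]
    simp
  have xoff : ∀ z t, z ≠ u → z ≠ v → z ≠ w → x s(z, t) = 0 := by
    intro z t h2 h3 h4
    refine xout z t ?_ ?_ ?_ <;> rw [Sym2.eq_iff] <;> rintro (h5 | h5)
    · exact h2 h5.1
    · exact h3 h5.1
    · exact h3 h5.1
    · exact h4 h5.1
    · exact h4 h5.1
    · exact h2 h5.1
  have e1 : y (l s(u, v)) + y (r s(u, v)) = 1 := by rw [hye _ h.huv, x1]
  have e2 : y (l s(v, w)) + y (r s(v, w)) = 1 := by rw [hye _ h.hvw, x2]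
  have e3 : y (l s(w, u)) + y (r s(w, u)) = 1 := by rw [hye _ h.hwu, x3]
  have sv := tm_star c h y hyf e1 e2 (by
    intro t ht htu htw
    rw [hye s(v, t) ht]
    refine xout v t ?_ ?_ ?_ <;> rw [Sym2.eq_iff] <;> rintro (h5 | h5)
    · exact huv h5.1.symm
    · exact htu h5.2
    · exact htw h5.2
    · exact hvw h5.1
    · exact hvw h5.1
    · exact huv h5.1.symm)
  have sw := tm_star c h.rot y hyf e2 e3 (by
    intro t ht htv htu
    rw [hye s(w, t) ht]
    refine xout w t ?_ ?_ ?_ <;> rw [Sym2.eq_iff] <;> rintro (h5 | h5)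
    · exact hwu h5.1
    · exact hvw h5.1.symm
    · exact hvw h5.1.symm
    · exact htv h5.2
    · exact htu h5.2
    · exact hwu h5.1)
  have su := tm_star c h.rot.rot y hyf e3 e1 (by
    intro t ht htw htv
    rw [hye s(u, t) ht]
    refine xout u t ?_ ?_ ?_ <;> rw [Sym2.eq_iff] <;> rintro (h5 | h5)
    · exact htv h5.2
    · exact huv h5.1
    · exact huv h5.1
    · exact hwu h5.1.symm
    · exact hwu h5.1.symm
    · exact htw h5.2)
  set Z : Set V := {z | (z ≠ u ∧ z ≠ v ∧ z ≠ w) ∧ ∀ t, G.Adj z t → y (l s(z, t)) = 0} with hZ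
  -- criterion for membership
  have hZcrit : ∀ z t, z ≠ u → z ≠ v → z ≠ w → G.Adj z t → y (l s(z, t)) = 0 → z ∈ Z := by
    intro z t h2 h3 h4 hzt hy0
    refine ⟨⟨h2, h3, h4⟩, fun t' ht' => ?_⟩
    rcases tm_z2 (y (l s(z, t'))) with h5 | h5
    · exact h5
    · exfalso
      have h6 := tm_star' c (v := z) y (fun q hq => by
        rw [hye s(z, q) hq]
        exact xoff z q h2 h3 h4) ht' h5 t hzt
      rw [hy0] at h6
      exact absurd h6 (by decide)
  have haZ : a ∈ Z := by
    refine hZcrit a b hau hav haw hab ?_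
    have h5 : y (l s(a, b)) + y (r s(a, b)) = 0 := by
      rw [hye s(a, b) hab]
      exact xoff a b hau hav haw
    rcases fab with h6 | h6
    · rw [← h6]; exact hyf
    · rw [tm_z2_add h5, ← h6]; exact hyf
  have hclosed : ∀ z ∈ Z, ∀ t, G.Adj z t → t ∈ Z := by
    rintro z ⟨⟨h2, h3, h4⟩, h5⟩ t hzt
    have h6 := h5 t hzt
    have h7 : y (l s(t, z)) = 0 := by
      rw [Sym2.eq_swap]; exact h6
    have htu : t ≠ u := by
      rintro rfl
      rw [su z hzt.symm h4 h3] at h7
      exact absurd h7 (by decide)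
    have htv : t ≠ v := by
      rintro rfl
      rw [sv z hzt.symm h2 h4] at h7
      exact absurd h7 (by decide)
    have htw : t ≠ w := by
      rintro rfl
      rw [sw z hzt.symm h3 h2] at h7
      exact absurd h7 (by decide)
    exact hZcrit t z htu htv htw hzt.symm h7
  have := tm_reach c Z hclosed haZ u
  exact this.1.1 rfl

/-- two faces do not have the same triangle: one vertex -/
private lemma tm_two {G : SimpleGraph V} {l r : Sym2 V → Φ} (c : TmCtx G l r) {f g : Φ}
    {u v w : V} (hf : TmTri G l r f u v w) (hg : TmTri G l r g u v w) (hfg : f ≠ g) :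
    ∀ x, G.Adj v x → x = u ∨ x = w := by
  classical
  have hface : ∀ e : Sym2 V, tmOn l r f e → tmOn l r g e → ∀ k, tmOn l r k e → k = f ∨ k = g := by
    intro e h1 h2 k h3
    rcases h1 with h1 | h1 <;> rcases h2 with h2 | h2 <;> rcases h3 with h3 | h3
    · exact Or.inl (h3.trans h1.symm)
    · exact absurd (h1.trans h2.symm) hfg
    · exact Or.inl (h3.trans h1.symm)
    · exact Or.inr (h3.trans h2.symm)
    · exact Or.inr (h3.trans h2.symm)
    · exact Or.inl (h3.trans h1.symm)
    · exact absurd (h1.trans h2.symm) hfg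
    · exact Or.inl (h3.trans h1.symm)
  have hall := tm_conn c v {u, w} (by
    intro x hx
    simp only [Finset.mem_insert, Finset.mem_singleton] at hx
    rcases hx with rfl | rfl
    · exact hf.huv.symm
    · exact hf.hvw) ⟨u, by simp⟩ (by
    intro k
    by_cases hk : k = f ∨ k = g
    · have h5 : ({u, w} : Finset V).filter (fun x => tmOn l r k s(v, x)) = {u, w} := by
        refine Finset.filter_true_of_mem ?_
        intro x hx
        simp only [Finset.mem_insert, Finset.mem_singleton] at hx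
        rcases hx with rfl | rfl <;> rcases hk with rfl | rfl
        · exact tmOn_swap hf.fuv
        · exact tmOn_swap hg.fuv
        · exact hf.fvw
        · exact hg.fvw
      rw [h5, Finset.card_pair hf.hwu.ne.symm]
      decide
    · have h5 : ({u, w} : Finset V).filter (fun x => tmOn l r k s(v, x)) = ∅ := by
        refine Finset.filter_false_of_mem ?_
        intro x hx h6
        simp only [Finset.mem_insert, Finset.mem_singleton] at hx
        rcases hx with rfl | rfl
        · exact hk (hface _ (tmOn_swap hf.fuv) (tmOn_swap hg.fuv) k h6)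
        · exact hk (hface _ hf.fvw hg.fvw k h6)
      rw [h5, Finset.card_empty]
      decide)
  intro x hx
  have := hall x hx
  simpa using this

private lemma tm_inj {G : SimpleGraph V} {l r : Sym2 V → Φ} (c : TmCtx G l r) {f g : Φ}
    {u v w : V} (hf : TmTri G l r f u v w) (hg : TmTri G l r g u v w) : f = g := by
  classical
  by_contra hfg
  have h1 := tm_two c hf hg hfg
  have h2 := tm_two c hf.rot hg.rot hfg
  have h3 := tm_two c hf.rot.rot hg.rot.rot hfg
  obtain ⟨x, hx⟩ : ∃ x, x ∉ ({u, v, w} : Finset V) := by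
    by_contra hcon
    push Not at hcon
    have h1 : (Finset.univ : Finset V) ⊆ {u, v, w} := fun x _ => hcon x
    have h2 := Finset.card_le_card h1
    have h3 : ({u, v, w} : Finset V).card ≤ 3 := Finset.card_le_three
    have h4 := c.h4
    rw [Finset.card_univ] at h2
    omega
  have h4 := tm_reach c {z | z = u ∨ z = v ∨ z = w} (by
    rintro z (rfl | rfl | rfl) t ht
    · rcases h3 t ht with h | h
      · exact Or.inr (Or.inr h)
      · exact Or.inr (Or.inl h)
    · rcases h1 t ht with h | h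
      · exact Or.inl h
      · exact Or.inr (Or.inr h)
    · rcases h2 t ht with h | h
      · exact Or.inr (Or.inl h)
      · exact Or.inl h) (a := u) (Or.inl rfl) x
  simp only [Finset.mem_insert, Finset.mem_singleton, not_or] at hx
  rcases h4 with h | h | h
  · exact hx.1 h
  · exact hx.2.1 h
  · exact hx.2.2 h

open Classical in
/-- the vertices of a face -/
private noncomputable def tmTau (G : SimpleGraph V) (l r : Sym2 V → Φ) (f : Φ) : Finset V :=
  Finset.univ.filter (fun v => ∃ w, G.Adj v w ∧ tmOn l r f s(v, w))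

private lemma tm_mem_tau {G : SimpleGraph V} {l r : Sym2 V → Φ} {f : Φ} {v : V} :
    v ∈ tmTau G l r f ↔ ∃ w, G.Adj v w ∧ tmOn l r f s(v, w) := by
  simp [tmTau]

private lemma tm_tau {G : SimpleGraph V} {l r : Sym2 V → Φ} (c : TmCtx G l r) {f : Φ} {u v w : V}
    (h : TmTri G l r f u v w) : tmTau G l r f = {u, v, w} := by
  ext a
  rw [tm_mem_tau]
  simp only [Finset.mem_insert, Finset.mem_singleton]
  constructor
  · rintro ⟨b, hab, fab⟩
    exact tm_far c h hab fab
  · rintro (rfl | rfl | rfl)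
    · exact ⟨v, h.huv, h.fuv⟩
    · exact ⟨w, h.hvw, h.fvw⟩
    · exact ⟨u, h.hwu, h.fwu⟩

private lemma tm_mem_iff {G : SimpleGraph V} {l r : Sym2 V → Φ} (c : TmCtx G l r) {f : Φ}
    {u v : V} (huv : u ≠ v) :
    (u ∈ tmTau G l r f ∧ v ∈ tmTau G l r f) ↔ (G.Adj u v ∧ tmOn l r f s(u, v)) := by
  constructor
  · rintro ⟨h1, h2⟩
    obtain ⟨w, huw, fuw⟩ := tm_mem_tau.mp h1
    obtain ⟨x, hx⟩ := tm_tri c huw fuw
    rw [tm_tau c hx] at h2
    simp only [Finset.mem_insert, Finset.mem_singleton] at h2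
    rcases h2 with h2 | h2 | h2
    · exact absurd h2.symm huv
    · rw [h2]
      exact ⟨huw, fuw⟩
    · rw [h2]
      exact ⟨hx.hwu.symm, tmOn_swap hx.fwu⟩
  · rintro ⟨h1, h2⟩
    exact ⟨tm_mem_tau.mpr ⟨v, h1, h2⟩, tm_mem_tau.mpr ⟨u, h1.symm, tmOn_swap h2⟩⟩

private lemma tm_tau_inj {G : SimpleGraph V} {l r : Sym2 V → Φ} (c : TmCtx G l r) {f g : Φ}
    {u v : V} (huv : G.Adj u v) (fuv : tmOn l r f s(u, v))
    (h : tmTau G l r f = tmTau G l r g) : f = g := by
  obtain ⟨w, hw⟩ := tm_tri c huv fuv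
  have h1 : u ∈ tmTau G l r g ∧ v ∈ tmTau G l r g := by
    rw [← h, tm_mem_iff c huv.ne]
    exact ⟨huv, fuv⟩
  have h2 : v ∈ tmTau G l r g ∧ w ∈ tmTau G l r g := by
    rw [← h, tm_mem_iff c hw.hvw.ne]
    exact ⟨hw.hvw, hw.fvw⟩
  have h3 : w ∈ tmTau G l r g ∧ u ∈ tmTau G l r g := by
    rw [← h, tm_mem_iff c hw.hwu.ne]
    exact ⟨hw.hwu, hw.fwu⟩
  have g1 := (tm_mem_iff c huv.ne).mp h1
  have g2 := (tm_mem_iff c hw.hvw.ne).mp h2
  have g3 := (tm_mem_iff c hw.hwu.ne).mp h3
  exact tm_inj c hw ⟨g1.1, g2.1, g3.1, g1.2, g2.2, g3.2⟩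

end TriOfMax

/-- B7: an edge-maximal graph with at least 4 vertices is a triangulation -/
theorem edgeMax_isTri {V : Type} [Fintype V] [DecidableEq V] (G : SimpleGraph V) (h : EdgeMax G)
    (h4 : 4 ≤ Fintype.card V) :
    ∃ F : Finset (Finset V), IsTri F ∧ triGraph F = G ∧ ∀ v, ∃ f ∈ F, v ∈ f := by
  classical
  obtain ⟨Φ, l, r, hd⟩ := h.1
  rw [isDual_iff] at hd
  have c : TmCtx G l r := ⟨h, hd, h4⟩
  -- every vertex has a neighbour
  have hnb : ∀ v, ∃ w, G.Adj v w := by
    intro v
    by_contra hcon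
    push Not at hcon
    have h1 := tm_reach c {v} (by
      rintro z hz t ht
      rw [Set.mem_singleton_iff] at hz
      subst hz
      exact absurd ht (hcon t)) (a := v) rfl
    have h2 : Fintype.card V ≤ 1 := by
      rw [Fintype.card_le_one_iff]
      intro a b
      rw [h1 a, h1 b]
    omega
  set F : Finset (Finset V) := Finset.univ.filter
    (fun T => ∃ (f : Φ) (u v : V), G.Adj u v ∧ tmOn l r f s(u, v) ∧ tmTau G l r f = T) with hF
  have hmem : ∀ T, T ∈ F ↔ ∃ (f : Φ) (u v : V), G.Adj u v ∧ tmOn l r f s(u, v) ∧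
      tmTau G l r f = T := by
    intro T
    simp [hF]
  have hadj : ∀ u v, (triGraph F).Adj u v ↔ G.Adj u v := by
    intro u v
    constructor
    · rintro ⟨huv, T, hT, h1, h2⟩
      obtain ⟨f, a, b, -, -, rfl⟩ := (hmem T).mp hT
      exact ((tm_mem_iff c huv).mp ⟨h1, h2⟩).1
    · intro huv
      have h1 := (tm_mem_iff c (f := l s(u, v)) huv.ne).mpr ⟨huv, Or.inl rfl⟩
      exact ⟨huv.ne, _, (hmem _).mpr ⟨l s(u, v), u, v, huv, Or.inl rfl, rfl⟩, h1.1, h1.2⟩
  have hG : triGraph F = G := by
    ext u v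
    exact hadj u v
  have hcov : ∀ v, ∃ f ∈ F, v ∈ f := by
    intro v
    obtain ⟨w, hw⟩ := hnb v
    refine ⟨_, (hmem _).mpr ⟨l s(v, w), v, w, hw, Or.inl rfl, rfl⟩, ?_⟩
    exact tm_mem_tau.mpr ⟨w, hw, Or.inl rfl⟩
  -- the faces at an edge
  have hat : ∀ u v, G.Adj u v → ∀ T, (T ∈ F ∧ u ∈ T ∧ v ∈ T) ↔
      (T = tmTau G l r (l s(u, v)) ∨ T = tmTau G l r (r s(u, v))) := by
    intro u v huv T
    constructor
    · rintro ⟨hT, h1, h2⟩
      obtain ⟨f, a, b, -, -, rfl⟩ := (hmem T).mp hT
      rcases ((tm_mem_iff c huv.ne).mp ⟨h1, h2⟩).2 with h3 | h3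
      · left; rw [h3]
      · right; rw [h3]
    · rintro (rfl | rfl)
      · exact ⟨(hmem _).mpr ⟨l s(u, v), u, v, huv, Or.inl rfl, rfl⟩,
          (tm_mem_iff c huv.ne).mpr ⟨huv, Or.inl rfl⟩⟩
      · exact ⟨(hmem _).mpr ⟨r s(u, v), u, v, huv, Or.inr rfl, rfl⟩,
          (tm_mem_iff c huv.ne).mpr ⟨huv, Or.inr rfl⟩⟩
  have htne : ∀ u v, G.Adj u v → tmTau G l r (l s(u, v)) ≠ tmTau G l r (r s(u, v)) := by
    intro u v huv hcon
    exact tm_ne c huv (tm_tau_inj c huv (Or.inl rfl) hcon)
  refine ⟨F, ⟨?_, ?_, ?_, ?_, ?_⟩, hG, hcov⟩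
  · -- nonempty
    have hV : Nonempty V := by
      rw [← Fintype.card_pos_iff]
      omega
    obtain ⟨v⟩ := hV
    obtain ⟨f, hf, -⟩ := hcov v
    exact ⟨f, hf⟩
  · -- card 3
    intro T hT
    obtain ⟨f, u, v, huv, fuv, rfl⟩ := (hmem T).mp hT
    obtain ⟨w, hw⟩ := tm_tri c huv fuv
    rw [tm_tau c hw, Finset.card_eq_three]
    exact ⟨u, v, w, huv.ne, hw.hwu.ne.symm, hw.hvw.ne, rfl⟩
  · -- two faces at every edge
    intro u v huv
    rw [hadj] at huv
    have h1 : F.filter (fun f => u ∈ f ∧ v ∈ f) =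
        {tmTau G l r (l s(u, v)), tmTau G l r (r s(u, v))} := by
      ext T
      rw [Finset.mem_filter, Finset.mem_insert, Finset.mem_singleton]
      exact hat u v huv T
    rw [h1, Finset.card_pair (htne u v huv)]
  · -- jordan
    intro x hx0 hxe
    rw [hG] at hx0
    obtain ⟨y, hy⟩ := (hd x hx0).mp hxe
    set Y : Finset (Finset V) := F.filter
      (fun T => ∃ (f : Φ) (u v : V), G.Adj u v ∧ tmOn l r f s(u, v) ∧ tmTau G l r f = T ∧
        y f = 1) with hY
    have hYm : ∀ (f : Φ) (u v : V), G.Adj u v → tmOn l r f s(u, v) →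
        (tmTau G l r f ∈ Y ↔ y f = 1) := by
      intro f u v huv fuv
      rw [hY, Finset.mem_filter]
      constructor
      · rintro ⟨-, g, a, b, hab, gab, h1, h2⟩
        have h3 : g = f := tm_tau_inj c hab gab h1
        rw [← h3]
        exact h2
      · intro h1
        exact ⟨(hmem _).mpr ⟨f, u, v, huv, fuv, rfl⟩, f, u, v, huv, fuv, rfl, h1⟩
    refine ⟨Y, Finset.filter_subset _ _, ?_⟩
    intro u v huv
    by_cases hG' : G.Adj u v
    · rw [hy s(u, v) hG']
      have h1 : Y.filter (fun f => u ∈ f ∧ v ∈ f) =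
          ({tmTau G l r (l s(u, v)), tmTau G l r (r s(u, v))} : Finset (Finset V)).filter
            (fun T => T ∈ Y) := by
        ext T
        constructor
        · intro hT
          obtain ⟨h2, h3⟩ := Finset.mem_filter.mp hT
          refine Finset.mem_filter.mpr ⟨?_, h2⟩
          rw [Finset.mem_insert, Finset.mem_singleton]
          exact (hat u v hG' T).mp ⟨(Finset.mem_filter.mp h2).1, h3⟩
        · intro hT
          obtain ⟨h2, h3⟩ := Finset.mem_filter.mp hT
          rw [Finset.mem_insert, Finset.mem_singleton] at h2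
          exact Finset.mem_filter.mpr ⟨h3, ((hat u v hG' T).mpr h2).2⟩
      rw [h1, Finset.filter_insert, Finset.filter_singleton]
      have a1 := hYm (l s(u, v)) u v hG' (Or.inl rfl)
      have a2 := hYm (r s(u, v)) u v hG' (Or.inr rfl)
      have a3 := htne u v hG'
      rcases tm_z2 (y (l s(u, v))) with b1 | b1 <;> rcases tm_z2 (y (r s(u, v))) with b2 | b2
      · rw [if_neg (by rw [a1, b1]; decide), if_neg (by rw [a2, b2]; decide), b1, b2]
        simp
      · rw [if_neg (by rw [a1, b1]; decide), if_pos (by rw [a2, b2]), b1, b2]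
        simp
      · rw [if_pos (by rw [a1, b1]), if_neg (by rw [a2, b2]; decide), b1, b2]
        simp
      · rw [if_pos (by rw [a1, b1]), if_pos (by rw [a2, b2]), b1, b2, Finset.card_pair a3]
        decide
    · rw [hx0 s(u, v) hG']
      have h1 : Y.filter (fun f => u ∈ f ∧ v ∈ f) = ∅ := by
        refine Finset.filter_false_of_mem ?_
        rintro T hT ⟨h2, h3⟩
        obtain ⟨f, a, b, -, -, rfl⟩ := (hmem T).mp (Finset.mem_filter.mp hT).1
        exact hG' ((tm_mem_iff c huv).mp ⟨h2, h3⟩).1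
      rw [h1]
      simp
  · -- connected
    intro v
    have h1 : {w : V | w ≠ v ∧ ∃ f ∈ F, w ∈ f} = {w | w ≠ v} := by
      ext w
      exact ⟨fun hw => hw.1, fun hw => ⟨hw, hcov w⟩⟩
    rw [h1, hG]
    exact edgeMax_conn G h v

end Pool.Agent.OQP
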